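import Pool.Agent.H93.EGM.Loc
import Pool.Agent.H93.EGM.Weak

/-!
# Basic notions; no measurable set is its own opposite
-/

set_option autoImplicit false

namespace Pool.Agent.H79.TM

/-!
# Two triangles with two common sides: basic definitions of the measurable part

Notation of the note H79_TwoSides.md.  `c t = exp (2 π i t)`, `t` in the circle `UnitAddCircle`
(`Pool.Agent.H93.EG.c`).  Colours are `e : Bool`, `se true = 1`, `se false = -1`.  `a`, `b` are the two
common sides, `g e` is the angle (in turns) between the sides `a` and `b` of the triangle which is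
missing in colour `e`.
-/

section GBPart

open MeasureTheory Filter Topology Pool.Agent.H93.EG

/-- Sign of a colour. -/
def se (e : Bool) : ℝ := if e then 1 else -1

/-- The six types: the triangle has vertices `x`, `x + c t * p`, `x + c t * q`, and `x` is the vertex
between the sides `a`, `b` (types 0, 1), the other end of `a` (2, 3), the other end of `b` (4, 5). -/
noncomputable def ty (a b : ℝ) (g : UnitAddCircle) : Fin 6 → ℂ × ℂ
  | 0 => ((a : ℂ), (b : ℂ) * c g)
  | 1 => ((a : ℂ), (b : ℂ) * c (-g))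
  | 2 => (-(a : ℂ), (b : ℂ) * c g - a)
  | 3 => (-(a : ℂ), (b : ℂ) * c (-g) - a)
  | 4 => (-((b : ℂ) * c g), (a : ℂ) - b * c g)
  | 5 => (-((b : ℂ) * c (-g)), (a : ℂ) - b * c (-g))

/-- The third side. -/
noncomputable def cc (a b : ℝ) (g : UnitAddCircle) : ℝ := ‖(b : ℂ) * c g - a‖

/-- The constraint of colour `e` holds at `y` for almost every rotation. -/
def R (a b : ℝ) (g : Bool → UnitAddCircle) (u : ℂ → ℝ) (e : Bool) (y : ℂ) : Prop :=
  ∀ i : Fin 6, ∀ᵐ s : UnitAddCircle,
    se e * (u (y + c s * (ty a b (g e) i).1) + u (y + c s * (ty a b (g e) i).2)) ≤ 0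

/-- Both constraints hold at `y`. -/
def Y (a b : ℝ) (g : Bool → UnitAddCircle) (u : ℂ → ℝ) (y : ℂ) : Prop :=
  R a b g u true y ∧ R a b g u false y

/-- The function `u` is almost everywhere equal to `χ` on the circle of radius `r` around `y`. -/
def Cc (u : ℂ → ℝ) (y : ℂ) (r χ : ℝ) : Prop := ∀ᵐ t : UnitAddCircle, u (y + c t * r) = χ

/-- The setting: sides `a, b`, angles `g true`, `g false` (one of them of infinite order, the third sides
not zero), a measurable function `u` with values in `{1, -1, 0}`, not almost everywhere zero,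
satisfying the two families of constraints. -/
structure Cfg (a b : ℝ) (g : Bool → UnitAddCircle) (u : ℂ → ℝ) : Prop where
  ha : 0 < a
  hb : 0 < b
  hcc : ∀ e, 0 < cc a b (g e)
  erg : ∃ e, ∀ n : ℕ, 0 < n → n • g e ≠ 0
  meas : Measurable u
  val : ∀ x, u x = 1 ∨ u x = -1 ∨ u x = 0
  con : ∀ e : Bool, ∀ᵐ x : ℂ, 0 ≤ se e * u x → R a b g u e x
  nz : ¬ ∀ᵐ x : ℂ, u x = 0

/-- The largest open set on which `u` is almost everywhere `se e`. -/
def U (u : ℂ → ℝ) (e : Bool) : Set ℂ := locSet u (se e)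

/-- The boundary set. -/
def Z (u : ℂ → ℝ) : Set ℂ := {x | x ∉ U u true ∧ x ∉ U u false}

/-- The points whose circles of radius `a`, `b`, `cc` avoid the open sets as indicated. -/
def W (a b : ℝ) (g : Bool → UnitAddCircle) (u : ℂ → ℝ) (κ : Bool) : Set ℂ :=
  {x | (∀ z : ℂ, ‖z - x‖ = a → z ∉ U u (!κ)) ∧ (∀ z : ℂ, ‖z - x‖ = b → z ∉ U u κ) ∧
    ∀ (e : Bool) (z : ℂ), ‖z - x‖ = cc a b (g e) → z ∉ U u e}

theorem U_open (u : ℂ → ℝ) (e : Bool) : IsOpen (U u e) := locSet_open u (se e)

theorem Z_closed (u : ℂ → ℝ) : IsClosed (Z u) := by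
  have : Z u = (U u true ∪ U u false)ᶜ := by
    ext x
    simp [Z]
  rw [this]
  exact ((U_open u true).union (U_open u false)).isClosed_compl

theorem se_mul_self (e : Bool) : se e * se e = 1 := by
  cases e <;> norm_num [se]

theorem se_not (e : Bool) : se (!e) = - se e := by
  cases e <;> norm_num [se]

theorem se_cases (e : Bool) : se e = 1 ∨ se e = -1 := by
  cases e <;> norm_num [se]

theorem U_disj (u : ℂ → ℝ) (e : Bool) (x : ℂ) (h : x ∈ U u e) (h' : x ∈ U u (!e)) : False := by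
  obtain ⟨r, hr, h1⟩ := h
  obtain ⟨r', hr', h2⟩ := h'
  have h3 : ∀ᵐ z : ℂ, z ∉ Metric.ball x (min r r') := by
    filter_upwards [h1, h2] with z hz hz' hm
    have e1 := hz (Metric.ball_subset_ball (min_le_left _ _) hm)
    have e2 := hz' (Metric.ball_subset_ball (min_le_right _ _) hm)
    rw [e1, se_not] at e2
    have := se_mul_self e
    have h0 : se e = 0 := by linarith
    rw [h0] at this
    norm_num at this
  have h4 : volume (Metric.ball x (min r r')) = 0 := by
    rw [ae_iff] at h3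
    have e0 : {z : ℂ | ¬ z ∉ Metric.ball x (min r r')} = Metric.ball x (min r r') := by
      ext z
      exact not_not
    rwa [e0] at h3
  exact (Metric.measure_ball_pos volume x (lt_min hr hr')).ne' h4

/-- Almost every point of `U u e` has the value `se e`. -/
theorem U_ae (u : ℂ → ℝ) (e : Bool) : ∀ᵐ x : ℂ, x ∈ U u e → u x = se e := by
  rw [ae_iff]
  refine measure_null_of_locally_null _ (fun x0 hx0 => ?_)
  have hU : x0 ∈ U u e := by
    by_contra hn
    exact hx0 fun h => absurd h hn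
  obtain ⟨r, hr, h⟩ := hU
  refine ⟨{x | ¬ (x ∈ U u e → u x = se e)} ∩ Metric.ball x0 r, ?_, ?_⟩
  · exact inter_mem_nhdsWithin _ (Metric.ball_mem_nhds x0 hr)
  · rw [ae_iff] at h
    refine measure_mono_null ?_ h
    rintro x ⟨hx, hxb⟩ hh
    exact hx fun _ => hh hxb

/-- A point outside `U u e` has points of a non-null set with `u ≠ se e` in every neighbourhood. -/
theorem not_U (u : ℂ → ℝ) (e : Bool) (x : ℂ) (h : x ∉ U u e) (r : ℝ) (hr : 0 < r) :
    ∃ᵐ z : ℂ, z ∈ Metric.ball x r ∧ u z ≠ se e := by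
  rw [Filter.Frequently]
  intro h1
  apply h
  refine ⟨r, hr, ?_⟩
  filter_upwards [h1] with z hz hm
  by_contra hne
  exact hz ⟨hm, hne⟩

theorem exists_c (v : ℂ) (hv : ‖v‖ = 1) : ∃ s : UnitAddCircle, c s = v := by
  have hmem : v ∈ Submonoid.unitSphere ℂ := mem_sphere_zero_iff_norm.mpr hv
  obtain ⟨s, hs⟩ := (AddCircle.homeomorphCircle (T := 1) one_ne_zero).surjective (⟨v, hmem⟩ : Circle)
  refine ⟨s, ?_⟩
  unfold c
  rw [← AddCircle.homeomorphCircle_apply one_ne_zero, hs]

/-- A number of absolute value `‖d‖` is `c s * d`. -/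
theorem exists_rot (d d' : ℂ) (hd : ‖d‖ = ‖d'‖) : ∃ s : UnitAddCircle, d' = c s * d := by
  by_cases h0 : d = 0
  · subst h0
    rw [norm_zero] at hd
    exact ⟨0, by rw [norm_eq_zero.mp hd.symm, mul_zero]⟩
  · obtain ⟨s, hs⟩ := exists_c (d' / d) (by
      rw [norm_div, hd, div_self]
      rw [← hd]
      exact norm_ne_zero_iff.mpr h0)
    exact ⟨s, by rw [hs, div_mul_cancel₀ _ h0]⟩

/-- The statements about circles depend only on the radius. -/
theorem ae_rot {P : ℂ → Prop} (y d d' : ℂ) (hd : ‖d‖ = ‖d'‖)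
    (h : ∀ᵐ t : UnitAddCircle, P (y + c t * d)) : ∀ᵐ t : UnitAddCircle, P (y + c t * d') := by
  obtain ⟨s, rfl⟩ := exists_rot d d' hd
  filter_upwards [ae_shift h s] with t ht
  rwa [c_add, mul_assoc] at ht

/-- Every point at distance `‖d‖` from `y` is `y + c t * d`. -/
theorem exists_pt (y d z : ℂ) (hz : ‖z - y‖ = ‖d‖) : ∃ t : UnitAddCircle, z = y + c t * d := by
  obtain ⟨s, hs⟩ := exists_rot d (z - y) hz.symm
  exact ⟨s, by rw [← hs]; ring⟩

theorem norm_ct (t : UnitAddCircle) (d : ℂ) : ‖c t * d‖ = ‖d‖ := by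
  rw [norm_mul, norm_c, one_mul]

theorem c_neg (t : UnitAddCircle) : c (-t) = (starRingEnd ℂ) (c t) := by
  have h1 : c t * c (-t) = 1 := by rw [← c_add, add_neg_cancel, c_zero]
  have h2 : c t * (starRingEnd ℂ) (c t) = 1 := by
    rw [Complex.mul_conj, Complex.normSq_eq_norm_sq, norm_c]
    norm_num
  exact mul_left_cancel₀ (c_ne_zero t) (h1.trans h2.symm)

theorem c_neg_mul (t : UnitAddCircle) : c (-t) * c t = 1 := by
  rw [← c_add, neg_add_cancel, c_zero]

theorem cc_neg (a b : ℝ) (g : UnitAddCircle) : cc a b (-g) = cc a b g := by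
  unfold cc
  rw [c_neg]
  rw [← Complex.norm_conj, map_sub, map_mul, Complex.conj_conj, Complex.conj_ofReal,
    Complex.conj_ofReal]

theorem cc_swap (a b : ℝ) (g : UnitAddCircle) : cc b a g = cc a b g := by
  rw [← cc_neg a b]
  unfold cc
  rw [← norm_ct g ((b : ℂ) * c (-g) - a)]
  rw [show c g * ((b : ℂ) * c (-g) - a) = b * (c (-g) * c g) - a * c g by ring, c_neg_mul, mul_one,
    norm_sub_rev]

/-- The triangle inequalities are strict. -/
theorem cc_tri (a b : ℝ) (g : UnitAddCircle) (ha : 0 < a) (hb : 0 < b) (hg : (c g).im ≠ 0) :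
    |a - b| < cc a b g ∧ cc a b g < a + b := by
  have h0 : 0 ≤ cc a b g := norm_nonneg _
  have hn : (c g).re ^ 2 + (c g).im ^ 2 = 1 := by
    have := norm_c g
    have h2 : ‖c g‖ ^ 2 = 1 := by rw [this]; norm_num
    rw [← Complex.normSq_eq_norm_sq, Complex.normSq_apply] at h2
    nlinarith
  have hsq : cc a b g ^ 2 = a ^ 2 + b ^ 2 - 2 * (a * b) * (c g).re := by
    unfold cc
    rw [← Complex.normSq_eq_norm_sq, Complex.normSq_apply]
    simp only [Complex.sub_re, Complex.mul_re, Complex.ofReal_re, Complex.ofReal_im, zero_mul,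
      sub_zero, Complex.sub_im, Complex.mul_im, add_zero]
    nlinarith
  have him : 0 < (c g).im ^ 2 := by positivity
  have hre : |(c g).re| < 1 := by
    rw [← sq_lt_one_iff_abs_lt_one]
    linarith
  obtain ⟨h1, h2⟩ := abs_lt.mp hre
  have hab : 0 < a * b := mul_pos ha hb
  constructor
  · have : |a - b| ^ 2 < cc a b g ^ 2 := by
      rw [sq_abs, hsq]
      nlinarith
    exact lt_of_pow_lt_pow_left₀ 2 h0 this
  · have : cc a b g ^ 2 < (a + b) ^ 2 := by
      rw [hsq]
      nlinarith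
    exact lt_of_pow_lt_pow_left₀ 2 (by linarith) this

/-- The radius `b` lies strictly between `|a - cc|` and `a + cc`, the radius `a` strictly between
`|b - cc|` and `b + cc`. -/
theorem cc_tri' (a b : ℝ) (g : UnitAddCircle) (ha : 0 < a) (hb : 0 < b) (hg : (c g).im ≠ 0) :
    (|a - cc a b g| < b ∧ b < a + cc a b g) ∧ (|b - cc a b g| < a ∧ a < b + cc a b g) := by
  obtain ⟨h1, h2⟩ := cc_tri a b g ha hb hg
  obtain ⟨h3, h4⟩ := abs_lt.mp h1
  refine ⟨⟨abs_lt.mpr ⟨by linarith, by linarith⟩, by linarith⟩,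
    ⟨abs_lt.mpr ⟨by linarith, by linarith⟩, by linarith⟩⟩

theorem Cfg.cc_pos {a b : ℝ} {g : Bool → UnitAddCircle} {u : ℂ → ℝ} (h : Cfg a b g u) (e : Bool) :
    0 < cc a b (g e) := h.hcc e

/-- The weak triangle inequalities. -/
theorem cc_triw (a b : ℝ) (g : UnitAddCircle) (ha : 0 < a) (hb : 0 < b) :
    |a - b| ≤ cc a b g ∧ cc a b g ≤ a + b := by
  have h1 : ‖(b : ℂ) * c g‖ = b := by
    rw [norm_mul, norm_c, mul_one, Complex.norm_real, Real.norm_of_nonneg hb.le]
  have h2 : ‖(a : ℂ)‖ = a := by rw [Complex.norm_real, Real.norm_of_nonneg ha.le]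
  constructor
  · have := abs_norm_sub_norm_le ((b : ℂ) * c g) a
    rw [h1, h2, abs_sub_comm] at this
    exact this
  · have := norm_sub_le ((b : ℂ) * c g) a
    rw [h1, h2, add_comm] at this
    exact this

/-- An angle of infinite order is not a multiple of a half turn. -/
theorem im_ne (g : UnitAddCircle) (hg : ∀ n : ℕ, 0 < n → n • g ≠ 0) : (c g).im ≠ 0 := by
  intro h0
  have h1 : c (-g) = c g := by
    rw [c_neg]
    exact Complex.conj_eq_iff_im.mpr h0
  have h2 : c (2 • g) = c 0 := by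
    rw [two_nsmul, c_add, c_zero]
    have := c_neg_mul g
    rwa [h1] at this
  have h3 : AddCircle.toCircle (2 • g) = AddCircle.toCircle (0 : UnitAddCircle) := Subtype.ext h2
  exact hg 2 (by norm_num) (AddCircle.injective_toCircle one_ne_zero h3)

/-- All multipliers are nonzero. -/
theorem Cfg.ty_ne {a b : ℝ} {g : Bool → UnitAddCircle} {u : ℂ → ℝ} (h : Cfg a b g u) (e : Bool)
    (i : Fin 6) : (ty a b (g e) i).1 ≠ 0 ∧ (ty a b (g e) i).2 ≠ 0 := by
  have ha : (a : ℂ) ≠ 0 := by exact_mod_cast h.ha.ne'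
  have hb : (b : ℂ) ≠ 0 := by exact_mod_cast h.hb.ne'
  have h1 := h.cc_pos e
  have h2 : 0 < cc a b (-(g e)) := by rw [cc_neg]; exact h1
  have n1 : (b : ℂ) * c (g e) - a ≠ 0 := norm_pos_iff.mp h1
  have n2 : (b : ℂ) * c (-(g e)) - a ≠ 0 := norm_pos_iff.mp h2
  have n3 : (a : ℂ) - b * c (g e) ≠ 0 := by rw [← neg_sub]; exact neg_ne_zero.mpr n1
  have n4 : (a : ℂ) - b * c (-(g e)) ≠ 0 := by rw [← neg_sub]; exact neg_ne_zero.mpr n2
  fin_cases i
  · exact ⟨ha, mul_ne_zero hb (c_ne_zero _)⟩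
  · exact ⟨ha, mul_ne_zero hb (c_ne_zero _)⟩
  · exact ⟨neg_ne_zero.mpr ha, n1⟩
  · exact ⟨neg_ne_zero.mpr ha, n2⟩
  · exact ⟨neg_ne_zero.mpr (mul_ne_zero hb (c_ne_zero _)), n3⟩
  · exact ⟨neg_ne_zero.mpr (mul_ne_zero hb (c_ne_zero _)), n4⟩

theorem R_swap1 {a b : ℝ} {g : Bool → UnitAddCircle} {u : ℂ → ℝ} {e : Bool} {y : ℂ}
    (h : R a b g u e y) : R b a g u e y := by
  have key : ∀ (i : Fin 6) (p q : ℂ) (s : UnitAddCircle),
      c s * (ty a b (g e) i).1 = q → c s * (ty a b (g e) i).2 = p →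
      ∀ᵐ t : UnitAddCircle, se e * (u (y + c t * p) + u (y + c t * q)) ≤ 0 := by
    intro i p q s h1 h2
    filter_upwards [ae_shift (h i) s] with t ht
    rw [c_add, mul_assoc, mul_assoc, h1, h2] at ht
    rwa [add_comm (u (y + c t * p))]
  have key' : ∀ (i : Fin 6) (p q : ℂ) (s : UnitAddCircle),
      c s * (ty a b (g e) i).1 = p → c s * (ty a b (g e) i).2 = q →
      ∀ᵐ t : UnitAddCircle, se e * (u (y + c t * p) + u (y + c t * q)) ≤ 0 := by
    intro i p q s h1 h2
    filter_upwards [ae_shift (h i) s] with t ht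
    rwa [c_add, mul_assoc, mul_assoc, h1, h2] at ht
  have k1 : c (-(g e)) * c (g e) = 1 := c_neg_mul _
  have k2 : c (g e) * c (-(g e)) = 1 := by rw [mul_comm]; exact k1
  intro i
  fin_cases i
  · exact key 1 _ _ (g e) (by simp only [ty]; ring) (by
      simp only [ty]
      linear_combination (b : ℂ) * k2)
  · exact key 0 _ _ (-(g e)) (by simp only [ty]; ring) (by
      simp only [ty]
      linear_combination (b : ℂ) * k1)
  · exact key' 5 _ _ (g e) (by
      simp only [ty]
      linear_combination -(b : ℂ) * k2) (by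
      simp only [ty]
      linear_combination -(b : ℂ) * k2)
  · exact key' 4 _ _ (-(g e)) (by
      simp only [ty]
      linear_combination -(b : ℂ) * k1) (by
      simp only [ty]
      linear_combination -(b : ℂ) * k1)
  · exact key' 3 _ _ (g e) (by simp only [ty]; ring) (by
      simp only [ty]
      linear_combination (b : ℂ) * k2)
  · exact key' 2 _ _ (-(g e)) (by simp only [ty]; ring) (by
      simp only [ty]
      linear_combination (b : ℂ) * k1)

/-- The constraints are symmetric in `a`, `b`. -/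
theorem R_swap (a b : ℝ) (g : Bool → UnitAddCircle) (u : ℂ → ℝ) (e : Bool) (y : ℂ) :
    R b a g u e y ↔ R a b g u e y := ⟨R_swap1, R_swap1⟩

theorem Y_swap (a b : ℝ) (g : Bool → UnitAddCircle) (u : ℂ → ℝ) (y : ℂ) :
    Y b a g u y ↔ Y a b g u y :=
  and_congr (R_swap a b g u true y) (R_swap a b g u false y)

theorem Cfg.swap {a b : ℝ} {g : Bool → UnitAddCircle} {u : ℂ → ℝ} (h : Cfg a b g u) :
    Cfg b a g u where
  ha := h.hb
  hb := h.ha
  hcc := fun e => by rw [cc_swap]; exact h.hcc e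
  erg := h.erg
  meas := h.meas
  val := h.val
  con := by
    intro e
    filter_upwards [h.con e] with x hx hx'
    exact (R_swap a b g u e x).mpr (hx hx')
  nz := h.nz

theorem W_swap (a b : ℝ) (g : Bool → UnitAddCircle) (u : ℂ → ℝ) (κ : Bool) :
    W b a g u (!κ) = W a b g u κ := by
  ext x
  constructor
  · rintro ⟨h1, h2, h3⟩
    refine ⟨h2, ?_, ?_⟩
    · intro z hz
      have := h1 z hz
      rwa [Bool.not_not] at this
    · intro e z hz
      exact h3 e z (by rw [cc_swap]; exact hz)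
  · rintro ⟨h1, h2, h3⟩
    refine ⟨?_, h1, ?_⟩
    · intro z hz
      rw [Bool.not_not]
      exact h2 z hz
    · intro e z hz
      exact h3 e z (by rw [cc_swap] at hz; exact hz)

/-- Almost everywhere statements over `ℂ × circle`, slices and change of variables. -/
theorem ae_circ {P : ℂ → Prop} (h : ∀ᵐ z : ℂ, P z) (d : ℂ) :
    ∀ᵐ x : ℂ, ∀ᵐ t : UnitAddCircle, P (x + c t * d) :=
  Measure.ae_ae_of_ae_prod ((nullA d).ae h)

theorem ae_circ2 {P : ℂ → Prop} (h : ∀ᵐ z : ℂ, P z) (x d d' : ℂ) (hd : d ≠ 0) (hd' : d' ≠ 0) :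
    ∀ᵐ t : UnitAddCircle, ∀ᵐ s : UnitAddCircle, P (x + c t * d + c s * d') := by
  have h1 : ∀ᵐ z : ℂ, P (x + z) :=
    (measurePreserving_add_left (volume : Measure ℂ) x).quasiMeasurePreserving.ae h
  have := Measure.ae_ae_of_ae_prod ((nullB d d' hd hd').ae h1)
  filter_upwards [this] with t ht
  filter_upwards [ht] with s hs
  rwa [← add_assoc] at hs

theorem meas_pt (d : ℂ) : Measurable (fun yt : ℂ × UnitAddCircle => yt.1 + c yt.2 * d) :=
  measurable_fst.add ((measurable_c.comp measurable_snd).mul_const d)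

/-- The set of `y` such that a measurable property holds for almost all `s`. -/
theorem meas_ae {P : ℂ × UnitAddCircle → Prop} (hP : MeasurableSet {p | P p}) :
    MeasurableSet {y : ℂ | ∀ᵐ s : UnitAddCircle, P (y, s)} := by
  have h1 : Measurable (fun y : ℂ => volume (Prod.mk y ⁻¹' {p | P p}ᶜ : Set UnitAddCircle)) :=
    measurable_measure_prodMk_left hP.compl
  have h2 : {y : ℂ | ∀ᵐ s : UnitAddCircle, P (y, s)} =
      (fun y : ℂ => volume (Prod.mk y ⁻¹' {p | P p}ᶜ : Set UnitAddCircle)) ⁻¹' {0} := by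
    ext y
    simp only [Set.mem_preimage, Set.mem_singleton_iff]
    exact ae_iff
  rw [h2]
  exact h1 (measurableSet_singleton 0)

theorem R_meas (a b : ℝ) (g : Bool → UnitAddCircle) (u : ℂ → ℝ) (hu : Measurable u) (e : Bool) :
    MeasurableSet {y : ℂ | R a b g u e y} := by
  have : {y : ℂ | R a b g u e y} = ⋂ i : Fin 6, {y : ℂ | ∀ᵐ s : UnitAddCircle,
      se e * (u (y + c s * (ty a b (g e) i).1) + u (y + c s * (ty a b (g e) i).2)) ≤ 0} := by
    ext y
    simp only [Set.mem_iInter]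
    rfl
  rw [this]
  refine MeasurableSet.iInter fun i => meas_ae (P := fun p : ℂ × UnitAddCircle =>
      se e * (u (p.1 + c p.2 * (ty a b (g e) i).1) + u (p.1 + c p.2 * (ty a b (g e) i).2)) ≤ 0) ?_
  exact measurableSet_le (((hu.comp (meas_pt _)).add (hu.comp (meas_pt _))).const_mul _)
    measurable_const

theorem Cc_meas (u : ℂ → ℝ) (hu : Measurable u) (r χ : ℝ) : MeasurableSet {y : ℂ | Cc u y r χ} :=
  meas_ae (P := fun p : ℂ × UnitAddCircle => u (p.1 + c p.2 * r) = χ)
    (measurableSet_eq_fun (hu.comp (meas_pt _)) measurable_const)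

/-- From slices to the product and change of variables: if for almost every `y`, for almost every `t`,
`P (y, t)` (with `P` measurable) then for almost every `x`, for almost every `t`, `P (x + c t * d, t)`. -/
theorem ae_change {P : ℂ × UnitAddCircle → Prop} (hP : MeasurableSet {p | P p})
    (h : ∀ᵐ y : ℂ, ∀ᵐ t : UnitAddCircle, P (y, t)) (d : ℂ) :
    ∀ᵐ x : ℂ, ∀ᵐ t : UnitAddCircle, P (x + c t * d, t) := by
  have h1 : ∀ᵐ p : ℂ × UnitAddCircle, p ∈ {p | P p} :=
    (Measure.ae_prod_mem_iff_ae_ae_mem hP).mpr h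
  exact Measure.ae_ae_of_ae_prod ((mp_shift d).quasiMeasurePreserving.ae h1)

theorem sphere_closed (V : Set ℂ) (hV : IsOpen V) (r : ℝ) :
    IsClosed {x : ℂ | ∀ z : ℂ, ‖z - x‖ = r → z ∉ V} := by
  rw [← isOpen_compl_iff]
  have : {x : ℂ | ∀ z : ℂ, ‖z - x‖ = r → z ∉ V}ᶜ =
      ⋃ d : {d : ℂ // ‖d‖ = r}, (fun x : ℂ => x + d.1) ⁻¹' V := by
    ext x
    simp only [Set.mem_compl_iff, Set.mem_iUnion, Set.mem_preimage, Subtype.exists]
    constructor
    · intro h
      by_contra hcon
      apply h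
      intro z hz hzV
      apply hcon
      exact ⟨z - x, hz, by rw [add_sub_cancel]; exact hzV⟩
    · rintro ⟨d, hd, hx⟩ h
      exact h (x + d) (by rw [add_sub_cancel_left]; exact hd) hx
  rw [this]
  exact isOpen_iUnion fun d => hV.preimage (continuous_id.add continuous_const)

theorem W_closed (a b : ℝ) (g : Bool → UnitAddCircle) (u : ℂ → ℝ) (κ : Bool) :
    IsClosed (W a b g u κ) := by
  have : W a b g u κ = {x : ℂ | ∀ z : ℂ, ‖z - x‖ = a → z ∉ U u (!κ)} ∩
      ({x : ℂ | ∀ z : ℂ, ‖z - x‖ = b → z ∉ U u κ} ∩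
        ({x : ℂ | ∀ z : ℂ, ‖z - x‖ = cc a b (g true) → z ∉ U u true} ∩
          {x : ℂ | ∀ z : ℂ, ‖z - x‖ = cc a b (g false) → z ∉ U u false})) := by
    ext x
    constructor
    · rintro ⟨h1, h2, h3⟩
      exact ⟨h1, h2, h3 true, h3 false⟩
    · rintro ⟨h1, h2, h3, h4⟩
      refine ⟨h1, h2, fun e => ?_⟩
      cases e
      · exact h4
      · exact h3
  rw [this]
  exact (sphere_closed _ (U_open _ _) _).inter ((sphere_closed _ (U_open _ _) _).inter
    ((sphere_closed _ (U_open _ _) _).inter (sphere_closed _ (U_open _ _) _)))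

/-- Almost every point where the constraint of colour `e` fails has the opposite value. -/
theorem Cfg.lock {a b : ℝ} {g : Bool → UnitAddCircle} {u : ℂ → ℝ} (h : Cfg a b g u) (e : Bool) :
    ∀ᵐ z : ℂ, ¬ R a b g u e z → u z = - se e := by
  filter_upwards [h.con e] with z hz hn
  have h1 : ¬ 0 ≤ se e * u z := fun h0 => hn (hz h0)
  push Not at h1
  rcases h.val z with h2 | h2 | h2 <;> rcases se_cases e with h3 | h3 <;> rw [h2, h3] at h1 <;>
    rw [h2, h3] <;> revert h1 <;> norm_num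

/-- A property which holds for almost all `t` holds for some `t` in every nonempty open set. -/
theorem exists_open {P : UnitAddCircle → Prop} (h : ∀ᵐ t : UnitAddCircle, P t)
    (O : Set UnitAddCircle) (hO : IsOpen O) (hne : O.Nonempty) : ∃ t ∈ O, P t := by
  by_contra hcon
  push Not at hcon
  have h1 : volume O = 0 := by
    rw [ae_iff] at h
    exact measure_mono_null (fun t ht => hcon t ht) h
  exact (hO.measure_pos volume hne).ne' h1

/-- The same in the plane. -/
theorem exists_open' {P : ℂ → Prop} (h : ∀ᵐ z : ℂ, P z)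
    (O : Set ℂ) (hO : IsOpen O) (hne : O.Nonempty) : ∃ z ∈ O, P z := by
  by_contra hcon
  push Not at hcon
  have h1 : volume O = 0 := by
    rw [ae_iff] at h
    exact measure_mono_null (fun t ht => hcon t ht) h
  exact (hO.measure_pos volume hne).ne' h1

end GBPart

/-!
## Part Rig0: rigidity of two functions on the circle (about 70 lines)

PROOF.
`m := volume` on `UnitAddCircle` is a probability measure, invariant under translations (`ae_shift`, `measurePreserving_add_right`,
`integral_add_right_eq_self`).  All functions are bounded measurable, hence integrable.  `h1`: `∫ α ≤ ∫ β (t + g true) = ∫ β`; `h3`: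
`∫ β = ∫ β (t + g false) ≤ ∫ α`.  So `∫ α = ∫ β (t + g true)` and `α ≤ β (· + g true)` a.e., hence equality a.e. (`integral_eq_iff_of_ae_le` or
`integral_eq_zero_iff_of_nonneg_ae` for the difference).  In the same way `α t = β (t + s)` a.e. for all four `s = ± g true, ± g false`.
Let `e` be the colour with `g e` of infinite order.  From `β (t + g e) = β (t - g e)` a.e., shifting by `g e`: `β (t + (g e + g e)) = β t` a.e.
The element `a := g e + g e` has infinite order (`n • a = (2 n) • g e ≠ 0`), so `addOrderOf a = 0` and `AddCircle.ergodic_add_right.2` is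
applicable: `(AddCircle.ergodic_add_right.2 h0).ae_eq_const_of_ae_eq_comp_ae (g := β) hβ.aestronglyMeasurable ..` gives `β = κ` a.e.
(see the proof of `circ_erg` in `Pool/Agent/H93/EGM/Circ.lean`), and `α t = β (t + g true) = κ` a.e. by `ae_shift`.
-/

section Rig0Part

open MeasureTheory Filter Topology Pool.Agent.H93.EG

private theorem rig0_shift {P : UnitAddCircle → Prop} (h : ∀ᵐ t, P t) (a : UnitAddCircle) :
    ∀ᵐ t, P (t + a) :=
  (measurePreserving_add_right (volume : Measure UnitAddCircle) a).quasiMeasurePreserving.ae h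

private theorem rig0_int {β : UnitAddCircle → ℝ} (hβ : Measurable β) (bβ : ∀ t, |β t| ≤ 1) :
    Integrable β :=
  Integrable.of_bound hβ.aestronglyMeasurable 1
    (Eventually.of_forall fun t => by rw [Real.norm_eq_abs]; exact bβ t)

private theorem rig0_eq {f h : UnitAddCircle → ℝ} (hf : Integrable f) (hh : Integrable h)
    (s : UnitAddCircle) (hle : ∀ᵐ t : UnitAddCircle, f t ≤ h (t + s))
    (hi : ∫ t, f t = ∫ t, h t) : ∀ᵐ t : UnitAddCircle, f t = h (t + s) := by
  have h1 : Integrable (fun t => h (t + s)) := hh.comp_add_right s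
  have h2 : ∫ t, h (t + s) = ∫ t, h t := integral_add_right_eq_self h s
  exact (integral_eq_iff_of_ae_le hf h1 hle).1 (hi.trans h2.symm)

theorem rig0 (g : Bool → UnitAddCircle) (herg : ∃ e, ∀ n : ℕ, 0 < n → n • g e ≠ 0)
    (α β : UnitAddCircle → ℝ) (hα : Measurable α) (hβ : Measurable β)
    (bα : ∀ t, |α t| ≤ 1) (bβ : ∀ t, |β t| ≤ 1)
    (h1 : ∀ᵐ t : UnitAddCircle, α t ≤ β (t + g true))
    (h2 : ∀ᵐ t : UnitAddCircle, α t ≤ β (t + -(g true)))
    (h3 : ∀ᵐ t : UnitAddCircle, β (t + g false) ≤ α t)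
    (h4 : ∀ᵐ t : UnitAddCircle, β (t + -(g false)) ≤ α t) :
    ∃ κ : ℝ, (∀ᵐ t : UnitAddCircle, α t = κ) ∧ ∀ᵐ t : UnitAddCircle, β t = κ := by
  have iα := rig0_int hα bα
  have iβ := rig0_int hβ bβ
  have le1 : ∫ t, α t ≤ ∫ t, β t := by
    rw [← integral_add_right_eq_self β (g true)]
    exact integral_mono_ae iα (iβ.comp_add_right (g true)) h1
  have le2 : ∫ t, β t ≤ ∫ t, α t := by
    rw [← integral_add_right_eq_self β (g false)]
    exact integral_mono_ae (iβ.comp_add_right (g false)) iα h3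
  have hi : ∫ t, α t = ∫ t, β t := le_antisymm le1 le2
  have key : ∀ s : UnitAddCircle, (∀ᵐ t : UnitAddCircle, β (t + s) ≤ α t) →
      ∀ᵐ t : UnitAddCircle, α t = β (t + s) := by
    intro s hs
    have h := rig0_eq (f := fun t => - α t) (h := fun t => - β t) iα.neg iβ.neg s
      (hs.mono fun t ht => neg_le_neg ht) (by rw [integral_neg, integral_neg, hi])
    exact h.mono fun t ht => neg_injective ht
  have hE : ∀ e : Bool, (∀ᵐ t : UnitAddCircle, α t = β (t + g e)) ∧
      ∀ᵐ t : UnitAddCircle, α t = β (t + -(g e)) := by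
    intro e
    cases e
    · exact ⟨key _ h3, key _ h4⟩
    · exact ⟨rig0_eq iα iβ _ h1 hi, rig0_eq iα iβ _ h2 hi⟩
  obtain ⟨e, he⟩ := herg
  have hper : ∀ᵐ t : UnitAddCircle, β (t + (g e + g e)) = β t := by
    have h5 : ∀ᵐ t : UnitAddCircle, β (t + g e) = β (t + -(g e)) := by
      filter_upwards [(hE e).1, (hE e).2] with t e1 e2
      rw [← e1, e2]
    filter_upwards [rig0_shift h5 (g e)] with t ht
    rw [← add_assoc, ht, add_neg_cancel_right]
  have h0 : addOrderOf (g e + g e) = 0 := by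
    rw [addOrderOf_eq_zero_iff']
    intro n hn h
    refine he (n + n) (by omega) ?_
    rw [add_nsmul, ← nsmul_add]
    exact h
  obtain ⟨κ, hκ⟩ := (AddCircle.ergodic_add_right.2 h0).ae_eq_const_of_ae_eq_comp_ae
    (g := β) hβ.aestronglyMeasurable hper
  have hκ' : ∀ᵐ t : UnitAddCircle, β t = κ := hκ
  refine ⟨κ, ?_, hκ'⟩
  filter_upwards [(hE true).1, rig0_shift hκ' (g true)] with t e1 e2
  rw [e1, e2]

end Rig0Part

/-!
## Part ErgSet: invariant sets of the circle (about 50 lines)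

PROOF.
Apply `h1` and then `h2` (with `ae_shift`): for a.e. `t ∈ Θ`, `t + (g true + g false) ∈ Θ` and `t + (g true + g false) + (g true + -(g false)) = t + (g true + g true) ∈ Θ`.
Apply `h1` and then `h3`: `t + (g false + g false) ∈ Θ`.  Let `g e` have infinite order, `a := g e + g e`; `n • a = (2 n) • g e ≠ 0` for `n > 0`, so
`addOrderOf a = 0` and `x ↦ x + a` is ergodic (`AddCircle.ergodic_add_right`).  `Θ ≤ᵐ (· + a) ⁻¹' Θ`, the measure is finite, so
`Ergodic.ae_empty_or_univ_of_ae_le_preimage` (Mathlib.Dynamics.Ergodic.Ergodic) gives `Θ =ᵐ ∅` or `Θ =ᵐ univ`.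
(Alternative: the indicator function `φ` of `Θ` satisfies `φ t ≤ φ (t + a)` a.e. with equal integrals, so equality a.e., and
`ae_eq_const_of_ae_eq_comp_ae` as in `circ_erg` of `Pool/Agent/H93/EGM/Circ.lean`.)
-/

section ErgSetPart

open MeasureTheory Filter Topology Pool.Agent.H93.EG

theorem erg_set (g : Bool → UnitAddCircle) (herg : ∃ e, ∀ n : ℕ, 0 < n → n • g e ≠ 0)
    (Θ : Set UnitAddCircle) (hΘ : MeasurableSet Θ)
    (h1 : ∀ᵐ t : UnitAddCircle, t ∈ Θ → t + (g true + g false) ∈ Θ)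
    (h2 : ∀ᵐ t : UnitAddCircle, t ∈ Θ → t + (g true + -(g false)) ∈ Θ)
    (h3 : ∀ᵐ t : UnitAddCircle, t ∈ Θ → t + (-(g true) + g false) ∈ Θ) :
    (∀ᵐ t : UnitAddCircle, t ∈ Θ) ∨ ∀ᵐ t : UnitAddCircle, t ∉ Θ := by
  have hT : ∀ᵐ t : UnitAddCircle, t ∈ Θ → t + (g true + g true) ∈ Θ := by
    filter_upwards [h1, ae_shift h2 (g true + g false)] with t ht1 ht2 ht
    have h4 := ht2 (ht1 ht)
    have h5 : t + (g true + g false) + (g true + -(g false)) = t + (g true + g true) := by abel
    rwa [h5] at h4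
  have hF : ∀ᵐ t : UnitAddCircle, t ∈ Θ → t + (g false + g false) ∈ Θ := by
    filter_upwards [h1, ae_shift h3 (g true + g false)] with t ht1 ht2 ht
    have h4 := ht2 (ht1 ht)
    have h5 : t + (g true + g false) + (-(g true) + g false) = t + (g false + g false) := by abel
    rwa [h5] at h4
  obtain ⟨e, he⟩ := herg
  have hE : ∀ᵐ t : UnitAddCircle, t ∈ Θ → t + (g e + g e) ∈ Θ := by
    cases e
    · exact hF
    · exact hT
  have hord : addOrderOf (g e + g e) = 0 := by
    rw [addOrderOf_eq_zero_iff']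
    intro n hn h0
    apply he (n * 2) (by omega)
    rw [mul_nsmul', two_nsmul]
    exact h0
  have herg' : Ergodic (fun t : UnitAddCircle => t + (g e + g e)) volume :=
    AddCircle.ergodic_add_right.2 hord
  have hle : Θ ≤ᵐ[volume] (fun t : UnitAddCircle => t + (g e + g e)) ⁻¹' Θ := hE
  rcases herg'.ae_empty_or_univ_of_ae_le_preimage hΘ.nullMeasurableSet hle with h | h
  · right
    filter_upwards [h] with t ht hmem
    have h6 : (t ∈ Θ) = (t ∈ (∅ : Set UnitAddCircle)) := ht
    rw [h6] at hmem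
    exact hmem
  · left
    filter_upwards [h] with t ht
    have h6 : (t ∈ Θ) = (t ∈ (Set.univ : Set UnitAddCircle)) := ht
    rw [h6]
    exact Set.mem_univ t

end ErgSetPart

/-!
## Part Img: the image of a null set of pairs of angles is null (about 70 lines)

PROOF.
Every element of `UnitAddCircle` is the class of a real number `t ∈ [0, 1)`, and `c ((t : ℝ) : UnitAddCircle) = exp (2 π t I)` (`c_coe`).  Let
`M' := {z : ℂ | z.re ∈ Ico 0 1, z.im ∈ Ico 0 1, ((z.re : UnitAddCircle), (z.im : UnitAddCircle)) ∈ M}` (the plane `ℂ` as the plane of pairs of real angles).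
`volume M' = 0`: the map `ℝ → UnitAddCircle` is measure preserving from `volume.restrict (Ioc 0 1)` (`AddCircle.measurePreserving_mk`, or
`UnitAddCircle.measurePreserving_mk`), the same with products (`MeasurePreserving.prod`), `Complex.volume_preserving_equiv_real_prod`
(Ico instead of Ioc is not essential: take `Ioc`, every class has a representative in `Ioc 0 1`).
The image of `M` is contained in the image of `M'` under `F z := x + exp (2 π z.re I) * p + exp (2 π z.im I) * q`, which is differentiable over `ℝ`, so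
`MeasureTheory.addHaar_image_eq_zero_of_differentiableOn_of_addHaar_eq_zero` (for `volume` on `ℂ`, a real vector space of dimension 2) gives
`volume (F '' M') = 0`.  (Compare the proof of `nullB` in `Pool/Agent/H93/EGM/Null.lean`, which has the derivative of the same map.)
-/

section ImgPart

open MeasureTheory Filter Topology Pool.Agent.H93.EG

theorem img_null (x p q : ℂ) (M : Set (UnitAddCircle × UnitAddCircle)) (hM : volume M = 0) :
    volume ((fun ts : UnitAddCircle × UnitAddCircle => x + c ts.1 * p + c ts.2 * q) '' M) = 0 := by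
  -- a measurable null superset
  obtain ⟨M1, hMM1, hM1m, hM1⟩ : ∃ M1 : Set (UnitAddCircle × UnitAddCircle), M ⊆ M1 ∧ MeasurableSet M1 ∧
      volume M1 = 0 :=
    ⟨toMeasurable volume M, subset_toMeasurable _ _, measurableSet_toMeasurable _ _, by
      rw [measure_toMeasurable]
      exact hM⟩
  have hmk := AddCircle.measurePreserving_mk 1 0
  have hprod := hmk.prod hmk
  have hmap : Measurable (Prod.map (fun t : ℝ => (t : UnitAddCircle)) (fun t : ℝ => (t : UnitAddCircle))) :=
    hprod.measurable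
  obtain ⟨T, hT⟩ : ∃ T : Set (ℝ × ℝ), T = (Prod.map (fun t : ℝ => (t : UnitAddCircle))
      (fun t : ℝ => (t : UnitAddCircle))) ⁻¹' M1 := ⟨_, rfl⟩
  have hTm : MeasurableSet T := by
    rw [hT]
    exact hmap hM1m
  have hT0 : (volume : Measure (ℝ × ℝ)) (T ∩ (Set.Ioc (0 : ℝ) (0 + 1)) ×ˢ (Set.Ioc (0 : ℝ) (0 + 1))) = 0 := by
    have h1 := hprod.measure_preimage (s := M1) (by
      change NullMeasurableSet M1 (volume : Measure (UnitAddCircle × UnitAddCircle))
      exact hM1m.nullMeasurableSet)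
    have h2 : ((volume : Measure UnitAddCircle).prod (volume : Measure UnitAddCircle)) M1 = 0 := hM1
    rw [h2, Measure.prod_restrict] at h1
    rw [hT, ← Measure.restrict_apply (by
      rw [hT] at hTm
      exact hTm)]
    exact h1
  obtain ⟨M', hM'⟩ : ∃ M' : Set ℂ, M' = Complex.measurableEquivRealProd ⁻¹'
      (T ∩ (Set.Ioc (0 : ℝ) (0 + 1)) ×ˢ (Set.Ioc (0 : ℝ) (0 + 1))) := ⟨_, rfl⟩
  have hM'0 : volume M' = 0 := by
    rw [hM', Complex.volume_preserving_equiv_real_prod.measure_preimage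
      ((hTm.inter (measurableSet_Ioc.prod measurableSet_Ioc)).nullMeasurableSet)]
    exact hT0
  obtain ⟨F, hF⟩ : ∃ F : ℂ → ℂ, F = fun z : ℂ => x + Complex.exp (2 * Real.pi * (z.re : ℂ) * Complex.I) * p +
      Complex.exp (2 * Real.pi * (z.im : ℂ) * Complex.I) * q := ⟨_, rfl⟩
  have hre : Differentiable ℝ (fun z : ℂ => (z.re : ℂ)) :=
    (Complex.ofRealCLM.comp Complex.reCLM).differentiable
  have him : Differentiable ℝ (fun z : ℂ => (z.im : ℂ)) :=
    (Complex.ofRealCLM.comp Complex.imCLM).differentiable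
  have hFd : Differentiable ℝ F := by
    rw [hF]
    have h1 : Differentiable ℝ (fun z : ℂ => Complex.exp (2 * Real.pi * (z.re : ℂ) * Complex.I)) :=
      (((hre.const_mul _).mul_const _)).cexp
    have h2 : Differentiable ℝ (fun z : ℂ => Complex.exp (2 * Real.pi * (z.im : ℂ) * Complex.I)) :=
      (((him.const_mul _).mul_const _)).cexp
    exact ((h1.mul_const p).const_add x).add (h2.mul_const q)
  have h0 := MeasureTheory.addHaar_image_eq_zero_of_differentiableOn_of_addHaar_eq_zero (volume : Measure ℂ)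
    (hFd.differentiableOn (s := M')) hM'0
  refine measure_mono_null ?_ h0
  rintro _ ⟨⟨t, s⟩, hts, rfl⟩
  obtain ⟨a, ha, ha'⟩ : ∃ a : ℝ, a ∈ Set.Ioc (0 : ℝ) (0 + 1) ∧ (a : UnitAddCircle) = t :=
    ⟨(AddCircle.equivIoc (1 : ℝ) 0 t : ℝ), (AddCircle.equivIoc (1 : ℝ) 0 t).2, AddCircle.coe_equivIoc⟩
  obtain ⟨b, hb, hb'⟩ : ∃ b : ℝ, b ∈ Set.Ioc (0 : ℝ) (0 + 1) ∧ (b : UnitAddCircle) = s :=
    ⟨(AddCircle.equivIoc (1 : ℝ) 0 s : ℝ), (AddCircle.equivIoc (1 : ℝ) 0 s).2, AddCircle.coe_equivIoc⟩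
  refine ⟨⟨a, b⟩, ?_, ?_⟩
  · rw [hM']
    refine ⟨?_, ha, hb⟩
    rw [hT]
    change ((a : UnitAddCircle), (b : UnitAddCircle)) ∈ M1
    rw [ha', hb']
    exact hMM1 hts
  · rw [hF]
    change x + Complex.exp (2 * Real.pi * (a : ℂ) * Complex.I) * p +
      Complex.exp (2 * Real.pi * (b : ℂ) * Complex.I) * q = x + c t * p + c s * q
    rw [← c_coe, ← c_coe, ha', hb']

end ImgPart

/-!
## Part PosB: from circles of circles to an annulus (about 60 lines)

PROOF.
Let `M := {(t, s) | ¬ P (x + c t * p + c s * q)}`.  It is measurable (`hP`, the map is continuous) and by `h` all its slices are null for almost all `t`,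
so `volume M = 0` (`Measure.ae_prod_mem_iff_ae_ae_mem` or `measure_prod_null`; `volume` on the product is `volume.prod volume`).
By `img_null` the image of `M` is null.  So it suffices: if `|p - q| < ‖z - x‖ < p + q` then `z = x + c t * p + c s * q` for some `t, s`
(then `¬ P z` puts `z` into the image of `M`).  Put `ρ := ‖z - x‖ > 0`, `z - x = ρ v`, `‖v‖ = 1`.  Let `X := (ρ² + p² - q²) / (2 ρ)`; then `|X| < p`:
`p - X = (q² - (ρ - p)²) / (2 ρ) > 0` and `p + X = ((ρ + p)² - q²) / (2 ρ) > 0`.  `H := √(p² - X²)`, `ζ := (X + H i) v`: `‖ζ‖ = p`,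
`‖z - x - ζ‖² = (ρ - X)² + H² = ρ² - 2 ρ X + p² = q²`.  `exists_pt x p` (for the point `x + ζ`) and `exists_pt (x + ζ) q z` give `t` and `s`.
-/

section PosBPart

open MeasureTheory Filter Topology Pool.Agent.H93.EG

private theorem PosB_ex (x z : ℂ) (p q : ℝ) (hp : 0 < p) (hq : 0 < q)
    (h1 : |p - q| < ‖z - x‖) (h2 : ‖z - x‖ < p + q) :
    ∃ t s : UnitAddCircle, z = x + c t * p + c s * q := by
  have hρ : 0 < ‖z - x‖ := (abs_nonneg _).trans_lt h1
  obtain ⟨ρ, hρd⟩ : ∃ ρ : ℝ, ρ = ‖z - x‖ := ⟨_, rfl⟩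
  rw [← hρd] at h1 h2 hρ
  obtain ⟨ha, hb⟩ := abs_lt.1 h1
  obtain ⟨v, hv⟩ : ∃ v : ℂ, v = (z - x) / (ρ : ℂ) := ⟨_, rfl⟩
  have hρ0 : (ρ : ℂ) ≠ 0 := by
    exact_mod_cast hρ.ne'
  have hzx : z - x = (ρ : ℂ) * v := by
    rw [hv]
    field_simp
  have hvn : ‖v‖ = 1 := by
    rw [hv, norm_div, ← hρd, Complex.norm_real, Real.norm_of_nonneg hρ.le, div_self hρ.ne']
  obtain ⟨X, hX⟩ : ∃ X : ℝ, X = (ρ ^ 2 + p ^ 2 - q ^ 2) / (2 * ρ) := ⟨_, rfl⟩
  have hX2 : 2 * ρ * X = ρ ^ 2 + p ^ 2 - q ^ 2 := by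
    rw [hX]
    field_simp
  have hX3 : X ^ 2 ≤ p ^ 2 := by
    have e1 : 0 < 2 * ρ * (p - X) := by nlinarith
    have e2 : 0 < 2 * ρ * (p + X) := by nlinarith
    have e3 : 0 < p - X := (mul_pos_iff_of_pos_left (by positivity)).1 e1
    have e4 : 0 < p + X := (mul_pos_iff_of_pos_left (by positivity)).1 e2
    nlinarith
  obtain ⟨H, hH⟩ : ∃ H : ℝ, H = Real.sqrt (p ^ 2 - X ^ 2) := ⟨_, rfl⟩
  have hH2 : H ^ 2 = p ^ 2 - X ^ 2 := by
    rw [hH, Real.sq_sqrt (by linarith)]
  have n1 : ‖((X : ℂ) + H * Complex.I) * v‖ = ‖(p : ℂ)‖ := by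
    rw [norm_mul, hvn, mul_one, Complex.norm_real, Real.norm_of_nonneg hp.le,
      ← sq_eq_sq₀ (norm_nonneg _) hp.le, ← Complex.normSq_eq_norm_sq, Complex.normSq_add_mul_I]
    linarith
  have n2 : ‖z - (x + ((X : ℂ) + H * Complex.I) * v)‖ = ‖(q : ℂ)‖ := by
    have e : z - (x + ((X : ℂ) + H * Complex.I) * v) =
        (((ρ - X : ℝ) : ℂ) + ((-H : ℝ) : ℂ) * Complex.I) * v := by
      push_cast
      linear_combination hzx
    rw [e, norm_mul, hvn, mul_one, Complex.norm_real, Real.norm_of_nonneg hq.le,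
      ← sq_eq_sq₀ (norm_nonneg _) hq.le, ← Complex.normSq_eq_norm_sq, Complex.normSq_add_mul_I]
    nlinarith
  obtain ⟨t, ht⟩ := exists_pt x (p : ℂ) (x + ((X : ℂ) + H * Complex.I) * v) (by
    rw [add_sub_cancel_left]
    exact n1)
  obtain ⟨s, hs⟩ := exists_pt (x + ((X : ℂ) + H * Complex.I) * v) (q : ℂ) z n2
  exact ⟨t, s, by rw [← ht]; exact hs⟩

theorem posB (P : ℂ → Prop) (hP : MeasurableSet {z | P z}) (x : ℂ) (p q : ℝ) (hp : 0 < p)
    (hq : 0 < q) (h : ∀ᵐ t : UnitAddCircle, ∀ᵐ s : UnitAddCircle, P (x + c t * p + c s * q)) :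
    ∀ᵐ z : ℂ, |p - q| < ‖z - x‖ → ‖z - x‖ < p + q → P z := by
  have hcont : Continuous
      (fun ts : UnitAddCircle × UnitAddCircle => x + c ts.1 * (p : ℂ) + c ts.2 * (q : ℂ)) :=
    (continuous_const.add ((continuous_c.comp continuous_fst).mul continuous_const)).add
      ((continuous_c.comp continuous_snd).mul continuous_const)
  obtain ⟨M, hM⟩ : ∃ M : Set (UnitAddCircle × UnitAddCircle),
      M = {ts | ¬ P (x + c ts.1 * p + c ts.2 * q)} := ⟨_, rfl⟩
  have hMm : MeasurableSet M := by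
    rw [hM]
    exact (hcont.measurable hP).compl
  have hM0 : volume M = 0 := by
    rw [Measure.volume_eq_prod, Measure.measure_prod_null hMm]
    filter_upwards [h] with t ht
    rw [hM]
    exact ht
  have h0 := img_null x p q M hM0
  rw [ae_iff]
  refine measure_mono_null ?_ h0
  intro z hz
  simp only [Set.mem_setOf_eq, Classical.not_imp] at hz
  obtain ⟨h1, h2, h3⟩ := hz
  obtain ⟨t, s, hts⟩ := PosB_ex x z p q hp hq h1 h2
  refine ⟨(t, s), ?_, hts.symm⟩
  rw [hM]
  change ¬ P _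
  rw [← hts]
  exact h3

end PosBPart

/-!
## Part NoPair: circles with different values do not cross (about 70 lines)

PROOF.
Let `Y' := {y | Cc u y s χ'}` (measurable: `Cc_meas`).  For a.e. `y`, a.e. `t`: `y ∈ Y' → u (y + c t * s) = χ'` (definition).  This is a measurable property
`P (y, t)`, so `ae_change` with `d := -(s : ℂ)` (applied to `P`; `(x + c t * (-s)) + c t * s = x`) gives: for a.e. `w`, for a.e. `t`:
`w + c t * (-s) ∈ Y' → u w = χ'`.  By `ae_rot` (`‖-s‖ = ‖s‖`): for a.e. `w`, a.e. `t`: `w + c t * s ∈ Y' → u w = χ'`.  So for a.e. `w`: `Q w := (u w = χ → ∀ᵐ t, w + c t * s ∉ Y')`.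
`ae_circ` with `d := r`: for a.e. `x`, for a.e. `t`: `Q (x + c t * r)`.  If moreover `Cc u x r χ`, then for a.e. `t`, for a.e. `t'`:
`x + c t * r + c t' * s ∉ Y'`.  `posB` (with `P z := z ∉ Y'`) gives the claim.
-/

section NoPairPart

open MeasureTheory Filter Topology Pool.Agent.H93.EG

theorem noPair (u : ℂ → ℝ) (hu : Measurable u) (r s : ℝ) (hr : 0 < r) (hs : 0 < s) (χ χ' : ℝ)
    (hne : χ ≠ χ') :
    ∀ᵐ x : ℂ, Cc u x r χ → ∀ᵐ y : ℂ, |r - s| < ‖y - x‖ → ‖y - x‖ < r + s → ¬ Cc u y s χ' := by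
  have hY : MeasurableSet {y : ℂ | Cc u y s χ'} := Cc_meas u hu s χ'
  have hP : MeasurableSet {p : ℂ × UnitAddCircle | Cc u p.1 s χ' → u (p.1 + c p.2 * s) = χ'} := by
    have h1 : MeasurableSet {p : ℂ × UnitAddCircle | Cc u p.1 s χ'} := measurable_fst hY
    have h2 : MeasurableSet {p : ℂ × UnitAddCircle | u (p.1 + c p.2 * s) = χ'} :=
      measurableSet_eq_fun (hu.comp (meas_pt _)) measurable_const
    have h3 : {p : ℂ × UnitAddCircle | Cc u p.1 s χ' → u (p.1 + c p.2 * s) = χ'} =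
        {p : ℂ × UnitAddCircle | Cc u p.1 s χ'}ᶜ ∪
          {p : ℂ × UnitAddCircle | u (p.1 + c p.2 * s) = χ'} := by
      ext p
      simp only [Set.mem_setOf_eq, Set.mem_union, Set.mem_compl_iff]
      exact imp_iff_not_or
    rw [h3]
    exact h1.compl.union h2
  have h1 : ∀ᵐ y : ℂ, ∀ᵐ t : UnitAddCircle, Cc u (y, t).1 s χ' →
      u ((y, t).1 + c (y, t).2 * s) = χ' := by
    refine Filter.Eventually.of_forall fun y => ?_
    by_cases hy : Cc u y s χ'
    · filter_upwards [hy] with t ht _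
      exact ht
    · exact Filter.Eventually.of_forall fun t h => absurd h hy
  have h2 := ae_change hP h1 (-(s : ℂ))
  have h3 : ∀ᵐ w : ℂ, u w = χ → ∀ᵐ t : UnitAddCircle, ¬ Cc u (w + c t * s) s χ' := by
    filter_upwards [h2] with w hw hχ
    have h4 : ∀ᵐ t : UnitAddCircle, (fun z => Cc u z s χ' → u w = χ') (w + c t * -(s : ℂ)) := by
      filter_upwards [hw] with t ht hc
      have h5 := ht hc
      have h6 : w + c t * -(s : ℂ) + c t * s = w := by ring
      simpa only [h6] using h5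
    have h7 := ae_rot (P := fun z => Cc u z s χ' → u w = χ') w (-(s : ℂ)) (s : ℂ) (norm_neg _) h4
    filter_upwards [h7] with t ht hc
    exact hne (hχ.symm.trans (ht hc))
  have h8 := ae_circ (P := fun w => u w = χ → ∀ᵐ t : UnitAddCircle, ¬ Cc u (w + c t * s) s χ')
    h3 (r : ℂ)
  filter_upwards [h8] with x hx hc
  refine posB (fun z => ¬ Cc u z s χ') ?_ x r s hr hs ?_
  · exact hY.compl
  · filter_upwards [hx, hc] with t ht hct
    exact ht hct

end NoPairPart

end Pool.Agent.H79.TM
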