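import Pool.Agent.H79.TM.M1

/-!
# Rigidity of the points of Y and the alternative
-/

set_option autoImplicit false

namespace Pool.Agent.H79.TM

/-!
## Part Rigid: circles around a point where both constraints hold (about 110 lines)

PROOF.
`rigid`: put `α t := u (y + c t * a)`, `β t := - u (y + c t * b)` (measurable: `h.meas` and `measurable_c`; bounded by 1: `h.val`).  The types `0` and `1` of
`R .. true y` (`se true = 1`; `c t * (b * c g) = c (t + g) * b` by `c_add`) say `α t ≤ β (t + g true)`, `α t ≤ β (t + -(g true))` a.e.; those of `R .. false y`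
(`se false = -1`) say `β (t + g false) ≤ α t`, `β (t + -(g false)) ≤ α t` a.e.  `rig0` gives `κ` with `α = β = κ` a.e.; `κ` is a value of `u` (a.e. statements hold
for some `t`, `.exists`), so it is `1`, `-1` or `0`.
`third`: let `κ ∈ {1, -1}`.  If `se e = κ` use type 2 of `R .. e y`: for a.e. `t`: `κ (u (y - c t * a) + u (y + c t * (b c (g e) - a))) ≤ 0`, and `u (y + c t * (-a)) = κ` for
a.e. `t` (`ae_rot`), so `κ * κ + κ u (..) ≤ 0`, `κ u (..) ≤ -1`, and as `u (..) ∈ {1, -1, 0}`: `u (..) = -κ = - se e`.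
If `se e = -κ` use type 4: `u (y + c t * (-(b c (g e)))) = -κ = se e` a.e. (`ae_rot` from the circle of radius `b`), so in the same way `u (y + c t * (a - b c (g e))) = - se e`.
Finally `ae_rot`: `‖b c (g e) - a‖ = ‖a - b c (g e)‖ = cc a b (g e) = ‖((cc a b (g e) : ℝ) : ℂ)‖`.
-/

section RigidPart

open MeasureTheory Filter Topology Pool.Agent.H93.EG

private theorem rigid_meas {u : ℂ → ℝ} (hu : Measurable u) (y d : ℂ) :
    Measurable (fun t : UnitAddCircle => u (y + c t * d)) :=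
  hu.comp (measurable_const.add (measurable_c.mul_const d))

private theorem rigid_abs {a b : ℝ} {g : Bool → UnitAddCircle} {u : ℂ → ℝ} (h : Cfg a b g u) (x : ℂ) :
    |u x| ≤ 1 := by
  rcases h.val x with h1 | h1 | h1 <;> rw [h1] <;> norm_num

private theorem rigid_ct (t g : UnitAddCircle) (b : ℝ) : c t * ((b : ℂ) * c g) = c (t + g) * b := by
  rw [c_add]
  ring

theorem rigid {a b : ℝ} {g : Bool → UnitAddCircle} {u : ℂ → ℝ} (h : Cfg a b g u) (y : ℂ)
    (hy : Y a b g u y) : ∃ κ : ℝ, (κ = 1 ∨ κ = -1 ∨ κ = 0) ∧ Cc u y a κ ∧ Cc u y b (-κ) := by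
  have hT : se true = 1 := by simp [se]
  have hF : se false = -1 := by simp [se]
  obtain ⟨κ, h1, h2⟩ := rig0 g h.erg (fun t => u (y + c t * (a : ℂ))) (fun t => - u (y + c t * (b : ℂ)))
    (rigid_meas h.meas y _) (rigid_meas h.meas y _).neg (fun t => rigid_abs h _)
    (fun t => by rw [abs_neg]; exact rigid_abs h _)
    (by
      filter_upwards [hy.1 0] with t ht
      have ht' : se true * (u (y + c t * (a : ℂ)) + u (y + c t * ((b : ℂ) * c (g true)))) ≤ 0 := ht
      rw [rigid_ct, hT] at ht'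
      linarith)
    (by
      filter_upwards [hy.1 1] with t ht
      have ht' : se true * (u (y + c t * (a : ℂ)) + u (y + c t * ((b : ℂ) * c (-(g true))))) ≤ 0 := ht
      rw [rigid_ct, hT] at ht'
      linarith)
    (by
      filter_upwards [hy.2 0] with t ht
      have ht' : se false * (u (y + c t * (a : ℂ)) + u (y + c t * ((b : ℂ) * c (g false)))) ≤ 0 := ht
      rw [rigid_ct, hF] at ht'
      linarith)
    (by
      filter_upwards [hy.2 1] with t ht
      have ht' : se false * (u (y + c t * (a : ℂ)) + u (y + c t * ((b : ℂ) * c (-(g false))))) ≤ 0 := ht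
      rw [rigid_ct, hF] at ht'
      linarith)
  refine ⟨κ, ?_, h1, ?_⟩
  · obtain ⟨t, ht⟩ := h1.exists
    have ht' : u (y + c t * (a : ℂ)) = κ := ht
    rw [← ht']
    exact h.val _
  · filter_upwards [h2] with t ht
    linarith

private theorem rigid_val {a b : ℝ} {g : Bool → UnitAddCircle} {u : ℂ → ℝ} (h : Cfg a b g u) (e : Bool)
    (x z : ℂ) (hx : u x = se e) (hz : se e * (u x + u z) ≤ 0) : u z = - se e := by
  rw [hx] at hz
  rcases h.val z with h1 | h1 | h1 <;> rcases se_cases e with h2 | h2 <;> rw [h1, h2] at hz <;>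
    rw [h1, h2] <;> revert hz <;> norm_num

theorem third {a b : ℝ} {g : Bool → UnitAddCircle} {u : ℂ → ℝ} (h : Cfg a b g u) (y : ℂ)
    (hy : Y a b g u y) (κ : ℝ) (hκ : κ = 1 ∨ κ = -1) (ha : Cc u y a κ) (hb : Cc u y b (-κ))
    (e : Bool) : Cc u y (cc a b (g e)) (- se e) := by
  have hR : R a b g u e y := by
    cases e
    · exact hy.2
    · exact hy.1
  have hc : ‖((cc a b (g e) : ℝ) : ℂ)‖ = ‖(b : ℂ) * c (g e) - a‖ := by
    rw [Complex.norm_real, Real.norm_eq_abs, abs_of_pos (h.cc_pos e)]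
    rfl
  have hcase : se e = κ ∨ se e = -κ := by
    rcases se_cases e with h1 | h1 <;> rcases hκ with h2 | h2 <;> rw [h1, h2] <;> norm_num
  rcases hcase with hs | hs
  · have h1 : ∀ᵐ t : UnitAddCircle, u (y + c t * (-(a : ℂ))) = se e :=
      ae_rot (P := fun z => u z = se e) y (a : ℂ) (-(a : ℂ)) (by rw [norm_neg]) (by rw [hs]; exact ha)
    have h2 : ∀ᵐ t : UnitAddCircle, u (y + c t * ((b : ℂ) * c (g e) - a)) = - se e := by
      filter_upwards [h1, hR 2] with t ht1 ht2
      exact rigid_val h e _ _ ht1 ht2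
    exact ae_rot (P := fun z => u z = - se e) y _ _ hc.symm h2
  · have h1 : ∀ᵐ t : UnitAddCircle, u (y + c t * (-((b : ℂ) * c (g e)))) = se e :=
      ae_rot (P := fun z => u z = se e) y (b : ℂ) (-((b : ℂ) * c (g e)))
        (by rw [norm_neg, norm_mul, norm_c, mul_one]) (by rw [hs]; exact hb)
    have h2 : ∀ᵐ t : UnitAddCircle, u (y + c t * ((a : ℂ) - b * c (g e))) = - se e := by
      filter_upwards [h1, hR 4] with t ht1 ht2
      exact rigid_val h e _ _ ht1 ht2
    exact ae_rot (P := fun z => u z = - se e) y _ _ (by rw [hc, norm_sub_rev]) h2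

end RigidPart

/-!
## Part Kappa: the value zero does not occur (about 130 lines)

PROOF.
Write `Y0 := {y | Y y ∧ Cc u y a 0}` and `V' := {y | Cc u y a 1 ∨ Cc u y a (-1)}` (measurable: `R_meas`, `Cc_meas`).  Suppose `Y0` is not null.
(1) `noPair` with `r = s = a`, `χ = 0`, `χ' = ± 1`: for a.e. `x`: if `x ∈ Y0` then for a.e. `y`: `0 < ‖y - x‖ → ‖y - x‖ < 2 a → y ∉ V'` (the single point `y = x` is null).
Let `O := {z | ∃ r > 0, ∀ᵐ w, w ∈ Metric.ball z r → w ∉ V'}`.  `V' ∩ O` is null (`measure_null_of_locally_null`, as in `U_ae` of GB.lean), so (`ae_circ`) for a.e. `x`, a.e. `t`: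
`x + c t * a ∉ V' ∩ O`.  For a.e. `x ∈ Y0` every `x + c t * a` is in `O` (ball of radius `a` around it).  So (2) for a.e. `x ∈ Y0`: a.e. `t`: `x + c t * a ∉ V'`.
(3) For a.e. `x ∈ Y0`, a.e. `t`: the point `z = x + c t * a` has `u z = 0` (`Cc u x a 0`), so `0 ≤ se e * u z` for both `e` and hence `Y z` (for a.e. `t`, by `h.con` and `ae_circ`),
so by `rigid` `Cc u z a κ` for some `κ`, and `κ = 0` by (2).  So for a.e. `x ∈ Y0`: a.e. `t`: `x + c t * a ∈ A := {z | z ∈ Y0 ∧ u z = 0}`.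
(4) Using (3) twice (`ae_circ` for the a.e. statement (3)): for a.e. `x ∈ Y0`: a.e. `t`, a.e. `s`: `x + c t * a + c s * a ∈ A`; `posB` with `p = q = a`: a.e. `w` with `‖w - x‖ < 2 a` is in `A`.
(5) Let `O' := {z | ∃ r > 0, ∀ᵐ w, w ∈ Metric.ball z r → w ∈ A}`.  It is open.  It is nonempty: `Y0` is not null, so it has a point satisfying (4).  If `z ∈ O'` then
`Metric.ball z a ⊆ O'`: take `r > 0` for `z`, `r ≤ a`; a.e. point of `ball z r` is in `A ⊆ Y0` and satisfies (4) (for a.e. point), so there is such a point `x'` with `‖x' - z‖ < r`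
arbitrarily near `z`; for `z'` with `‖z' - z‖ < a` choose `x'` with `‖x' - z‖ < a`, then `‖z' - x'‖ < 2 a`, so `z' ∈ O'`.
So `O'` is clopen: `O' = ℂ` (`IsClopen.eq_univ`; closed: if `z` is in the closure take `z0 ∈ O'` with `‖z - z0‖ < a`, then `z ∈ ball z0 a ⊆ O'`).
Hence `u = 0` a.e. (`measure_null_of_locally_null`, as in `locSet_univ`), contradiction with `h.nz`.
`Y_third` follows: by `rigid` and `kappa` for a.e. `y` with `Y y` the value `κ` is `1` or `-1`, then `third`.
-/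

section KappaPart

open MeasureTheory Filter Topology Pool.Agent.H93.EG

/-- The points with a neighbourhood where `P` holds almost everywhere. -/
private def TSKappaL (P : ℂ → Prop) : Set ℂ :=
  {z | ∃ r : ℝ, 0 < r ∧ ∀ᵐ w : ℂ, w ∈ Metric.ball z r → P w}

private theorem TSKappa_ae (P : ℂ → Prop) : ∀ᵐ z : ℂ, z ∈ TSKappaL P → P z := by
  rw [ae_iff]
  refine measure_null_of_locally_null _ (fun x0 hx0 => ?_)
  have hU : x0 ∈ TSKappaL P := by
    by_contra hn
    exact hx0 fun h => absurd h hn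
  obtain ⟨r, hr, h⟩ := hU
  refine ⟨{x | ¬ (x ∈ TSKappaL P → P x)} ∩ Metric.ball x0 r, ?_, ?_⟩
  · exact inter_mem_nhdsWithin _ (Metric.ball_mem_nhds x0 hr)
  · rw [ae_iff] at h
    refine measure_mono_null ?_ h
    rintro x ⟨hx, hxb⟩ hh
    exact hx fun _ => hh hxb

private theorem TSKappa_ne (x : ℂ) : ∀ᵐ y : ℂ, y ≠ x := by
  rw [ae_iff]
  have h1 : {y : ℂ | ¬ y ≠ x} = {x} := by
    ext y
    simp
  rw [h1]
  exact measure_singleton x

private theorem TSKappa_ball (a : ℝ) (x : ℂ) (P : ℂ → Prop)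
    (h : ∀ᵐ y : ℂ, |a - a| < ‖y - x‖ → ‖y - x‖ < a + a → P y) :
    ∀ᵐ y : ℂ, y ∈ Metric.ball x (2 * a) → P y := by
  filter_upwards [h, TSKappa_ne x] with y hy hne hm
  rw [Metric.mem_ball, dist_eq_norm] at hm
  refine hy ?_ (by linarith)
  rw [sub_self, abs_zero]
  exact norm_pos_iff.2 (sub_ne_zero.2 hne)

private theorem TSKappa_main {a b : ℝ} {g : Bool → UnitAddCircle} {u : ℂ → ℝ} (h : Cfg a b g u) :
    ∀ᵐ x : ℂ, (Y a b g u x ∧ Cc u x a 0) → ∀ᵐ w : ℂ, w ∈ Metric.ball x (2 * a) →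
      ((Y a b g u w ∧ Cc u w a 0) ∧ u w = 0) := by
  have ha := h.ha
  -- (2)
  have h1 : ∀ᵐ x : ℂ, Cc u x a 0 → ∀ᵐ t : UnitAddCircle,
      ¬ (Cc u (x + c t * a) a 1 ∨ Cc u (x + c t * a) a (-1)) := by
    have k1 := noPair u h.meas a a ha ha 0 1 (by norm_num)
    have k2 := noPair u h.meas a a ha ha 0 (-1) (by norm_num)
    have k3 := ae_circ (TSKappa_ae (fun w => ¬ (Cc u w a 1 ∨ Cc u w a (-1)))) (a : ℂ)
    filter_upwards [k1, k2, k3] with x h1 h2 h3 hx
    have h4 : ∀ᵐ y : ℂ, y ∈ Metric.ball x (2 * a) → ¬ (Cc u y a 1 ∨ Cc u y a (-1)) := by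
      refine TSKappa_ball a x _ ?_
      filter_upwards [h1 hx, h2 hx] with y y1 y2 y3 y4 y5
      rcases y5 with y5 | y5
      · exact y1 y3 y4 y5
      · exact y2 y3 y4 y5
    filter_upwards [h3] with t ht
    refine ht ⟨a, ha, ?_⟩
    filter_upwards [h4] with y hy hm
    refine hy ?_
    rw [Metric.mem_ball, dist_eq_norm] at hm ⊢
    have h5 : y - x = (y - (x + c t * a)) + c t * a := by ring
    have h6 : ‖c t * (a : ℂ)‖ = a := by
      rw [norm_ct, Complex.norm_real, Real.norm_of_nonneg ha.le]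
    calc ‖y - x‖ = ‖(y - (x + c t * a)) + c t * a‖ := by rw [← h5]
      _ ≤ ‖y - (x + c t * a)‖ + ‖c t * (a : ℂ)‖ := norm_add_le _ _
      _ < a + a := by
        rw [h6]
        linarith
      _ = 2 * a := by ring
  -- (3)
  have h3 : ∀ᵐ x : ℂ, (Y a b g u x ∧ Cc u x a 0) → ∀ᵐ t : UnitAddCircle,
      ((Y a b g u (x + c t * a) ∧ Cc u (x + c t * a) a 0) ∧ u (x + c t * a) = 0) := by
    have k1 := ae_circ (h.con true) (a : ℂ)
    have k2 := ae_circ (h.con false) (a : ℂ)
    filter_upwards [h1, k1, k2] with x hx1 hx2 hx3 hx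
    filter_upwards [hx1 hx.2, hx2, hx3, hx.2] with t t1 t2 t3 t4
    have hz : u (x + c t * a) = 0 := t4
    have hY : Y a b g u (x + c t * a) := by
      refine ⟨t2 ?_, t3 ?_⟩ <;> rw [hz, mul_zero]
    obtain ⟨κ, hκ, k3, _⟩ := rigid h _ hY
    refine ⟨⟨hY, ?_⟩, hz⟩
    rcases hκ with hκ | hκ | hκ
    · exact absurd (Or.inl (hκ ▸ k3)) t1
    · exact absurd (Or.inr (hκ ▸ k3)) t1
    · exact hκ ▸ k3
  -- (4)
  have hmeas : MeasurableSet {z : ℂ | (Y a b g u z ∧ Cc u z a 0) ∧ u z = 0} :=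
    (((R_meas a b g u h.meas true).inter (R_meas a b g u h.meas false)).inter
      (Cc_meas u h.meas a 0)).inter (measurableSet_eq_fun h.meas measurable_const)
  have k3 := ae_circ h3 (a : ℂ)
  filter_upwards [h3, k3] with x hx1 hx2 hx
  refine TSKappa_ball a x _ ?_
  refine posB (fun z => (Y a b g u z ∧ Cc u z a 0) ∧ u z = 0) hmeas x a a ha ha ?_
  filter_upwards [hx1 hx, hx2] with t t1 t2
  exact t2 t1.1

theorem kappa {a b : ℝ} {g : Bool → UnitAddCircle} {u : ℂ → ℝ} (h : Cfg a b g u) :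
    ∀ᵐ y : ℂ, Y a b g u y → ¬ Cc u y a 0 := by
  by_contra hcon
  have hfr : ∃ᵐ y : ℂ, Y a b g u y ∧ Cc u y a 0 := by
    intro h1
    apply hcon
    filter_upwards [h1] with y hy h2 h3
    exact hy ⟨h2, h3⟩
  have ha := h.ha
  have hm := TSKappa_main h
  obtain ⟨x0, hx0, hx1⟩ := (hfr.and_eventually hm).exists
  obtain ⟨A, hA⟩ : ∃ A : ℂ → Prop, A = fun w => (Y a b g u w ∧ Cc u w a 0) ∧ u w = 0 := ⟨_, rfl⟩
  have hbig : ∀ z ∈ TSKappaL A, Metric.ball z a ⊆ TSKappaL A := by
    rintro z ⟨r, hr, hz⟩ z' hz'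
    have hP : ∀ᵐ w : ℂ, (w ∈ Metric.ball z r → A w) ∧ ((Y a b g u w ∧ Cc u w a 0) →
        ∀ᵐ w' : ℂ, w' ∈ Metric.ball w (2 * a) → A w') := by
      filter_upwards [hz, hm] with w w1 w2
      refine ⟨w1, fun w3 => ?_⟩
      rw [hA]
      exact w2 w3
    obtain ⟨x', hx', h1, h2⟩ := exists_open' hP (Metric.ball z (min r a)) Metric.isOpen_ball
      ⟨z, Metric.mem_ball_self (lt_min hr ha)⟩
    have h3 : A x' := h1 (Metric.ball_subset_ball (min_le_left _ _) hx')
    rw [hA] at h3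
    have h4 := h2 h3.1
    have h5 : dist x' z < a := Metric.ball_subset_ball (min_le_right _ _) hx'
    have h6 : dist z' z < a := hz'
    have h7 : dist z' x' < 2 * a := by
      have := dist_triangle z' z x'
      rw [dist_comm z x'] at this
      linarith
    refine ⟨2 * a - dist z' x', by linarith, ?_⟩
    filter_upwards [h4] with w hw hwm
    refine hw ?_
    rw [Metric.mem_ball] at hwm ⊢
    have := dist_triangle w z' x'
    linarith
  have hne : (TSKappaL A).Nonempty := by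
    refine ⟨x0, 2 * a, by linarith, ?_⟩
    rw [hA]
    exact hx1 hx0
  have hopen : IsOpen (TSKappaL A) := by
    rw [Metric.isOpen_iff]
    intro z hz
    exact ⟨a, ha, hbig z hz⟩
  have hclosed : IsClosed (TSKappaL A) := by
    refine isClosed_of_closure_subset fun z hz => ?_
    obtain ⟨z0, hz0, hd⟩ := Metric.mem_closure_iff.1 hz a ha
    exact hbig z0 hz0 hd
  have huniv : TSKappaL A = Set.univ := IsClopen.eq_univ ⟨hclosed, hopen⟩ hne
  apply h.nz
  filter_upwards [TSKappa_ae A] with z hz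
  have h1 : A z := hz (by rw [huniv]; trivial)
  rw [hA] at h1
  exact h1.2

theorem Y_third {a b : ℝ} {g : Bool → UnitAddCircle} {u : ℂ → ℝ} (h : Cfg a b g u) :
    ∀ᵐ y : ℂ, Y a b g u y → ∀ e : Bool, Cc u y (cc a b (g e)) (- se e) := by
  filter_upwards [kappa h] with y hy hY e
  obtain ⟨κ, hκ, h1, h2⟩ := rigid h y hY
  rcases hκ with hκ | hκ | hκ
  · exact third h y hY κ (Or.inl hκ) h1 h2 e
  · exact third h y hY κ (Or.inr hκ) h1 h2 e
  · exact absurd (hκ ▸ h1) (hy hY)

end KappaPart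

/-!
## Part LimPts: approximation of a point outside an open colour class (about 150 lines)

PROOF.
`B r := {x | ∀ᵐ t, ∀ e', x + c t * r ∈ U u e' → u (x + c t * r) = se e'}` and `B' r := {x | ∀ᵐ t, ∀ e', ¬ R .. e' (x + c t * r) → u (x + c t * r) = - se e'}` contain a.e. `x`
(`ae_circ` applied to `U_ae` and to `h.lock`).  `hx`, `not_U`: every ball around `x₀` contains a non-null set of `z` with `u z ≠ se (!e)`, i.e. `0 ≤ se e * u z`; by `h.con e` and the above a.e. such `z`
has `R .. e z`, and lies in all the sets `B r` (for the four radii) and `B' a`, `B' b`.  So choose `z_n` of this kind with `‖z_n - x₀‖ < 1/(n+1)`; `z_n → x₀`.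
`trans_cont u h.meas _ z x₀`: a subsequence `x := z ∘ φ` with `u (x n + w) → u (x₀ + w)` for a.e. `w`; the values are in `{1, -1, 0}`, so for a.e. `w`: `u (x n + w) = u (x₀ + w)` for all large `n`
(as in `conv_subseq` of `Pool/Agent/H93/EGM/Loc.lean`).  This gives all but the last statement.
Last statement, `r ∈ {a, b}`: `conv_two` (same file) with `d = r`, `p` = each of the twelve nonzero multipliers `(ty a b (g e') i).1`, `.2` (`h.ty_ne`): for a.e. `t`, for a.e. `s`, eventually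
`u (x n + (c t * r + c s * p)) = u (x₀ + (c t * r + c s * p))`.  Fix such a `t` with moreover `x n ∈ B' r`-property at this `t` for all `n` (countably many a.e. conditions) and let
`¬ R .. e' (x₀ + c t * r)`.  Then for some `i` the set `S` of `s` with `0 < se e' * (u (x₀ + c t * r + c s * p) + u (x₀ + c t * r + c s * q))` is not null.  Suppose that for infinitely many `n` (frequently)
`R .. e' (x n + c t * r)`.  For each `n` (countably many) for a.e. `s`: [`R .. e' (x n + c t * r)` → `se e' * (u (x n + c t * r + c s * p) + u (.. q)) ≤ 0`].  Take `s ∈ S` with all these properties and the eventual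
equalities for `p` and `q`: contradiction for a large `n` with `R`.  So `¬ R .. e' (x n + c t * r)` for all large `n`, hence `u (x n + c t * r) = - se e'`.
-/

section LimPtsPart

open MeasureTheory Filter Topology Pool.Agent.H93.EG

private theorem limPts_conv (F : ℂ → ℝ) (hm : Measurable F)
    (hv : ∀ x, F x = 1 ∨ F x = -1 ∨ F x = 0) (x : ℕ → ℂ)
    (x0 : ℂ) (hx : Tendsto x atTop (𝓝 x0)) :
    ∃ φ : ℕ → ℕ, StrictMono φ ∧ ∀ᵐ z : ℂ, ∀ᶠ n in atTop, F (x (φ n) + z) = F (x0 + z) := by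
  have hb : ∀ x, |F x| ≤ 1 := by
    intro x
    rcases hv x with e | e | e <;> rw [e] <;> norm_num
  obtain ⟨φ, hφ, h⟩ := trans_cont F hm hb x x0 hx
  refine ⟨φ, hφ, ?_⟩
  filter_upwards [h] with z hz
  have h1 : ∀ᶠ n in atTop, |F (x (φ n) + z) - F (x0 + z)| < 1 := by
    have := (Metric.tendsto_nhds.mp hz) 1 one_pos
    simpa [Real.dist_eq] using this
  filter_upwards [h1] with n hn
  rcases hv (x (φ n) + z) with e | e | e <;> rcases hv (x0 + z) with e' | e' | e' <;>
    rw [e, e'] at hn ⊢ <;> exfalso <;> revert hn <;> norm_num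

private theorem limPts_ball (x₀ : ℂ) (z : ℕ → ℂ)
    (hz : ∀ n : ℕ, z n ∈ Metric.ball x₀ (1 / ((n : ℝ) + 1))) : Tendsto z atTop (𝓝 x₀) := by
  rw [tendsto_iff_dist_tendsto_zero]
  exact squeeze_zero (fun n => dist_nonneg) (fun n => (Metric.mem_ball.mp (hz n)).le)
    tendsto_one_div_add_atTop_nhds_zero_nat

private theorem limPts_step {a b : ℝ} {g : Bool → UnitAddCircle} {u : ℂ → ℝ} (h : Cfg a b g u)
    (x₀ : ℂ) (x : ℕ → ℂ) (hconv : ∀ᵐ z : ℂ, ∀ᶠ n in atTop, u (x n + z) = u (x₀ + z))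
    (e' : Bool) (r : ℝ) (hr : r ≠ 0)
    (hl : ∀ n, ∀ᵐ t : UnitAddCircle, ¬ R a b g u e' (x n + c t * r) →
      u (x n + c t * r) = - se e') :
    ∀ᵐ t : UnitAddCircle, ¬ R a b g u e' (x₀ + c t * r) →
      ∀ᶠ n in atTop, u (x n + c t * r) = - se e' := by
  have hr' : (r : ℂ) ≠ 0 := by exact_mod_cast hr
  have h1 := ae_all_iff.mpr (fun i => conv_two u x x₀ hconv (r : ℂ) _ hr' (h.ty_ne e' i).1)
  have h2 := ae_all_iff.mpr (fun i => conv_two u x x₀ hconv (r : ℂ) _ hr' (h.ty_ne e' i).2)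
  filter_upwards [h1, h2, ae_all_iff.mpr hl] with t h1 h2 h3
  intro hnR
  have hex : ∃ i : Fin 6, ¬ ∀ᵐ s : UnitAddCircle,
      se e' * (u (x₀ + c t * r + c s * (ty a b (g e') i).1) +
        u (x₀ + c t * r + c s * (ty a b (g e') i).2)) ≤ 0 := by
    by_contra hcon
    apply hnR
    intro i
    by_contra hi
    exact hcon ⟨i, hi⟩
  obtain ⟨i, hi⟩ := hex
  have hev : ∀ᶠ n in atTop, ¬ R a b g u e' (x n + c t * r) := by
    by_contra hcon
    apply hi
    have hf : ∀ n, ∀ᵐ s : UnitAddCircle, R a b g u e' (x n + c t * r) →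
        se e' * (u (x n + c t * r + c s * (ty a b (g e') i).1) +
          u (x n + c t * r + c s * (ty a b (g e') i).2)) ≤ 0 := by
      intro n
      by_cases hR : R a b g u e' (x n + c t * r)
      · filter_upwards [hR i] with s hs _ using hs
      · exact Filter.Eventually.of_forall (fun s hR' => absurd hR' hR)
    filter_upwards [h1 i, h2 i, ae_all_iff.mpr hf] with s e1 e2 e3
    by_contra hpos
    apply hcon
    filter_upwards [e1, e2] with n e4 e5 hR
    have h6 := e3 n hR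
    rw [add_assoc (x n), add_assoc (x n), e4, e5, ← add_assoc, ← add_assoc] at h6
    exact hpos h6
  filter_upwards [hev] with n hn
  exact h3 n hn

theorem lim_pts {a b : ℝ} {g : Bool → UnitAddCircle} {u : ℂ → ℝ} (h : Cfg a b g u) (e : Bool)
    (x₀ : ℂ) (hx : x₀ ∉ U u (!e)) :
    ∃ x : ℕ → ℂ, Tendsto x atTop (𝓝 x₀) ∧ (∀ n, R a b g u e (x n)) ∧
      (∀ (n : ℕ) (e' : Bool) (r : ℝ), r = a ∨ r = b ∨ r = cc a b (g true) ∨ r = cc a b (g false) →
        ∀ᵐ t : UnitAddCircle, x n + c t * r ∈ U u e' → u (x n + c t * r) = se e') ∧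
      ∀ (e' : Bool) (r : ℝ), r = a ∨ r = b → ∀ᵐ t : UnitAddCircle,
        ¬ R a b g u e' (x₀ + c t * r) → ∀ᶠ n in atTop, u (x n + c t * r) = - se e' := by
  have hgood : ∀ᵐ z : ℂ, 0 ≤ se e * u z → (R a b g u e z ∧
      (∀ (e' : Bool) (r : ℝ), r = a ∨ r = b ∨ r = cc a b (g true) ∨ r = cc a b (g false) →
        ∀ᵐ t : UnitAddCircle, z + c t * r ∈ U u e' → u (z + c t * r) = se e') ∧
      ∀ (e' : Bool) (r : ℝ), r = a ∨ r = b → ∀ᵐ t : UnitAddCircle,
        ¬ R a b g u e' (z + c t * r) → u (z + c t * r) = - se e') := by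
    have k1 := fun r : ℝ => ae_all_iff.mpr (fun e' => ae_circ (U_ae u e') (r : ℂ))
    have k2 := fun r : ℝ => ae_all_iff.mpr (fun e' => ae_circ (h.lock e') (r : ℂ))
    filter_upwards [h.con e, k1 a, k1 b, k1 (cc a b (g true)), k1 (cc a b (g false)), k2 a, k2 b]
      with z h0 h1 h2 h3 h4 h5 h6
    intro hz
    refine ⟨h0 hz, ?_, ?_⟩
    · rintro e' r (rfl | rfl | rfl | rfl)
      · exact h1 e'
      · exact h2 e'
      · exact h3 e'
      · exact h4 e'
    · rintro e' r (rfl | rfl)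
      · exact h5 e'
      · exact h6 e'
  have ex : ∀ n : ℕ, ∃ z ∈ Metric.ball x₀ (1 / ((n : ℝ) + 1)), (R a b g u e z ∧
      (∀ (e' : Bool) (r : ℝ), r = a ∨ r = b ∨ r = cc a b (g true) ∨ r = cc a b (g false) →
        ∀ᵐ t : UnitAddCircle, z + c t * r ∈ U u e' → u (z + c t * r) = se e') ∧
      ∀ (e' : Bool) (r : ℝ), r = a ∨ r = b → ∀ᵐ t : UnitAddCircle,
        ¬ R a b g u e' (z + c t * r) → u (z + c t * r) = - se e') := by
    intro n
    obtain ⟨z, ⟨hz1, hz2⟩, hz3⟩ :=
      ((not_U u (!e) x₀ hx (1 / ((n : ℝ) + 1)) (by positivity)).and_eventually hgood).exists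
    refine ⟨z, hz1, hz3 ?_⟩
    rw [se_not] at hz2
    rcases h.val z with h2 | h2 | h2 <;> rcases se_cases e with h3 | h3 <;> rw [h2, h3] at hz2 ⊢ <;>
      revert hz2 <;> norm_num
  choose z hzb hzg using ex
  obtain ⟨φ, hφ, hconv⟩ := limPts_conv u h.meas h.val z x₀ (limPts_ball x₀ z hzb)
  refine ⟨fun n => z (φ n), (limPts_ball x₀ z hzb).comp hφ.tendsto_atTop, fun n => (hzg _).1,
    fun n => (hzg _).2.1, ?_⟩
  intro e' r hr
  have hr0 : r ≠ 0 := by
    rcases hr with rfl | rfl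
    · exact h.ha.ne'
    · exact h.hb.ne'
  exact limPts_step h x₀ (fun n => z (φ n)) hconv e' r hr0 (fun n => (hzg _).2.2 e' r hr)

end LimPtsPart

/-!
## Part Alt: one of two neighbouring points satisfies the opposite constraint (about 50 lines)

PROOF.
Take the sequence `x n` of `lim_pts h e x hx`.  For a.e. `t` (a): `¬ R .. (!e) (x + c t * a) → ∀ᶠ n, u (x n + c t * a) = - se (!e) = se e`; (b): `¬ R .. (!e) (x + c (t + σ) * b) → ∀ᶠ n, u (x n + c (t + σ) * b) = se e`
(`ae_shift`); (c): for all `n`: `se e * (u (x n + c t * a) + u (x n + c t * (b * c σ))) ≤ 0` (type `0` if `σ = g e`, type `1` if `σ = -(g e)`, of `R .. e (x n)`; `c t * (b * c σ) = c (t + σ) * b`).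
If both `R` fail then for large `n`: `se e * (se e + se e) = 2 ≤ 0`, contradiction.
-/

section AltPart

open MeasureTheory Filter Topology Pool.Agent.H93.EG

theorem alt {a b : ℝ} {g : Bool → UnitAddCircle} {u : ℂ → ℝ} (h : Cfg a b g u) (e : Bool)
    (x : ℂ) (hx : x ∉ U u (!e)) (σ : UnitAddCircle) (hσ : σ = g e ∨ σ = -(g e)) :
    ∀ᵐ t : UnitAddCircle, R a b g u (!e) (x + c t * a) ∨ R a b g u (!e) (x + c (t + σ) * b) := by
  obtain ⟨x', _, hR, _, hlast⟩ := lim_pts h e x hx
  have ha := hlast (!e) a (Or.inl rfl)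
  have hb := ae_shift (hlast (!e) b (Or.inr rfl)) σ
  have hc : ∀ᵐ t : UnitAddCircle, ∀ n, se e * (u (x' n + c t * a) + u (x' n + c (t + σ) * b)) ≤ 0 := by
    rw [ae_all_iff]
    intro n
    rcases hσ with rfl | rfl
    · filter_upwards [hR n 0] with t ht
      have e1 : c t * (ty a b (g e) 0).2 = c (t + g e) * b := by
        rw [c_add]
        show c t * ((b : ℂ) * c (g e)) = _
        ring
      have e2 : (ty a b (g e) 0).1 = (a : ℂ) := rfl
      rw [e1, e2] at ht
      exact ht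
    · filter_upwards [hR n 1] with t ht
      have e1 : c t * (ty a b (g e) 1).2 = c (t + -(g e)) * b := by
        rw [c_add]
        show c t * ((b : ℂ) * c (-(g e))) = _
        ring
      have e2 : (ty a b (g e) 1).1 = (a : ℂ) := rfl
      rw [e1, e2] at ht
      exact ht
  filter_upwards [ha, hb, hc] with t h1 h2 h3
  by_contra hcon
  rw [not_or] at hcon
  obtain ⟨n, hn1, hn2⟩ := ((h1 hcon.1).and (h2 hcon.2)).exists
  have h4 := h3 n
  rw [hn1, hn2, se_not, neg_neg] at h4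
  have h5 := se_mul_self e
  linarith

end AltPart

/-!
## Part Adj: points of the third circles seen from the centre (about 70 lines)

PROOF.
First statement.  By `Y_third`, for a.e. `y`, if `Y y` then for a.e. `t`: `u (y + c t * (b * c σ - a)) = - se e` (`ae_rot` from the radius `cc a b (g e)`; `‖b * c σ - a‖ = cc a b σ = cc a b (g e)` for `σ = ± g e`, `cc_neg`).
So `P (y, t) := (Y y → u (y + c t * (b * c σ - a)) = - se e)` is a measurable property (`R_meas`, `h.meas`, `meas_pt`) which holds for a.e. `y`, a.e. `t`; `ae_change` with `d := a`: for a.e. `x`, a.e. `t`: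
`Y (x + c t * a) → u (x + c t * a + c t * (b * c σ - a)) = - se e`, and `x + c t * a + c t * (b * c σ - a) = x + c (t + σ) * b`.
Second statement: the first one for `h.swap : Cfg b a g u` (`Y_swap`).  All four choices of `(e, σ)`: finitely many.
-/

section AdjPart

open MeasureTheory Filter Topology Pool.Agent.H93.EG

private theorem TSAdj_Ymeas (a b : ℝ) (g : Bool → UnitAddCircle) (u : ℂ → ℝ) (hu : Measurable u) :
    MeasurableSet {y : ℂ | Y a b g u y} :=
  (R_meas a b g u hu true).inter (R_meas a b g u hu false)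

private theorem TSAdj_one {a b : ℝ} {g : Bool → UnitAddCircle} {u : ℂ → ℝ} (h : Cfg a b g u)
    (e : Bool) (σ : UnitAddCircle) (hσ : σ = g e ∨ σ = -(g e)) :
    ∀ᵐ x : ℂ, ∀ᵐ t : UnitAddCircle, Y a b g u (x + c t * a) → u (x + c (t + σ) * b) = - se e := by
  have hcc : cc a b (g e) = cc a b σ := by
    rcases hσ with rfl | rfl
    · rfl
    · rw [cc_neg]
  have hnorm : ‖((cc a b (g e) : ℝ) : ℂ)‖ = ‖(b : ℂ) * c σ - a‖ := by
    rw [Complex.norm_real, Real.norm_eq_abs, abs_of_nonneg (h.cc_pos e).le, hcc]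
    rfl
  have hP : MeasurableSet {p : ℂ × UnitAddCircle | Y a b g u p.1 →
      u (p.1 + c p.2 * ((b : ℂ) * c σ - a)) = - se e} := by
    have h1 : {p : ℂ × UnitAddCircle | Y a b g u p.1 →
        u (p.1 + c p.2 * ((b : ℂ) * c σ - a)) = - se e} =
        (Prod.fst ⁻¹' {y : ℂ | Y a b g u y})ᶜ ∪
          {p : ℂ × UnitAddCircle | u (p.1 + c p.2 * ((b : ℂ) * c σ - a)) = - se e} := by
      ext p
      simp only [Set.mem_ofPred_eq, Set.mem_union, Set.mem_compl_iff, Set.mem_preimage]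
      tauto
    rw [h1]
    exact (measurable_fst (TSAdj_Ymeas a b g u h.meas)).compl.union
      (measurableSet_eq_fun (h.meas.comp (meas_pt _)) measurable_const)
  have h2 : ∀ᵐ y : ℂ, ∀ᵐ t : UnitAddCircle, Y a b g u y →
      u (y + c t * ((b : ℂ) * c σ - a)) = - se e := by
    filter_upwards [Y_third h] with y hy
    by_cases hY : Y a b g u y
    · have h3 := ae_rot (P := fun z => u z = - se e) y ((cc a b (g e) : ℝ) : ℂ)
        ((b : ℂ) * c σ - a) hnorm (hy hY e)
      filter_upwards [h3] with t ht _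
      exact ht
    · exact Filter.Eventually.of_forall fun t h4 => absurd h4 hY
  have h5 := ae_change (P := fun p : ℂ × UnitAddCircle => Y a b g u p.1 →
      u (p.1 + c p.2 * ((b : ℂ) * c σ - a)) = - se e) hP h2 (a : ℂ)
  filter_upwards [h5] with x hx
  filter_upwards [hx] with t ht hY
  have h6 := ht hY
  have h7 : x + c t * (a : ℂ) + c t * ((b : ℂ) * c σ - a) = x + c (t + σ) * b := by
    rw [c_add]
    ring
  change u (x + c t * (a : ℂ) + c t * ((b : ℂ) * c σ - a)) = - se e at h6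
  rw [h7] at h6
  exact h6

private theorem TSAdj_two {a b : ℝ} {g : Bool → UnitAddCircle} {u : ℂ → ℝ} (h : Cfg a b g u)
    (e : Bool) (σ : UnitAddCircle) (hσ : σ = g e ∨ σ = -(g e)) :
    ∀ᵐ x : ℂ, (∀ᵐ t : UnitAddCircle, Y a b g u (x + c t * a) → u (x + c (t + σ) * b) = - se e) ∧
      ∀ᵐ t : UnitAddCircle, Y a b g u (x + c t * b) → u (x + c (t + σ) * a) = - se e := by
  filter_upwards [TSAdj_one h e σ hσ, TSAdj_one h.swap e σ hσ] with x h1 h2
  refine ⟨h1, ?_⟩
  filter_upwards [h2] with t ht hY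
  exact ht ((Y_swap a b g u _).mpr hY)

theorem adj {a b : ℝ} {g : Bool → UnitAddCircle} {u : ℂ → ℝ} (h : Cfg a b g u) :
    ∀ᵐ x : ℂ, ∀ (e : Bool) (σ : UnitAddCircle), (σ = g e ∨ σ = -(g e)) →
      (∀ᵐ t : UnitAddCircle, Y a b g u (x + c t * a) → u (x + c (t + σ) * b) = - se e) ∧
      ∀ᵐ t : UnitAddCircle, Y a b g u (x + c t * b) → u (x + c (t + σ) * a) = - se e := by
  filter_upwards [TSAdj_two h true (g true) (Or.inl rfl), TSAdj_two h true (-(g true)) (Or.inr rfl),
    TSAdj_two h false (g false) (Or.inl rfl), TSAdj_two h false (-(g false)) (Or.inr rfl)]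
    with x h1 h2 h3 h4
  intro e σ hσ
  cases e
  · rcases hσ with rfl | rfl
    · exact h3
    · exact h4
  · rcases hσ with rfl | rfl
    · exact h1
    · exact h2

end AdjPart

end Pool.Agent.H79.TM
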