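import Pool.Agent.H79.TM.M2

/-!
# Circles around boundary points
-/

set_option autoImplicit false

namespace Pool.Agent.H79.TM

/-!
## Part Ta: the points of Y on the circle (about 150 lines)

PROOF.
Fix `x ∈ Z u` satisfying `adj` and, for `r ∈ {a, b}` and both `e`: for a.e. `t`: (lock) `¬ R .. e (x + c t * r) → u (x + c t * r) = - se e` (`ae_circ` for `h.lock e`).  Note that lock implies that for a.e. `t` at least one of
`R .. true`, `R .. false` holds at `x + c t * r`.
Claim: for `σ₁ ∈ {g true, -(g true)}`, `σ₂ ∈ {g false, -(g false)}`: for a.e. `t`: `Y (x + c t * a) → Y (x + c t' * a)` with `t' := t + (σ₁ + σ₂)`.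
Put `w := t + σ₁ = t' + (-σ₂)` and `v := t + σ₂ = t' + (-σ₁)`.  By `adj`: `u (x + c w * b) = - se true = -1` and `u (x + c v * b) = - se false = 1`.
Suppose `¬ R .. true (x + c t' * a)`.  Then (lock) `u (x + c t' * a) = -1`.  `alt` for `e = false`, `σ = -σ₂` (`x ∉ U u true`) at `t'`: `R .. true (x + c t' * a) ∨ R .. true (x + c w * b)`, so `R .. true (x + c w * b)`.
As `u (x + c w * b) = -1`, (lock) for `e = false` (which would give `u = 1`) shows `R .. false (x + c w * b)`.  So `Y (x + c w * b)`, and `adj` (second statement, `e = false`, `σ = σ₂`, at `w`): `u (x + c (w + σ₂) * a) = 1`, and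
`w + σ₂ = t'`: contradiction.
Suppose `¬ R .. false (x + c t' * a)`.  Then `u (x + c t' * a) = 1`.  `alt` for `e = true`, `σ = -σ₁` (`x ∉ U u false`) at `t'`: `R .. false (x + c v * b)`.  As `u (x + c v * b) = 1`, (lock) for `e = true` shows `R .. true (x + c v * b)`.
So `Y (x + c v * b)` and `adj` (second statement, `e = true`, `σ = σ₁`, at `v`): `u (x + c (v + σ₁) * a) = -1`, `v + σ₁ = t'`: contradiction.
(All a.e. statements are shifted with `ae_shift`.)  The claim and `erg_set` with `Θ := {t | Y (x + c t * a)}` (measurable by `R_meas`) prove the theorem.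
-/

section TaPart

open MeasureTheory Filter Topology Pool.Agent.H93.EG

private theorem Ta_claim {a b : ℝ} {g : Bool → UnitAddCircle} {u : ℂ → ℝ} (h : Cfg a b g u)
    (x : ℂ) (hx : x ∈ Z u)
    (hadj : ∀ (e : Bool) (σ : UnitAddCircle), (σ = g e ∨ σ = -(g e)) →
      (∀ᵐ t : UnitAddCircle, Y a b g u (x + c t * a) → u (x + c (t + σ) * b) = - se e) ∧
      ∀ᵐ t : UnitAddCircle, Y a b g u (x + c t * b) → u (x + c (t + σ) * a) = - se e)
    (la : ∀ e : Bool, ∀ᵐ t : UnitAddCircle, ¬ R a b g u e (x + c t * a) → u (x + c t * a) = - se e)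
    (lb : ∀ e : Bool, ∀ᵐ t : UnitAddCircle, ¬ R a b g u e (x + c t * b) → u (x + c t * b) = - se e)
    (σ₁ σ₂ : UnitAddCircle) (h1 : σ₁ = g true ∨ σ₁ = -(g true))
    (h2 : σ₂ = g false ∨ σ₂ = -(g false)) :
    ∀ᵐ t : UnitAddCircle, Y a b g u (x + c t * a) → Y a b g u (x + c (t + (σ₁ + σ₂)) * a) := by
  have h1' : -σ₁ = g true ∨ -σ₁ = -(g true) := by
    rcases h1 with h1 | h1
    · exact Or.inr (by rw [h1])
    · exact Or.inl (by rw [h1, neg_neg])
  have h2' : -σ₂ = g false ∨ -σ₂ = -(g false) := by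
    rcases h2 with h2 | h2
    · exact Or.inr (by rw [h2])
    · exact Or.inl (by rw [h2, neg_neg])
  filter_upwards [(hadj true σ₁ h1).1, (hadj false σ₂ h2).1, ae_shift (hadj false σ₂ h2).2 σ₁,
    ae_shift (hadj true σ₁ h1).2 σ₂, ae_shift (la true) (σ₁ + σ₂), ae_shift (la false) (σ₁ + σ₂),
    ae_shift (lb false) σ₁, ae_shift (lb true) σ₂,
    ae_shift (alt h false x hx.1 (-σ₂) h2') (σ₁ + σ₂),
    ae_shift (alt h true x hx.2 (-σ₁) h1') (σ₁ + σ₂)] with t A1 A2 B1 B2 L1 L0 M0 M1 T1 T2 hY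
  have e1 : t + (σ₁ + σ₂) + -σ₂ = t + σ₁ := by abel
  have e2 : t + (σ₁ + σ₂) + -σ₁ = t + σ₂ := by abel
  have e3 : t + σ₁ + σ₂ = t + (σ₁ + σ₂) := by abel
  have e4 : t + σ₂ + σ₁ = t + (σ₁ + σ₂) := by abel
  rw [e1] at T1
  rw [e2] at T2
  rw [e3] at B1
  rw [e4] at B2
  have hw := A1 hY
  have hv := A2 hY
  have hs1 : se true = 1 := rfl
  have hs0 : se false = -1 := rfl
  rw [hs1] at hw B2 L1 M1
  rw [hs0] at hv B1 L0 M0
  simp only [Bool.not_false, Bool.not_true] at T1 T2
  constructor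
  · by_contra hn
    have u1 := L1 hn
    have r1 : R a b g u true (x + c (t + σ₁) * b) := T1.resolve_left hn
    have r0 : R a b g u false (x + c (t + σ₁) * b) := by
      by_contra hn0
      have := M0 hn0
      rw [hw] at this
      norm_num at this
    have := B1 ⟨r1, r0⟩
    rw [u1] at this
    norm_num at this
  · by_contra hn
    have u1 := L0 hn
    have r0 : R a b g u false (x + c (t + σ₂) * b) := T2.resolve_left hn
    have r1 : R a b g u true (x + c (t + σ₂) * b) := by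
      by_contra hn0
      have := M1 hn0
      rw [hv] at this
      norm_num at this
    have := B2 ⟨r1, r0⟩
    rw [u1] at this
    norm_num at this

theorem Ta {a b : ℝ} {g : Bool → UnitAddCircle} {u : ℂ → ℝ} (h : Cfg a b g u) :
    ∀ᵐ x : ℂ, x ∈ Z u → (∀ᵐ t : UnitAddCircle, Y a b g u (x + c t * a)) ∨
      ∀ᵐ t : UnitAddCircle, ¬ Y a b g u (x + c t * a) := by
  filter_upwards [adj h, ae_circ (h.lock true) a, ae_circ (h.lock false) a,
    ae_circ (h.lock true) b, ae_circ (h.lock false) b] with x hadj la1 la0 lb1 lb0 hx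
  have la : ∀ e : Bool, ∀ᵐ t : UnitAddCircle,
      ¬ R a b g u e (x + c t * a) → u (x + c t * a) = - se e := by
    intro e
    cases e
    · exact la0
    · exact la1
  have lb : ∀ e : Bool, ∀ᵐ t : UnitAddCircle,
      ¬ R a b g u e (x + c t * b) → u (x + c t * b) = - se e := by
    intro e
    cases e
    · exact lb0
    · exact lb1
  have hmeas : MeasurableSet {t : UnitAddCircle | Y a b g u (x + c t * a)} := by
    have h1 : MeasurableSet {y : ℂ | Y a b g u y} :=
      (R_meas a b g u h.meas true).inter (R_meas a b g u h.meas false)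
    have h2 : Measurable (fun t : UnitAddCircle => x + c t * (a : ℂ)) :=
      measurable_const.add (measurable_c.mul_const _)
    exact h2 h1
  exact erg_set g h.erg {t : UnitAddCircle | Y a b g u (x + c t * a)} hmeas
    (Ta_claim h x hx hadj la lb _ _ (Or.inl rfl) (Or.inl rfl))
    (Ta_claim h x hx hadj la lb _ _ (Or.inl rfl) (Or.inr rfl))
    (Ta_claim h x hx hadj la lb _ _ (Or.inr rfl) (Or.inl rfl))

end TaPart

/-!
# Almost no point of the circles is in Y

If `Y (x + c t * a)` for almost all `t`, then by `adj` at `t` and at `t + (g true - g false)` the point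
`x + c (t + g true) * b` has both values `-1` and `1`.
-/

section TaNullPart

open MeasureTheory Filter Topology Pool.Agent.H93.EG

private theorem TaNull_one {a b : ℝ} {g : Bool → UnitAddCircle} {u : ℂ → ℝ} (h : Cfg a b g u) :
    ∀ᵐ x : ℂ, x ∈ Z u → ∀ᵐ t : UnitAddCircle, ¬ Y a b g u (x + c t * a) := by
  filter_upwards [Ta h, adj h] with x hx hadj hZ
  rcases hx hZ with hfull | hnull
  · exfalso
    have A1 := (hadj true (g true) (Or.inl rfl)).1
    have A2 := (hadj false (g false) (Or.inl rfl)).1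
    obtain ⟨t, h1, h2, h3, h4⟩ := (hfull.and ((ae_shift hfull (g true + -(g false))).and
      (A1.and (ae_shift A2 (g true + -(g false)))))).exists
    have e1 := h3 h1
    have e2 := h4 h2
    rw [show t + (g true + -(g false)) + g false = t + g true by abel] at e2
    rw [e1] at e2
    have hs1 : se true = 1 := rfl
    have hs0 : se false = -1 := rfl
    rw [hs1, hs0] at e2
    norm_num at e2
  · exact hnull

theorem Ta_null {a b : ℝ} {g : Bool → UnitAddCircle} {u : ℂ → ℝ} (h : Cfg a b g u) :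
    ∀ᵐ x : ℂ, x ∈ Z u → (∀ᵐ t : UnitAddCircle, ¬ Y a b g u (x + c t * a)) ∧
      ∀ᵐ t : UnitAddCircle, ¬ Y a b g u (x + c t * b) := by
  filter_upwards [TaNull_one h, TaNull_one h.swap] with x h1 h2 hZ
  refine ⟨h1 hZ, ?_⟩
  filter_upwards [h2 hZ] with t ht hY
  exact ht ((Y_swap a b g u _).mpr hY)

end TaNullPart

/-!
## Part CircK: the circles around almost every boundary point are monochromatic (about 110 lines)

PROOF.
Fix `x ∈ Z u` satisfying `Ta_null` and (lock) on both circles (for `r ∈ {a, b}`, both `e`, a.e. `t`: `¬ R .. e (x + c t * r) → u (x + c t * r) = - se e`; `ae_circ` for `h.lock e`).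
By (lock) at most one of `R .. true`, `R .. false` fails, by `Ta_null` at least one fails: for a.e. `t`, exactly one of `R .. true`, `R .. false` holds at `x + c t * a`; the same for `b`.
Let `α t := 1` if `R .. true (x + c t * a)` and `0` otherwise; `β t := 1` if `R .. false (x + c t * b)`, `0` otherwise (measurable by `R_meas`; values in `{0, 1}`).
`alt` for `e = true` (`x ∉ U u false`), `σ = ± g true`: `R .. false (x + c t * a) ∨ R .. false (x + c (t + σ) * b)`: if `α t = 1` then `R .. false (x + c t * a)` fails, so `β (t + σ) = 1`: `α t ≤ β (t + σ)` a.e.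
`alt` for `e = false` (`x ∉ U u true`), `σ = ± g false`: `R .. true (x + c t * a) ∨ R .. true (x + c (t + σ) * b)`: if `β (t + σ) = 1` then `R .. true (x + c (t + σ) * b)` fails (exactly one holds), so `α t = 1`: `β (t + σ) ≤ α t` a.e.
`rig0`: `α = β = κ₀` a.e., `κ₀ ∈ {0, 1}`.  If `κ₀ = 1` take `κ := true`: for a.e. `t`, `R .. true (x + c t * a)`, so `¬ R .. false (x + c t * a)`, hence `u (x + c t * a) = - se false = 1`; `R .. false (x + c t * b)`, so
`¬ R .. true (x + c t * b)`, `u (x + c t * b) = -1`.  If `κ₀ = 0` take `κ := false`, symmetric.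
-/

section CircKPart

open MeasureTheory Filter Topology Pool.Agent.H93.EG

theorem circK {a b : ℝ} {g : Bool → UnitAddCircle} {u : ℂ → ℝ} (h : Cfg a b g u) :
    ∀ᵐ x : ℂ, x ∈ Z u → ∃ κ : Bool, (∀ᵐ t : UnitAddCircle, ¬ R a b g u (!κ) (x + c t * a)) ∧
      (∀ᵐ t : UnitAddCircle, ¬ R a b g u κ (x + c t * b)) ∧ Cc u x a (se κ) ∧
      Cc u x b (- se κ) := by
  filter_upwards [Ta_null h, ae_circ (h.lock true) a, ae_circ (h.lock false) a,
    ae_circ (h.lock true) b, ae_circ (h.lock false) b] with x hT la1 la0 lb1 lb0 hx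
  obtain ⟨hTa, hTb⟩ := hT hx
  -- exactly one of the two constraints holds
  have key : ∀ z : ℂ, ¬ Y a b g u z → (¬ R a b g u true z → u z = - se true) →
      (¬ R a b g u false z → u z = - se false) →
      (R a b g u true z ∧ ¬ R a b g u false z) ∨ (¬ R a b g u true z ∧ R a b g u false z) := by
    intro z h1 h2 h3
    by_cases h4 : R a b g u true z
    · exact Or.inl ⟨h4, fun h5 => h1 ⟨h4, h5⟩⟩
    · by_cases h5 : R a b g u false z
      · exact Or.inr ⟨h4, h5⟩
      · exfalso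
        have e1 := h2 h4
        have e2 := h3 h5
        rw [e1] at e2
        norm_num [se] at e2
  have ka : ∀ᵐ t : UnitAddCircle, (R a b g u true (x + c t * a) ∧ ¬ R a b g u false (x + c t * a)) ∨
      (¬ R a b g u true (x + c t * a) ∧ R a b g u false (x + c t * a)) := by
    filter_upwards [hTa, la1, la0] with t h1 h2 h3
    exact key _ h1 h2 h3
  have kb : ∀ᵐ t : UnitAddCircle, (R a b g u true (x + c t * b) ∧ ¬ R a b g u false (x + c t * b)) ∨
      (¬ R a b g u true (x + c t * b) ∧ R a b g u false (x + c t * b)) := by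
    filter_upwards [hTb, lb1, lb0] with t h1 h2 h3
    exact key _ h1 h2 h3
  set SA : Set UnitAddCircle := {t | R a b g u true (x + c t * a)} with hSA
  set SB : Set UnitAddCircle := {t | R a b g u false (x + c t * b)} with hSB
  have mA : MeasurableSet SA := by
    have h1 : Measurable (fun t : UnitAddCircle => x + c t * (a : ℂ)) :=
      measurable_const.add (measurable_c.mul_const _)
    exact h1 (R_meas a b g u h.meas true)
  have mB : MeasurableSet SB := by
    have h1 : Measurable (fun t : UnitAddCircle => x + c t * (b : ℂ)) :=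
      measurable_const.add (measurable_c.mul_const _)
    exact h1 (R_meas a b g u h.meas false)
  set α : UnitAddCircle → ℝ := SA.indicator (fun _ => (1 : ℝ)) with hα
  set β : UnitAddCircle → ℝ := SB.indicator (fun _ => (1 : ℝ)) with hβ
  have α1 : ∀ t, t ∈ SA → α t = 1 := fun t ht => Set.indicator_of_mem ht _
  have α0 : ∀ t, t ∉ SA → α t = 0 := fun t ht => Set.indicator_of_notMem ht _
  have β1 : ∀ t, t ∈ SB → β t = 1 := fun t ht => Set.indicator_of_mem ht _
  have β0 : ∀ t, t ∉ SB → β t = 0 := fun t ht => Set.indicator_of_notMem ht _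
  have αv : ∀ t, 0 ≤ α t ∧ α t ≤ 1 := by
    intro t
    by_cases ht : t ∈ SA
    · rw [α1 t ht]; norm_num
    · rw [α0 t ht]; norm_num
  have βv : ∀ t, 0 ≤ β t ∧ β t ≤ 1 := by
    intro t
    by_cases ht : t ∈ SB
    · rw [β1 t ht]; norm_num
    · rw [β0 t ht]; norm_num
  have mα : Measurable α := measurable_const.indicator mA
  have mβ : Measurable β := measurable_const.indicator mB
  have bα : ∀ t, |α t| ≤ 1 := fun t => abs_le.mpr ⟨by linarith [(αv t).1], (αv t).2⟩
  have bβ : ∀ t, |β t| ≤ 1 := fun t => abs_le.mpr ⟨by linarith [(βv t).1], (βv t).2⟩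
  have hx1 : x ∉ U u (!true) := hx.2
  have hx0 : x ∉ U u (!false) := hx.1
  have up : ∀ σ : UnitAddCircle, σ = g true ∨ σ = -(g true) →
      ∀ᵐ t : UnitAddCircle, α t ≤ β (t + σ) := by
    intro σ hσ
    filter_upwards [alt h true x hx1 σ hσ, ka] with t h1 h2
    by_cases ht : t ∈ SA
    · have h3 : R a b g u true (x + c t * a) := ht
      have h4 : ¬ R a b g u false (x + c t * a) := by
        rcases h2 with h2 | h2
        · exact h2.2
        · exact absurd h3 h2.1
      have h5 : (t + σ) ∈ SB := h1.resolve_left h4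
      rw [β1 _ h5]
      exact (αv t).2
    · rw [α0 t ht]
      exact (βv _).1
  have down : ∀ σ : UnitAddCircle, σ = g false ∨ σ = -(g false) →
      ∀ᵐ t : UnitAddCircle, β (t + σ) ≤ α t := by
    intro σ hσ
    filter_upwards [alt h false x hx0 σ hσ, ae_shift kb σ] with t h1 h2
    by_cases ht : (t + σ) ∈ SB
    · have h3 : R a b g u false (x + c (t + σ) * b) := ht
      have h4 : ¬ R a b g u true (x + c (t + σ) * b) := by
        rcases h2 with h2 | h2
        · exact absurd h3 h2.2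
        · exact h2.1
      have h5 : t ∈ SA := h1.resolve_right h4
      rw [α1 _ h5]
      exact (βv _).2
    · rw [β0 _ ht]
      exact (αv _).1
  obtain ⟨κ₀, hκα, hκβ⟩ := rig0 g h.erg α β mα mβ bα bβ (up _ (Or.inl rfl)) (up _ (Or.inr rfl))
    (down _ (Or.inl rfl)) (down _ (Or.inr rfl))
  obtain ⟨t0, ht0⟩ := hκα.exists
  by_cases hc : t0 ∈ SA
  · -- the value 1
    rw [α1 t0 hc] at ht0
    subst ht0
    have hA : ∀ᵐ t : UnitAddCircle, ¬ R a b g u false (x + c t * a) := by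
      filter_upwards [hκα, ka] with t h1 h2
      rcases h2 with h2 | h2
      · exact h2.2
      · exfalso
        have h3 : t ∉ SA := h2.1
        rw [α0 t h3] at h1
        norm_num at h1
    have hB : ∀ᵐ t : UnitAddCircle, ¬ R a b g u true (x + c t * b) := by
      filter_upwards [hκβ, kb] with t h1 h2
      rcases h2 with h2 | h2
      · exfalso
        have h3 : t ∉ SB := h2.2
        rw [β0 t h3] at h1
        norm_num at h1
      · exact h2.1
    refine ⟨true, hA, hB, ?_, ?_⟩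
    · filter_upwards [hA, la0] with t h1 h2
      rw [h2 h1]
      norm_num [se]
    · filter_upwards [hB, lb1] with t h1 h2
      exact h2 h1
  · -- the value 0
    rw [α0 t0 hc] at ht0
    subst ht0
    have hA : ∀ᵐ t : UnitAddCircle, ¬ R a b g u true (x + c t * a) := by
      filter_upwards [hκα] with t h1 h2
      have h3 : t ∈ SA := h2
      rw [α1 t h3] at h1
      norm_num at h1
    have hB : ∀ᵐ t : UnitAddCircle, ¬ R a b g u false (x + c t * b) := by
      filter_upwards [hκβ] with t h1 h2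
      have h3 : t ∈ SB := h2
      rw [β1 t h3] at h1
      norm_num at h1
    refine ⟨false, hA, hB, ?_, ?_⟩
    · filter_upwards [hA, la1] with t h1 h2
      rw [h2 h1]
      norm_num [se]
    · filter_upwards [hB, lb0] with t h1 h2
      exact h2 h1

end CircKPart

/-!
## Part Sep: two boundary points are not at an intermediate distance (about 90 lines)

PROOF.
`sep`: by `circK` a.e. `x ∈ Z u` has `Cc u x a (se κ)` and `Cc u x b (- se κ)` for some `κ =: κ x : Bool`.  Let `x, y` be two such points.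
If `κ y = κ x = κ`: `Cc u x a (se κ)` and `Cc u y b (- se κ)`, excluded for a.e. `y` with `|a - b| < ‖y - x‖ < a + b` by `noPair` with `(r, s) = (a, b)`, `(χ, χ') = (se κ, - se κ)`.
If `κ y = !κ x`: `Cc u x a (se κ)`, `Cc u y a (- se κ)` are excluded for `0 < ‖y - x‖ < 2 a` by `noPair` with `r = s = a`, and `Cc u x b (- se κ)`, `Cc u y b (se κ)` for `0 < ‖y - x‖ < 2 b` by `noPair` with `r = s = b`; and
`0 ≤ |a - b|`, `a + b ≤ 2 max a b`.  (For each `x` there are only finitely many cases: both values of `κ x`, `κ y`.)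
`noAnn`: choose a number `d` with `|a - b| < d < min (2 r₂) (a + b)` (possible: `|a - b| < 2 r₂`, `|a - b| < a + b`) and `ρ` with `r₁ < ρ < r₂`, `d < 2 ρ` (possible as `d < 2 r₂`).  Points `w₁ := x + ρ`,
`w₂ := x + ρ v` with `‖v‖ = 1`, `‖v - 1‖ = d / ρ ∈ (0, 2)` (`v = X + i √(1 - X²)`, `X = 1 - d² / (2 ρ²)`).  `‖w₁ - w₂‖ = d`.  The open set `O` of pairs `(z₁, z₂)` with `z₁, z₂` in the annulus and `|a - b| < ‖z₂ - z₁‖ < a + b` contains
`(w₁, w₂)`; by `sep` and `exists_open'` there are `z₁` near `w₁` (satisfying `sep`; `z₁ ∈ Z u` by `hsub`) and then `z₂` near `w₂`, `z₂ ∈ Z u`, with `a + b ≤ ‖z₂ - z₁‖`: contradiction.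
-/

section SepPart

open MeasureTheory Filter Topology Pool.Agent.H93.EG

private theorem Sep_exists_v (D : ℝ) (h0 : 0 ≤ D) (h2 : D ≤ 2) :
    ∃ v : ℂ, ‖v‖ = 1 ∧ ‖v - 1‖ = D := by
  set X : ℝ := 1 - D ^ 2 / 2 with hX
  have hX1 : 0 ≤ 1 - X ^ 2 := by
    rw [hX]
    nlinarith [sq_nonneg D, mul_nonneg h0 (sub_nonneg.mpr h2)]
  have hs := Real.sq_sqrt hX1
  refine ⟨⟨X, Real.sqrt (1 - X ^ 2)⟩, ?_, ?_⟩
  · have h1 : ‖(⟨X, Real.sqrt (1 - X ^ 2)⟩ : ℂ)‖ ^ 2 = 1 ^ 2 := by
      rw [← Complex.normSq_eq_norm_sq, Complex.normSq_apply]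
      show X * X + Real.sqrt (1 - X ^ 2) * Real.sqrt (1 - X ^ 2) = 1 ^ 2
      nlinarith
    exact (sq_eq_sq₀ (norm_nonneg _) zero_le_one).mp h1
  · have h1 : ‖(⟨X, Real.sqrt (1 - X ^ 2)⟩ : ℂ) - 1‖ ^ 2 = D ^ 2 := by
      rw [← Complex.normSq_eq_norm_sq, Complex.normSq_apply, Complex.sub_re, Complex.sub_im,
        Complex.one_re, Complex.one_im]
      show (X - 1) * (X - 1) + (Real.sqrt (1 - X ^ 2) - 0) * (Real.sqrt (1 - X ^ 2) - 0) = D ^ 2
      nlinarith
    exact (sq_eq_sq₀ (norm_nonneg _) h0).mp h1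

theorem sep {a b : ℝ} {g : Bool → UnitAddCircle} {u : ℂ → ℝ} (h : Cfg a b g u) :
    ∀ᵐ x : ℂ, x ∈ Z u → ∀ᵐ y : ℂ, y ∈ Z u → |a - b| < ‖y - x‖ → a + b ≤ ‖y - x‖ := by
  have nse : ∀ e : Bool, se e ≠ - se e := by
    intro e
    cases e <;> norm_num [se]
  have nse' : ∀ e : Bool, - se e ≠ se e := fun e => (nse e).symm
  have Ck := circK h
  filter_upwards [Ck, noPair u h.meas a b h.ha h.hb (se true) (- se true) (nse true),
    noPair u h.meas a b h.ha h.hb (se false) (- se false) (nse false),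
    noPair u h.meas a a h.ha h.ha (se true) (- se true) (nse true),
    noPair u h.meas a a h.ha h.ha (se false) (- se false) (nse false),
    noPair u h.meas b b h.hb h.hb (- se true) (se true) (nse' true),
    noPair u h.meas b b h.hb h.hb (- se false) (se false) (nse' false)] with x hx p1 p2 p3 p4 p5 p6 hxZ
  obtain ⟨κ, -, -, hca, hcb⟩ := hx hxZ
  have q1 : ∀ᵐ y : ℂ, |a - b| < ‖y - x‖ → ‖y - x‖ < a + b → ¬ Cc u y b (- se κ) := by
    cases κ
    · exact p2 hca
    · exact p1 hca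
  have q2 : ∀ᵐ y : ℂ, |a - a| < ‖y - x‖ → ‖y - x‖ < a + a → ¬ Cc u y a (- se κ) := by
    cases κ
    · exact p4 hca
    · exact p3 hca
  have q3 : ∀ᵐ y : ℂ, |b - b| < ‖y - x‖ → ‖y - x‖ < b + b → ¬ Cc u y b (se κ) := by
    cases κ
    · exact p6 hcb
    · exact p5 hcb
  filter_upwards [Ck, q1, q2, q3] with y hy r1 r2 r3 hyZ hlt
  by_contra hcon
  push Not at hcon
  obtain ⟨κ', -, -, hya, hyb⟩ := hy hyZ
  have h0 : 0 < ‖y - x‖ := lt_of_le_of_lt (abs_nonneg _) hlt
  by_cases hk : κ' = κ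
  · subst hk
    exact r1 hlt hcon hyb
  · have hk' : κ' = !κ := by
      cases κ <;> cases κ' <;> simp_all
    subst hk'
    rw [se_not] at hya hyb
    rw [neg_neg] at hyb
    rcases le_total a b with hab | hab
    · exact r3 (by rw [sub_self, abs_zero]; exact h0) (by linarith) hyb
    · exact r2 (by rw [sub_self, abs_zero]; exact h0) (by linarith) hya

theorem noAnn {a b : ℝ} {g : Bool → UnitAddCircle} {u : ℂ → ℝ} (h : Cfg a b g u) (x : ℂ)
    (r₁ r₂ : ℝ) (h0 : 0 ≤ r₁) (h12 : r₁ < r₂) (h2 : |a - b| < 2 * r₂)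
    (hsub : ∀ z : ℂ, r₁ < ‖z - x‖ → ‖z - x‖ < r₂ → z ∈ Z u) : False := by
  have hab : |a - b| < a + b := by
    rw [abs_lt]
    constructor <;> linarith [h.ha, h.hb]
  obtain ⟨d, hd1, hd2⟩ := exists_between (lt_min h2 hab)
  have hd3 : d < 2 * r₂ := lt_of_lt_of_le hd2 (min_le_left _ _)
  have hd4 : d < a + b := lt_of_lt_of_le hd2 (min_le_right _ _)
  have hd0 : 0 < d := lt_of_le_of_lt (abs_nonneg _) hd1
  obtain ⟨ρ, hρ1, hρ2⟩ := exists_between (max_lt h12 (show d / 2 < r₂ by linarith))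
  have hρ3 : r₁ < ρ := lt_of_le_of_lt (le_max_left _ _) hρ1
  have hρ4 : d < 2 * ρ := by
    have := lt_of_le_of_lt (le_max_right r₁ (d / 2)) hρ1
    linarith
  have hρ0 : 0 < ρ := lt_of_le_of_lt h0 hρ3
  obtain ⟨v, hv1, hv2⟩ := Sep_exists_v (d / ρ) (by positivity) (by
    rw [div_le_iff₀ hρ0]
    exact hρ4.le)
  have nρ : ‖(ρ : ℂ)‖ = ρ := by
    rw [Complex.norm_real, Real.norm_eq_abs, abs_of_pos hρ0]
  set w₁ : ℂ := x + ρ with hw₁
  set w₂ : ℂ := x + ρ * v with hw₂
  have e1 : ‖w₁ - x‖ = ρ := by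
    rw [hw₁, add_sub_cancel_left]
    exact nρ
  have e2 : ‖w₂ - x‖ = ρ := by
    rw [hw₂, add_sub_cancel_left, norm_mul, nρ, hv1, mul_one]
  have e3 : ‖w₂ - w₁‖ = d := by
    rw [hw₁, hw₂, show x + (ρ : ℂ) * v - (x + ρ) = ρ * (v - 1) by ring, norm_mul, nρ, hv2,
      mul_div_cancel₀ _ hρ0.ne']
  obtain ⟨ε, hε0, hε⟩ := exists_between (show (0 : ℝ) < min (min (ρ - r₁) (r₂ - ρ))
      (min ((d - |a - b|) / 2) ((a + b - d) / 2)) from by
    refine lt_min (lt_min (by linarith) (by linarith)) (lt_min (by linarith) (by linarith)))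
  have hε1 : ε < ρ - r₁ := lt_of_lt_of_le hε ((min_le_left _ _).trans (min_le_left _ _))
  have hε2 : ε < r₂ - ρ := lt_of_lt_of_le hε ((min_le_left _ _).trans (min_le_right _ _))
  have hε3 : ε < (d - |a - b|) / 2 := lt_of_lt_of_le hε ((min_le_right _ _).trans (min_le_left _ _))
  have hε4 : ε < (a + b - d) / 2 := lt_of_lt_of_le hε ((min_le_right _ _).trans (min_le_right _ _))
  have inZ : ∀ w z : ℂ, ‖w - x‖ = ρ → z ∈ Metric.ball w ε → z ∈ Z u := by
    intro w z hw hz
    rw [Metric.mem_ball, dist_eq_norm] at hz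
    have t1 : ‖z - x‖ ≤ ‖z - w‖ + ‖w - x‖ := by
      have := norm_add_le (z - w) (w - x)
      rwa [sub_add_sub_cancel] at this
    have t2 : ‖w - x‖ ≤ ‖z - w‖ + ‖z - x‖ := by
      have := norm_add_le (w - z) (z - x)
      rwa [sub_add_sub_cancel, norm_sub_rev w z] at this
    exact hsub z (by linarith) (by linarith)
  obtain ⟨z₁, hz₁, hs₁⟩ := exists_open' (sep h) (Metric.ball w₁ ε) Metric.isOpen_ball
    ⟨w₁, Metric.mem_ball_self hε0⟩
  obtain ⟨z₂, hz₂, hs₂⟩ := exists_open' (hs₁ (inZ w₁ z₁ e1 hz₁)) (Metric.ball w₂ ε)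
    Metric.isOpen_ball ⟨w₂, Metric.mem_ball_self hε0⟩
  have hz₂Z := inZ w₂ z₂ e2 hz₂
  rw [Metric.mem_ball, dist_eq_norm] at hz₁ hz₂
  have t1 : ‖z₂ - z₁‖ ≤ ‖z₂ - w₂‖ + ‖w₂ - w₁‖ + ‖z₁ - w₁‖ := by
    have a1 := norm_add_le (z₂ - w₂) (w₂ - w₁)
    have a2 := norm_add_le (z₂ - w₁) (w₁ - z₁)
    rw [sub_add_sub_cancel] at a1 a2
    rw [norm_sub_rev w₁ z₁] at a2
    linarith
  have t2 : ‖w₂ - w₁‖ ≤ ‖z₂ - w₂‖ + ‖z₂ - z₁‖ + ‖z₁ - w₁‖ := by
    have a1 := norm_add_le (w₂ - z₂) (z₂ - z₁)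
    have a2 := norm_add_le (w₂ - z₁) (z₁ - w₁)
    rw [sub_add_sub_cancel] at a1 a2
    rw [norm_sub_rev w₂ z₂] at a1
    linarith
  rw [e3] at t1 t2
  have := hs₂ hz₂Z (by linarith)
  linarith

end SepPart

/-!
## Part ZW: almost every boundary point is in one of the closed sets W (about 130 lines)

PROOF.
Take `x ∈ Z u` and `κ` as in `circK` (only the two statements on `R` are used).  Let `x n → x` be the sequence of `lim_pts h e x _` (for the `e` indicated; `x ∉ U u (!e)` as `x ∈ Z u`).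
(1) Let `‖z - x‖ = a`, `z ∈ U u (!κ)`; `z = x + c t₀ * a` (`exists_pt`).  Use `e = true`.  The set of `t` with `x + c t * a ∈ U u (!κ)` is open and contains `t₀`; choose (`exists_open`) such a `t` satisfying the a.e. conditions
(countably many `n`): `¬ R .. (!κ) (x + c t * a)`, so eventually `u (x n + c t * a) = - se (!κ) = se κ`; and for every `n`: `x n + c t * a ∈ U u (!κ) → u (x n + c t * a) = se (!κ)`.  `x n + c t * a → x + c t * a ∈ U u (!κ)` (open), so for large `n`
`u (x n + c t * a) = se (!κ) = - se κ`; contradiction (`se κ ≠ 0`).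
(2) `‖z - x‖ = b`, `z ∈ U u κ`: the same with `¬ R .. κ (x + c t * b)`, `u (x n + c t * b) = - se κ` and `= se κ`.
(3) `‖z - x‖ = cc a b (g e)`, `z ∈ U u e`.  Case `e = κ`: `z = x + c t₀ * (b * c (g e) - a)`; `lim_pts h e x`; type 2 of `R .. e (x n)`: for a.e. `t`: `se e * (u (x n + c t * (-a)) + u (x n + c t * (b * c (g e) - a))) ≤ 0`.  For a.e. `t`
(`ae_rot`: `‖-a‖ = ‖a‖`): eventually `u (x n + c t * (-a)) = - se (!κ) = se e`; and for `t` near `t₀`, `n` large, `x n + c t * (b c (g e) - a) ∈ U u e` and (third clause of `lim_pts`, `ae_rot` from the radius `cc a b (g e)`) `u (..) = se e`: `2 ≤ 0`.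
To use `ae_rot` for the eventual statement apply it to the property `P w := (¬ R .. (!κ) w → ∀ᶠ n, u (x n + (w - x)) = se e)` with `y = x`.
Case `e = !κ`: `z = x + c t₀ * (a - b * c (g e))`; type 4: `se e * (u (x n + c t * (-(b * c (g e)))) + u (x n + c t * (a - b * c (g e)))) ≤ 0`; for a.e. `t` eventually `u (x n + c t * (-(b * c (g e)))) = - se κ = se e` (from `¬ R .. κ` on the circle of
radius `b`), and the second value is `se e` as before: `2 ≤ 0`.
-/

section ZWPart

open MeasureTheory Filter Topology Pool.Agent.H93.EG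

private theorem ZW_notU {u : ℂ → ℝ} {x : ℂ} (hZ : x ∈ Z u) (e : Bool) : x ∉ U u (!e) := by
  cases e
  · exact hZ.1
  · exact hZ.2

private theorem ZW_open (u : ℂ → ℝ) (e : Bool) (x q : ℂ) :
    IsOpen {t : UnitAddCircle | x + c t * q ∈ U u e} :=
  (U_open u e).preimage (continuous_const.add (continuous_c.mul continuous_const))

private theorem ZW_norm {r : ℝ} (hr : 0 < r) : ‖(r : ℂ)‖ = r := by
  rw [Complex.norm_real, Real.norm_eq_abs, abs_of_pos hr]

private theorem ZW_one {a b : ℝ} {g : Bool → UnitAddCircle} {u : ℂ → ℝ} (h : Cfg a b g u)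
    {x : ℂ} (hZ : x ∈ Z u) (e' : Bool) (r : ℝ) (hr : r = a ∨ r = b) (hr0 : 0 < r)
    (hA : ∀ᵐ t : UnitAddCircle, ¬ R a b g u e' (x + c t * r)) (z : ℂ) (hz : ‖z - x‖ = r) :
    z ∉ U u e' := by
  intro hzU
  obtain ⟨xs, hlim, -, h3, h4⟩ := lim_pts h true x (ZW_notU hZ true)
  obtain ⟨t0, ht0⟩ := exists_pt x (r : ℂ) z (by rw [hz, ZW_norm hr0])
  have hr' : r = a ∨ r = b ∨ r = cc a b (g true) ∨ r = cc a b (g false) :=
    hr.elim Or.inl fun h5 => Or.inr (Or.inl h5)
  have hall : ∀ᵐ t : UnitAddCircle, (¬ R a b g u e' (x + c t * r)) ∧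
      (¬ R a b g u e' (x + c t * r) → ∀ᶠ n in atTop, u (xs n + c t * r) = - se e') ∧
      ∀ n, xs n + c t * r ∈ U u e' → u (xs n + c t * r) = se e' := by
    have h5 : ∀ᵐ t : UnitAddCircle, ∀ n, xs n + c t * r ∈ U u e' → u (xs n + c t * r) = se e' :=
      ae_all_iff.mpr fun n => h3 n e' r hr'
    filter_upwards [hA, h4 e' r hr, h5] with t h6 h7 h8
    exact ⟨h6, h7, h8⟩
  obtain ⟨t, htO, h6, h7, h8⟩ := exists_open hall {t | x + c t * (r : ℂ) ∈ U u e'}
    (ZW_open u e' x r) ⟨t0, by rw [Set.mem_ofPred_eq, ← ht0]; exact hzU⟩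
  have h9 : ∀ᶠ n in atTop, xs n + c t * r ∈ U u e' :=
    (hlim.add_const (c t * (r : ℂ))).eventually ((U_open u e').mem_nhds htO)
  obtain ⟨n, hn1, hn2⟩ := ((h7 h6).and h9).exists
  have h10 := h8 n hn2
  rw [hn1] at h10
  rcases se_cases e' with h11 | h11 <;> rw [h11] at h10 <;> norm_num at h10

private theorem ZW_three {a b : ℝ} {g : Bool → UnitAddCircle} {u : ℂ → ℝ} (h : Cfg a b g u)
    {x : ℂ} (hZ : x ∈ Z u) (e : Bool) (r : ℝ) (hr : r = a ∨ r = b)
    (hA : ∀ᵐ t : UnitAddCircle, ¬ R a b g u (!e) (x + c t * r)) (i : Fin 6)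
    (hp : ‖(r : ℂ)‖ = ‖(ty a b (g e) i).1‖) (hq : cc a b (g e) = ‖(ty a b (g e) i).2‖)
    (z : ℂ) (hz : ‖z - x‖ = cc a b (g e)) : z ∉ U u e := by
  intro hzU
  obtain ⟨xs, hlim, hR, h3, h4⟩ := lim_pts h e x (ZW_notU hZ e)
  obtain ⟨t0, ht0⟩ := exists_pt x (ty a b (g e) i).2 z (by rw [hz, hq])
  have hcc : 0 < cc a b (g e) := h.cc_pos e
  have hc' : cc a b (g e) = a ∨ cc a b (g e) = b ∨ cc a b (g e) = cc a b (g true) ∨
      cc a b (g e) = cc a b (g false) := by
    cases e
    · exact Or.inr (Or.inr (Or.inr rfl))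
    · exact Or.inr (Or.inr (Or.inl rfl))
  have k1 : ∀ᵐ t : UnitAddCircle,
      ∀ᶠ n in atTop, u (xs n + (x + c t * (ty a b (g e) i).1 - x)) = se e := by
    refine ae_rot (P := fun w => ∀ᶠ n in atTop, u (xs n + (w - x)) = se e) x (r : ℂ) _ hp ?_
    filter_upwards [hA, h4 (!e) r hr] with t h5 h6
    have h7 := h6 h5
    rw [se_not, neg_neg] at h7
    rw [add_sub_cancel_left]
    exact h7
  have k2 : ∀ᵐ t : UnitAddCircle, ∀ n, xs n + c t * (ty a b (g e) i).2 ∈ U u e →
      u (xs n + c t * (ty a b (g e) i).2) = se e := by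
    refine ae_all_iff.mpr fun n => ?_
    exact ae_rot (P := fun w => w ∈ U u e → u w = se e) (xs n) ((cc a b (g e) : ℝ) : ℂ) _
      (by rw [ZW_norm hcc, hq]) (h3 n e _ hc')
  have k3 : ∀ᵐ t : UnitAddCircle, ∀ n, se e * (u (xs n + c t * (ty a b (g e) i).1) +
      u (xs n + c t * (ty a b (g e) i).2)) ≤ 0 := ae_all_iff.mpr fun n => hR n i
  have hall : ∀ᵐ t : UnitAddCircle,
      (∀ᶠ n in atTop, u (xs n + (x + c t * (ty a b (g e) i).1 - x)) = se e) ∧
      (∀ n, xs n + c t * (ty a b (g e) i).2 ∈ U u e →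
        u (xs n + c t * (ty a b (g e) i).2) = se e) ∧
      ∀ n, se e * (u (xs n + c t * (ty a b (g e) i).1) +
        u (xs n + c t * (ty a b (g e) i).2)) ≤ 0 := by
    filter_upwards [k1, k2, k3] with t h5 h6 h7
    exact ⟨h5, h6, h7⟩
  obtain ⟨t, htO, h5, h6, h7⟩ := exists_open hall {t | x + c t * (ty a b (g e) i).2 ∈ U u e}
    (ZW_open u e x _) ⟨t0, by rw [Set.mem_ofPred_eq, ← ht0]; exact hzU⟩
  have h9 : ∀ᶠ n in atTop, xs n + c t * (ty a b (g e) i).2 ∈ U u e :=
    (hlim.add_const (c t * (ty a b (g e) i).2)).eventually ((U_open u e).mem_nhds htO)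
  obtain ⟨n, hn1, hn2⟩ := (h5.and h9).exists
  have h10 := h6 n hn2
  have h11 := h7 n
  rw [add_sub_cancel_left] at hn1
  rw [hn1, h10] at h11
  have h12 := se_mul_self e
  nlinarith

theorem ZW {a b : ℝ} {g : Bool → UnitAddCircle} {u : ℂ → ℝ} (h : Cfg a b g u) :
    ∀ᵐ x : ℂ, x ∈ Z u → ∃ κ : Bool, x ∈ W a b g u κ := by
  filter_upwards [circK h] with x hx hZ
  obtain ⟨κ, hA, hB, -, -⟩ := hx hZ
  refine ⟨κ, fun z hz => ZW_one h hZ (!κ) a (Or.inl rfl) h.ha hA z hz,
    fun z hz => ZW_one h hZ κ b (Or.inr rfl) h.hb hB z hz, fun e z hz => ?_⟩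
  by_cases he : e = κ
  · subst he
    refine ZW_three h hZ e a (Or.inl rfl) hA 2 ?_ rfl z hz
    exact (norm_neg _).symm
  · have hκ : κ = !e := by
      revert he
      cases e <;> cases κ <;> simp
    rw [hκ] at hB
    refine ZW_three h hZ e b (Or.inr rfl) hB 4 ?_ ?_ z hz
    · show ‖(b : ℂ)‖ = ‖-((b : ℂ) * c (g e))‖
      rw [norm_neg, norm_mul, norm_c, mul_one]
    · show ‖(b : ℂ) * c (g e) - a‖ = ‖(a : ℂ) - b * c (g e)‖
      rw [norm_sub_rev]

end ZWPart

end Pool.Agent.H79.TM
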