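import Pool.Agent.H79.TM.M3

/-!
# Colours of the circles around the boundary points
-/

set_option autoImplicit false

namespace Pool.Agent.H79.TM

/-!
## Part Star: no triangle with two vertices in the open colour class (about 70 lines)

PROOF.
Write `(p, q) := ty a b (g e) i`.  Suppose `x + c t * p ∈ U u e` and `x + c t * q ∈ U u e`.  Both sets are open (`U_open`), so there are `r > 0` and an open neighbourhood `O` of `t` with: `‖x' - x‖ < r`, `s ∈ O` → `x' + c s * p ∈ U u e` and `x' + c s * q ∈ U u e`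
(continuity of `(x', s) ↦ x' + c s * p`).  By `not_U` (`x ∉ U u (!e)`) there are non-null many `x'` in the ball with `u x' ≠ se (!e) = - se e`, that is `0 ≤ se e * u x'` (`h.val`); so there is such an `x'` with `R .. e x'` (`h.con e`) and, for a.e. `s`,
`x' + c s * p ∈ U u e → u (x' + c s * p) = se e` and the same for `q` (`ae_circ` for `U_ae u e`).  For a.e. `s ∈ O` (choose one, `exists_open`): `se e * (se e + se e) ≤ 0`, contradiction (`se_mul_self`).
-/

section StarPart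

open MeasureTheory Filter Topology Pool.Agent.H93.EG

theorem star {a b : ℝ} {g : Bool → UnitAddCircle} {u : ℂ → ℝ} (h : Cfg a b g u) (e : Bool)
    (x : ℂ) (hx : x ∉ U u (!e)) (i : Fin 6) (t : UnitAddCircle) :
    ¬ (x + c t * (ty a b (g e) i).1 ∈ U u e ∧ x + c t * (ty a b (g e) i).2 ∈ U u e) := by
  rintro ⟨h1, h2⟩
  have hcont : ∀ d : ℂ, Continuous (fun z : ℂ × UnitAddCircle => z.1 + c z.2 * d) := fun d =>
    continuous_fst.add ((continuous_c.comp continuous_snd).mul continuous_const)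
  have hW : ∀ d : ℂ, x + c t * d ∈ U u e →
      {z : ℂ × UnitAddCircle | z.1 + c z.2 * d ∈ U u e} ∈ 𝓝 (x, t) := fun d hd =>
    ((U_open u e).preimage (hcont d)).mem_nhds hd
  have hW2 := Filter.inter_mem (hW _ h1) (hW _ h2)
  rw [nhds_prod_eq] at hW2
  obtain ⟨A, hA, B, hB, hAB⟩ := Filter.mem_prod_iff.mp hW2
  obtain ⟨r, hr, hrA⟩ := Metric.mem_nhds_iff.mp hA
  obtain ⟨O, hOB, hO, htO⟩ := mem_nhds_iff.mp hB
  have hfr := not_U u (!e) x hx r hr
  have hall := (h.con e).and ((ae_circ (U_ae u e) (ty a b (g e) i).1).and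
    (ae_circ (U_ae u e) (ty a b (g e) i).2))
  obtain ⟨x', ⟨hxb, hne⟩, hc, ha1, ha2⟩ := (hfr.and_eventually hall).exists
  have h0 : 0 ≤ se e * u x' := by
    rw [se_not] at hne
    rcases h.val x' with hv | hv | hv <;> rcases se_cases e with hs | hs <;> rw [hv, hs] at hne <;>
      rw [hv, hs] <;> first | (norm_num; done) | exact absurd (by norm_num) hne
  have hR := hc h0 i
  obtain ⟨s, hsO, ⟨hs0, hs1⟩, hs2⟩ := exists_open ((hR.and ha1).and ha2) O hO ⟨t, htO⟩
  have hm := hAB (Set.mk_mem_prod (hrA hxb) (hOB hsO))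
  have e1 := hs1 hm.1
  have e2 := hs2 hm.2
  rw [e1, e2, mul_add, se_mul_self] at hs0
  norm_num at hs0

end StarPart

/-!
## Part Trick: the boundary points on the circle are invariant (about 120 lines)

PROOF.
For a.e. `t` (all four a.e. hypotheses with shifts, `ae_shift`): let `x + c t * a ∈ Z u`, so `x + c t * a ∈ W κ` for some `κ`.  Put `w := t + σ₁`, `v := t + σ₂`, `t' := t + (σ₁ + σ₂)`; `w = t' + (-σ₂)`, `v = t' + (-σ₁)`.
`‖(x + c (t + σ) * b) - (x + c t * a)‖ = ‖b * c σ - a‖ = cc a b σ = cc a b (g e)` for `σ = ± g e` (`norm_ct`, `cc_neg`), so (third clause of `W`) `x + c w * b ∉ U u true` and `x + c v * b ∉ U u false`.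
Suppose `x + c t' * a ∉ Z u`, so `x + c t' * a ∈ U u e` for some `e`.
Case `e = false`: `star h false x (x ∉ U u true)` with type 0 or 1 (according to `-σ₂ = g false` or `-(g false)`), at `t'`: `c t' * (b * c (-σ₂)) = c w * b`: `x + c w * b ∉ U u false`.  So `x + c w * b ∈ Z u`, and by `hWb` (shifted by `σ₁`)
`x + c w * b ∈ W κ'` for some `κ'`.  The point `x + c t' * a` has distance `‖a * c σ₂ - b‖ = cc b a σ₂ = cc a b (g false)` from it (`t' = w + σ₂`, `cc_swap`, `cc_neg`), so `x + c t' * a ∉ U u false`: contradiction.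
Case `e = true`: `star h true x (x ∉ U u false)` with `-σ₁`: `x + c v * b ∉ U u true`, so `x + c v * b ∈ Z u`, in some `W κ'` (`hWb` shifted by `σ₂`), and `x + c t' * a` (`t' = v + σ₁`) has distance `cc a b (g true)` from it: `∉ U u true`: contradiction.
-/

section TrickPart

open MeasureTheory Filter Topology Pool.Agent.H93.EG

private theorem Trick_norm (x : ℂ) (t σ : UnitAddCircle) (a b : ℝ) :
    ‖(x + c (t + σ) * b) - (x + c t * a)‖ = cc a b σ := by
  unfold cc
  rw [← norm_ct t ((b : ℂ) * c σ - a), c_add]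
  congr 1
  ring

private theorem Trick_pm {a b : ℝ} {g σ : UnitAddCircle} (h : σ = g ∨ σ = -g) :
    cc a b σ = cc a b g := by
  rcases h with h | h
  · rw [h]
  · rw [h, cc_neg]

private theorem Trick_step {a b : ℝ} {g : Bool → UnitAddCircle} {u : ℂ → ℝ} (h : Cfg a b g u)
    (x : ℂ) (e : Bool) (hx : x ∉ U u (!e)) (s σ : UnitAddCircle) (hσ : σ = g e ∨ σ = -(g e))
    (h1 : x + c (s + σ) * a ∈ U u e) (h2 : x + c s * b ∉ U u (!e))
    (h3 : x + c s * b ∈ Z u → ∃ κ, x + c s * b ∈ W a b g u κ) : False := by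
  have h4 : x + c s * b ∉ U u e := by
    intro h5
    have e1 : c (s + σ) * ((b : ℂ) * c (-σ)) = c s * b := by
      rw [c_add]
      linear_combination c s * (b : ℂ) * c_neg_mul σ
    rcases hσ with h6 | h6
    · have := star h e x hx 1 (s + σ)
      simp only [ty] at this
      rw [← h6] at this
      apply this
      refine ⟨h1, ?_⟩
      rw [e1]
      exact h5
    · have := star h e x hx 0 (s + σ)
      simp only [ty] at this
      have h7 : g e = -σ := by rw [h6, neg_neg]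
      rw [h7] at this
      apply this
      refine ⟨h1, ?_⟩
      rw [e1]
      exact h5
  have h5 : x + c s * b ∈ Z u := by
    cases e
    · exact ⟨h2, h4⟩
    · exact ⟨h4, h2⟩
  obtain ⟨κ, hW⟩ := h3 h5
  refine hW.2.2 e (x + c (s + σ) * a) ?_ h1
  rw [Trick_norm x s σ b a, cc_swap, Trick_pm hσ]

theorem trick {a b : ℝ} {g : Bool → UnitAddCircle} {u : ℂ → ℝ} (h : Cfg a b g u)
    (x : ℂ) (hx : x ∈ Z u)
    (hWa : ∀ᵐ t : UnitAddCircle, x + c t * a ∈ Z u → ∃ κ, x + c t * a ∈ W a b g u κ)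
    (hWb : ∀ᵐ t : UnitAddCircle, x + c t * b ∈ Z u → ∃ κ, x + c t * b ∈ W a b g u κ)
    (σ₁ σ₂ : UnitAddCircle) (h1 : σ₁ = g true ∨ σ₁ = -(g true))
    (h2 : σ₂ = g false ∨ σ₂ = -(g false)) :
    ∀ᵐ t : UnitAddCircle, x + c t * a ∈ Z u → x + c (t + (σ₁ + σ₂)) * a ∈ Z u := by
  filter_upwards [hWa, ae_shift hWb σ₁, ae_shift hWb σ₂] with t hA hB1 hB2 hZ
  obtain ⟨κ, hW⟩ := hA hZ
  have hw : x + c (t + σ₁) * b ∉ U u true :=
    hW.2.2 true _ (by rw [Trick_norm, Trick_pm h1])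
  have hv : x + c (t + σ₂) * b ∉ U u false :=
    hW.2.2 false _ (by rw [Trick_norm, Trick_pm h2])
  refine ⟨fun hU => ?_, fun hU => ?_⟩
  · refine Trick_step h x true hx.2 (t + σ₂) σ₁ h1 ?_ hv hB2
    rwa [add_assoc, add_comm σ₂ σ₁]
  · refine Trick_step h x false hx.1 (t + σ₁) σ₂ h2 ?_ hw hB1
    rwa [add_assoc]

end TrickPart

/-!
## Part Theta: almost no boundary point on the circle (about 110 lines)

PROOF.
`Θ := {t | x + c t * a ∈ Z u}` is closed (`Z_closed`, continuity), hence measurable; `trick` and `erg_set`: either `∀ᵐ t, t ∉ Θ` (done) or `∀ᵐ t, t ∈ Θ`.  In the second case for a.e. `t` (`hWa`): `x + c t * a ∈ W κ` for some `κ`, so (★) for both `e`: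
no point at distance `cc a b (g e)` from `x + c t * a` is in `U u e`.
Claim: `z ∉ U u e` if `|a - cc| < ‖z - x‖ < a + cc`, `cc := cc a b (g e)`.  There is `t₀` with `‖z - (x + c t₀ * a)‖ = cc` (elementary: triangle with sides `‖z - x‖`, `a`, `cc`; the same computation as in the header of PosB.lean:
`ρ := ‖z - x‖`, `z - x = ρ v`, `X := (ρ² + a² - cc²) / (2 ρ)`, `|X| < a`, `ζ := (X + i √(a² - X²)) v`, `‖ζ‖ = a`, `‖z - x - ζ‖ = cc`, `exists_pt`).  If `z ∈ U u e` then for `t` near `t₀` the point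
`z' := z + (c t - c t₀) * a` is in `U u e` (open), and `‖z' - (x + c t * a)‖ = cc`; choose `t` near `t₀` with (★) (`exists_open`): contradiction.
So with `r₁ := max |a - cc₁| |a - cc₂|`, `r₂ := min (a + cc₁) (a + cc₂)` (`cc₁, cc₂` for `e = true, false`) every `z` with `r₁ < ‖z - x‖ < r₂` is in `Z u`.  `0 ≤ r₁ < b < r₂` (`cc_tri'`) and `|a - b| < 2 r₂`: `r₂ ≥ a + min cc > |a - b|` as `cc > |a - b|`
(`cc_tri`).  `noAnn` gives a contradiction.
-/

section ThetaPart

open MeasureTheory Filter Topology Pool.Agent.H93.EG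

private theorem Theta_pt (x z : ℂ) (a q : ℝ) (ha : 0 < a) (hq : 0 < q) (h1 : |a - q| < ‖z - x‖)
    (h2 : ‖z - x‖ < a + q) : ∃ t : UnitAddCircle, ‖z - (x + c t * a)‖ = q := by
  obtain ⟨ρ, hρ⟩ : ∃ ρ, ρ = ‖z - x‖ := ⟨_, rfl⟩
  have hρ0 : 0 < ρ := by
    rw [hρ]
    exact lt_of_le_of_lt (abs_nonneg _) h1
  rw [← hρ] at h1 h2
  obtain ⟨h3, h4⟩ := abs_lt.mp h1
  obtain ⟨v, hv⟩ : ∃ v : ℂ, v = (z - x) / ρ := ⟨_, rfl⟩
  have hρC : (ρ : ℂ) ≠ 0 := by exact_mod_cast hρ0.ne'
  have hzx : z - x = ρ * v := by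
    rw [hv, mul_div_cancel₀ _ hρC]
  have hvn : ‖v‖ = 1 := by
    rw [hv, norm_div, ← hρ, Complex.norm_real, Real.norm_eq_abs, abs_of_pos hρ0, div_self hρ0.ne']
  obtain ⟨X, hX⟩ : ∃ X : ℝ, X = (ρ ^ 2 + a ^ 2 - q ^ 2) / (2 * ρ) := ⟨_, rfl⟩
  have hXe : 2 * ρ * X = ρ ^ 2 + a ^ 2 - q ^ 2 := by
    rw [hX]
    field_simp
  have hX1 : 0 < a - X := by
    have h5 : 0 < 2 * ρ * (a - X) := by
      have h6 : 2 * ρ * (a - X) = (q - (ρ - a)) * (q + (ρ - a)) := by
        linear_combination -hXe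
      rw [h6]
      exact mul_pos (by linarith) (by linarith)
    exact (pos_iff_pos_of_mul_pos h5).1 (by linarith)
  have hX2 : 0 < a + X := by
    have h5 : 0 < 2 * ρ * (a + X) := by
      have h6 : 2 * ρ * (a + X) = ((ρ + a) - q) * ((ρ + a) + q) := by
        linear_combination hXe
      rw [h6]
      exact mul_pos (by linarith) (by linarith)
    exact (pos_iff_pos_of_mul_pos h5).1 (by linarith)
  obtain ⟨H, hH⟩ : ∃ H : ℝ, H = Real.sqrt (a ^ 2 - X ^ 2) := ⟨_, rfl⟩
  have hH2 : H ^ 2 = a ^ 2 - X ^ 2 := by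
    rw [hH]
    refine Real.sq_sqrt ?_
    have : a ^ 2 - X ^ 2 = (a - X) * (a + X) := by ring
    rw [this]
    exact (mul_pos hX1 hX2).le
  have hn : ∀ r s : ℝ, 0 ≤ s → r ^ 2 + H ^ 2 = s ^ 2 → ‖(r : ℂ) + H * Complex.I‖ = s := by
    intro r s hs h5
    have h6 : ‖(r : ℂ) + H * Complex.I‖ ^ 2 = s ^ 2 := by
      rw [← Complex.normSq_eq_norm_sq, Complex.normSq_add_mul_I]
      exact h5
    exact (pow_left_inj₀ (norm_nonneg _) hs two_ne_zero).1 h6
  obtain ⟨ζ, hζ⟩ : ∃ ζ : ℂ, ζ = ((X : ℂ) + H * Complex.I) * v := ⟨_, rfl⟩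
  have hζn : ‖ζ‖ = a := by
    rw [hζ, norm_mul, hvn, mul_one]
    exact hn X a ha.le (by rw [hH2]; ring)
  have hζ2 : ‖z - (x + ζ)‖ = q := by
    have h5 : z - (x + ζ) = (((ρ - X : ℝ) : ℂ) + (H : ℂ) * (-Complex.I)) * v := by
      rw [← sub_sub, hzx, hζ]
      push_cast
      ring
    have h6 : ((ρ - X : ℝ) : ℂ) + (H : ℂ) * (-Complex.I) = (starRingEnd ℂ) (((ρ - X : ℝ) : ℂ) + H * Complex.I) := by
      rw [map_add, map_mul, Complex.conj_ofReal, Complex.conj_ofReal, Complex.conj_I]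
    rw [h5, norm_mul, hvn, mul_one, h6, Complex.norm_conj]
    refine hn (ρ - X) q hq.le ?_
    rw [hH2]
    linear_combination -hXe
  obtain ⟨t, ht⟩ := exists_pt x (a : ℂ) (x + ζ) (by
    rw [add_sub_cancel_left, hζn, Complex.norm_real, Real.norm_eq_abs, abs_of_pos ha])
  exact ⟨t, by rw [← ht]; exact hζ2⟩

private theorem Theta_lt {a b : ℝ} {g : Bool → UnitAddCircle} {u : ℂ → ℝ} (h : Cfg a b g u) :
    max |a - cc a b (g true)| |a - cc a b (g false)| <
      min (a + cc a b (g true)) (a + cc a b (g false)) := by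
  have ha := h.ha
  have hb := h.hb
  have p1 := h.cc_pos true
  have p2 := h.cc_pos false
  obtain ⟨w1, w2⟩ := cc_triw a b (g true) ha hb
  obtain ⟨w3, w4⟩ := cc_triw a b (g false) ha hb
  obtain ⟨a1, a2⟩ := abs_le.mp w1
  obtain ⟨a3, a4⟩ := abs_le.mp w3
  obtain ⟨e, he⟩ := h.erg
  have hst := cc_tri a b (g e) ha hb (im_ne _ he)
  obtain ⟨a5, a6⟩ := abs_lt.mp hst.1
  have hst2 := hst.2
  cases e <;>
  exact max_lt (lt_min (abs_lt.mpr ⟨by linarith, by linarith⟩) (abs_lt.mpr ⟨by linarith, by linarith⟩))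
    (lt_min (abs_lt.mpr ⟨by linarith, by linarith⟩) (abs_lt.mpr ⟨by linarith, by linarith⟩))

theorem theta {a b : ℝ} {g : Bool → UnitAddCircle} {u : ℂ → ℝ} (h : Cfg a b g u)
    (x : ℂ) (hx : x ∈ Z u)
    (hWa : ∀ᵐ t : UnitAddCircle, x + c t * a ∈ Z u → ∃ κ, x + c t * a ∈ W a b g u κ)
    (hWb : ∀ᵐ t : UnitAddCircle, x + c t * b ∈ Z u → ∃ κ, x + c t * b ∈ W a b g u κ) :
    ∀ᵐ t : UnitAddCircle, x + c t * a ∉ Z u := by
  have hcont : Continuous fun t : UnitAddCircle => x + c t * a :=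
    continuous_const.add (continuous_c.mul continuous_const)
  have hΘ : MeasurableSet {t : UnitAddCircle | x + c t * a ∈ Z u} := ((Z_closed u).preimage hcont).measurableSet
  rcases erg_set g h.erg {t : UnitAddCircle | x + c t * a ∈ Z u} hΘ
    (trick h x hx hWa hWb (g true) (g false) (Or.inl rfl) (Or.inl rfl))
    (trick h x hx hWa hWb (g true) (-(g false)) (Or.inl rfl) (Or.inr rfl))
    (trick h x hx hWa hWb (-(g true)) (g false) (Or.inr rfl) (Or.inl rfl)) with hall | hnone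
  · exfalso
    have hstar : ∀ᵐ t : UnitAddCircle, ∃ κ, x + c t * a ∈ W a b g u κ := by
      filter_upwards [hall, hWa] with t ht1 ht2
      exact ht2 ht1
    have hclaim : ∀ (e : Bool) (z : ℂ), |a - cc a b (g e)| < ‖z - x‖ → ‖z - x‖ < a + cc a b (g e) → z ∉ U u e := by
      intro e z hz1 hz2 hzU
      obtain ⟨t₀, ht₀⟩ := Theta_pt x z a (cc a b (g e)) h.ha (h.cc_pos e) hz1 hz2
      have hcont2 : Continuous fun t : UnitAddCircle => z + (c t - c t₀) * a :=
        continuous_const.add ((continuous_c.sub continuous_const).mul continuous_const)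
      obtain ⟨t, htO, κ, hκ⟩ := exists_open hstar ((fun t : UnitAddCircle => z + (c t - c t₀) * a) ⁻¹' U u e)
        ((U_open u e).preimage hcont2) ⟨t₀, by
          show z + (c t₀ - c t₀) * a ∈ U u e
          rw [sub_self, zero_mul, add_zero]
          exact hzU⟩
      refine hκ.2.2 e (z + (c t - c t₀) * a) ?_ htO
      rw [show z + (c t - c t₀) * a - (x + c t * a) = z - (x + c t₀ * a) by ring]
      exact ht₀
    have hs1 := cc_triw a b (g true) h.ha h.hb
    have hs2 := cc_triw a b (g false) h.ha h.hb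
    have hlt : max |a - cc a b (g true)| |a - cc a b (g false)| <
        min (a + cc a b (g true)) (a + cc a b (g false)) := Theta_lt h
    refine noAnn h x (max |a - cc a b (g true)| |a - cc a b (g false)|)
      (min (a + cc a b (g true)) (a + cc a b (g false))) (le_max_of_le_left (abs_nonneg _))
      hlt ?_ ?_
    · have h5 : |a - b| < min (a + cc a b (g true)) (a + cc a b (g false)) :=
        lt_min (by linarith [h.ha, hs1.1]) (by linarith [h.ha, hs2.1])
      linarith [abs_nonneg (a - b)]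
    · intro z hz1 hz2
      obtain ⟨h6, h7⟩ := max_lt_iff.1 hz1
      obtain ⟨h8, h9⟩ := lt_min_iff.1 hz2
      exact ⟨hclaim true z h6 h8, hclaim false z h7 h9⟩
  · exact hnone

end ThetaPart

/-!
## Part G1: structure at a boundary point with good neighbours (about 130 lines)

PROOF.
By `theta` (for `h`) and `theta` for `h.swap : Cfg b a g u` (hypotheses with `W_swap`: `W b a g u (!κ) = W a b g u κ`): for a.e. `t`: `x + c t * a ∉ Z u` and `x + c t * b ∉ Z u`, i.e. these points are in `U u true ∪ U u false`.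
`α t := 1` if `x + c t * a ∈ U u true` and `0` otherwise; `β t := 1` if `x + c t * b ∈ U u false` and `0` otherwise (measurable: preimages of open sets).
`star h true x _` (types 0, 1; `c t * (b * c σ) = c (t + σ) * b`): if `α t = 1` then `x + c (t + σ) * b ∉ U u true` for `σ = ± g true`, so it is in `U u false` (a.e. `t`): `α t ≤ β (t + σ)`.
`star h false x _`: if `x + c (t + σ) * b ∈ U u false`, `σ = ± g false`, then `x + c t * a ∉ U u false`, so it is in `U u true`: `β (t + σ) ≤ α t`.  `rig0`: `α = β = κ₀` a.e.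
If `κ₀ = 1`: `κ := true`; a.e. `t`: `x + c t * a ∈ U u true`, `x + c t * b ∈ U u false`.  If `κ₀ = 0`: `κ := false`: a.e. `x + c t * a ∈ U u false`, `x + c t * b ∈ U u true`.
`x ∈ W κ`: (1) if `‖z - x‖ = a`, `z ∈ U u (!κ)`: `z = x + c t₀ * a` (`exists_pt`), the set of `t` with `x + c t * a ∈ U u (!κ)` is open, nonempty, so (`exists_open`) it contains a `t` with `x + c t * a ∈ U u κ`; `U_disj`.  (2) the same for `b`.
(3) `‖z - x‖ = cc a b (g e)`, `z ∈ U u e`.  If `e = κ`: `z = x + c t₀ * (b * c (g e) - a)`; for `t` near `t₀` `x + c t * (b * c (g e) - a) ∈ U u e`, and for a.e. `t` `x + c t * (-a) ∈ U u κ` (`ae_rot`): contradiction to `star h e x _ 2 t`.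
If `e = !κ`: `z = x + c t₀ * (a - b * c (g e))`, `x + c t * (-(b * c (g e))) ∈ U u (!κ)` for a.e. `t` (`ae_rot` from the circle of radius `b`): `star h e x _ 4 t`.
-/

section G1Part

open MeasureTheory Filter Topology Pool.Agent.H93.EG

private theorem G1_notU {u : ℂ → ℝ} {x : ℂ} (hx : x ∈ Z u) (e : Bool) : x ∉ U u e := by
  cases e
  · exact hx.2
  · exact hx.1

private theorem G1_open (u : ℂ → ℝ) (e : Bool) (x d : ℂ) :
    IsOpen {t : UnitAddCircle | x + c t * d ∈ U u e} :=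
  (U_open u e).preimage (continuous_const.add (continuous_c.mul continuous_const))

private theorem G1_mem {u : ℂ → ℝ} {y : ℂ} (h : y ∉ Z u) (e : Bool) (h' : y ∉ U u (!e)) :
    y ∈ U u e := by
  by_contra hn
  apply h
  cases e
  · exact ⟨h', hn⟩
  · exact ⟨hn, h'⟩

private theorem G1_W {a b : ℝ} {g : Bool → UnitAddCircle} {u : ℂ → ℝ} (h : Cfg a b g u)
    (x : ℂ) (hx : x ∈ Z u) (κ : Bool) (HA : ∀ᵐ t : UnitAddCircle, x + c t * a ∈ U u κ)
    (HB : ∀ᵐ t : UnitAddCircle, x + c t * b ∈ U u (!κ)) : x ∈ W a b g u κ := by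
  have na : ‖(a : ℂ)‖ = a := by
    rw [Complex.norm_real, Real.norm_of_nonneg h.ha.le]
  have nb : ‖(b : ℂ)‖ = b := by
    rw [Complex.norm_real, Real.norm_of_nonneg h.hb.le]
  refine ⟨?_, ?_, ?_⟩
  · intro z hz hzU
    obtain ⟨t0, rfl⟩ := exists_pt x (a : ℂ) z (by rw [hz, na])
    obtain ⟨t, ht, ht'⟩ := exists_open HA _ (G1_open u (!κ) x a) ⟨t0, hzU⟩
    exact U_disj u κ _ ht' ht
  · intro z hz hzU
    obtain ⟨t0, rfl⟩ := exists_pt x (b : ℂ) z (by rw [hz, nb])
    obtain ⟨t, ht, ht'⟩ := exists_open HB _ (G1_open u κ x b) ⟨t0, hzU⟩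
    exact U_disj u κ _ ht ht'
  · intro e z hz hzU
    by_cases he : e = κ
    · subst he
      obtain ⟨t0, rfl⟩ := exists_pt x ((b : ℂ) * c (g e) - a) z hz
      have HA' : ∀ᵐ t : UnitAddCircle, x + c t * (-(a : ℂ)) ∈ U u e :=
        ae_rot x (a : ℂ) (-(a : ℂ)) (norm_neg _).symm HA
      obtain ⟨t, ht, ht'⟩ := exists_open HA' _ (G1_open u e x ((b : ℂ) * c (g e) - a)) ⟨t0, hzU⟩
      exact star h e x (G1_notU hx _) 2 t ⟨ht', ht⟩
    · have he' : e = !κ := by
        cases e <;> cases κ <;> simp_all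
      subst he'
      have hz' : ‖z - x‖ = ‖(a : ℂ) - b * c (g (!κ))‖ := by
        rw [hz, norm_sub_rev]
        rfl
      obtain ⟨t0, rfl⟩ := exists_pt x ((a : ℂ) - b * c (g (!κ))) z hz'
      have HB' : ∀ᵐ t : UnitAddCircle, x + c t * (-((b : ℂ) * c (g (!κ)))) ∈ U u (!κ) :=
        ae_rot x (b : ℂ) (-((b : ℂ) * c (g (!κ)))) (by
          rw [norm_neg, norm_mul, norm_c, mul_one]) HB
      obtain ⟨t, ht, ht'⟩ := exists_open HB' _
        (G1_open u (!κ) x ((a : ℂ) - b * c (g (!κ)))) ⟨t0, hzU⟩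
      exact star h (!κ) x (G1_notU hx _) 4 t ⟨ht', ht⟩

theorem G1 {a b : ℝ} {g : Bool → UnitAddCircle} {u : ℂ → ℝ} (h : Cfg a b g u)
    (x : ℂ) (hx : x ∈ Z u)
    (hWa : ∀ᵐ t : UnitAddCircle, x + c t * a ∈ Z u → ∃ κ, x + c t * a ∈ W a b g u κ)
    (hWb : ∀ᵐ t : UnitAddCircle, x + c t * b ∈ Z u → ∃ κ, x + c t * b ∈ W a b g u κ) :
    ∃ κ : Bool, x ∈ W a b g u κ ∧ (∀ᵐ t : UnitAddCircle, x + c t * a ∈ U u κ) ∧
      ∀ᵐ t : UnitAddCircle, x + c t * b ∈ U u (!κ) := by
  have hA : ∀ᵐ t : UnitAddCircle, x + c t * a ∉ Z u := theta h x hx hWa hWb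
  have hB : ∀ᵐ t : UnitAddCircle, x + c t * b ∉ Z u := by
    refine theta h.swap x hx ?_ ?_
    · filter_upwards [hWb] with t ht hz
      obtain ⟨κ, hκ⟩ := ht hz
      exact ⟨!κ, by rw [W_swap]; exact hκ⟩
    · filter_upwards [hWa] with t ht hz
      obtain ⟨κ, hκ⟩ := ht hz
      exact ⟨!κ, by rw [W_swap]; exact hκ⟩
  have e1 : ∀ t σ : UnitAddCircle, x + c t * ((b : ℂ) * c σ) = x + c (t + σ) * b := by
    intro t σ
    rw [c_add]
    ring
  set A : Set UnitAddCircle := {t | x + c t * a ∈ U u true} with hAdef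
  set B : Set UnitAddCircle := {t | x + c t * b ∈ U u false} with hBdef
  have mA : MeasurableSet A := (G1_open u true x a).measurableSet
  have mB : MeasurableSet B := (G1_open u false x b).measurableSet
  have ind01 : ∀ (S : Set UnitAddCircle) (t : UnitAddCircle),
      |S.indicator (fun _ => (1 : ℝ)) t| ≤ 1 := by
    intro S t
    by_cases ht : t ∈ S
    · rw [Set.indicator_of_mem ht, abs_one]
    · rw [Set.indicator_of_notMem ht, abs_zero]
      exact zero_le_one
  have indle : ∀ (S T : Set UnitAddCircle) (t s : UnitAddCircle), (t ∈ S → s ∈ T) →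
      S.indicator (fun _ => (1 : ℝ)) t ≤ T.indicator (fun _ => (1 : ℝ)) s := by
    intro S T t s hst
    by_cases ht : t ∈ S
    · rw [Set.indicator_of_mem ht, Set.indicator_of_mem (hst ht)]
    · rw [Set.indicator_of_notMem ht]
      exact Set.indicator_nonneg (fun _ _ => zero_le_one) s
  have q0 : ∀ (e : Bool) (t : UnitAddCircle), x + c t * a ∈ U u e →
      x + c (t + g e) * b ∉ U u e := by
    intro e t h1 h2
    refine star h e x (G1_notU hx _) 0 t ⟨h1, ?_⟩
    show x + c t * ((b : ℂ) * c (g e)) ∈ U u e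
    rw [e1]
    exact h2
  have q1 : ∀ (e : Bool) (t : UnitAddCircle), x + c t * a ∈ U u e →
      x + c (t + -(g e)) * b ∉ U u e := by
    intro e t h1 h2
    refine star h e x (G1_notU hx _) 1 t ⟨h1, ?_⟩
    show x + c t * ((b : ℂ) * c (-(g e))) ∈ U u e
    rw [e1]
    exact h2
  obtain ⟨κ₀, hα, hβ⟩ := rig0 g h.erg (A.indicator fun _ => (1 : ℝ)) (B.indicator fun _ => (1 : ℝ))
    (measurable_const.indicator mA) (measurable_const.indicator mB) (ind01 A) (ind01 B)
    (by
      filter_upwards [ae_shift hB (g true)] with t ht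
      exact indle A B t _ fun h1 => G1_mem ht false (q0 true t h1))
    (by
      filter_upwards [ae_shift hB (-(g true))] with t ht
      exact indle A B t _ fun h1 => G1_mem ht false (q1 true t h1))
    (by
      filter_upwards [hA] with t ht
      refine indle B A _ t fun h1 => G1_mem ht true fun h2 => q0 false t h2 h1)
    (by
      filter_upwards [hA] with t ht
      refine indle B A _ t fun h1 => G1_mem ht true fun h2 => q1 false t h2 h1)
  have h01 : κ₀ = 1 ∨ κ₀ = 0 := by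
    obtain ⟨t, _, ht⟩ := exists_open hα Set.univ isOpen_univ ⟨0, trivial⟩
    by_cases h1 : t ∈ A
    · left
      rw [Set.indicator_of_mem h1] at ht
      exact ht.symm
    · right
      rw [Set.indicator_of_notMem h1] at ht
      exact ht.symm
  rcases h01 with h1 | h1
  · have HA : ∀ᵐ t : UnitAddCircle, x + c t * a ∈ U u true := by
      filter_upwards [hα] with t ht
      by_contra hn
      have h2 : t ∉ A := hn
      rw [Set.indicator_of_notMem h2, h1] at ht
      exact zero_ne_one ht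
    have HB : ∀ᵐ t : UnitAddCircle, x + c t * b ∈ U u (!true) := by
      filter_upwards [hβ] with t ht
      by_contra hn
      have h2 : t ∉ B := hn
      rw [Set.indicator_of_notMem h2, h1] at ht
      exact zero_ne_one ht
    exact ⟨true, G1_W h x hx true HA HB, HA, HB⟩
  · have HA : ∀ᵐ t : UnitAddCircle, x + c t * a ∈ U u false := by
      filter_upwards [hα, hA] with t ht hz
      refine G1_mem hz false fun h2 => ?_
      have h3 : t ∈ A := h2
      rw [Set.indicator_of_mem h3, h1] at ht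
      exact one_ne_zero ht
    have HB : ∀ᵐ t : UnitAddCircle, x + c t * b ∈ U u (!false) := by
      filter_upwards [hβ, hB] with t ht hz
      refine G1_mem hz true fun h2 => ?_
      have h3 : t ∈ B := h2
      rw [Set.indicator_of_mem h3, h1] at ht
      exact one_ne_zero ht
    exact ⟨false, G1_W h x hx false HA HB, HA, HB⟩

end G1Part

/-!
## Part G3: structure at every boundary point (about 40 lines)

PROOF.
(A) For every `x` and `r ∈ {a, b}`: for a.e. `t`: if `y := x + c t * r ∈ Z u` then `∃ κ, y ∈ W κ`.  Indeed by `ZW` and `ae_circ2` (multipliers `r` and `a`, resp. `r` and `b`, all nonzero): for a.e. `t`, for a.e. `s`: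
`x + c t * r + c s * a ∈ Z u → ∃ κ, .. ∈ W κ` and the same with `c s * b`.  So for a.e. `t`, if `y ∈ Z u` then the hypotheses of `G1` hold for `y`, hence `y ∈ W κ` for some `κ`.
(B) By (A) the hypotheses of `G1` hold for every `x ∈ Z u`.
-/

section G3Part

open MeasureTheory Filter Topology Pool.Agent.H93.EG

private theorem G3_good {a b : ℝ} {g : Bool → UnitAddCircle} {u : ℂ → ℝ} (h : Cfg a b g u)
    (x : ℂ) (r : ℝ) (hr : 0 < r) :
    ∀ᵐ t : UnitAddCircle, x + c t * r ∈ Z u → ∃ κ, x + c t * r ∈ W a b g u κ := by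
  have hrc : (r : ℂ) ≠ 0 := by exact_mod_cast hr.ne'
  have hac : (a : ℂ) ≠ 0 := by exact_mod_cast h.ha.ne'
  have hbc : (b : ℂ) ≠ 0 := by exact_mod_cast h.hb.ne'
  filter_upwards [ae_circ2 (ZW h) x (r : ℂ) (a : ℂ) hrc hac,
    ae_circ2 (ZW h) x (r : ℂ) (b : ℂ) hrc hbc] with t h1 h2 hZ
  obtain ⟨κ, hκ, _⟩ := G1 h (x + c t * r) hZ h1 h2
  exact ⟨κ, hκ⟩

theorem G3 {a b : ℝ} {g : Bool → UnitAddCircle} {u : ℂ → ℝ} (h : Cfg a b g u)
    (x : ℂ) (hx : x ∈ Z u) :
    ∃ κ : Bool, x ∈ W a b g u κ ∧ (∀ᵐ t : UnitAddCircle, x + c t * a ∈ U u κ) ∧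
      ∀ᵐ t : UnitAddCircle, x + c t * b ∈ U u (!κ) :=
  G1 h x hx (G3_good h x a h.ha) (G3_good h x b h.hb)

end G3Part

end Pool.Agent.H79.TM
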