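import Pool.Agent.H79.TM.M4

/-!
# The crossing lemma and the measurable theorem
-/

set_option autoImplicit false

namespace Pool.Agent.H79.TM

/-!
## Part LeafB: two families of leaves (about 130 lines)

PROOF.
Pure real analysis.  Let `θ₀ := φ₀ - ω ρ₀`.  (1) Choose `δ₁ > 0` with `I' := Icc (ρ₀ - δ₁) (ρ₀ + δ₁) ⊆ Icc ρ₁ ρ₂` and `|ω ρ - ω ρ₀| < η / 4` on `I'` (continuity).  By `hne` there are `p, q ∈ I'` with `ω p < ω q`; put `A := ω p`, `B := ω q`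
(so `B - A < η / 2`).  By the intermediate value theorem (`intermediate_value_uIcc`, or `(isPreconnected_uIcc.image ..)`) every `v ∈ Icc A B` is `ω ρ` for some `ρ ∈ I'`.
(2) Choose `δ > 0` with `δ ≤ δ₁`, `δ ≤ (B - A) / 4` and `|ω ρ - ω ρ₀| < (B - A) / 4` for `|ρ - ρ₀| < δ`.  If `|ρ - ρ₀| < δ` and `|φ - φ₀| < δ` then `θ := φ - ω ρ` has `|θ - θ₀| < (B - A) / 2`.
(3) Leaves.  Let `θ ∉ N`, `|θ - θ₀| < (B - A) / 2 (≤ η / 4)`.  For `ρ ∈ I'`: `|θ + ω ρ - φ₀| ≤ |θ - θ₀| + |ω ρ - ω ρ₀| < η`, so `(ρ, θ + ω ρ) ∈ V true ∪ V false` (`hp`).  The set `{(ρ, θ + ω ρ) | ρ ∈ I'}` is preconnected (image of `Icc` under a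
continuous map), `V true`, `V false` are open and disjoint, so it is contained in `V k` for one `k` (`IsPreconnected.subset_or_subset`).  In the same way, if `θ' ∉ N` and `|θ' - ω ρ - φ₀| < η` for all `ρ ∈ I'`, then all `(ρ, θ' - ω ρ)`, `ρ ∈ I'`, are in one `V k`.
(4) Let `θ₁, θ₂ ∉ N` with `|θ_j - θ₀| < (B - A) / 2`, so `|θ₁ - θ₂| < B - A`.  The intervals `(θ_j + 2 A, θ_j + 2 B)`, `j = 1, 2`, of length `2 (B - A)` intersect in a nonempty open interval, which contains some `θ' ∉ N` (`hN`: `Nᶜ` is dense).  So `θ' = θ_j + 2 ω r_j` with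
`r_j ∈ I'`.  For `ρ ∈ I'`: `θ' - ω ρ - φ₀ = (θ₁ - θ₀) + 2 (ω r₁ - ω ρ₀) - (ω ρ - ω ρ₀)`, of absolute value `< η / 4 + 2 η / 4 + η / 4 = η`.  So the minus-leaf of `θ'` is in one `V k'`, and it contains `(r_j, θ' - ω r_j) = (r_j, θ_j + ω r_j)`, a point of
the plus-leaf of `θ_j`; as `V true`, `V false` are disjoint, the plus-leaves of `θ₁` and `θ₂` are in the same `V k'`.
(5) There is some `θ₁ ∉ N` with `|θ₁ - θ₀| < (B - A) / 2`; let `k` be its colour.  For `|ρ - ρ₀| < δ`, `|φ - φ₀| < δ`, `θ := φ - ω ρ ∉ N`: the plus-leaf of `θ` is in `V k` by (4) and contains `(ρ, θ + ω ρ) = (ρ, φ)`.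
-/

section LeafBPart

open Filter Topology

private theorem leafB_graph (V : Bool → Set (ℝ × ℝ)) (hV : ∀ k, IsOpen (V k))
    (hd : Disjoint (V true) (V false)) (a b : ℝ) (g : ℝ → ℝ) (hg : ContinuousOn g (Set.Icc a b))
    (h : ∀ ρ ∈ Set.Icc a b, (ρ, g ρ) ∈ V true ∪ V false) :
    ∃ k : Bool, ∀ ρ ∈ Set.Icc a b, (ρ, g ρ) ∈ V k := by
  have hc : ContinuousOn (fun ρ : ℝ => (ρ, g ρ)) (Set.Icc a b) := continuousOn_id.prodMk hg
  have hp : IsPreconnected ((fun ρ : ℝ => (ρ, g ρ)) '' Set.Icc a b) :=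
    isPreconnected_Icc.image _ hc
  have hs : (fun ρ : ℝ => (ρ, g ρ)) '' Set.Icc a b ⊆ V true ∪ V false := by
    rintro _ ⟨ρ, hρ, rfl⟩
    exact h ρ hρ
  rcases hp.subset_or_subset (hV true) (hV false) hd hs with h1 | h1
  · exact ⟨true, fun ρ hρ => h1 ⟨ρ, hρ, rfl⟩⟩
  · exact ⟨false, fun ρ hρ => h1 ⟨ρ, hρ, rfl⟩⟩

private theorem leafB_same (V : Bool → Set (ℝ × ℝ)) (hd : Disjoint (V true) (V false))
    (x : ℝ × ℝ) (k l : Bool) (hk : x ∈ V k) (hl : x ∈ V l) : k = l := by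
  cases k <;> cases l
  · rfl
  · exact absurd hk (Set.disjoint_left.1 hd hl)
  · exact absurd hl (Set.disjoint_left.1 hd hk)
  · rfl

theorem leafB (V : Bool → Set (ℝ × ℝ)) (hV : ∀ k, IsOpen (V k)) (hd : Disjoint (V true) (V false))
    (N : Set ℝ) (hN : Dense Nᶜ) (ω : ℝ → ℝ) (ρ₁ ρ₂ ρ₀ φ₀ η : ℝ) (h1 : ρ₁ < ρ₀) (h2 : ρ₀ < ρ₂)
    (hη : 0 < η) (hω : ContinuousOn ω (Set.Icc ρ₁ ρ₂))
    (hne : ∀ δ : ℝ, 0 < δ → ∃ p q : ℝ, |p - ρ₀| < δ ∧ |q - ρ₀| < δ ∧ p ∈ Set.Icc ρ₁ ρ₂ ∧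
      q ∈ Set.Icc ρ₁ ρ₂ ∧ ω p < ω q)
    (hp : ∀ θ ρ : ℝ, θ ∉ N → ρ ∈ Set.Icc ρ₁ ρ₂ → |θ + ω ρ - φ₀| < η →
      (ρ, θ + ω ρ) ∈ V true ∪ V false)
    (hm : ∀ θ ρ : ℝ, θ ∉ N → ρ ∈ Set.Icc ρ₁ ρ₂ → |θ - ω ρ - φ₀| < η →
      (ρ, θ - ω ρ) ∈ V true ∪ V false) :
    ∃ k : Bool, ∃ δ : ℝ, 0 < δ ∧ ∀ ρ φ : ℝ, |ρ - ρ₀| < δ → |φ - φ₀| < δ → φ - ω ρ ∉ N →
      (ρ, φ) ∈ V k := by
  have hρ0 : ρ₀ ∈ Set.Icc ρ₁ ρ₂ := ⟨h1.le, h2.le⟩
  have hcont : ∀ ε : ℝ, 0 < ε → ∃ δ : ℝ, 0 < δ ∧ ∀ ρ ∈ Set.Icc ρ₁ ρ₂, |ρ - ρ₀| < δ →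
      |ω ρ - ω ρ₀| < ε := by
    intro ε hε
    obtain ⟨δ, hδ, h⟩ := Metric.continuousOn_iff.1 hω ρ₀ hρ0 ε hε
    refine ⟨δ, hδ, fun ρ hρ hr => ?_⟩
    have := h ρ hρ (by rw [Real.dist_eq]; exact hr)
    rwa [Real.dist_eq] at this
  obtain ⟨δ₀, hδ₀, hc0⟩ := hcont (η / 4) (by linarith)
  obtain ⟨δ₁, hδ₁, hδ₁a, hδ₁b, hδ₁c⟩ : ∃ δ₁ : ℝ, 0 < δ₁ ∧ δ₁ < δ₀ ∧ δ₁ ≤ ρ₀ - ρ₁ ∧
      δ₁ ≤ ρ₂ - ρ₀ := by
    refine ⟨min (δ₀ / 2) (min (ρ₀ - ρ₁) (ρ₂ - ρ₀)), ?_, ?_, ?_, ?_⟩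
    · exact lt_min (by linarith) (lt_min (by linarith) (by linarith))
    · exact lt_of_le_of_lt (min_le_left _ _) (by linarith)
    · exact le_trans (min_le_right _ _) (min_le_left _ _)
    · exact le_trans (min_le_right _ _) (min_le_right _ _)
  have hI : ∀ ρ ∈ Set.Icc (ρ₀ - δ₁) (ρ₀ + δ₁), ρ ∈ Set.Icc ρ₁ ρ₂ := by
    intro ρ hρ
    exact ⟨by linarith [hρ.1], by linarith [hρ.2]⟩
  have hIω : ∀ ρ ∈ Set.Icc (ρ₀ - δ₁) (ρ₀ + δ₁), |ω ρ - ω ρ₀| < η / 4 := by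
    intro ρ hρ
    refine hc0 ρ (hI ρ hρ) (lt_of_le_of_lt ?_ hδ₁a)
    rw [abs_le]
    exact ⟨by linarith [hρ.1], by linarith [hρ.2]⟩
  have hωI : ContinuousOn ω (Set.Icc (ρ₀ - δ₁) (ρ₀ + δ₁)) := hω.mono hI
  obtain ⟨p, q, hpd, hqd, -, -, hpq⟩ := hne δ₁ hδ₁
  have hpI : p ∈ Set.Icc (ρ₀ - δ₁) (ρ₀ + δ₁) := by
    rw [abs_lt] at hpd
    exact ⟨by linarith [hpd.1], by linarith [hpd.2]⟩
  have hqI : q ∈ Set.Icc (ρ₀ - δ₁) (ρ₀ + δ₁) := by
    rw [abs_lt] at hqd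
    exact ⟨by linarith [hqd.1], by linarith [hqd.2]⟩
  have hivt : ∀ v : ℝ, ω p ≤ v → v ≤ ω q → ∃ ρ ∈ Set.Icc (ρ₀ - δ₁) (ρ₀ + δ₁), ω ρ = v := by
    intro v hv1 hv2
    exact isPreconnected_Icc.intermediate_value hpI hqI hωI ⟨hv1, hv2⟩
  have hpw := abs_lt.1 (hIω p hpI)
  have hqw := abs_lt.1 (hIω q hqI)
  -- plus leaves
  have hplus : ∀ θ : ℝ, θ ∉ N → |θ - (φ₀ - ω ρ₀)| < (ω q - ω p) / 2 →
      ∃ k : Bool, ∀ ρ ∈ Set.Icc (ρ₀ - δ₁) (ρ₀ + δ₁), (ρ, θ + ω ρ) ∈ V k := by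
    intro θ hθ hθ0
    refine leafB_graph V hV hd _ _ (fun ρ => θ + ω ρ) (continuousOn_const.add hωI) ?_
    intro ρ hρ
    refine hp θ ρ hθ (hI ρ hρ) ?_
    have e1 := abs_lt.1 (hIω ρ hρ)
    have e2 := abs_lt.1 hθ0
    rw [abs_lt]
    constructor
    · linarith [e1.1, e2.1, hpw.1, hqw.2]
    · linarith [e1.2, e2.2, hpw.1, hqw.2]
  have hminus : ∀ θ : ℝ, θ ∉ N → (∀ ρ ∈ Set.Icc (ρ₀ - δ₁) (ρ₀ + δ₁), |θ - ω ρ - φ₀| < η) →
      ∃ k : Bool, ∀ ρ ∈ Set.Icc (ρ₀ - δ₁) (ρ₀ + δ₁), (ρ, θ - ω ρ) ∈ V k := by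
    intro θ hθ hθ0
    refine leafB_graph V hV hd _ _ (fun ρ => θ - ω ρ) (continuousOn_const.sub hωI) ?_
    intro ρ hρ
    exact hm θ ρ hθ (hI ρ hρ) (hθ0 ρ hρ)
  -- two plus leaves have the same colour
  have hsame : ∀ θ₁ θ₂ : ℝ, θ₁ ∉ N → θ₂ ∉ N → |θ₁ - (φ₀ - ω ρ₀)| < (ω q - ω p) / 2 →
      |θ₂ - (φ₀ - ω ρ₀)| < (ω q - ω p) / 2 → ∀ k l : Bool,
      (∀ ρ ∈ Set.Icc (ρ₀ - δ₁) (ρ₀ + δ₁), (ρ, θ₁ + ω ρ) ∈ V k) →
      (∀ ρ ∈ Set.Icc (ρ₀ - δ₁) (ρ₀ + δ₁), (ρ, θ₂ + ω ρ) ∈ V l) → k = l := by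
    intro θ₁ θ₂ hθ₁ hθ₂ ha1 ha2 k l hk hl
    have b1 := abs_lt.1 ha1
    have b2 := abs_lt.1 ha2
    have hlt : max (θ₁ + 2 * ω p) (θ₂ + 2 * ω p) < min (θ₁ + 2 * ω q) (θ₂ + 2 * ω q) := by
      rw [max_lt_iff, lt_min_iff, lt_min_iff]
      exact ⟨⟨by linarith, by linarith [b1.1, b1.2, b2.1, b2.2]⟩,
        ⟨by linarith [b1.1, b1.2, b2.1, b2.2], by linarith⟩⟩
    obtain ⟨θ', hθ'N, hθ'⟩ := hN.exists_between hlt
    have c1 := max_lt_iff.1 hθ'.1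
    have c2 := lt_min_iff.1 hθ'.2
    obtain ⟨r₁, hr₁, hr₁'⟩ := hivt ((θ' - θ₁) / 2) (by linarith [c1.1]) (by linarith [c2.1])
    obtain ⟨r₂, hr₂, hr₂'⟩ := hivt ((θ' - θ₂) / 2) (by linarith [c1.2]) (by linarith [c2.2])
    obtain ⟨j, hj⟩ := hminus θ' hθ'N (by
      intro ρ hρ
      have e1 := abs_lt.1 (hIω ρ hρ)
      have e2 := abs_lt.1 (hIω r₁ hr₁)
      rw [abs_lt]
      constructor
      · linarith [e1.1, e1.2, e2.1, e2.2, b1.1, b1.2, hpw.1, hpw.2, hqw.1, hqw.2]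
      · linarith [e1.1, e1.2, e2.1, e2.2, b1.1, b1.2, hpw.1, hpw.2, hqw.1, hqw.2])
    have d1 : (r₁, θ₁ + ω r₁) ∈ V j := by
      have := hj r₁ hr₁
      have e : θ' - ω r₁ = θ₁ + ω r₁ := by linarith
      rwa [e] at this
    have d2 : (r₂, θ₂ + ω r₂) ∈ V j := by
      have := hj r₂ hr₂
      have e : θ' - ω r₂ = θ₂ + ω r₂ := by linarith
      rwa [e] at this
    have f1 := leafB_same V hd _ k j (hk r₁ hr₁) d1
    have f2 := leafB_same V hd _ l j (hl r₂ hr₂) d2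
    rw [f1, f2]
  -- a first leaf
  obtain ⟨θ₁, hθ₁N, hθ₁⟩ := hN.exists_between
    (show (φ₀ - ω ρ₀) - (ω q - ω p) / 2 < (φ₀ - ω ρ₀) + (ω q - ω p) / 2 by linarith)
  have hθ₁a : |θ₁ - (φ₀ - ω ρ₀)| < (ω q - ω p) / 2 := by
    rw [abs_lt]
    exact ⟨by linarith [hθ₁.1], by linarith [hθ₁.2]⟩
  obtain ⟨k, hk⟩ := hplus θ₁ hθ₁N hθ₁a
  obtain ⟨δ₂, hδ₂, hc2⟩ := hcont ((ω q - ω p) / 4) (by linarith)
  refine ⟨k, min (min δ₁ δ₂) ((ω q - ω p) / 4), lt_min (lt_min hδ₁ hδ₂) (by linarith), ?_⟩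
  intro ρ φ hρ hφ hnot
  have g1 : |ρ - ρ₀| < δ₁ := lt_of_lt_of_le hρ (le_trans (min_le_left _ _) (min_le_left _ _))
  have g2 : |ρ - ρ₀| < δ₂ := lt_of_lt_of_le hρ (le_trans (min_le_left _ _) (min_le_right _ _))
  have g3 : |φ - φ₀| < (ω q - ω p) / 4 := lt_of_lt_of_le hφ (min_le_right _ _)
  have hρI : ρ ∈ Set.Icc (ρ₀ - δ₁) (ρ₀ + δ₁) := by
    rw [abs_lt] at g1
    exact ⟨by linarith [g1.1], by linarith [g1.2]⟩
  have g4 := abs_lt.1 (hc2 ρ (hI ρ hρI) g2)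
  have g5 := abs_lt.1 g3
  have hθa : |(φ - ω ρ) - (φ₀ - ω ρ₀)| < (ω q - ω p) / 2 := by
    rw [abs_lt]
    exact ⟨by linarith [g4.1, g4.2, g5.1, g5.2], by linarith [g4.1, g4.2, g5.1, g5.2]⟩
  obtain ⟨l, hl⟩ := hplus (φ - ω ρ) hnot hθa
  have hkl : k = l := hsame θ₁ (φ - ω ρ) hθ₁N hnot hθ₁a hθa k l hk hl
  have := hl ρ hρI
  rw [hkl]
  have e : φ - ω ρ + ω ρ = φ := by ring
  rwa [e] at this

end LeafBPart

/-!
## Part LeafW: the angle function of two circles (about 90 lines)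

PROOF.
`X ρ := (ρ² + r² - s²) / (2 r)`.  For `|r - s| < ρ < r + s` (so `0 < ρ`): `ρ - X = (s² - (ρ - r)²) / (2 r) > 0` (as `|ρ - r| < s`) and `ρ + X = ((ρ + r)² - s²) / (2 r) > 0` (as `ρ + r > s`).  So `|X / ρ| < 1`.  Take `ω ρ := arccos (X ρ / ρ) / (2 π)`: continuous on the
open interval (`Real.continuous_arccos`, `ρ ≠ 0`).  `cos (2 π ω ρ) = X ρ / ρ` (`Real.cos_arccos`).
Distance: `c (θ : UnitAddCircle) = exp (2 π θ I)` (`c_coe`), `ρ * c ((θ + ω ρ : ℝ)) - r * c (θ) = c θ * (ρ * c (ω ρ) - r)`, and `‖ρ * c (ω ρ) - r‖² = ρ² + r² - 2 ρ r cos (2 π ω ρ) = ρ² + r² - 2 r X ρ = s²`; the same with `- ω ρ`.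
Not constant: if `ω p = ω q` then `X p / p = X q / q` (apply `cos`), i.e. `p + (r² - s²) / p = q + (r² - s²) / q`, `(p - q) (1 - (r² - s²) / (p q)) = 0`.  Let `δ > 0`; take three different numbers `p₁ < p₂ < p₃` in `(ρ₀ - δ, ρ₀ + δ)` and in the interval: if `ω` had the same
value at all three, then `p₁ p₂ = r² - s² = p₁ p₃`, contradiction.  So two of them have different values of `ω`.
-/

section LeafWPart

open MeasureTheory Filter Topology Pool.Agent.H93.EG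

private theorem leafW_dist (r s ρ ω : ℝ) (hs : 0 < s) (hcos : 2 * ρ * r * Real.cos (2 * Real.pi * ω) = ρ ^ 2 + r ^ 2 - s ^ 2)
    (θ : ℝ) : ‖(ρ : ℂ) * c ((θ + ω : ℝ) : UnitAddCircle) - r * c ((θ : ℝ) : UnitAddCircle)‖ = s := by
  have h1 : (ρ : ℂ) * c ((θ + ω : ℝ) : UnitAddCircle) - r * c ((θ : ℝ) : UnitAddCircle)
      = c ((θ : ℝ) : UnitAddCircle) * ((ρ : ℂ) * c ((ω : ℝ) : UnitAddCircle) - r) := by
    rw [show ((θ + ω : ℝ) : UnitAddCircle) = (θ : UnitAddCircle) + (ω : UnitAddCircle) by rfl, c_add]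
    ring
  rw [h1, norm_mul, norm_c, one_mul]
  have h2 : c ((ω : ℝ) : UnitAddCircle) = (Real.cos (2 * Real.pi * ω) : ℂ) + (Real.sin (2 * Real.pi * ω) : ℂ) * Complex.I := by
    rw [c_coe, show (2 * (Real.pi : ℂ) * ω * Complex.I) = ((2 * Real.pi * ω : ℝ) : ℂ) * Complex.I by push_cast; ring,
      Complex.exp_mul_I, Complex.ofReal_cos, Complex.ofReal_sin]
  rw [h2]
  have h3 : (ρ : ℂ) * ((Real.cos (2 * Real.pi * ω) : ℂ) + (Real.sin (2 * Real.pi * ω) : ℂ) * Complex.I) - r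
      = ((ρ * Real.cos (2 * Real.pi * ω) - r : ℝ) : ℂ) + ((ρ * Real.sin (2 * Real.pi * ω) : ℝ) : ℂ) * Complex.I := by
    push_cast; ring
  rw [h3, Complex.norm_add_mul_I]
  have h4 : (ρ * Real.cos (2 * Real.pi * ω) - r) ^ 2 + (ρ * Real.sin (2 * Real.pi * ω)) ^ 2 = s ^ 2 := by
    have := Real.sin_sq_add_cos_sq (2 * Real.pi * ω)
    nlinarith [this]
  rw [h4, Real.sqrt_sq hs.le]

theorem leafW (r s ρ₀ : ℝ) (hr : 0 < r) (hs : 0 < s) (h1 : |r - s| < ρ₀) (h2 : ρ₀ < r + s) :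
    ∃ ω : ℝ → ℝ, ContinuousOn ω (Set.Ioo |r - s| (r + s)) ∧
      (∀ δ : ℝ, 0 < δ → ∃ p q : ℝ, |p - ρ₀| < δ ∧ |q - ρ₀| < δ ∧ p ∈ Set.Ioo |r - s| (r + s) ∧
        q ∈ Set.Ioo |r - s| (r + s) ∧ ω p < ω q) ∧
      ∀ ρ ∈ Set.Ioo |r - s| (r + s), ∀ θ : ℝ,
        ‖(ρ : ℂ) * c ((θ + ω ρ : ℝ) : UnitAddCircle) - r * c ((θ : ℝ) : UnitAddCircle)‖ = s ∧
        ‖(ρ : ℂ) * c ((θ - ω ρ : ℝ) : UnitAddCircle) - r * c ((θ : ℝ) : UnitAddCircle)‖ = s := by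
  have hpos : ∀ ρ ∈ Set.Ioo |r - s| (r + s), 0 < ρ := fun ρ h => lt_of_le_of_lt (abs_nonneg _) h.1
  set X : ℝ → ℝ := fun ρ => (ρ ^ 2 + r ^ 2 - s ^ 2) / (2 * ρ * r) with hX
  have hlt : ∀ ρ ∈ Set.Ioo |r - s| (r + s), X ρ < 1 := by
    intro ρ h
    have hρ := hpos ρ h
    have ha := abs_lt.1 h.1
    rw [hX]; simp only
    rw [div_lt_one (by positivity)]
    have h3 : (ρ - r - s) < 0 := by linarith [h.2]
    have h4 : 0 < (ρ - r + s) := by linarith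
    nlinarith [mul_neg_of_neg_of_pos h3 h4]
  have hgt : ∀ ρ ∈ Set.Ioo |r - s| (r + s), -1 < X ρ := by
    intro ρ h
    have hρ := hpos ρ h
    have ha := abs_lt.1 h.1
    rw [hX]; simp only
    rw [lt_div_iff₀ (by positivity)]
    have h3 : 0 < ρ + r - s := by linarith
    have h4 : 0 < ρ + r + s := by linarith
    nlinarith [mul_pos h3 h4]
  refine ⟨fun ρ => Real.arccos (X ρ) / (2 * Real.pi), ?_, ?_, ?_⟩
  · refine ContinuousOn.div_const ?_ _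
    refine Real.continuous_arccos.comp_continuousOn ?_
    refine ContinuousOn.div (by fun_prop) (by fun_prop) ?_
    intro ρ h
    have := hpos ρ h
    positivity
  · intro δ hδ
    -- three points
    set a := ρ₀ - |r - s| with ha
    set b := r + s - ρ₀ with hb
    have ha0 : 0 < a := by rw [ha]; linarith
    have hb0 : 0 < b := by rw [hb]; linarith
    set η := min δ b / 4 with hη
    have hη0 : 0 < η := by rw [hη]; positivity
    have hηδ : 4 * η ≤ δ := by rw [hη]; have := min_le_left δ b; linarith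
    have hηb : 4 * η ≤ b := by rw [hη]; have := min_le_right δ b; linarith
    have hm : ∀ k : ℝ, 0 ≤ k → k ≤ 2 → |ρ₀ + k * η - ρ₀| < δ ∧ ρ₀ + k * η ∈ Set.Ioo |r - s| (r + s) := by
      intro k hk0 hk2
      have hkη : 0 ≤ k * η := by positivity
      have hkη2 : k * η ≤ 2 * η := by nlinarith
      refine ⟨?_, ?_, ?_⟩
      · rw [abs_of_nonneg (by linarith)]; linarith
      · linarith
      · linarith
    obtain ⟨d0, m0⟩ := hm 0 le_rfl (by norm_num)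
    obtain ⟨d1, m1⟩ := hm 1 (by norm_num) (by norm_num)
    obtain ⟨d2, m2⟩ := hm 2 (by norm_num) (by norm_num)
    by_contra hcon
    push Not at hcon
    have heq : ∀ p q : ℝ, |p - ρ₀| < δ → |q - ρ₀| < δ → p ∈ Set.Ioo |r - s| (r + s) → q ∈ Set.Ioo |r - s| (r + s) → X p = X q := by
      intro p q hp hq hp' hq'
      have e1 := hcon p q hp hq hp' hq'
      have e2 := hcon q p hq hp hq' hp'
      have e3 : Real.arccos (X p) = Real.arccos (X q) := by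
        have h2pi : 0 < 2 * Real.pi := by positivity
        have := le_antisymm e2 e1
        field_simp at this
        exact this
      have e4 := congrArg Real.cos e3
      rwa [Real.cos_arccos (hgt p hp').le (hlt p hp').le, Real.cos_arccos (hgt q hq').le (hlt q hq').le] at e4
    have hprod : ∀ p q : ℝ, p < q → p ∈ Set.Ioo |r - s| (r + s) → q ∈ Set.Ioo |r - s| (r + s) → X p = X q →
        p * q = r ^ 2 - s ^ 2 := by
      intro p q hpq hp hq h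
      have hp0 := hpos p hp
      have hq0 := hpos q hq
      rw [hX] at h; simp only at h
      rw [div_eq_div_iff (by positivity) (by positivity)] at h
      have h5 : (q - p) * (2 * r) * (p * q - (r ^ 2 - s ^ 2)) = 0 := by
        have : (p ^ 2 + r ^ 2 - s ^ 2) * (2 * q * r) - (q ^ 2 + r ^ 2 - s ^ 2) * (2 * p * r) = 0 := by linarith
        nlinarith [this]
      have h6 : (q - p) * (2 * r) ≠ 0 := by
        have : 0 < q - p := by linarith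
        positivity
      have := (mul_eq_zero.1 h5).resolve_left h6
      linarith
    have e01 := hprod _ _ (by linarith) m0 m1 (heq _ _ d0 d1 m0 m1)
    have e02 := hprod _ _ (by linarith) m0 m2 (heq _ _ d0 d2 m0 m2)
    have hρ : 0 < ρ₀ + 0 * η := hpos _ m0
    nlinarith
  · intro ρ h θ
    have hρ := hpos ρ h
    have hcos : 2 * ρ * r * Real.cos (2 * Real.pi * (Real.arccos (X ρ) / (2 * Real.pi))) = ρ ^ 2 + r ^ 2 - s ^ 2 := by
      rw [show 2 * Real.pi * (Real.arccos (X ρ) / (2 * Real.pi)) = Real.arccos (X ρ) by field_simp,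
        Real.cos_arccos (hgt ρ h).le (hlt ρ h).le, hX]
      simp only
      field_simp
    constructor
    · exact leafW_dist r s ρ _ hs hcos θ
    · have := leafW_dist r s ρ (-(Real.arccos (X ρ) / (2 * Real.pi))) hs (by rw [mul_neg, Real.cos_neg]; exact hcos) θ
      rw [← sub_eq_add_neg] at this
      exact this

end LeafWPart

/-!
## Part LeafA: a boundary does not separate along crossing circles (about 170 lines)

PROOF.
`ω` from `leafW` (`r := f`, `s := e`, `ρ₀ := ‖x' - x‖`).  Choose `φ₀ : ℝ` with `x' = x + c φ₀ * ρ₀` (`exists_pt`; every class has a real representative).  `Q (ρ, φ) := x + c (φ : UnitAddCircle) * ρ`, continuous on `ℝ × ℝ`, `Q (ρ₀, φ₀) = x'`.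
Choose `ρ₁ < ρ₀ < ρ₂` with `Icc ρ₁ ρ₂ ⊆ Ioo |e - f| (e + f)` and `η > 0` with `‖Q (ρ, φ) - x'‖ < r` for `ρ ∈ Icc ρ₁ ρ₂`, `|φ - φ₀| < η` (continuity).  `N := {θ : ℝ | x + c θ * f ∉ V ψ}`.  `Nᶜ` is dense: `N'  := {t : UnitAddCircle | x + c t * f ∉ V ψ}` is null by `hc`, so its
complement meets every nonempty open set, and `ℝ → UnitAddCircle` is an open map (`QuotientAddGroup.isOpenMap_coe`).
`hp`: let `θ ∉ N`, `ρ ∈ Icc ρ₁ ρ₂`, `|θ + ω ρ - φ₀| < η`, `z := Q (ρ, θ + ω ρ)`.  Suppose `z ∉ V true`, `z ∉ V false`.  `‖z - x'‖ < r`, so by `hz` `z + c t * e ∉ V ψ` for all `t`.  But `w := x + c θ * f ∈ V ψ` and `‖w - z‖ = e` (`leafW`), so `w = z + c t * e` for some `t`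
(`exists_pt`): contradiction.  `hm`: the same.  `leafB` (with `V k` replaced by `Q ⁻¹' V k`) gives `k` and `δ`: if `|ρ - ρ₀| < δ`, `|φ - φ₀| < δ` and `φ - ω ρ ∉ N` then `Q (ρ, φ) ∈ V k`.
Choose `ρ' > 0` such that every `z` with `‖z - x'‖ < ρ'` is `Q (ρ, φ)` with `|ρ - ρ₀| < δ`, `|φ - φ₀| < δ`, `ρ ∈ Ioo |e - f| (e + f)`: `ρ := ‖z - x‖`, `φ := φ₀ + arg ((z - x) / (x' - x)) / (2 π)` (continuous near `x'`, `Complex.continuousAt_arg`; `z - x = ‖z - x‖ exp (i arg)`).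
If such a `z` is not in `V k` then `θ := φ - ω ρ ∈ N`, and `‖z - (x + c θ * f)‖ = e`, so `z = x + c θ * f + c s * e` for some `s` and `(θ, s) ∈ N' ×ˢ univ`, which is a null set (`Measure.prod_prod`).  So `z` is in the image of a null set, which is null by `img_null`.
-/

section LeafAPart

open MeasureTheory Filter Topology Pool.Agent.H93.EG

private theorem LeafA_cont (x : ℂ) :
    Continuous (fun p : ℝ × ℝ => x + c ((p.2 : ℝ) : UnitAddCircle) * (p.1 : ℂ)) := by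
  have h : (fun p : ℝ × ℝ => x + c ((p.2 : ℝ) : UnitAddCircle) * (p.1 : ℂ)) =
      fun p : ℝ × ℝ => x + Complex.exp (2 * Real.pi * (p.2 : ℂ) * Complex.I) * (p.1 : ℂ) := by
    funext p
    rw [c_coe]
  rw [h]
  fun_prop

private theorem LeafA_polar (x x' : ℂ) (φ₀ : ℝ) (h0 : 0 < ‖x' - x‖)
    (hx' : x' = x + c ((φ₀ : ℝ) : UnitAddCircle) * (‖x' - x‖ : ℝ)) (z : ℂ) :
    z = x + c ((φ₀ + ((z - x) / (x' - x)).arg / (2 * Real.pi) : ℝ) : UnitAddCircle) *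
      (‖z - x‖ : ℝ) := by
  have h1 := Complex.norm_mul_exp_arg_mul_I ((z - x) / (x' - x))
  rw [norm_div] at h1
  have hne : x' - x ≠ 0 := norm_pos_iff.1 h0
  have h0' : ((‖x' - x‖ : ℝ) : ℂ) ≠ 0 := by
    exact_mod_cast h0.ne'
  have h2 : x' - x = c ((φ₀ : ℝ) : UnitAddCircle) * (‖x' - x‖ : ℝ) := by
    linear_combination hx'
  have h3 : c ((φ₀ + ((z - x) / (x' - x)).arg / (2 * Real.pi) : ℝ) : UnitAddCircle) =
      c ((φ₀ : ℝ) : UnitAddCircle) * Complex.exp (((z - x) / (x' - x)).arg * Complex.I) := by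
    rw [c_coe, c_coe, ← Complex.exp_add]
    congr 1
    push_cast
    have hpi : (Real.pi : ℂ) ≠ 0 := by
      exact_mod_cast Real.pi_ne_zero
    field_simp
  rw [h3]
  have h4 : z - x = (x' - x) * ((z - x) / (x' - x)) := by
    field_simp
  have h5 : ((‖z - x‖ / ‖x' - x‖ : ℝ) : ℂ) = (‖z - x‖ : ℝ) / (‖x' - x‖ : ℝ) := by
    push_cast
    rfl
  rw [h5] at h1
  have h6 : z - x = c ((φ₀ : ℝ) : UnitAddCircle) *
      Complex.exp (((z - x) / (x' - x)).arg * Complex.I) * (‖z - x‖ : ℝ) := by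
    calc z - x = (x' - x) * ((z - x) / (x' - x)) := h4
      _ = (c ((φ₀ : ℝ) : UnitAddCircle) * (‖x' - x‖ : ℝ)) *
          ((((‖z - x‖ : ℝ) : ℂ) / ((‖x' - x‖ : ℝ) : ℂ)) *
            Complex.exp (((z - x) / (x' - x)).arg * Complex.I)) := by
          rw [h1, ← h2]
      _ = _ := by
          field_simp
  linear_combination h6

theorem leaf (V : Bool → Set ℂ) (hV : ∀ k, IsOpen (V k)) (hd : Disjoint (V true) (V false))
    (ψ : Bool) (x x' : ℂ) (e f r : ℝ) (he : 0 < e) (hf : 0 < f) (hr : 0 < r)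
    (h1 : |e - f| < ‖x' - x‖) (h2 : ‖x' - x‖ < e + f)
    (hc : ∀ᵐ t : UnitAddCircle, x + c t * f ∈ V ψ)
    (hz : ∀ z : ℂ, z ∉ V true → z ∉ V false → ‖z - x'‖ < r →
      ∀ t : UnitAddCircle, z + c t * e ∉ V ψ) :
    ∃ k : Bool, ∃ ρ : ℝ, 0 < ρ ∧ ∀ᵐ z : ℂ, ‖z - x'‖ < ρ → z ∈ V k := by
  obtain ⟨ρ₀, hρ₀⟩ : ∃ ρ₀ : ℝ, ρ₀ = ‖x' - x‖ := ⟨_, rfl⟩
  have h1' : |f - e| < ρ₀ := by
    rw [abs_sub_comm, hρ₀]
    exact h1
  have h2' : ρ₀ < f + e := by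
    rw [hρ₀]
    linarith
  have hρpos : 0 < ρ₀ := lt_of_le_of_lt (abs_nonneg _) h1'
  obtain ⟨ω, hωc, hωne, hωd⟩ := leafW f e ρ₀ hf he h1' h2'
  obtain ⟨φ₀, hφ₀⟩ : ∃ φ₀ : ℝ, x' = x + c ((φ₀ : ℝ) : UnitAddCircle) * (ρ₀ : ℂ) := by
    obtain ⟨t, ht⟩ := exists_pt x (ρ₀ : ℂ) x' (by
      rw [Complex.norm_real, Real.norm_of_nonneg hρpos.le, hρ₀])
    obtain ⟨φ₀, rfl⟩ := QuotientAddGroup.mk_surjective t
    exact ⟨φ₀, ht⟩
  obtain ⟨Q, hQ⟩ : ∃ Q : ℝ × ℝ → ℂ,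
      Q = fun p : ℝ × ℝ => x + c ((p.2 : ℝ) : UnitAddCircle) * (p.1 : ℂ) := ⟨_, rfl⟩
  have hQa : ∀ ρ φ : ℝ, Q (ρ, φ) = x + c ((φ : ℝ) : UnitAddCircle) * (ρ : ℂ) := by
    intro ρ φ
    rw [hQ]
  have hQc : Continuous Q := by
    rw [hQ]
    exact LeafA_cont x
  have hQ0 : Q (ρ₀, φ₀) = x' := by
    rw [hQa, ← hφ₀]
  -- the size of the neighbourhood
  obtain ⟨δ0, hδ0, hδ0'⟩ := Metric.continuousAt_iff.1 (hQc.continuousAt (x := (ρ₀, φ₀))) r hr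
  obtain ⟨κ, hκ0, hκ1, hκ2, hκ3⟩ : ∃ κ : ℝ, 0 < κ ∧ κ < δ0 ∧ κ < ρ₀ - |f - e| ∧ κ < f + e - ρ₀ := by
    refine ⟨min δ0 (min (ρ₀ - |f - e|) (f + e - ρ₀)) / 2, ?_, ?_, ?_, ?_⟩
    · exact half_pos (lt_min hδ0 (lt_min (by linarith) (by linarith)))
    · have h3 : 0 < min δ0 (min (ρ₀ - |f - e|) (f + e - ρ₀)) :=
        lt_min hδ0 (lt_min (by linarith) (by linarith))
      have h4 := min_le_left δ0 (min (ρ₀ - |f - e|) (f + e - ρ₀))
      linarith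
    · have h3 : 0 < min δ0 (min (ρ₀ - |f - e|) (f + e - ρ₀)) :=
        lt_min hδ0 (lt_min (by linarith) (by linarith))
      have h4 := (min_le_right δ0 (min (ρ₀ - |f - e|) (f + e - ρ₀))).trans (min_le_left _ _)
      linarith
    · have h3 : 0 < min δ0 (min (ρ₀ - |f - e|) (f + e - ρ₀)) :=
        lt_min hδ0 (lt_min (by linarith) (by linarith))
      have h4 := (min_le_right δ0 (min (ρ₀ - |f - e|) (f + e - ρ₀))).trans (min_le_right _ _)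
      linarith
  have hIcc : ∀ ρ ∈ Set.Icc (ρ₀ - κ) (ρ₀ + κ), ρ ∈ Set.Ioo |f - e| (f + e) := by
    intro ρ hρ
    exact ⟨by linarith [hρ.1], by linarith [hρ.2]⟩
  have hnear : ∀ ρ ∈ Set.Icc (ρ₀ - κ) (ρ₀ + κ), ∀ φ : ℝ, |φ - φ₀| < κ → ‖Q (ρ, φ) - x'‖ < r := by
    intro ρ hρ φ hφ
    have h3 := @hδ0' (ρ, φ) (by
      rw [Prod.dist_eq, max_lt_iff, Real.dist_eq, Real.dist_eq]
      refine ⟨?_, hφ.trans hκ1⟩
      rw [abs_lt]
      exact ⟨by linarith [hρ.1], by linarith [hρ.2]⟩)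
    rwa [hQ0, dist_eq_norm] at h3
  -- the set `N`
  obtain ⟨N', hN'⟩ : ∃ N' : Set UnitAddCircle, N' = {t | x + c t * f ∉ V ψ} := ⟨_, rfl⟩
  have hN'0 : volume N' = 0 := by
    rw [hN']
    exact hc
  obtain ⟨N, hN⟩ : ∃ N : Set ℝ, N = {θ | x + c ((θ : ℝ) : UnitAddCircle) * f ∉ V ψ} := ⟨_, rfl⟩
  have hNd : Dense Nᶜ := by
    have h3 : Dense {t : UnitAddCircle | x + c t * f ∈ V ψ} := Measure.dense_of_ae hc
    have h4 := h3.preimage (f := fun θ : ℝ => (θ : UnitAddCircle)) QuotientAddGroup.isOpenMap_coe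
    have h5 : Nᶜ = (fun θ : ℝ => (θ : UnitAddCircle)) ⁻¹' {t : UnitAddCircle | x + c t * f ∈ V ψ} := by
      ext θ
      rw [hN]
      simp
    rw [h5]
    exact h4
  have hdist : ∀ θ ρ θ' : ℝ, θ ∉ N → ρ ∈ Set.Icc (ρ₀ - κ) (ρ₀ + κ) → |θ' - φ₀| < κ →
      ‖(ρ : ℂ) * c ((θ' : ℝ) : UnitAddCircle) - f * c ((θ : ℝ) : UnitAddCircle)‖ = e →
      (ρ, θ') ∈ Q ⁻¹' V true ∪ Q ⁻¹' V false := by
    intro θ ρ θ' hθ hρ hθ' hdd
    by_contra hcon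
    rw [Set.mem_union, not_or, Set.mem_preimage, Set.mem_preimage] at hcon
    have hw : x + c ((θ : ℝ) : UnitAddCircle) * f ∈ V ψ := by
      by_contra h
      apply hθ
      rw [hN]
      exact h
    obtain ⟨t, ht⟩ := exists_pt (Q (ρ, θ')) (e : ℂ) (x + c ((θ : ℝ) : UnitAddCircle) * f) (by
      rw [Complex.norm_real, Real.norm_of_nonneg he.le, ← hdd, hQa, ← norm_neg]
      congr 1
      ring)
    apply hz (Q (ρ, θ')) hcon.1 hcon.2 (hnear ρ hρ θ' hθ') t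
    rw [← ht]
    exact hw
  obtain ⟨k, δ, hδ, hk⟩ := leafB (fun k => Q ⁻¹' V k) (fun k => (hV k).preimage hQc)
    (hd.preimage Q) N hNd ω (ρ₀ - κ) (ρ₀ + κ) ρ₀ φ₀ κ (by linarith) (by linarith) hκ0
    (hωc.mono hIcc) (by
      intro δ hδ
      obtain ⟨p, q, hp, hq, _, _, hpq⟩ := hωne (min δ κ) (lt_min hδ hκ0)
      have hp' := abs_lt.1 (hp.trans_le (min_le_right _ _))
      have hq' := abs_lt.1 (hq.trans_le (min_le_right _ _))
      exact ⟨p, q, hp.trans_le (min_le_left _ _), hq.trans_le (min_le_left _ _),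
        ⟨by linarith, by linarith⟩, ⟨by linarith, by linarith⟩, hpq⟩)
    (fun θ ρ hθ hρ hh => hdist θ ρ (θ + ω ρ) hθ hρ hh (hωd ρ (hIcc ρ hρ) θ).1)
    (fun θ ρ hθ hρ hh => hdist θ ρ (θ - ω ρ) hθ hρ hh (hωd ρ (hIcc ρ hρ) θ).2)
  refine ⟨k, ?_⟩
  -- polar coordinates
  have hx'x : x' - x ≠ 0 := by
    rw [← norm_pos_iff, ← hρ₀]
    exact hρpos
  have hc1 : ContinuousAt (fun z : ℂ => ‖z - x‖) x' := by fun_prop
  have hc2 : ContinuousAt (fun z : ℂ => ((z - x) / (x' - x)).arg / (2 * Real.pi)) x' := by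
    have h3 : ContinuousAt (fun z : ℂ => (z - x) / (x' - x)) x' := by fun_prop
    have h4 : ContinuousAt Complex.arg ((x' - x) / (x' - x)) := by
      apply Complex.continuousAt_arg
      rw [div_self hx'x]
      exact Complex.one_mem_slitPlane
    exact (ContinuousAt.comp (f := fun z : ℂ => (z - x) / (x' - x)) h4 h3).div_const _
  have he1 : ∀ᶠ z in 𝓝 x', |‖z - x‖ - ρ₀| < min δ κ := by
    have h3 := (Metric.tendsto_nhds.1 hc1) (min δ κ) (lt_min hδ hκ0)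
    filter_upwards [h3] with z hz'
    rw [Real.dist_eq] at hz'
    rw [hρ₀]
    exact hz'
  have he2 : ∀ᶠ z in 𝓝 x', |((z - x) / (x' - x)).arg / (2 * Real.pi)| < δ := by
    have h3 := (Metric.tendsto_nhds.1 hc2) δ hδ
    filter_upwards [h3] with z hz'
    rw [Real.dist_eq, div_self hx'x, Complex.arg_one, zero_div, sub_zero] at hz'
    exact hz'
  obtain ⟨ρ', hρ', hρ''⟩ := Metric.eventually_nhds_iff.1 (he1.and he2)
  refine ⟨ρ', hρ', ?_⟩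
  have hnull := img_null x (f : ℂ) (e : ℂ) (N' ×ˢ Set.univ) (by
    rw [show (volume : Measure (UnitAddCircle × UnitAddCircle)) =
      (volume : Measure UnitAddCircle).prod volume from rfl, Measure.prod_prod, hN'0, zero_mul])
  have hae : ∀ᵐ z : ℂ, z ∉ (fun ts : UnitAddCircle × UnitAddCircle =>
      x + c ts.1 * (f : ℂ) + c ts.2 * (e : ℂ)) '' (N' ×ˢ Set.univ) := by
    rw [ae_iff]
    simp only [not_not]
    exact hnull
  filter_upwards [hae] with z hz1 hz2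
  obtain ⟨h3, h4⟩ := @hρ'' z (by rw [dist_eq_norm]; exact hz2)
  have hpol := LeafA_polar x x' φ₀ (by rw [← hρ₀]; exact hρpos) (by rw [← hρ₀]; exact hφ₀) z
  obtain ⟨ρ, hρ⟩ : ∃ ρ : ℝ, ρ = ‖z - x‖ := ⟨_, rfl⟩
  obtain ⟨φ, hφ⟩ : ∃ φ : ℝ, φ = φ₀ + ((z - x) / (x' - x)).arg / (2 * Real.pi) := ⟨_, rfl⟩
  rw [← hρ, ← hφ] at hpol
  rw [← hρ] at h3
  have h4' : |φ - φ₀| < δ := by
    rw [hφ, add_sub_cancel_left]
    exact h4
  by_contra hcon
  have hθ : φ - ω ρ ∈ N := by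
    by_contra hθ
    have h5 := hk ρ φ (h3.trans_le (min_le_left _ _)) h4' hθ
    rw [Set.mem_preimage, hQa, ← hpol] at h5
    exact hcon h5
  have h6 := abs_lt.1 (h3.trans_le (min_le_right _ _))
  have hρI : ρ ∈ Set.Ioo |f - e| (f + e) := hIcc ρ ⟨by linarith, by linarith⟩
  have h7 := (hωd ρ hρI (φ - ω ρ)).1
  rw [sub_add_cancel] at h7
  obtain ⟨s, hs⟩ := exists_pt (x + c ((φ - ω ρ : ℝ) : UnitAddCircle) * f) (e : ℂ) z (by
    rw [Complex.norm_real, Real.norm_of_nonneg he.le, ← h7]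
    congr 1
    linear_combination hpol)
  apply hz1
  refine ⟨(((φ - ω ρ : ℝ) : UnitAddCircle), s), ⟨?_, Set.mem_univ _⟩, hs.symm⟩
  rw [hN']
  rw [hN] at hθ
  exact hθ

end LeafAPart

/-!
## Part NoCfg: the measurable theorem
-/

section NoCfgPart

open MeasureTheory Filter Topology Pool.Agent.H93.EG

private theorem NoCfg_U_disjoint (u : ℂ → ℝ) (e : Bool) : Disjoint (U u e) (U u (!e)) :=
  Set.disjoint_left.mpr fun x h h' => U_disj u e x h h'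

private theorem NoCfg_norm (x : ℂ) (t : UnitAddCircle) (r : ℝ) (hr : 0 ≤ r) : ‖x + c t * r - x‖ = r := by
  rw [add_sub_cancel_left, norm_ct, Complex.norm_real, Real.norm_of_nonneg hr]

/-- There are boundary points. -/
private theorem NoCfg_Z {a b : ℝ} {g : Bool → UnitAddCircle} {u : ℂ → ℝ} (h : Cfg a b g u) :
    ∃ x, x ∈ Z u := by
  by_contra hne
  have hall : (Set.univ : Set ℂ) ⊆ U u true ∪ U u (!true) := by
    intro x _
    by_contra hx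
    exact hne ⟨x, fun h1 => hx (Or.inl h1), fun h1 => hx (Or.inr h1)⟩
  have h1 : ∃ e, U u e = Set.univ := by
    rcases isPreconnected_univ.subset_or_subset (U_open u true) (U_open u (!true))
      (NoCfg_U_disjoint u true) hall with h2 | h2
    · exact ⟨true, Set.univ_subset_iff.mp h2⟩
    · exact ⟨!true, Set.univ_subset_iff.mp h2⟩
  obtain ⟨e, he⟩ := h1
  have h2 : ∀ᵐ x : ℂ, u x = se e := locSet_univ u (se e) he
  have h3 := ae_circ (P := fun z => u z = se e) h2 (ty a b (g e) 0).1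
  have h4 := ae_circ (P := fun z => u z = se e) h2 (ty a b (g e) 0).2
  obtain ⟨x, ⟨⟨hx1, hx2⟩, hx3⟩, hx4⟩ := (((h.con e).and h2).and (h3.and h4)).exists.imp
    (fun x hx => (⟨⟨⟨hx.1.1, hx.1.2⟩, hx.2.1⟩, hx.2.2⟩ :
      (((0 ≤ se e * u x → R a b g u e x) ∧ u x = se e) ∧
        (∀ᵐ t : UnitAddCircle, u (x + c t * (ty a b (g e) 0).1) = se e)) ∧
        ∀ᵐ t : UnitAddCircle, u (x + c t * (ty a b (g e) 0).2) = se e))
  have h5 : R a b g u e x := hx1 (by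
    rw [hx2, se_mul_self]
    exact zero_le_one)
  obtain ⟨t, ⟨ht1, ht2⟩, ht3⟩ := (((h5 0).and hx3).and hx4).exists
  rw [ht2, ht3] at ht1
  have := se_mul_self e
  nlinarith

/-- The crossing lemma. -/
private theorem NoCfg_cross (u : ℂ → ℝ) (x x' : ℂ) (hx' : x' ∈ Z u) (e' f r : ℝ) (he : 0 < e') (hf : 0 < f)
    (hr : 0 < r) (ψ : Bool) (h1 : |e' - f| < ‖x' - x‖) (h2 : ‖x' - x‖ < e' + f)
    (hc : ∀ᵐ t : UnitAddCircle, x + c t * f ∈ U u ψ)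
    (hz : ∀ z ∈ Z u, ‖z - x'‖ < r → ∀ w : ℂ, ‖w - z‖ = e' → w ∉ U u ψ) : False := by
  obtain ⟨k, ρ, hρ, hk⟩ := leaf (U u) (U_open u) (NoCfg_U_disjoint u true) ψ x x' e' f r he hf hr h1 h2 hc
    (fun z hz1 hz2 hz3 t => hz z ⟨hz1, hz2⟩ hz3 (z + c t * e') (NoCfg_norm z t e' he.le))
  have hk' : x' ∈ U u k := by
    refine ⟨ρ, hρ, ?_⟩
    filter_upwards [hk, U_ae u k] with z hz1 hz2 hm
    exact hz2 (hz1 (by rwa [Metric.mem_ball, dist_eq_norm] at hm))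
  cases k with
  | true => exact hx'.1 hk'
  | false => exact hx'.2 hk'

/-- Near a boundary point of colour `κ` all boundary points have the colour `κ`. -/
private theorem NoCfg_near {a b : ℝ} {g : Bool → UnitAddCircle} {u : ℂ → ℝ} (h : Cfg a b g u)
    (x' : ℂ) (κ : Bool) (ha : ∀ᵐ t : UnitAddCircle, x' + c t * a ∈ U u κ) :
    ∃ r : ℝ, 0 < r ∧ ∀ z ∈ Z u, ‖z - x'‖ < r → z ∈ W a b g u κ := by
  have h1 : x' ∉ W a b g u (!κ) := by
    intro hw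
    obtain ⟨t, ht⟩ := ha.exists
    have h2 := hw.1 (x' + c t * a) (NoCfg_norm x' t a h.ha.le)
    rw [Bool.not_not] at h2
    exact h2 ht
  have h2 : (W a b g u (!κ))ᶜ ∈ 𝓝 x' := (W_closed a b g u (!κ)).isOpen_compl.mem_nhds h1
  obtain ⟨r, hr, hr2⟩ := Metric.mem_nhds_iff.mp h2
  refine ⟨r, hr, ?_⟩
  intro z hz hzr
  have h3 : z ∉ W a b g u (!κ) := hr2 (by rwa [Metric.mem_ball, dist_eq_norm])
  obtain ⟨κ', hk, _, _⟩ := G3 h z hz
  by_cases hkk : κ' = κ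
  · rwa [hkk] at hk
  · have : κ' = !κ := by
      cases κ <;> cases κ' <;> simp_all
    rw [this] at hk
    exact absurd hk h3

private theorem NoCfg_pair {a b : ℝ} {g : Bool → UnitAddCircle} {u : ℂ → ℝ} (h : Cfg a b g u)
    (x x' : ℂ) (hx : x ∈ Z u) (hx' : x' ∈ Z u) (h1 : |a - b| < ‖x' - x‖) (h2 : ‖x' - x‖ < a + b) :
    False := by
  obtain ⟨κ, hκW, hκa, hκb⟩ := G3 h x hx
  have hapos := h.ha
  have hbpos := h.hb
  obtain ⟨κ', hκ'W, hκ'a, hκ'b⟩ := G3 h _ hx'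
  obtain ⟨r, hr, hnear⟩ := NoCfg_near h _ κ' hκ'a
  by_cases hkk : κ' = κ
  · refine NoCfg_cross u x _ hx' a b r hapos hbpos hr (!κ) h1 h2 hκb ?_
    intro z hz hzr w hw
    have := hnear z hz hzr
    rw [hkk] at this
    exact this.1 w hw
  · have hk2 : κ' = !κ := by
      cases κ <;> cases κ' <;> simp_all
    obtain ⟨m, χ, hmχ, ham, hbm, hmae⟩ : ∃ (m : ℝ) (χ : Bool), ((m = a ∧ χ = κ) ∨ (m = b ∧ χ = !κ)) ∧
        a ≤ m ∧ b ≤ m ∧ ∀ᵐ t : UnitAddCircle, x + c t * m ∈ U u χ := by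
      rcases le_total b a with hle | hle
      · exact ⟨a, κ, Or.inl ⟨rfl, rfl⟩, le_refl _, hle, hκa⟩
      · exact ⟨b, !κ, Or.inr ⟨rfl, rfl⟩, hle, le_refl _, hκb⟩
    have hmpos : 0 < m := lt_of_lt_of_le hapos ham
    have hρ0 : 0 < ‖x' - x‖ := lt_of_le_of_lt (abs_nonneg _) h1
    refine NoCfg_cross u x _ hx' m m r hmpos hmpos hr χ (by rw [sub_self, abs_zero]; exact hρ0)
      (by linarith) hmae ?_
    intro z hz hzr w hw
    have h1 := hnear z hz hzr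
    rw [hk2] at h1
    rcases hmχ with ⟨h2, h3⟩ | ⟨h2, h3⟩
    · have := h1.1 w (by rw [hw, h2])
      rw [Bool.not_not] at this
      rwa [h3]
    · have := h1.2.1 w (by rw [hw, h2])
      rwa [h3]

/-- On a ray around a boundary point, with a point of `U u χ` at distance `m`, all points at a
distance between `|a - b|` and `a + b` are in `U u χ`. -/
private theorem NoCfg_ray {a b : ℝ} {g : Bool → UnitAddCircle} {u : ℂ → ℝ} (h : Cfg a b g u)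
    (x : ℂ) (hx : x ∈ Z u) (t : UnitAddCircle) (m : ℝ) (χ : Bool) (hm1 : |a - b| < m)
    (hm2 : m < a + b) (ht : x + c t * m ∈ U u χ) (ρ : ℝ) (hρ1 : |a - b| < ρ) (hρ2 : ρ < a + b) :
    x + c t * (ρ : ℝ) ∈ U u χ := by
  by_contra hn
  obtain ⟨ρ', hρ', hρZ⟩ : ∃ ρ' ∈ Set.uIcc m ρ, x + c t * (ρ' : ℝ) ∈ Z u := by
    by_contra hne
    have hpre : IsPreconnected ((fun ρ : ℝ => x + c t * (ρ : ℂ)) '' Set.uIcc m ρ) := by
      refine isPreconnected_uIcc.image _ ?_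
      exact (continuous_const.add (continuous_const.mul Complex.continuous_ofReal)).continuousOn
    have hsub : (fun ρ : ℝ => x + c t * (ρ : ℂ)) '' Set.uIcc m ρ ⊆ U u χ ∪ U u (!χ) := by
      rintro z ⟨ρ', hρ', rfl⟩
      by_contra hz
      apply hne
      refine ⟨ρ', hρ', ?_⟩
      have hz1 : x + c t * (ρ' : ℂ) ∉ U u χ := fun h1 => hz (Or.inl h1)
      have hz2 : x + c t * (ρ' : ℂ) ∉ U u (!χ) := fun h1 => hz (Or.inr h1)
      cases χ with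
      | true => exact ⟨hz1, hz2⟩
      | false => exact ⟨hz2, hz1⟩
    have e1 : x + c t * (m : ℂ) ∈ (fun ρ : ℝ => x + c t * (ρ : ℂ)) '' Set.uIcc m ρ :=
      ⟨m, Set.left_mem_uIcc, rfl⟩
    have e2 : x + c t * (ρ : ℂ) ∈ (fun ρ : ℝ => x + c t * (ρ : ℂ)) '' Set.uIcc m ρ :=
      ⟨ρ, Set.right_mem_uIcc, rfl⟩
    rcases hpre.subset_or_subset (U_open u χ) (U_open u (!χ)) (NoCfg_U_disjoint u χ) hsub with h1 | h1
    · exact hn (h1 e2)
    · exact U_disj u χ _ ht (h1 e1)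
  have k1 : |a - b| < ρ' := by
    rcases Set.mem_uIcc.mp hρ' with h1 | h1
    · exact lt_of_lt_of_le hm1 h1.1
    · exact lt_of_lt_of_le hρ1 h1.1
  have k2 : ρ' < a + b := by
    rcases Set.mem_uIcc.mp hρ' with h1 | h1
    · exact lt_of_le_of_lt h1.2 hρ2
    · exact lt_of_le_of_lt h1.2 hm2
  have k0 : 0 < ρ' := lt_of_le_of_lt (abs_nonneg _) k1
  have hnorm : ‖x + c t * (ρ' : ℂ) - x‖ = ρ' := NoCfg_norm x t ρ' k0.le
  exact NoCfg_pair h x _ hx hρZ (by rw [hnorm]; exact k1) (by rw [hnorm]; exact k2)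

theorem no_cfg {a b : ℝ} {g : Bool → UnitAddCircle} {u : ℂ → ℝ} (h : Cfg a b g u) : False := by
  obtain ⟨x, hx⟩ := NoCfg_Z h
  obtain ⟨κ, hκW, hκa, hκb⟩ := G3 h x hx
  have hapos := h.ha
  have hbpos := h.hb
  obtain ⟨m, χ, hmχ, ham, hbm, hmae⟩ : ∃ (m : ℝ) (χ : Bool), ((m = a ∧ χ = κ) ∨ (m = b ∧ χ = !κ)) ∧ a ≤ m ∧ b ≤ m ∧
      ∀ᵐ t : UnitAddCircle, x + c t * m ∈ U u χ := by
    rcases le_total b a with hle | hle
    · exact ⟨a, κ, Or.inl ⟨rfl, rfl⟩, le_refl _, hle, hκa⟩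
    · exact ⟨b, !κ, Or.inr ⟨rfl, rfl⟩, hle, le_refl _, hκb⟩
  have hmpos : 0 < m := lt_of_lt_of_le hapos ham
  have hm1 : |a - b| < m := by
    rw [abs_lt]
    constructor <;> linarith
  have hm2 : m < a + b := by
    rcases hmχ with ⟨h1, _⟩ | ⟨h1, _⟩ <;> linarith
  obtain ⟨hc1, hc2⟩ := cc_triw a b (g χ) hapos hbpos
  have hcpos := h.cc_pos χ
  set C : ℝ := cc a b (g χ) with hC
  -- the points at distance `C` are boundary points
  have hZae : ∀ᵐ t : UnitAddCircle, x + c t * (C : ℝ) ∈ Z u := by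
    filter_upwards [hmae] with t ht
    have hn1 : x + c t * (C : ℝ) ∉ U u χ := hκW.2.2 χ _ (NoCfg_norm x t _ hcpos.le)
    have hn2 : x + c t * (C : ℝ) ∉ U u (!χ) := by
      intro hU
      -- a radius near `C` in the open interval
      have hcont : Continuous fun ρ : ℝ => x + c t * (ρ : ℂ) :=
        continuous_const.add (continuous_const.mul Complex.continuous_ofReal)
      have hmem : (fun ρ : ℝ => x + c t * (ρ : ℂ)) ⁻¹' U u (!χ) ∈ 𝓝 C :=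
        ((U_open u (!χ)).preimage hcont).mem_nhds hU
      have hcl : C ∈ closure (Set.Ioo |a - b| (a + b)) := by
        rw [closure_Ioo (by linarith)]
        exact ⟨hc1, hc2⟩
      obtain ⟨ρ, hρU, hρ⟩ := mem_closure_iff_nhds.mp hcl _ hmem
      exact U_disj u χ _ (NoCfg_ray h x hx t m χ hm1 hm2 ht ρ hρ.1 hρ.2) hρU
    cases χ with
    | true => exact ⟨hn1, hn2⟩
    | false => exact ⟨hn2, hn1⟩
  have hZall : ∀ t : UnitAddCircle, x + c t * (C : ℝ) ∈ Z u := by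
    intro t
    by_contra hn
    have hcont : Continuous fun t : UnitAddCircle => x + c t * (C : ℂ) :=
      continuous_const.add (continuous_c.mul continuous_const)
    obtain ⟨t', ht', hZ'⟩ := exists_open hZae ((fun t : UnitAddCircle => x + c t * (C : ℂ)) ⁻¹' (Z u)ᶜ)
      ((Z_closed u).isOpen_compl.preimage hcont) ⟨t, hn⟩
    exact ht' hZ'
  -- two of them at an intermediate distance
  obtain ⟨d, hd1, hd2⟩ : ∃ d : ℝ, |a - b| < d ∧ d < min (2 * C) (a + b) := by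
    refine exists_between (lt_min ?_ (by linarith))
    rcases (abs_nonneg (a - b)).eq_or_lt with h0 | h0
    · rw [← h0]; linarith
    · linarith
  obtain ⟨hd3, hd4⟩ := lt_min_iff.mp hd2
  have hd0 : 0 < d := lt_of_le_of_lt (abs_nonneg _) hd1
  set X : ℝ := 1 - d ^ 2 / (2 * C ^ 2) with hX
  have hq : d ^ 2 / (2 * C ^ 2) < 2 := by
    rw [div_lt_iff₀ (by positivity)]
    nlinarith
  have hq0 : 0 < d ^ 2 / (2 * C ^ 2) := by positivity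
  have hX2 : X ^ 2 ≤ 1 := by nlinarith
  obtain ⟨s, hs⟩ := exists_c (⟨X, Real.sqrt (1 - X ^ 2)⟩ : ℂ) (by
    have h1 : ‖(⟨X, Real.sqrt (1 - X ^ 2)⟩ : ℂ)‖ ^ 2 = 1 ^ 2 := by
      rw [← Complex.normSq_eq_norm_sq, Complex.normSq_apply]
      have := Real.mul_self_sqrt (show 0 ≤ 1 - X ^ 2 by linarith)
      simp only
      nlinarith
    exact (pow_left_inj₀ (norm_nonneg _) zero_le_one two_ne_zero).mp h1)
  have hdist : ‖(x + c s * (C : ℝ)) - (x + c 0 * (C : ℝ))‖ = d := by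
    have h1 : ‖(x + c s * (C : ℝ)) - (x + c 0 * (C : ℝ))‖ ^ 2 = d ^ 2 := by
      rw [c_zero, hs, ← Complex.normSq_eq_norm_sq, Complex.normSq_apply]
      have := Real.mul_self_sqrt (show 0 ≤ 1 - X ^ 2 by linarith)
      simp only [Complex.sub_re, Complex.add_re, Complex.mul_re, Complex.ofReal_re,
        Complex.ofReal_im, mul_zero, sub_zero, Complex.one_re, Complex.sub_im, Complex.add_im,
        Complex.mul_im, zero_add, Complex.one_im, zero_mul, add_zero]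
      have e1 : 2 * C ^ 2 * (1 - X) = d ^ 2 := by
        rw [hX]
        field_simp
        ring
      nlinarith
    exact (pow_left_inj₀ (norm_nonneg _) hd0.le two_ne_zero).mp h1
  exact NoCfg_pair h _ _ (hZall 0) (hZall s) (by rw [hdist]; exact hd1) (by rw [hdist]; exact hd4)

end NoCfgPart

end Pool.Agent.H79.TM
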