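import Pool.Agent.H93.EGM.Samp
import Pool.Agent.H93.EGM.Dec

/-!
# Means on the orbit of an arbitrary colouring
-/

set_option autoImplicit false

namespace Pool.Agent.H79.TM

/-!
# Two triangles with two common sides: basic definitions of the probabilistic part

`f` is a colouring of the plane, `E` an invariant mean on the functions of the colourings
(`IsStat f E`), `sg true = 1`, `sg false = -1`, `k` the pair correlation function, `kc` its continuous part.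
`aF l h F z = ∑ i, l i * sg (F (z + h i))`.
-/

section PBPart

open MeasureTheory Filter Topology Pool.Agent.H93.EG Pool.Agent.H58.ER

/-- Weights: nonnegative, sum one, all shifts smaller than `δ`, the averaged correlations are within
`ε` of the continuous part. -/
structure Wt (k kc : ℝ → ℝ) (δ ε : ℝ) {ι : Type} [Fintype ι] (l : ι → ℝ) (h : ι → ℂ) : Prop where
  nn : ∀ i, 0 ≤ l i
  sum : ∑ i, l i = 1
  small : ∀ i, ‖h i‖ < δ
  app : ∀ z w : ℂ, |∑ i, ∑ j, l i * l j * k ‖z + h i - (w + h j)‖ - kc ‖z - w‖| ≤ ε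

/-- The setting. -/
structure Sett (f : ℂ → Bool) (E : ((ℂ → Bool) → ℝ) → ℝ) (k kc : ℝ → ℝ) : Prop where
  stat : IsStat f E
  hk : ∀ z w : ℂ, E (fun F => sg (F z) * sg (F w)) = k ‖z - w‖
  k0 : k 0 = 1
  cont : Continuous kc
  eq : ∀ r, 0 < r → kc r = k r
  le : ∀ r, 0 ≤ r → kc r ≤ k r
  dec : ∀ δ : ℝ, 0 < δ → ∀ ε : ℝ, 0 < ε → ∃ (ι : Type) (_ : Fintype ι) (l : ι → ℝ) (h : ι → ℂ),
    Wt k kc δ ε l h

/-- Motions act on colourings. -/
def mv (θ w : ℂ) (F : ℂ → Bool) : ℂ → Bool := fun z => F (θ * z + w)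

/-- Bounded by a constant, with the constant given. -/
theorem bdd_of {Ψ : (ℂ → Bool) → ℝ} (C : ℝ) (h : ∀ F, |Ψ F| ≤ C) : Bdd Ψ := ⟨C, h⟩

theorem bdd_mul {Ψ Φ : (ℂ → Bool) → ℝ} (h : Bdd Ψ) (h' : Bdd Φ) : Bdd (fun F => Ψ F * Φ F) := by
  obtain ⟨C, hC⟩ := h
  obtain ⟨D, hD⟩ := h'
  refine ⟨C * D, fun F => ?_⟩
  rw [abs_mul]
  exact mul_le_mul (hC F) (hD F) (abs_nonneg _) ((abs_nonneg _).trans (hC F))

theorem bdd_sub {Ψ Φ : (ℂ → Bool) → ℝ} (h : Bdd Ψ) (h' : Bdd Φ) : Bdd (fun F => Ψ F - Φ F) := by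
  obtain ⟨C, hC⟩ := h
  obtain ⟨D, hD⟩ := h'
  exact ⟨C + D, fun F => (abs_sub _ _).trans (add_le_add (hC F) (hD F))⟩

theorem bdd_abs {Ψ : (ℂ → Bool) → ℝ} (h : Bdd Ψ) : Bdd (fun F => |Ψ F|) := by
  obtain ⟨C, hC⟩ := h
  exact ⟨C, fun F => by rw [abs_abs]; exact hC F⟩

theorem bdd_mv {Ψ : (ℂ → Bool) → ℝ} (h : Bdd Ψ) (θ w : ℂ) : Bdd (fun F => Ψ (mv θ w F)) := by
  obtain ⟨C, hC⟩ := h
  exact ⟨C, fun F => hC _⟩

theorem bdd_sg (z : ℂ) : Bdd (fun F : ℂ → Bool => sg (F z)) := ⟨1, fun _ => (abs_sg _).le⟩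

theorem bdd_aF {ι : Type} [Fintype ι] (l : ι → ℝ) (h : ι → ℂ) (z : ℂ) :
    Bdd (fun F : ℂ → Bool => aF l h F z) := by
  refine ⟨∑ i, |l i|, fun F => ?_⟩
  unfold aF
  refine (Finset.abs_sum_le_sum_abs _ _).trans (Finset.sum_le_sum fun i _ => ?_)
  rw [abs_mul, abs_sg, mul_one]

theorem E_inv {f : ℂ → Bool} {E : ((ℂ → Bool) → ℝ) → ℝ} (hE : IsStat f E) (θ w : ℂ) (hθ : ‖θ‖ = 1)
    (Ψ : (ℂ → Bool) → ℝ) (hΨ : Bdd Ψ) : E (fun F => Ψ (mv θ w F)) = E Ψ := hE.inv θ w hθ Ψ hΨ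

theorem E_sub {f : ℂ → Bool} {E : ((ℂ → Bool) → ℝ) → ℝ} (hE : IsStat f E)
    (Ψ Φ : (ℂ → Bool) → ℝ) (hΨ : Bdd Ψ) (hΦ : Bdd Φ) :
    E (fun F => Ψ F - Φ F) = E Ψ - E Φ := by
  have h1 : (fun F => Ψ F - Φ F) = fun F => Ψ F + (-1) * Φ F := by
    funext F
    ring
  rw [h1, hE.add _ _ hΨ (hΦ.smul (-1)), hE.smul _ _ hΦ]
  ring

/-- Monotonicity: only the colourings in the orbit of `f` matter. -/
theorem E_mono {f : ℂ → Bool} {E : ((ℂ → Bool) → ℝ) → ℝ} (hE : IsStat f E)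
    (Ψ Φ : (ℂ → Bool) → ℝ) (hΨ : Bdd Ψ) (hΦ : Bdd Φ)
    (h : ∀ θ w : ℂ, ‖θ‖ = 1 → Ψ (mv θ w f) ≤ Φ (mv θ w f)) : E Ψ ≤ E Φ := by
  have h1 := hE.nonneg (fun F => Φ F - Ψ F) (bdd_sub hΦ hΨ) fun θ w hθ => sub_nonneg.mpr (h θ w hθ)
  rw [E_sub hE _ _ hΦ hΨ] at h1
  linarith

theorem E_mono' {f : ℂ → Bool} {E : ((ℂ → Bool) → ℝ) → ℝ} (hE : IsStat f E)
    (Ψ Φ : (ℂ → Bool) → ℝ) (hΨ : Bdd Ψ) (hΦ : Bdd Φ) (h : ∀ F, Ψ F ≤ Φ F) : E Ψ ≤ E Φ :=
  E_mono hE Ψ Φ hΨ hΦ fun _ _ _ => h _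

theorem E_const {f : ℂ → Bool} {E : ((ℂ → Bool) → ℝ) → ℝ} (hE : IsStat f E) (C : ℝ) :
    E (fun _ => C) = C := by
  have := hE.smul C (fun _ => 1) (bdd_const 1)
  rw [hE.one] at this
  simpa using this

theorem E_abs {f : ℂ → Bool} {E : ((ℂ → Bool) → ℝ) → ℝ} (hE : IsStat f E)
    (Ψ : (ℂ → Bool) → ℝ) (hΨ : Bdd Ψ) : |E Ψ| ≤ E (fun F => |Ψ F|) := by
  rw [abs_le]
  constructor
  · have h1 := E_mono' hE (fun F => (-1) * |Ψ F|) Ψ ((bdd_abs hΨ).smul (-1)) hΨ fun F => by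
      have := neg_abs_le (Ψ F)
      linarith
    rw [hE.smul _ _ (bdd_abs hΨ)] at h1
    linarith
  · exact E_mono' hE Ψ _ hΨ (bdd_abs hΨ) fun F => le_abs_self _

/-- First moment from the second. -/
theorem E_abs_sq {f : ℂ → Bool} {E : ((ℂ → Bool) → ℝ) → ℝ} (hE : IsStat f E)
    (Ψ : (ℂ → Bool) → ℝ) (hΨ : Bdd Ψ) (lam : ℝ) (hl : 0 < lam)
    (h : E (fun F => Ψ F ^ 2) ≤ lam ^ 2) : E (fun F => |Ψ F|) ≤ lam := by
  have hb2 : Bdd (fun F => Ψ F ^ 2) := by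
    have := bdd_mul hΨ hΨ
    have e : (fun F => Ψ F * Ψ F) = fun F => Ψ F ^ 2 := by
      funext F
      ring
    rwa [e] at this
  have h1 := E_mono' hE (fun F => |Ψ F|) (fun F => lam / 2 + (1 / (2 * lam)) * Ψ F ^ 2) (bdd_abs hΨ)
    ((bdd_const (lam / 2)).add (hb2.smul _)) fun F => by
      have h2 : 0 ≤ (|Ψ F| - lam) ^ 2 / (2 * lam) := by positivity
      have h3 : (|Ψ F| - lam) ^ 2 / (2 * lam) =
          lam / 2 + (1 / (2 * lam)) * Ψ F ^ 2 - |Ψ F| := by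
        rw [sub_sq, sq_abs]
        field_simp
        ring
      linarith
  rw [hE.add _ _ (bdd_const _) (hb2.smul _), hE.smul _ _ hb2, E_const hE] at h1
  have h4 : (1 / (2 * lam)) * E (fun F => Ψ F ^ 2) ≤ (1 / (2 * lam)) * lam ^ 2 :=
    mul_le_mul_of_nonneg_left h (by positivity)
  have h5 : (1 / (2 * lam)) * lam ^ 2 = lam / 2 := by
    field_simp
  linarith

/-- Products of two averaged colourings with different shifts. -/
theorem aF_mul2 {ι : Type} [Fintype ι] (l : ι → ℝ) (h h' : ι → ℂ) (f : ℂ → Bool)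
    (E : ((ℂ → Bool) → ℝ) → ℝ) (hE : IsStat f E) (k : ℝ → ℝ)
    (hk : ∀ z w : ℂ, E (fun F => sg (F z) * sg (F w)) = k ‖z - w‖) (z w : ℂ) :
    E (fun F => aF l h F z * aF l h' F w) = ∑ i, ∑ j, l i * l j * k ‖z + h i - (w + h' j)‖ := by
  have h1 : (fun F => aF l h F z * aF l h' F w) = fun F => ∑ p ∈ (Finset.univ : Finset (ι × ι)),
      (l p.1 * l p.2) * (sg (F (z + h p.1)) * sg (F (w + h' p.2))) := by
    funext F
    unfold aF
    rw [Finset.sum_mul_sum, Fintype.sum_prod_type]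
    refine Finset.sum_congr rfl fun i _ => Finset.sum_congr rfl fun j _ => ?_
    ring
  rw [h1, stat_sum f E hE Finset.univ (fun p : ι × ι => l p.1 * l p.2)
    (fun p F => sg (F (z + h p.1)) * sg (F (w + h' p.2))), Fintype.sum_prod_type]
  · refine Finset.sum_congr rfl fun i _ => Finset.sum_congr rfl fun j _ => ?_
    rw [hk]
  · intro p _
    refine ⟨1, fun F => ?_⟩
    rw [abs_mul, abs_sg, abs_sg, one_mul]

/-- The same with a single point. -/
theorem aF_mul1 {ι : Type} [Fintype ι] (l : ι → ℝ) (h : ι → ℂ) (f : ℂ → Bool)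
    (E : ((ℂ → Bool) → ℝ) → ℝ) (hE : IsStat f E) (k : ℝ → ℝ)
    (hk : ∀ z w : ℂ, E (fun F => sg (F z) * sg (F w)) = k ‖z - w‖) (z w : ℂ) :
    E (fun F => sg (F z) * aF l h F w) = ∑ j, l j * k ‖z - (w + h j)‖ := by
  have h1 : (fun F => sg (F z) * aF l h F w) = fun F => ∑ j ∈ (Finset.univ : Finset ι),
      l j * (sg (F z) * sg (F (w + h j))) := by
    funext F
    unfold aF
    rw [Finset.mul_sum]
    refine Finset.sum_congr rfl fun j _ => ?_
    ring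
  rw [h1, stat_sum f E hE Finset.univ l (fun j F => sg (F z) * sg (F (w + h j)))]
  · refine Finset.sum_congr rfl fun j _ => ?_
    rw [hk]
  · intro p _
    refine ⟨1, fun F => ?_⟩
    rw [abs_mul, abs_sg, abs_sg, one_mul]

/-- A motion moves the point and rotates the shifts. -/
theorem aF_mv {ι : Type} [Fintype ι] (l : ι → ℝ) (h : ι → ℂ) (θ w z : ℂ) (F : ℂ → Bool) :
    aF l h (mv θ w F) z = aF l (fun i => θ * h i) F (θ * z + w) := by
  unfold aF mv
  refine Finset.sum_congr rfl fun i _ => ?_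
  congr 3
  ring

/-- Discretisation of integrals over pairs (point, angle). -/
theorem int_gen (ρ : ℝ) (hρ : 0 < ρ) (L : ℝ) (p q : ℂ) :
    ∃ (J : Finset ((ℤ × ℤ) × (ℤ × ℤ) × (ℤ × ℤ))) (v : (ℤ × ℤ) × (ℤ × ℤ) × (ℤ × ℤ) → ℝ),
      (∀ j, 0 ≤ v j) ∧
      (∑ j ∈ J, v j =
        (volume ((Metric.ball (0 : ℂ) L) ×ˢ (Set.univ : Set UnitAddCircle))).toReal) ∧
      (∀ j, v j ≠ 0 → ∃ (x : ℂ) (t : UnitAddCircle), cell ρ x = j.1 ∧
        cell ρ (x + c t * p) = j.2.1 ∧ cell ρ (x + c t * q) = j.2.2) ∧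
      ∀ Ψ : ℂ → ℂ → ℂ → ℝ, ∫ xt in (Metric.ball (0 : ℂ) L) ×ˢ (Set.univ : Set UnitAddCircle),
        Ψ (corner ρ (cell ρ xt.1)) (corner ρ (cell ρ (xt.1 + c xt.2 * p)))
          (corner ρ (cell ρ (xt.1 + c xt.2 * q))) =
          ∑ j ∈ J, v j * Ψ (corner ρ j.1) (corner ρ j.2.1) (corner ρ j.2.2) := by
  set S : Set (ℂ × UnitAddCircle) := (Metric.ball (0 : ℂ) L) ×ˢ (Set.univ : Set UnitAddCircle)
    with hS
  have hSm : MeasurableSet S := measurableSet_ball.prod MeasurableSet.univ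
  have hSf : volume S ≠ ⊤ := by
    rw [hS, Measure.volume_eq_prod, Measure.prod_prod]
    exact ENNReal.mul_ne_top measure_ball_lt_top.ne (measure_ne_top _ _)
  obtain ⟨J0, hJ0⟩ := cell_fin ρ hρ (L + ‖p‖ + ‖q‖)
  let g : ℂ × UnitAddCircle → (ℤ × ℤ) × (ℤ × ℤ) × (ℤ × ℤ) := fun xt =>
    (cell ρ xt.1, cell ρ (xt.1 + c xt.2 * p), cell ρ (xt.1 + c xt.2 * q))
  have hg : Measurable g := by
    refine ((cell_meas ρ).comp measurable_fst).prodMk (Measurable.prodMk ?_ ?_)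
    · exact (cell_meas ρ).comp (measurable_fst.add ((measurable_c.comp measurable_snd).mul_const p))
    · exact (cell_meas ρ).comp (measurable_fst.add ((measurable_c.comp measurable_snd).mul_const q))
  have hJ : ∀ a ∈ S, g a ∈ J0 ×ˢ J0 ×ˢ J0 := by
    rintro ⟨x, t⟩ ⟨hx, -⟩
    have hx' : ‖x‖ < L := by simpa using hx
    have hp0 := norm_nonneg p
    have hq0 := norm_nonneg q
    simp only [g, Finset.mem_product]
    refine ⟨hJ0 _ (by linarith), hJ0 _ ?_, hJ0 _ ?_⟩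
    · have := norm_add_le x (c t * p)
      rw [norm_mul, norm_c, one_mul] at this
      linarith
    · have := norm_add_le x (c t * q)
      rw [norm_mul, norm_c, one_mul] at this
      linarith
  refine ⟨J0 ×ˢ J0 ×ˢ J0, fun j => (volume (S ∩ g ⁻¹' {j})).toReal, fun j => ENNReal.toReal_nonneg,
    ?_, ?_, ?_⟩
  · have := integral_fin_range volume S hSm hSf g hg _ hJ (fun _ => 1)
    simp only [mul_one] at this
    rw [← this]
    simp [Measure.real]
  · intro j hj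
    have hne : (S ∩ g ⁻¹' {j}).Nonempty := by
      rw [Set.nonempty_iff_ne_empty]
      intro h0
      apply hj
      show (volume (S ∩ g ⁻¹' {j})).toReal = 0
      rw [h0]
      simp
    obtain ⟨⟨x, t⟩, -, h2⟩ := hne
    have h3 : g (x, t) = j := h2
    refine ⟨x, t, ?_, ?_, ?_⟩
    · rw [← h3]
    · rw [← h3]
    · rw [← h3]
  · intro Ψ
    exact integral_fin_range volume S hSm hSf g hg _ hJ
      (fun j => Ψ (corner ρ j.1) (corner ρ j.2.1) (corner ρ j.2.2))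

end PBPart

/-!
## Part SettEx: the setting exists (about 60 lines)

PROOF.
`exists_stat f` gives `E`, `stat_k f E hE` gives `k` with `hk`, `PD (fun z => k ‖z‖)`, `k 0 = 1`; `dec k hPD` gives `kc` continuous, `kc r = k r` for `0 < r`, and the weights for all `δ, ε > 0`, which are `Wt k kc δ ε l h`.
`le`: for `r > 0` equality.  For `r = 0`: `kc 0 ≤ 1 = k 0`: for every `ε > 0` take weights (`δ = 1`) and `z = w = 0` in `app`: `kc 0 ≤ ∑∑ l i l j k ‖h i - h j‖ + ε ≤ ∑∑ l i l j + ε = 1 + ε`, where `k ‖z - w‖ = E (sg (F z) * sg (F w)) ≤ 1`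
(`E_mono'`, `E_const`; `|sg| = 1`, `abs_sg`).
-/

section SettExPart

open MeasureTheory Filter Topology Pool.Agent.H93.EG Pool.Agent.H58.ER

theorem sett_exists (f : ℂ → Bool) :
    ∃ (E : ((ℂ → Bool) → ℝ) → ℝ) (k kc : ℝ → ℝ), Sett f E k kc := by
  obtain ⟨E, hE⟩ := exists_stat f
  obtain ⟨k, hk, hPD, hk0, -, -⟩ := stat_k f E hE
  obtain ⟨kc, hcont, heq, hdec⟩ := dec k hPD
  have hk1 : ∀ z w : ℂ, k ‖z - w‖ ≤ 1 := by
    intro z w
    rw [← hk z w, ← E_const hE 1]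
    refine E_mono' hE _ _ ?_ (bdd_const 1) fun F => ?_
    · refine bdd_of 1 fun F => ?_
      rw [abs_mul, abs_sg, abs_sg, one_mul]
    · refine (le_abs_self _).trans (le_of_eq ?_)
      rw [abs_mul, abs_sg, abs_sg, one_mul]
  refine ⟨E, k, kc, ⟨hE, hk, hk0, hcont, heq, ?_, ?_⟩⟩
  · intro r hr
    rcases hr.lt_or_eq with h | h
    · exact (heq r h).le
    · subst h
      rw [hk0]
      refine le_of_forall_pos_le_add fun ε hε => ?_
      obtain ⟨ι, _, l, h, h1, h2, -, h4⟩ := hdec 1 one_pos ε hε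
      have h5 := h4 0 0
      rw [sub_zero, norm_zero] at h5
      have h6 : ∑ i, ∑ j, l i * l j * k ‖(0 : ℂ) + h i - (0 + h j)‖ ≤ 1 := by
        have h7 : ∑ i, ∑ j, l i * l j * k ‖(0 : ℂ) + h i - (0 + h j)‖ ≤ ∑ i, ∑ j, l i * l j := by
          refine Finset.sum_le_sum fun i _ => Finset.sum_le_sum fun j _ => ?_
          have h8 := hk1 ((0 : ℂ) + h i) (0 + h j)
          have h9 : 0 ≤ l i * l j := mul_nonneg (h1 i) (h1 j)
          calc l i * l j * k ‖(0 : ℂ) + h i - (0 + h j)‖ ≤ l i * l j * 1 :=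
                mul_le_mul_of_nonneg_left h8 h9
            _ = l i * l j := mul_one _
        refine h7.trans (le_of_eq ?_)
        rw [← Finset.sum_mul_sum, h2, one_mul]
      have h10 := (abs_le.mp h5).1
      linarith
  · intro δ hδ ε hε
    obtain ⟨ι, inst, l, h, h1, h2, h3, h4⟩ := hdec δ hδ ε hε
    exact ⟨ι, inst, l, h, ⟨h1, h2, h3, h4⟩⟩

end SettExPart

/-!
## Part KcPos: the continuous part does not vanish (about 170 lines)

PROOF.
Suppose `kc 0 ≤ 0`.  (1) `kc = 0` on `[0, ∞)`: for all `ε > 0` (weights with `δ = 1`) and all `z, w`: `0 ≤ E ((aF l h F z ± aF l h F w) ^ 2) = 2 ∑∑ l l k ‖h i - h j‖ ± 2 ∑∑ l l k ‖z + h i - (w + h j)‖ ≤ 2 (kc 0 + ε) ± 2 kc ‖z - w‖ + 2 ε` (`aF_mul2`, `app`), so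
`|kc r| ≤ kc 0 + 2 ε ≤ 2 ε` for all `r = ‖z - w‖ ≥ 0` and all `ε`.  Hence `k r = 0` for `r > 0` (`S.eq`).
(2) `μ := E (fun F => sg (F z))` does not depend on `z` (`E_inv` with the translation `mv 1 w`), and `μ = 0`: for `n ≥ 1`, `Ψ := (1/n) ∑_{j < n} sg (F j)` has `E Ψ = μ` and `E (Ψ ^ 2) = 1 / n` (`hk`, `k 0 = 1`, `k = 0` at the differences `|i - j| > 0`), so `|μ| ≤ 1 / √n` (`E_abs`, `E_abs_sq`).
(3) Triple products.  On the orbit of `f` (`h1`) not all of `s₀ = sg (F 0)`, `s₁ = sg (F p)`, `s₂ = sg (F q)` (`F = mv θ w f`: `F 0 = f w`, `F p = f (θ p + w)`) are `ε`, so `(1 + ε s₀)(1 + ε s₁)(1 + ε s₂) = 0`, i.e. `1 + ε (s₀ + s₁ + s₂) + (s₀ s₁ + s₁ s₂ + s₂ s₀) + ε s₀ s₁ s₂ = 0`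
(`ε² = 1`).  Taking `E` (`E_mono` in both directions; the three pair correlations are `0` as `0, p, q` are different, the means are `0`): `E (ε s₀ s₁ s₂) = -1`.  The same for `q'` (`h2`): `E (ε s₀ s₁ s₂') = -1`.
(4) For all signs: `1 - s₂ s₂' ≤ (1 + ε s₀ s₁ s₂) + (1 + ε s₀ s₁ s₂')` (if `s₂ = s₂'` the left side is `0`; otherwise the two products are opposite and both sides are `2`).  `E`: `1 - k ‖q - q'‖ ≤ 0`, but `k ‖q - q'‖ = 0`: contradiction.
-/

section KcPosPart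

open MeasureTheory Filter Topology Pool.Agent.H93.EG Pool.Agent.H58.ER

private theorem KcPos_cross {f : ℂ → Bool} {E : ((ℂ → Bool) → ℝ) → ℝ} (hE : IsStat f E)
    (A B : (ℂ → Bool) → ℝ) (hA : Bdd A) (hB : Bdd B) (M : ℝ)
    (h1 : E (fun F => A F * A F) ≤ M) (h2 : E (fun F => B F * B F) ≤ M) :
    |E (fun F => A F * B F)| ≤ M := by
  have hAA := bdd_mul hA hA
  have hBB := bdd_mul hB hB
  have hAB := bdd_mul hA hB
  have e1 : E (fun F => (1 / 2) * (A F * A F) + (1 / 2) * (B F * B F)) =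
      (1 / 2) * E (fun F => A F * A F) + (1 / 2) * E (fun F => B F * B F) := by
    rw [hE.add _ _ (hAA.smul _) (hBB.smul _), hE.smul _ _ hAA, hE.smul _ _ hBB]
  rw [abs_le]
  constructor
  · have := E_mono' hE (fun F => (-1) * (A F * B F))
      (fun F => (1 / 2) * (A F * A F) + (1 / 2) * (B F * B F)) (hAB.smul _)
      ((hAA.smul _).add (hBB.smul _)) fun F => by nlinarith [sq_nonneg (A F + B F)]
    rw [hE.smul _ _ hAB, e1] at this
    linarith
  · have := E_mono' hE (fun F => A F * B F)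
      (fun F => (1 / 2) * (A F * A F) + (1 / 2) * (B F * B F)) hAB
      ((hAA.smul _).add (hBB.smul _)) fun F => by nlinarith [sq_nonneg (A F - B F)]
    rw [e1] at this
    linarith

/-- The correlations vanish. -/
private theorem KcPos_k {f : ℂ → Bool} {E : ((ℂ → Bool) → ℝ) → ℝ} {k kc : ℝ → ℝ}
    (S : Sett f E k kc) (h0 : kc 0 ≤ 0) (r : ℝ) (hr : 0 < r) : k r = 0 := by
  have hE := S.stat
  rw [← S.eq r hr]
  have key : ∀ e : ℝ, 0 < e → |kc r| ≤ 0 + e := by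
    intro e he
    obtain ⟨ι, hι, l, h, hW⟩ := S.dec 1 one_pos (e / 2) (half_pos he)
    have hb : ∀ z : ℂ, E (fun F => aF l h F z * aF l h F z) ≤ e / 2 := by
      intro z
      rw [aF_mul2 l h h f E hE k S.hk z z]
      have h1 := (abs_le.1 (hW.app z z)).2
      rw [sub_self, norm_zero] at h1
      linarith
    have h1 := KcPos_cross hE (fun F => aF l h F 0) (fun F => aF l h F (r : ℂ)) (bdd_aF _ _ _)
      (bdd_aF _ _ _) (e / 2) (hb 0) (hb r)
    rw [aF_mul2 l h h f E hE k S.hk 0 r] at h1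
    have h2 := hW.app 0 (r : ℂ)
    have h3 : ‖(0 : ℂ) - (r : ℂ)‖ = r := by
      rw [zero_sub, norm_neg, Complex.norm_real, Real.norm_eq_abs, abs_of_pos hr]
    rw [h3] at h2
    rw [abs_le] at h1 h2 ⊢
    constructor
    · linarith [h1.1, h1.2, h2.1, h2.2]
    · linarith [h1.1, h1.2, h2.1, h2.2]
  have h1 := le_of_forall_pos_le_add key
  exact abs_eq_zero.1 (le_antisymm h1 (abs_nonneg _))

/-- The means vanish. -/
private theorem KcPos_mu {f : ℂ → Bool} {E : ((ℂ → Bool) → ℝ) → ℝ} {k kc : ℝ → ℝ}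
    (S : Sett f E k kc) (hk0 : ∀ r, 0 < r → k r = 0) (z : ℂ) :
    E (fun F => sg (F z)) = 0 := by
  have hE := S.stat
  have hz : ∀ z : ℂ, E (fun F => sg (F z)) = E (fun F => sg (F 0)) := by
    intro z
    rw [← E_inv hE 1 z (by simp) (fun F => sg (F 0)) (bdd_sg 0)]
    simp only [mv, mul_zero, zero_add]
  rw [hz z]
  have key : ∀ e : ℝ, 0 < e → |E (fun F => sg (F 0))| ≤ 0 + e := by
    intro e he
    obtain ⟨n, hn⟩ := exists_nat_gt (1 / e ^ 2)
    have he2 : 0 < e ^ 2 := by positivity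
    have hn0 : (0 : ℝ) < n := lt_trans (by positivity) hn
    have hn1 : (1 : ℝ) / n ≤ e ^ 2 := by
      rw [div_lt_iff₀ he2] at hn
      rw [div_le_iff₀ hn0]
      linarith
    let l : Fin n → ℝ := fun _ => 1 / n
    let h : Fin n → ℂ := fun j => ((j : ℕ) : ℂ)
    have hb : Bdd (fun F : ℂ → Bool => aF l h F 0) := bdd_aF _ _ _
    have h1 : E (fun F => aF l h F 0) = E (fun F => sg (F 0)) := by
      have e1 : (fun F => aF l h F 0) = fun F => ∑ i ∈ (Finset.univ : Finset (Fin n)),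
          l i * (fun i (F : ℂ → Bool) => sg (F (0 + h i))) i F := by
        funext F
        rfl
      rw [e1, stat_sum f E hE Finset.univ l (fun i F => sg (F (0 + h i))) fun i _ => bdd_sg _]
      simp only [hz]
      rw [← Finset.sum_mul]
      have : ∑ i : Fin n, l i = 1 := by
        simp only [l, Finset.sum_const, Finset.card_univ, Fintype.card_fin, nsmul_eq_mul]
        field_simp
      rw [this, one_mul]
    have h2 : E (fun F => aF l h F 0 ^ 2) ≤ e ^ 2 := by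
      have e1 : (fun F => aF l h F 0 ^ 2) = fun F => aF l h F 0 * aF l h F 0 := by
        funext F
        ring
      rw [e1, aF_mul2 l h h f E hE k S.hk 0 0]
      refine le_trans (le_of_eq ?_) hn1
      have h3 : ∀ i j : Fin n, l i * l j * k ‖0 + h i - (0 + h j)‖ =
          if i = j then (1 / (n : ℝ)) * (1 / n) else 0 := by
        intro i j
        by_cases hij : i = j
        · rw [if_pos hij, hij, sub_self, norm_zero, S.k0, mul_one]
        · rw [if_neg hij, hk0, mul_zero]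
          rw [norm_pos_iff, sub_ne_zero, zero_add, zero_add]
          intro h4
          apply hij
          apply Fin.ext
          have h5 : ((i : ℕ) : ℂ) = ((j : ℕ) : ℂ) := h4
          exact_mod_cast h5
      simp only [h3, Finset.sum_ite_eq, Finset.mem_univ, if_true, Finset.sum_const,
        Finset.card_univ, Fintype.card_fin, nsmul_eq_mul]
      field_simp
    have h3 := E_abs_sq hE _ hb e he h2
    have h4 := E_abs hE _ hb
    rw [h1] at h4
    linarith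
  have h1 := le_of_forall_pos_le_add key
  exact abs_eq_zero.1 (le_antisymm h1 (abs_nonneg _))

private theorem KcPos_sg (b : Bool) : sg b = 1 ∨ sg b = -1 := by
  cases b <;> simp [sg]

private theorem KcPos_prod (a b d e : ℝ) (ha : a = 1 ∨ a = -1) (hb : b = 1 ∨ b = -1)
    (hd : d = 1 ∨ d = -1) (he : e = 1 ∨ e = -1) (h : ¬ (a = e ∧ b = e ∧ d = e)) :
    (1 + e * a) * (1 + e * b) * (1 + e * d) = 0 := by
  rcases ha with rfl | rfl <;> rcases hb with rfl | rfl <;> rcases hd with rfl | rfl <;>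
    rcases he with rfl | rfl <;> first | exact absurd ⟨rfl, rfl, rfl⟩ h | norm_num

/-- The triple correlation. -/
private theorem KcPos_trip {f : ℂ → Bool} {E : ((ℂ → Bool) → ℝ) → ℝ} {k kc : ℝ → ℝ}
    (S : Sett f E k kc) (hk0 : ∀ r, 0 < r → k r = 0)
    (ε : ℝ) (hε : ε = 1 ∨ ε = -1) (p q : ℂ) (hp : p ≠ 0) (hq : q ≠ 0) (hpq : p ≠ q)
    (h1 : ∀ θ w : ℂ, ‖θ‖ = 1 →
      ¬ (sg (f w) = ε ∧ sg (f (θ * p + w)) = ε ∧ sg (f (θ * q + w)) = ε)) :
    E (fun F => ε * (sg (F 0) * sg (F p) * sg (F q))) = -1 := by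
  have hE := S.stat
  have hkz : ∀ z w : ℂ, z ≠ w → E (fun F => sg (F z) * sg (F w)) = 0 := by
    intro z w hzw
    rw [S.hk, hk0]
    rw [norm_pos_iff, sub_ne_zero]
    exact hzw
  have hmu := KcPos_mu S hk0
  have b1 : ∀ z : ℂ, Bdd (fun F : ℂ → Bool => ε * sg (F z)) := fun z => (bdd_sg z).smul ε
  have b2 : ∀ z w : ℂ, Bdd (fun F : ℂ → Bool => sg (F z) * sg (F w)) := fun z w =>
    bdd_mul (bdd_sg z) (bdd_sg w)
  have b3 : Bdd (fun F : ℂ → Bool => sg (F 0) * sg (F p) * sg (F q)) :=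
    bdd_mul (b2 0 p) (bdd_sg q)
  have b3' : Bdd (fun F : ℂ → Bool => ε * (sg (F 0) * sg (F p) * sg (F q))) := b3.smul ε
  have e2 : (fun F : ℂ → Bool => (1 + ε * sg (F 0)) * (1 + ε * sg (F p)) * (1 + ε * sg (F q))) =
      fun F => (1 + (ε * sg (F 0) + (ε * sg (F p) + ε * sg (F q)))) +
        ((sg (F 0) * sg (F p) + (sg (F p) * sg (F q) + sg (F 0) * sg (F q))) +
          ε * (sg (F 0) * sg (F p) * sg (F q))) := by
    funext F
    rcases hε with h | h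
    · rw [h]
      ring
    · rw [h]
      ring
  have bX : Bdd (fun F : ℂ → Bool => 1 + (ε * sg (F 0) + (ε * sg (F p) + ε * sg (F q)))) :=
    (bdd_const 1).add ((b1 0).add ((b1 p).add (b1 q)))
  have bY : Bdd (fun F : ℂ → Bool => sg (F 0) * sg (F p) + (sg (F p) * sg (F q) +
      sg (F 0) * sg (F q))) := (b2 0 p).add ((b2 p q).add (b2 0 q))
  have bZ : Bdd (fun F : ℂ → Bool => (sg (F 0) * sg (F p) + (sg (F p) * sg (F q) +
      sg (F 0) * sg (F q))) + ε * (sg (F 0) * sg (F p) * sg (F q))) := bY.add b3'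
  have bW : Bdd (fun F : ℂ → Bool =>
      (1 + ε * sg (F 0)) * (1 + ε * sg (F p)) * (1 + ε * sg (F q))) := by
    rw [e2]
    exact bX.add bZ
  have horb : ∀ θ w : ℂ, ‖θ‖ = 1 →
      (1 + ε * sg (mv θ w f 0)) * (1 + ε * sg (mv θ w f p)) * (1 + ε * sg (mv θ w f q)) = 0 := by
    intro θ w hθ
    have h2 := h1 θ w hθ
    have m0 : mv θ w f 0 = f w := by
      unfold mv
      rw [mul_zero, zero_add]
    rw [m0]
    unfold mv
    exact KcPos_prod _ _ _ _ (KcPos_sg _) (KcPos_sg _) (KcPos_sg _) hε h2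
  have e0 : E (fun F : ℂ → Bool =>
      (1 + ε * sg (F 0)) * (1 + ε * sg (F p)) * (1 + ε * sg (F q))) = 0 := by
    refine le_antisymm ?_ ?_
    · have := E_mono hE _ (fun _ => (0 : ℝ)) bW (bdd_const 0) fun θ w hθ => (horb θ w hθ).le
      rwa [E_const hE] at this
    · have := E_mono hE (fun _ => (0 : ℝ)) _ (bdd_const 0) bW fun θ w hθ => (horb θ w hθ).ge
      rwa [E_const hE] at this
  rw [e2, hE.add _ _ bX bZ, hE.add _ _ bY b3', hE.add _ _ (b2 0 p) ((b2 p q).add (b2 0 q)),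
    hE.add _ _ (b2 p q) (b2 0 q), hE.add _ _ (bdd_const 1) ((b1 0).add ((b1 p).add (b1 q))),
    hE.add _ _ (b1 0) ((b1 p).add (b1 q)), hE.add _ _ (b1 p) (b1 q), hE.smul _ _ (bdd_sg 0),
    hE.smul _ _ (bdd_sg p), hE.smul _ _ (bdd_sg q), hE.one, hmu, hmu, hmu, hkz 0 p hp.symm,
    hkz p q hpq, hkz 0 q hq.symm] at e0
  linarith


theorem kc_pos {f : ℂ → Bool} {E : ((ℂ → Bool) → ℝ) → ℝ} {k kc : ℝ → ℝ} (S : Sett f E k kc)
    (ε : ℝ) (hε : ε = 1 ∨ ε = -1) (p q q' : ℂ) (hp : p ≠ 0) (hq : q ≠ 0) (hq' : q' ≠ 0)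
    (hpq : p ≠ q) (hpq' : p ≠ q') (hqq : q ≠ q')
    (h1 : ∀ θ w : ℂ, ‖θ‖ = 1 →
      ¬ (sg (f w) = ε ∧ sg (f (θ * p + w)) = ε ∧ sg (f (θ * q + w)) = ε))
    (h2 : ∀ θ w : ℂ, ‖θ‖ = 1 →
      ¬ (sg (f w) = ε ∧ sg (f (θ * p + w)) = ε ∧ sg (f (θ * q' + w)) = ε)) : 0 < kc 0 := by
  by_contra hcon
  rw [not_lt] at hcon
  have hE := S.stat
  have hk0 : ∀ r, 0 < r → k r = 0 := fun r hr => KcPos_k S hcon r hr
  have t1 := KcPos_trip S hk0 ε hε p q hp hq hpq h1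
  have t2 := KcPos_trip S hk0 ε hε p q' hp hq' hpq' h2
  have b2 : Bdd (fun F : ℂ → Bool => sg (F q) * sg (F q')) := bdd_mul (bdd_sg q) (bdd_sg q')
  have b3 : ∀ z : ℂ, Bdd (fun F : ℂ → Bool => ε * (sg (F 0) * sg (F p) * sg (F z))) := fun z =>
    (bdd_mul (bdd_mul (bdd_sg 0) (bdd_sg p)) (bdd_sg z)).smul ε
  have h3 := E_mono' hE (fun F => 1 + (-1) * (sg (F q) * sg (F q')))
    (fun F => 2 + (ε * (sg (F 0) * sg (F p) * sg (F q)) + ε * (sg (F 0) * sg (F p) * sg (F q'))))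
    ((bdd_const 1).add (b2.smul _)) ((bdd_const 2).add ((b3 q).add (b3 q'))) fun F => by
      rcases KcPos_sg (F 0) with a | a <;> rcases KcPos_sg (F p) with b | b <;>
        rcases KcPos_sg (F q) with d | d <;> rcases KcPos_sg (F q') with d' | d' <;>
        rcases hε with e | e <;> rw [a, b, d, d', e] <;> norm_num
  rw [hE.add _ _ (bdd_const 1) (b2.smul _), hE.smul _ _ b2, S.hk, hk0 _ (by
    rw [norm_pos_iff, sub_ne_zero]
    exact hqq), hE.one, hE.add _ _ (bdd_const 2) ((b3 q).add (b3 q')), hE.add _ _ (b3 q) (b3 q'),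
    t1, t2, E_const hE] at h3
  linarith

end KcPosPart

/-!
## Part Dist: averaged colourings move continuously (about 90 lines)

PROOF.
Write `A F := aF l h (mv θ w F) z = aF l (fun i => θ * h i) F (θ * z + w)` (`aF_mv`), `B F := aF l h F z`, `d := ‖θ * z + w - z‖`.  `E ((A - B) ^ 2) = E (A ^ 2) + E (B ^ 2) - 2 E (A B)` (linearity; all bounded).
`E (A ^ 2) = E (B ^ 2)` (`E_inv`) `= ∑∑ l i l j k ‖z + h i - (z + h j)‖ ≤ kc 0 + ε` (`aF_mul2` with `h' = h`, `hW.app z z`).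
`E (A B) = ∑∑ l i l j k ‖(θ z + w) + θ h i - (z + h j)‖` (`aF_mul2`); each argument `r` satisfies `|r - d| ≤ ‖θ h i - h j‖ ≤ 2 δ`, so `k r ≥ kc r ≥ kc d - ω` (`S.le`, `hω`), and `E (A B) ≥ kc d - ω` (`l ≥ 0`, `∑ l = 1`).
-/

section DistPart

open MeasureTheory Filter Topology Pool.Agent.H93.EG Pool.Agent.H58.ER

theorem dist_est {f : ℂ → Bool} {E : ((ℂ → Bool) → ℝ) → ℝ} {k kc : ℝ → ℝ} (S : Sett f E k kc)
    {ι : Type} [Fintype ι] (l : ι → ℝ) (h : ι → ℂ) (δ ε : ℝ) (hW : Wt k kc δ ε l h) (ω : ℝ)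
    (θ w z : ℂ) (hθ : ‖θ‖ = 1)
    (hω : ∀ r : ℝ, 0 ≤ r → |r - ‖θ * z + w - z‖| ≤ 2 * δ → |kc r - kc ‖θ * z + w - z‖| ≤ ω) :
    E (fun F => (aF l h (mv θ w F) z - aF l h F z) ^ 2) ≤
      2 * (kc 0 - kc ‖θ * z + w - z‖) + 2 * ε + 2 * ω := by
  have hE := S.stat
  have bA : Bdd (fun F : ℂ → Bool => aF l (fun i => θ * h i) F (θ * z + w)) := bdd_aF _ _ _
  have bB : Bdd (fun F : ℂ → Bool => aF l h F z) := bdd_aF _ _ _
  have e1 : (fun F : ℂ → Bool => (aF l h (mv θ w F) z - aF l h F z) ^ 2) =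
      fun F => ((aF l (fun i => θ * h i) F (θ * z + w) * aF l (fun i => θ * h i) F (θ * z + w)) +
        (aF l h F z * aF l h F z)) +
        (-2) * (aF l (fun i => θ * h i) F (θ * z + w) * aF l h F z) := by
    funext F
    rw [aF_mv]
    ring
  have e2 : E (fun F => aF l (fun i => θ * h i) F (θ * z + w) *
      aF l (fun i => θ * h i) F (θ * z + w)) = E (fun F => aF l h F z * aF l h F z) := by
    rw [← E_inv hE θ w hθ (fun F => aF l h F z * aF l h F z) (bdd_mul bB bB)]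
    simp only [aF_mv]
  have e3 : E (fun F => aF l h F z * aF l h F z) ≤ kc 0 + ε := by
    rw [aF_mul2 l h h f E hE k S.hk z z]
    have h1 := (abs_le.1 (hW.app z z)).2
    rw [sub_self, norm_zero] at h1
    linarith
  have e4 : kc ‖θ * z + w - z‖ - ω ≤
      E (fun F => aF l (fun i => θ * h i) F (θ * z + w) * aF l h F z) := by
    rw [aF_mul2 l (fun i => θ * h i) h f E hE k S.hk (θ * z + w) z]
    have h1 : kc ‖θ * z + w - z‖ - ω =
        ∑ i, ∑ j, l i * l j * (kc ‖θ * z + w - z‖ - ω) := by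
      have h2 : ∀ i, ∑ j, l i * l j * (kc ‖θ * z + w - z‖ - ω) =
          l i * (kc ‖θ * z + w - z‖ - ω) := by
        intro i
        have h3 : ∀ j, l i * l j * (kc ‖θ * z + w - z‖ - ω) =
            l j * (l i * (kc ‖θ * z + w - z‖ - ω)) := fun j => by ring
        simp only [h3]
        rw [← Finset.sum_mul, hW.sum, one_mul]
      simp only [h2]
      rw [← Finset.sum_mul, hW.sum, one_mul]
    rw [h1]
    refine Finset.sum_le_sum fun i _ => Finset.sum_le_sum fun j _ => ?_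
    refine mul_le_mul_of_nonneg_left ?_ (mul_nonneg (hW.nn i) (hW.nn j))
    have h2 : |‖θ * z + w + θ * h i - (z + h j)‖ - ‖θ * z + w - z‖| ≤ 2 * δ := by
      refine (abs_norm_sub_norm_le _ _).trans ?_
      have h3 : θ * z + w + θ * h i - (z + h j) - (θ * z + w - z) = θ * h i - h j := by ring
      rw [h3]
      refine (norm_sub_le _ _).trans ?_
      rw [norm_mul, hθ, one_mul]
      linarith [hW.small i, hW.small j]
    have h3 := (abs_le.1 (hω _ (norm_nonneg _) h2)).1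
    have h4 := S.le _ (norm_nonneg (θ * z + w + θ * h i - (z + h j)))
    linarith
  rw [e1, hE.add _ _ ((bdd_mul bA bA).add (bdd_mul bB bB)) ((bdd_mul bA bB).smul (-2)),
    hE.add _ _ (bdd_mul bA bA) (bdd_mul bB bB), hE.smul _ _ (bdd_mul bA bB), e2]
  linarith

end DistPart

/-!
## Part Tr1: translations: replacing a colour by its average (about 60 lines)

PROOF.
`sg (F z) - aF l h F z = ∑ i, l i * (sg (F z) - sg (F (z + h i)))` (`∑ l = 1`).  So `E (Φ F * (sg (F z) - aF l h F z)) = ∑ i, l i * (E (Φ F * sg (F z)) - E (Φ F * sg (F (z + h i))))` (`stat_sum`).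
By `E_inv` with `mv 1 (-(h i))` applied to `Ψ F := Φ F * sg (F (z + h i))`: `E Ψ = E (fun F => Φ (mv 1 (-(h i)) F) * sg (F z))` (`1 * (z + h i) + -(h i) = z`).  So the `i`-th bracket is `E (fun F => (Φ F - Φ (mv 1 (-(h i)) F)) * sg (F z))`, of absolute value
`≤ E (fun F => |Φ (mv ..) - Φ F|) ≤ β` (`E_abs`, `E_mono'`, `abs_sg`).  Sum with the weights `l i ≥ 0`.
-/

section Tr1Part

open MeasureTheory Filter Topology Pool.Agent.H93.EG Pool.Agent.H58.ER

theorem tr_est {f : ℂ → Bool} {E : ((ℂ → Bool) → ℝ) → ℝ} {k kc : ℝ → ℝ} (S : Sett f E k kc)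
    {ι : Type} [Fintype ι] (l : ι → ℝ) (h : ι → ℂ) (δ ε : ℝ) (hW : Wt k kc δ ε l h)
    (Φ : (ℂ → Bool) → ℝ) (hΦ : ∀ F, |Φ F| ≤ 1) (β : ℝ)
    (hβ : ∀ i, E (fun F => |Φ (mv 1 (-(h i)) F) - Φ F|) ≤ β) (z : ℂ) :
    |E (fun F => Φ F * (sg (F z) - aF l h F z))| ≤ β := by
  have hE := S.stat
  have hb : Bdd Φ := bdd_of 1 hΦ
  have hbd : ∀ i, Bdd (fun F => Φ F * (sg (F z) - sg (F (z + h i)))) := fun i =>
    bdd_mul hb (bdd_sub (bdd_sg z) (bdd_sg _))
  have h1 : (fun F => Φ F * (sg (F z) - aF l h F z)) = fun F => ∑ i ∈ (Finset.univ : Finset ι),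
      l i * (Φ F * (sg (F z) - sg (F (z + h i)))) := by
    funext F
    unfold aF
    have e1 : sg (F z) = ∑ i, l i * sg (F z) := by
      rw [← Finset.sum_mul, hW.sum, one_mul]
    have e2 : sg (F z) - ∑ i, l i * sg (F (z + h i)) =
        ∑ i, l i * (sg (F z) - sg (F (z + h i))) := by
      conv_lhs => rw [e1]
      rw [← Finset.sum_sub_distrib]
      exact Finset.sum_congr rfl fun i _ => by ring
    rw [e2, Finset.mul_sum]
    exact Finset.sum_congr rfl fun i _ => by ring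
  have hterm : ∀ i, |E (fun F => Φ F * (sg (F z) - sg (F (z + h i))))| ≤ β := by
    intro i
    have e3 : (fun F => Φ F * (sg (F z) - sg (F (z + h i)))) =
        fun F => Φ F * sg (F z) - Φ F * sg (F (z + h i)) := by
      funext F
      ring
    have hb1 : Bdd (fun F => Φ F * sg (F z)) := bdd_mul hb (bdd_sg z)
    have hb2 : Bdd (fun F => Φ F * sg (F (z + h i))) := bdd_mul hb (bdd_sg _)
    have hb3 : Bdd (fun F => Φ (mv 1 (-(h i)) F) * sg (F z)) :=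
      bdd_mul (bdd_mv hb _ _) (bdd_sg z)
    have e4 : E (fun F => Φ F * sg (F (z + h i))) =
        E (fun F => Φ (mv 1 (-(h i)) F) * sg (F z)) := by
      rw [← E_inv hE 1 (-(h i)) norm_one (fun F => Φ F * sg (F (z + h i))) hb2]
      congr 1
      funext F
      show Φ (mv 1 (-(h i)) F) * sg (F (1 * (z + h i) + -(h i))) = _
      have : (1 : ℂ) * (z + h i) + -(h i) = z := by ring
      rw [this]
    rw [e3, E_sub hE _ _ hb1 hb2, e4, ← E_sub hE _ _ hb1 hb3]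
    have hb4 : Bdd (fun F => Φ F * sg (F z) - Φ (mv 1 (-(h i)) F) * sg (F z)) :=
      bdd_sub hb1 hb3
    refine (E_abs hE _ hb4).trans (le_trans ?_ (hβ i))
    refine E_mono' hE _ _ (bdd_abs hb4) (bdd_abs (bdd_sub (bdd_mv hb _ _) hb)) fun F => ?_
    rw [← sub_mul, abs_mul, abs_sg, mul_one, abs_sub_comm]
  rw [h1, stat_sum f E hE Finset.univ l (fun i F => Φ F * (sg (F z) - sg (F (z + h i))))
    fun i _ => hbd i]
  refine (Finset.abs_sum_le_sum_abs _ _).trans ?_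
  calc ∑ i, |l i * E (fun F => Φ F * (sg (F z) - sg (F (z + h i))))|
      ≤ ∑ i, l i * β := Finset.sum_le_sum fun i _ => by
        rw [abs_mul, abs_of_nonneg (hW.nn i)]
        exact mul_le_mul_of_nonneg_left (hterm i) (hW.nn i)
    _ = β := by rw [← Finset.sum_mul, hW.sum, one_mul]

end Tr1Part

/-!
## Part Rt1: rotations about x: the product of a colour with a fluctuation (about 80 lines)

PROOF.
`W F := sg (F y) - aF l h F y`, `|W F| ≤ 2` (`aF_le`), `W' i F := W (mv (θ i) (w i) F)`.  For every `i`: `E (Φ F * (sg (F x) * W F)) = E (Φ (mv (θ i) (w i) F) * (sg (F x) * W' i F))` (`E_inv`; `mv (θ i) (w i) F x = F (θ i * x + w i) = F x`).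
So `|E (Φ F * (sg (F x) * W F)) - E (Φ F * (sg (F x) * W' i F))| ≤ E (|Φ (mv ..) - Φ| * 2) ≤ 2 β`.  Average over `i`: `|E (Φ F * (sg (F x) * W F)) - (1/K) E (Φ F * (sg (F x) * ∑ i, W' i F))| ≤ 2 β`, and
`|E (Φ F * (sg (F x) * ∑ i, W' i F))| ≤ E (|∑ i, W' i F|) ≤ K * lam` (`|Φ| ≤ 1`, `E_abs_sq` with `hV`).
-/

section Rt1Part

open MeasureTheory Filter Topology Pool.Agent.H93.EG Pool.Agent.H58.ER

theorem rt_est {f : ℂ → Bool} {E : ((ℂ → Bool) → ℝ) → ℝ} {k kc : ℝ → ℝ} (S : Sett f E k kc)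
    {ι : Type} [Fintype ι] (l : ι → ℝ) (h : ι → ℂ) (δ ε : ℝ) (hW : Wt k kc δ ε l h)
    (Φ : (ℂ → Bool) → ℝ) (hΦ : ∀ F, |Φ F| ≤ 1) (x y : ℂ) (K : ℕ) (hK : 0 < K)
    (θ w : Fin K → ℂ) (hθ : ∀ i, ‖θ i‖ = 1) (hfix : ∀ i, θ i * x + w i = x) (β lam : ℝ)
    (hl : 0 < lam) (hβ : ∀ i, E (fun F => |Φ (mv (θ i) (w i) F) - Φ F|) ≤ β)
    (hV : E (fun F => (∑ i, (sg (mv (θ i) (w i) F y) - aF l h (mv (θ i) (w i) F) y)) ^ 2) ≤
      (K * lam) ^ 2) :
    |E (fun F => Φ F * (sg (F x) * (sg (F y) - aF l h F y)))| ≤ 2 * β + lam := by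
  have hE := S.stat
  set W : (ℂ → Bool) → ℝ := fun F => sg (F y) - aF l h F y with hWdef
  have hWb : ∀ F, |W F| ≤ 2 := by
    intro F
    have h1 := aF_le l h hW.nn hW.sum F y
    have h2 := abs_sg (F y)
    calc |W F| ≤ |sg (F y)| + |aF l h F y| := abs_sub _ _
      _ ≤ 2 := by rw [h2]; linarith
  have bW : Bdd W := bdd_of 2 hWb
  have bΦ : Bdd Φ := bdd_of 1 hΦ
  have bP : Bdd (fun F => Φ F * (sg (F x) * W F)) := bdd_mul bΦ (bdd_mul (bdd_sg x) bW)
  have hmx : ∀ (i : Fin K) (F : ℂ → Bool), mv (θ i) (w i) F x = F x := by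
    intro i F
    show F (θ i * x + w i) = F x
    rw [hfix i]
  have bQ : ∀ i : Fin K, Bdd (fun F => Φ F * (sg (F x) * W (mv (θ i) (w i) F))) := fun i =>
    bdd_mul bΦ (bdd_mul (bdd_sg x) (bdd_mv bW (θ i) (w i)))
  have step : ∀ i : Fin K, |E (fun F => Φ F * (sg (F x) * W F)) -
      E (fun F => Φ F * (sg (F x) * W (mv (θ i) (w i) F)))| ≤ 2 * β := by
    intro i
    have e1 : E (fun F => Φ (mv (θ i) (w i) F) * (sg (mv (θ i) (w i) F x) * W (mv (θ i) (w i) F))) =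
        E (fun F => Φ F * (sg (F x) * W F)) :=
      E_inv hE (θ i) (w i) (hθ i) (fun F => Φ F * (sg (F x) * W F)) bP
    have bP' : Bdd (fun F => Φ (mv (θ i) (w i) F) *
        (sg (mv (θ i) (w i) F x) * W (mv (θ i) (w i) F))) := bdd_mv bP (θ i) (w i)
    rw [← e1, ← E_sub hE _ _ bP' (bQ i)]
    have bD : Bdd (fun F => Φ (mv (θ i) (w i) F) - Φ F) := bdd_sub (bdd_mv bΦ (θ i) (w i)) bΦ
    calc |E (fun F => Φ (mv (θ i) (w i) F) * (sg (mv (θ i) (w i) F x) * W (mv (θ i) (w i) F)) -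
          Φ F * (sg (F x) * W (mv (θ i) (w i) F)))|
        ≤ E (fun F => |Φ (mv (θ i) (w i) F) * (sg (mv (θ i) (w i) F x) * W (mv (θ i) (w i) F)) -
          Φ F * (sg (F x) * W (mv (θ i) (w i) F))|) := E_abs hE _ (bdd_sub bP' (bQ i))
      _ ≤ E (fun F => 2 * |Φ (mv (θ i) (w i) F) - Φ F|) := by
          refine E_mono' hE _ _ (bdd_abs (bdd_sub bP' (bQ i))) ((bdd_abs bD).smul 2) fun F => ?_
          rw [hmx i F]
          have e2 : Φ (mv (θ i) (w i) F) * (sg (F x) * W (mv (θ i) (w i) F)) -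
              Φ F * (sg (F x) * W (mv (θ i) (w i) F)) =
              (Φ (mv (θ i) (w i) F) - Φ F) * (sg (F x) * W (mv (θ i) (w i) F)) := by ring
          rw [e2, abs_mul, abs_mul, abs_sg, one_mul, mul_comm]
          exact mul_le_mul_of_nonneg_right (hWb _) (abs_nonneg _)
      _ = 2 * E (fun F => |Φ (mv (θ i) (w i) F) - Φ F|) := hE.smul 2 _ (bdd_abs bD)
      _ ≤ 2 * β := by linarith [hβ i]
  have hsum : |E (fun F => Φ F * (sg (F x) * ∑ i, W (mv (θ i) (w i) F)))| ≤ K * lam := by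
    have bS : Bdd (fun F => ∑ i, W (mv (θ i) (w i) F)) := by
      refine bdd_of (∑ _i : Fin K, 2) fun F => ?_
      exact (Finset.abs_sum_le_sum_abs _ _).trans (Finset.sum_le_sum fun i _ => hWb _)
    have bT : Bdd (fun F => Φ F * (sg (F x) * ∑ i, W (mv (θ i) (w i) F))) :=
      bdd_mul bΦ (bdd_mul (bdd_sg x) bS)
    have hKl : 0 < (K : ℝ) * lam := mul_pos (by exact_mod_cast hK) hl
    calc |E (fun F => Φ F * (sg (F x) * ∑ i, W (mv (θ i) (w i) F)))|
        ≤ E (fun F => |Φ F * (sg (F x) * ∑ i, W (mv (θ i) (w i) F))|) := E_abs hE _ bT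
      _ ≤ E (fun F => |∑ i, W (mv (θ i) (w i) F)|) := by
          refine E_mono' hE _ _ (bdd_abs bT) (bdd_abs bS) fun F => ?_
          rw [abs_mul, abs_mul, abs_sg, one_mul]
          exact mul_le_of_le_one_left (abs_nonneg _) (hΦ F)
      _ ≤ K * lam := E_abs_sq hE _ bS _ hKl hV
  have hlin : E (fun F => Φ F * (sg (F x) * ∑ i, W (mv (θ i) (w i) F))) =
      ∑ i : Fin K, E (fun F => Φ F * (sg (F x) * W (mv (θ i) (w i) F))) := by
    have h1 := stat_sum f E hE (Finset.univ : Finset (Fin K)) (fun _ => 1)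
      (fun i F => Φ F * (sg (F x) * W (mv (θ i) (w i) F))) (fun i _ => bQ i)
    simp only [one_mul] at h1
    rw [← h1]
    congr 1
    funext F
    rw [Finset.mul_sum, Finset.mul_sum]
  have hK' : 0 < (K : ℝ) := by exact_mod_cast hK
  have htot : |(K : ℝ) * E (fun F => Φ F * (sg (F x) * W F)) -
      ∑ i : Fin K, E (fun F => Φ F * (sg (F x) * W (mv (θ i) (w i) F)))| ≤ K * (2 * β) := by
    have e3 : (K : ℝ) * E (fun F => Φ F * (sg (F x) * W F)) -
        ∑ i : Fin K, E (fun F => Φ F * (sg (F x) * W (mv (θ i) (w i) F))) =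
        ∑ i : Fin K, (E (fun F => Φ F * (sg (F x) * W F)) -
          E (fun F => Φ F * (sg (F x) * W (mv (θ i) (w i) F)))) := by
      rw [Finset.sum_sub_distrib, Finset.sum_const, Finset.card_univ, Fintype.card_fin, nsmul_eq_mul]
    rw [e3]
    refine (Finset.abs_sum_le_sum_abs _ _).trans ?_
    refine (Finset.sum_le_sum fun i _ => step i).trans ?_
    rw [Finset.sum_const, Finset.card_univ, Fintype.card_fin, nsmul_eq_mul]
  rw [hlin] at hsum
  have h4 : |(K : ℝ) * E (fun F => Φ F * (sg (F x) * W F))| ≤ K * (2 * β) + K * lam := by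
    have := abs_sub_abs_le_abs_sub ((K : ℝ) * E (fun F => Φ F * (sg (F x) * W F)))
      (∑ i : Fin K, E (fun F => Φ F * (sg (F x) * W (mv (θ i) (w i) F))))
    linarith
  rw [abs_mul, abs_of_pos hK', ← mul_add] at h4
  exact le_of_mul_le_mul_left h4 hK'

end Rt1Part

end Pool.Agent.H79.TM
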