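import Pool.Agent.H79.TM.P1

/-!
# The product estimate
-/

set_option autoImplicit false

namespace Pool.Agent.H79.TM

/-!
## Part Vv: the fluctuations at different points are almost orthogonal (about 140 lines)

PROOF.
`y i := θ i * y + w i`, `W i F := sg (F (y i)) - aF l (fun a => θ i * h a) F (y i)` (this is the `i`-th summand, `aF_mv`).  `|W i F| ≤ 2` (`aF_le` for `mv (θ i) (w i) F`).  Expand the square: `E ((∑ W i) ^ 2) = ∑ i, ∑ j, E (W i * W j)`.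
Diagonal: `E (W i ^ 2) ≤ 4`.  Off-diagonal, `i ≠ j`, `d := ‖y i - y j‖ > 2 δ`: `E (W i * W j) = k d - ∑ a, l a k ‖y i - (y j + θ j h a)‖ - ∑ a, l a k ‖y j - (y i + θ i h a)‖ + ∑ a, ∑ b, l a l b k ‖(y i + θ i h a) - (y j + θ j h b)‖` (`hk`, `aF_mul1`, `aF_mul2`; note the different shifts
`θ i * h a`, `θ j * h b`).  All arguments `r` satisfy `|r - d| ≤ 2 δ` (`‖θ h‖ = ‖h‖ < δ`), in fact `r > d - 2 δ > 0`, so `k r = kc r` (`S.eq`) and `|k r - kc d| ≤ ω` (`hω`).  With `∑ l = 1` (hence also `δ > 0`, `d > 0`): `E (W i * W j) ≤ kc d - (kc d - ω) - (kc d - ω) + (kc d + ω) = 3 ω ≤ 4 ω`.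
Total `≤ 4 K + 4 ω K ^ 2`.
-/

section VvPart

open MeasureTheory Filter Topology Pool.Agent.H93.EG Pool.Agent.H58.ER

/-- The summand. -/
private noncomputable def Vv_W {ι : Type} [Fintype ι] (l : ι → ℝ) (h : ι → ℂ) (y : ℂ) (F : ℂ → Bool) : ℝ :=
  sg (F y) - aF l h F y

private theorem Vv_W_le {ι : Type} [Fintype ι] (l : ι → ℝ) (h : ι → ℂ) (hl : ∀ i, 0 ≤ l i)
    (hl1 : ∑ i, l i = 1) (y : ℂ) (F : ℂ → Bool) : |Vv_W l h y F| ≤ 2 := by
  unfold Vv_W
  have h1 := aF_le l h hl hl1 F y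
  have h2 := (abs_sg (F y)).le
  have h3 := abs_sub (sg (F y)) (aF l h F y)
  linarith

private theorem Vv_W_bdd {ι : Type} [Fintype ι] (l : ι → ℝ) (h : ι → ℂ) (hl : ∀ i, 0 ≤ l i)
    (hl1 : ∑ i, l i = 1) (y : ℂ) : Bdd (fun F => Vv_W l h y F) :=
  ⟨2, fun F => Vv_W_le l h hl hl1 y F⟩

private theorem Vv_WW {f : ℂ → Bool} {E : ((ℂ → Bool) → ℝ) → ℝ} {k kc : ℝ → ℝ}
    (S : Sett f E k kc) {ι : Type} [Fintype ι] (l : ι → ℝ) (h h' : ι → ℂ) (y y' : ℂ) :
    E (fun F => Vv_W l h y F * Vv_W l h' y' F) =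
      k ‖y - y'‖ - ∑ a, l a * k ‖y - (y' + h' a)‖ - ∑ a, l a * k ‖y' - (y + h a)‖ +
        ∑ a, ∑ b, l a * l b * k ‖y + h a - (y' + h' b)‖ := by
  have b1 : Bdd (fun F : ℂ → Bool => sg (F y) * sg (F y')) := bdd_mul (bdd_sg _) (bdd_sg _)
  have b2 : Bdd (fun F : ℂ → Bool => sg (F y) * aF l h' F y') := bdd_mul (bdd_sg _) (bdd_aF _ _ _)
  have b3 : Bdd (fun F : ℂ → Bool => sg (F y') * aF l h F y) := bdd_mul (bdd_sg _) (bdd_aF _ _ _)
  have b4 : Bdd (fun F : ℂ → Bool => aF l h F y * aF l h' F y') :=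
    bdd_mul (bdd_aF _ _ _) (bdd_aF _ _ _)
  have e0 : (fun F => Vv_W l h y F * Vv_W l h' y' F) = fun F =>
      ((sg (F y) * sg (F y') - sg (F y) * aF l h' F y') - sg (F y') * aF l h F y) +
        aF l h F y * aF l h' F y' := by
    funext F
    unfold Vv_W
    ring
  rw [e0, S.stat.add _ _ (bdd_sub (bdd_sub b1 b2) b3) b4, E_sub S.stat _ _ (bdd_sub b1 b2) b3,
    E_sub S.stat _ _ b1 b2, S.hk, aF_mul1 l h' f E S.stat k S.hk, aF_mul1 l h f E S.stat k S.hk,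
    aF_mul2 l h h' f E S.stat k S.hk]

private theorem Vv_off {f : ℂ → Bool} {E : ((ℂ → Bool) → ℝ) → ℝ} {k kc : ℝ → ℝ}
    (S : Sett f E k kc) {ι : Type} [Fintype ι] (l : ι → ℝ) (h h' : ι → ℂ) (hl : ∀ i, 0 ≤ l i)
    (hl1 : ∑ i, l i = 1) (δ ω : ℝ) (hh : ∀ i, ‖h i‖ < δ) (hh' : ∀ i, ‖h' i‖ < δ) (hω0 : 0 ≤ ω)
    (y y' : ℂ) (hd : 2 * δ < ‖y - y'‖)
    (hω : ∀ r : ℝ, 0 ≤ r → |r - ‖y - y'‖| ≤ 2 * δ → |kc r - kc ‖y - y'‖| ≤ ω) :
    E (fun F => Vv_W l h y F * Vv_W l h' y' F) ≤ 4 * ω := by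
  have hne : ∃ a : ι, True := by
    by_contra hcon
    push Not at hcon
    have : IsEmpty ι := ⟨fun a => hcon a⟩
    rw [Finset.univ_eq_empty, Finset.sum_empty] at hl1
    exact zero_ne_one hl1
  obtain ⟨a0, -⟩ := hne
  have hδ : 0 < δ := lt_of_le_of_lt (norm_nonneg _) (hh a0)
  obtain ⟨d, hdd⟩ : ∃ d : ℝ, d = ‖y - y'‖ := ⟨_, rfl⟩
  rw [← hdd] at hd hω
  have hk : ∀ r : ℝ, |r - d| < 2 * δ → |k r - kc d| ≤ ω := by
    intro r hr
    have hr0 : 0 < r := by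
      have := (abs_lt.mp hr).1
      linarith
    rw [← S.eq r hr0]
    exact hω r hr0.le hr.le
  have hd0 : 0 < d := by linarith
  rw [Vv_WW S l h h' y y', ← hdd]
  -- the arguments
  have r1 : ∀ a, |‖y - (y' + h' a)‖ - d| < 2 * δ := by
    intro a
    rw [hdd]
    have h1 := abs_norm_sub_norm_le (y - (y' + h' a)) (y - y')
    have h2 : (y - (y' + h' a)) - (y - y') = - h' a := by ring
    rw [h2, norm_neg] at h1
    have := hh' a
    linarith
  have r2 : ∀ a, |‖y' - (y + h a)‖ - d| < 2 * δ := by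
    intro a
    rw [hdd, norm_sub_rev y y']
    have h1 := abs_norm_sub_norm_le (y' - (y + h a)) (y' - y)
    have h2 : (y' - (y + h a)) - (y' - y) = - h a := by ring
    rw [h2, norm_neg] at h1
    have := hh a
    linarith
  have r3 : ∀ a b, |‖y + h a - (y' + h' b)‖ - d| < 2 * δ := by
    intro a b
    rw [hdd]
    have h1 := abs_norm_sub_norm_le (y + h a - (y' + h' b)) (y - y')
    have h2 : (y + h a - (y' + h' b)) - (y - y') = h a - h' b := by ring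
    rw [h2] at h1
    have h3 := norm_sub_le (h a) (h' b)
    have := hh a
    have := hh' b
    linarith
  have s1 : kc d - ω ≤ ∑ a, l a * k ‖y - (y' + h' a)‖ := by
    calc kc d - ω = ∑ a, l a * (kc d - ω) := by rw [← Finset.sum_mul, hl1, one_mul]
      _ ≤ _ := Finset.sum_le_sum fun a _ => mul_le_mul_of_nonneg_left (by
        have := (abs_le.mp (hk _ (r1 a))).1
        linarith) (hl a)
  have s2 : kc d - ω ≤ ∑ a, l a * k ‖y' - (y + h a)‖ := by
    calc kc d - ω = ∑ a, l a * (kc d - ω) := by rw [← Finset.sum_mul, hl1, one_mul]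
      _ ≤ _ := Finset.sum_le_sum fun a _ => mul_le_mul_of_nonneg_left (by
        have := (abs_le.mp (hk _ (r2 a))).1
        linarith) (hl a)
  have s3 : ∑ a, ∑ b, l a * l b * k ‖y + h a - (y' + h' b)‖ ≤ kc d + ω := by
    calc ∑ a, ∑ b, l a * l b * k ‖y + h a - (y' + h' b)‖
        ≤ ∑ a, ∑ b, l a * l b * (kc d + ω) := Finset.sum_le_sum fun a _ =>
          Finset.sum_le_sum fun b _ => mul_le_mul_of_nonneg_left (by
            have := (abs_le.mp (hk _ (r3 a b))).2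
            linarith) (mul_nonneg (hl a) (hl b))
      _ = kc d + ω := by
        have e1 : ∀ a, ∑ b, l a * l b * (kc d + ω) = l a * (kc d + ω) := by
          intro a
          rw [← Finset.sum_mul, ← Finset.mul_sum, hl1, mul_one]
        rw [Finset.sum_congr rfl fun a _ => e1 a, ← Finset.sum_mul, hl1, one_mul]
  have s0 : k d = kc d := (S.eq d hd0).symm
  rw [s0]
  linarith

theorem vv_est {f : ℂ → Bool} {E : ((ℂ → Bool) → ℝ) → ℝ} {k kc : ℝ → ℝ} (S : Sett f E k kc)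
    {ι : Type} [Fintype ι] (l : ι → ℝ) (h : ι → ℂ) (δ ε : ℝ) (hW : Wt k kc δ ε l h)
    (y : ℂ) (K : ℕ) (θ w : Fin K → ℂ) (hθ : ∀ i, ‖θ i‖ = 1) (ω : ℝ) (hω0 : 0 ≤ ω)
    (hsep : ∀ i j, i ≠ j → 2 * δ < ‖(θ i * y + w i) - (θ j * y + w j)‖)
    (hω : ∀ i j, i ≠ j → ∀ r : ℝ, 0 ≤ r →
      |r - ‖(θ i * y + w i) - (θ j * y + w j)‖| ≤ 2 * δ →
      |kc r - kc ‖(θ i * y + w i) - (θ j * y + w j)‖| ≤ ω) :
    E (fun F => (∑ i, (sg (mv (θ i) (w i) F y) - aF l h (mv (θ i) (w i) F) y)) ^ 2) ≤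
      4 * K + 4 * ω * (K : ℝ) ^ 2 := by
  classical
  obtain ⟨X, hX⟩ : ∃ X : Fin K → (ℂ → Bool) → ℝ, X = fun i F =>
    Vv_W l (fun a => θ i * h a) (θ i * y + w i) F := ⟨_, rfl⟩
  have hXb : ∀ i, Bdd (X i) := by
    intro i
    rw [hX]
    exact Vv_W_bdd l _ hW.nn hW.sum _
  have e0 : (fun F => (∑ i, (sg (mv (θ i) (w i) F y) - aF l h (mv (θ i) (w i) F) y)) ^ 2) =
      fun F => ∑ p ∈ (Finset.univ : Finset (Fin K × Fin K)), (1 : ℝ) * (X p.1 F * X p.2 F) := by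
    funext F
    have e1 : ∀ i, sg (mv (θ i) (w i) F y) - aF l h (mv (θ i) (w i) F) y = X i F := by
      intro i
      rw [aF_mv, hX]
      rfl
    rw [Finset.sum_congr rfl fun i _ => e1 i, pow_two, Finset.sum_mul_sum, Fintype.sum_prod_type]
    refine Finset.sum_congr rfl fun i _ => Finset.sum_congr rfl fun j _ => ?_
    rw [one_mul]
  rw [e0, stat_sum f E S.stat Finset.univ (fun _ => (1 : ℝ))
    (fun (p : Fin K × Fin K) F => X p.1 F * X p.2 F) fun p _ => bdd_mul (hXb _) (hXb _),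
    Fintype.sum_prod_type]
  have hnorm : ∀ i a, ‖θ i * h a‖ < δ := by
    intro i a
    rw [norm_mul, hθ i, one_mul]
    exact hW.small a
  have key : ∀ i j, (1 : ℝ) * E (fun F => X i F * X j F) ≤ (if i = j then 4 else 0) + 4 * ω := by
    intro i j
    rw [one_mul]
    by_cases hij : i = j
    · rw [if_pos hij, ← hij]
      have h1 : E (fun F => X i F * X i F) ≤ E (fun _ => 4) := by
        refine E_mono' S.stat _ _ (bdd_mul (hXb i) (hXb i)) (bdd_const 4) fun F => ?_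
        have h2 : |X i F| ≤ 2 := by
          rw [hX]
          exact Vv_W_le l _ hW.nn hW.sum _ F
        have h3 : X i F * X i F = |X i F| ^ 2 := by rw [sq_abs]; ring
        rw [h3]
        have h4 := abs_nonneg (X i F)
        nlinarith
      rw [E_const S.stat] at h1
      linarith
    · rw [if_neg hij, zero_add]
      have := Vv_off S l (fun a => θ i * h a) (fun a => θ j * h a) hW.nn hW.sum δ ω
        (fun a => hnorm i a) (fun a => hnorm j a) hω0 (θ i * y + w i) (θ j * y + w j)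
        (hsep i j hij) (hω i j hij)
      rw [hX]
      exact this
  refine (Finset.sum_le_sum fun i _ => Finset.sum_le_sum fun j _ => key i j).trans (le_of_eq ?_)
  have e2 : ∀ i : Fin K, ∑ j : Fin K, ((if i = j then (4 : ℝ) else 0) + 4 * ω) =
      4 + K * (4 * ω) := by
    intro i
    rw [Finset.sum_add_distrib, Finset.sum_ite_eq, if_pos (Finset.mem_univ _), Finset.sum_const,
      Finset.card_univ, Fintype.card_fin, nsmul_eq_mul]
  rw [Finset.sum_congr rfl fun i _ => e2 i, Finset.sum_const, Finset.card_univ, Fintype.card_fin,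
    nsmul_eq_mul]
  ring

end VvPart

/-!
## Part MainEst: the main estimate (about 170 lines)

PROOF.
Write `Gx F := aF l h F x` etc. (`|G| ≤ 1`, `aF_le`), `sx F := sg (F x)`.  `u F := (1 + e * Gx F) * (e * (Gy F + Gz F))`, `|u| ≤ 4`; `u~ F := (1 + e * sx F) * (e * (sy F + sz F))`; `Φ F := min 1 (max 0 (u F / η)) ∈ [0, 1]`.
(1) `max 0 (u F) ≤ η + u F * Φ F` (cases `u ≤ 0`, `0 < u < η`, `η ≤ u`).  (2) `u~ F ≤ 0` for `F = mv θ w f`, `‖θ‖ = 1`: if `sx = -e` it is `0`, if `sx = e` then not both `sy, sz` are `e` (`hf`), so `e (sy + sz) ≤ 0`.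
So `E (max 0 u) ≤ η + E (Φ * (u - u~))` (`E_mono`).  (3) `u - u~ = e (Gy - sy) + e (Gz - sz) + (Gx Gy - sx sy) + (Gx Gz - sx sz)` (`e² = 1`) and `sx sy - Gx Gy = Gy (sx - Gx) + sx (sy - Gy)`.
(4) Lipschitz: for every motion `m`: `|Φ (m F) - Φ F| ≤ |u (m F) - u F| / η ≤ (2 / η) (|Gx (m F) - Gx F| + |Gy (m F) - Gy F| + |Gz (m F) - Gz F|)`.  So for the translations of `H1` and the motions of `H2`: `E |Φ (m F) - Φ F| ≤ 6 β / η`, and for `Φ' := Φ * Gy` (or `Φ * Gz`; `|Φ'| ≤ 1`):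
`E |Φ' (m F) - Φ' F| ≤ 6 β / η + β ≤ 7 β / η` (`η ≤ 1`).
(5) `tr_est` with `Φ`: `|E (Φ (sy - Gy))| ≤ 6 β / η`, the same for `z`.  `tr_est` with `Φ * Gy` at the point `x`: `|E (Φ Gy (sx - Gx))| ≤ 7 β / η`.  `rt_est` with `lam := β` (`H2 y`): `|E (Φ (sx (sy - Gy)))| ≤ 2 (6 β / η) + β ≤ 13 β / η`.  The same for `z`.
Total: `2 * 6 + 2 * (7 + 13) = 52`.
-/

section MainEstPart

open MeasureTheory Filter Topology Pool.Agent.H93.EG Pool.Agent.H58.ER

private theorem MainEst_clip (a b : ℝ) : |min 1 (max 0 a) - min 1 (max 0 b)| ≤ |a - b| := by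
  have h1 := abs_min_sub_min_le_max 1 (max 0 a) 1 (max 0 b)
  have h2 := abs_max_sub_max_le_max 0 a 0 b
  have h3 : max |(0 : ℝ) - 0| |a - b| = |a - b| := by
    rw [sub_self, abs_zero]
    exact max_eq_right (abs_nonneg _)
  have h4 : max |(1 : ℝ) - 1| |max 0 a - max 0 b| = |max 0 a - max 0 b| := by
    rw [sub_self, abs_zero]
    exact max_eq_right (abs_nonneg _)
  rw [h4] at h1
  rw [h3] at h2
  exact h1.trans h2

private theorem MainEst_lip (e : ℝ) (he : e = 1 ∨ e = -1) (η : ℝ) (hη : 0 < η) (a b c a' b' c' : ℝ)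
    (ha : |a| ≤ 1) (hb' : |b'| ≤ 1) (hc' : |c'| ≤ 1) :
    |min 1 (max 0 (((1 + e * a') * (e * (b' + c'))) / η)) -
        min 1 (max 0 (((1 + e * a) * (e * (b + c))) / η))| ≤
      2 / η * (|a' - a| + (|b' - b| + |c' - c|)) := by
  refine (MainEst_clip _ _).trans ?_
  have h1 : (1 + e * a') * (e * (b' + c')) / η - (1 + e * a) * (e * (b + c)) / η =
      ((e * (a' - a)) * (e * (b' + c')) + (1 + e * a) * (e * ((b' - b) + (c' - c)))) / η := by
    ring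
  rw [h1, abs_div, abs_of_pos hη, div_le_iff₀ hη]
  have h2 : 2 / η * (|a' - a| + (|b' - b| + |c' - c|)) * η =
      |a' - a| * 2 + 2 * (|b' - b| + |c' - c|) := by
    field_simp
    try ring
  rw [h2]
  have hee : |e| = 1 := by
    rcases he with h | h <;> rw [h] <;> norm_num
  refine (abs_add_le _ _).trans (add_le_add ?_ ?_)
  · rw [abs_mul, abs_mul, abs_mul, hee, one_mul, one_mul]
    refine mul_le_mul_of_nonneg_left ?_ (abs_nonneg _)
    exact (abs_add_le _ _).trans (by linarith)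
  · rw [abs_mul, abs_mul, hee, one_mul]
    refine mul_le_mul ?_ (abs_add_le _ _) (abs_nonneg _) (by norm_num)
    refine (abs_add_le _ _).trans ?_
    rw [abs_mul, hee, one_mul, abs_one]
    linarith

private theorem MainEst_sg (b : Bool) : sg b = 1 ∨ sg b = -1 := by
  cases b
  · exact Or.inr rfl
  · exact Or.inl rfl

private theorem MainEst_ut (e a b c : ℝ) (he : e = 1 ∨ e = -1) (ha : a = 1 ∨ a = -1) (hb : b = 1 ∨ b = -1)
    (hc : c = 1 ∨ c = -1) (h : ¬ (a = e ∧ b = e ∧ c = e)) : (1 + e * a) * (e * (b + c)) ≤ 0 := by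
  rcases he with rfl | rfl <;> rcases ha with rfl | rfl <;> rcases hb with rfl | rfl <;>
    rcases hc with rfl | rfl <;> first
    | (exfalso; exact h ⟨rfl, rfl, rfl⟩)
    | norm_num

private theorem MainEst_phi (u ut η : ℝ) (hη : 0 < η) (h : ut ≤ 0) :
    max 0 u ≤ η + min 1 (max 0 (u / η)) * (u - ut) := by
  have h0 : 0 ≤ min 1 (max 0 (u / η)) := le_min zero_le_one (le_max_left _ _)
  have h1 : max 0 u ≤ η + min 1 (max 0 (u / η)) * u := by
    by_cases hu : u ≤ 0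
    · have h2 : u / η ≤ 0 := div_nonpos_of_nonpos_of_nonneg hu hη.le
      rw [max_eq_left hu, max_eq_left h2, min_eq_right zero_le_one, zero_mul, add_zero]
      exact hη.le
    · push Not at hu
      have h2 : 0 ≤ u / η := div_nonneg hu.le hη.le
      rw [max_eq_right hu.le, max_eq_right h2]
      by_cases h3 : η ≤ u
      · have h4 : 1 ≤ u / η := (one_le_div hη).mpr h3
        rw [min_eq_left h4, one_mul]
        linarith
      · push Not at h3
        have h4 : 0 ≤ min 1 (u / η) * u := mul_nonneg (le_min zero_le_one h2) hu.le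
        linarith
  have h2 : 0 ≤ min 1 (max 0 (u / η)) * (-ut) := mul_nonneg h0 (by linarith)
  have h3 : min 1 (max 0 (u / η)) * (u - ut) =
      min 1 (max 0 (u / η)) * u + min 1 (max 0 (u / η)) * (-ut) := by ring
  rw [h3]
  linarith

theorem main_est {f : ℂ → Bool} {E : ((ℂ → Bool) → ℝ) → ℝ} {k kc : ℝ → ℝ} (S : Sett f E k kc)
    {ι : Type} [Fintype ι] (l : ι → ℝ) (h : ι → ℂ) (δ ε : ℝ) (hW : Wt k kc δ ε l h)
    (e : ℝ) (he : e = 1 ∨ e = -1) (x y z : ℂ)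
    (hf : ∀ θ w : ℂ, ‖θ‖ = 1 → ¬ (sg (f (θ * x + w)) = e ∧ sg (f (θ * y + w)) = e ∧
      sg (f (θ * z + w)) = e))
    (β η : ℝ) (hβ : 0 < β) (hη : 0 < η) (hη1 : η ≤ 1)
    (H1 : ∀ i, ∀ v : ℂ, (v = x ∨ v = y ∨ v = z) →
      E (fun F => |aF l h (mv 1 (-(h i)) F) v - aF l h F v|) ≤ β)
    (H2 : ∀ v' : ℂ, (v' = y ∨ v' = z) → ∃ (K : ℕ) (θ w : Fin K → ℂ), 0 < K ∧
      (∀ i, ‖θ i‖ = 1) ∧ (∀ i, θ i * x + w i = x) ∧
      (∀ i, ∀ v : ℂ, (v = x ∨ v = y ∨ v = z) →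
        E (fun F => |aF l h (mv (θ i) (w i) F) v - aF l h F v|) ≤ β) ∧
      E (fun F => (∑ i, (sg (mv (θ i) (w i) F v') - aF l h (mv (θ i) (w i) F) v')) ^ 2) ≤
        (K * β) ^ 2) :
    E (fun F => max 0 ((1 + e * aF l h F x) * (e * (aF l h F y + aF l h F z)))) ≤
      η + 52 * β / η := by
  have hE := S.stat
  have hG : ∀ (v : ℂ) (F : ℂ → Bool), |aF l h F v| ≤ 1 := fun v F => aF_le l h hW.nn hW.sum F v
  have hβη : β ≤ β / η := by
    rw [le_div_iff₀ hη]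
    nlinarith
  have hββ : 0 < β / η := div_pos hβ hη
  set Φ : (ℂ → Bool) → ℝ := fun F =>
    min 1 (max 0 (((1 + e * aF l h F x) * (e * (aF l h F y + aF l h F z))) / η)) with hΦdef
  have hΦ0 : ∀ F, 0 ≤ Φ F := fun F => le_min zero_le_one (le_max_left _ _)
  have hΦ1 : ∀ F, Φ F ≤ 1 := fun F => min_le_left _ _
  have hΦ : ∀ F, |Φ F| ≤ 1 := fun F => by
    rw [abs_of_nonneg (hΦ0 F)]
    exact hΦ1 F
  have bΦ : Bdd Φ := ⟨1, hΦ⟩
  have bG : ∀ v : ℂ, Bdd (fun F : ℂ → Bool => aF l h F v) := fun v => bdd_aF l h v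
  -- Lipschitz estimates
  have L1 : ∀ θ w : ℂ, (∀ v : ℂ, (v = x ∨ v = y ∨ v = z) →
      E (fun F => |aF l h (mv θ w F) v - aF l h F v|) ≤ β) →
      E (fun F => |Φ (mv θ w F) - Φ F|) ≤ 6 * (β / η) := by
    intro θ w hm
    have bD : ∀ v : ℂ, Bdd (fun F => |aF l h (mv θ w F) v - aF l h F v|) := fun v =>
      bdd_abs (bdd_sub (bdd_mv (bG v) θ w) (bG v))
    have h1 := E_mono' hE (fun F => |Φ (mv θ w F) - Φ F|)
      (fun F => 2 / η * (|aF l h (mv θ w F) x - aF l h F x| +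
        (|aF l h (mv θ w F) y - aF l h F y| + |aF l h (mv θ w F) z - aF l h F z|)))
      (bdd_abs (bdd_sub (bdd_mv bΦ θ w) bΦ))
      (((bD x).add ((bD y).add (bD z))).smul (2 / η))
      (fun F => MainEst_lip e he η hη _ _ _ _ _ _ (hG x F) (hG y _) (hG z _))
    rw [hE.smul _ _ ((bD x).add ((bD y).add (bD z))), hE.add _ _ (bD x) ((bD y).add (bD z)),
      hE.add _ _ (bD y) (bD z)] at h1
    have hx := hm x (Or.inl rfl)
    have hy := hm y (Or.inr (Or.inl rfl))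
    have hz := hm z (Or.inr (Or.inr rfl))
    have h2 : 2 / η * (E (fun F => |aF l h (mv θ w F) x - aF l h F x|) +
        (E (fun F => |aF l h (mv θ w F) y - aF l h F y|) +
          E (fun F => |aF l h (mv θ w F) z - aF l h F z|))) ≤ 2 / η * (3 * β) :=
      mul_le_mul_of_nonneg_left (by linarith) (by positivity)
    have h3 : 2 / η * (3 * β) = 6 * (β / η) := by ring
    linarith
  have L2 : ∀ θ w : ℂ, (∀ v : ℂ, (v = x ∨ v = y ∨ v = z) →
      E (fun F => |aF l h (mv θ w F) v - aF l h F v|) ≤ β) →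
      ∀ v : ℂ, (v = x ∨ v = y ∨ v = z) →
      E (fun F => |Φ (mv θ w F) * aF l h (mv θ w F) v - Φ F * aF l h F v|) ≤ 7 * (β / η) := by
    intro θ w hm v hv
    have b1 : Bdd (fun F => |Φ (mv θ w F) - Φ F|) := bdd_abs (bdd_sub (bdd_mv bΦ θ w) bΦ)
    have b2 : Bdd (fun F => |aF l h (mv θ w F) v - aF l h F v|) :=
      bdd_abs (bdd_sub (bdd_mv (bG v) θ w) (bG v))
    have h1 := E_mono' hE (fun F => |Φ (mv θ w F) * aF l h (mv θ w F) v - Φ F * aF l h F v|)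
      (fun F => |Φ (mv θ w F) - Φ F| + |aF l h (mv θ w F) v - aF l h F v|)
      (bdd_abs (bdd_sub (bdd_mul (bdd_mv bΦ θ w) (bdd_mv (bG v) θ w)) (bdd_mul bΦ (bG v))))
      (b1.add b2) (fun F => by
        have h2 : Φ (mv θ w F) * aF l h (mv θ w F) v - Φ F * aF l h F v =
          (Φ (mv θ w F) - Φ F) * aF l h (mv θ w F) v +
            Φ F * (aF l h (mv θ w F) v - aF l h F v) := by ring
        rw [h2]
        refine (abs_add_le _ _).trans (add_le_add ?_ ?_)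
        · rw [abs_mul]
          exact mul_le_of_le_one_right (abs_nonneg _) (hG v _)
        · rw [abs_mul]
          exact mul_le_of_le_one_left (abs_nonneg _) (hΦ F))
    rw [hE.add _ _ b1 b2] at h1
    have h3 := L1 θ w hm
    have h4 := hm v hv
    linarith
  -- the six terms
  have A : ∀ v : ℂ, |E (fun F => Φ F * (sg (F v) - aF l h F v))| ≤ 6 * (β / η) := fun v =>
    tr_est S l h δ ε hW Φ hΦ (6 * (β / η)) (fun i => L1 1 (-(h i)) (H1 i)) v
  have B : ∀ v : ℂ, (v = x ∨ v = y ∨ v = z) →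
      |E (fun F => (Φ F * aF l h F v) * (sg (F x) - aF l h F x))| ≤ 7 * (β / η) := fun v hv =>
    tr_est S l h δ ε hW (fun F => Φ F * aF l h F v) (fun F => by
      rw [abs_mul]
      exact mul_le_one₀ (hΦ F) (abs_nonneg _) (hG v F)) (7 * (β / η))
      (fun i => L2 1 (-(h i)) (H1 i) v hv) x
  have C : ∀ v : ℂ, (v = y ∨ v = z) →
      |E (fun F => Φ F * (sg (F x) * (sg (F v) - aF l h F v)))| ≤ 13 * (β / η) := by
    intro v hv
    obtain ⟨K, θ, w, hK, hθ, hfix, hm, hV⟩ := H2 v hv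
    have h1 := rt_est S l h δ ε hW Φ hΦ x v K hK θ w hθ hfix (6 * (β / η)) β hβ
      (fun i => L1 (θ i) (w i) (hm i)) hV
    linarith
  have A1 := abs_le.mp (A y)
  have A2 := abs_le.mp (A z)
  have B1 := abs_le.mp (B y (Or.inr (Or.inl rfl)))
  have B2 := abs_le.mp (B z (Or.inr (Or.inr rfl)))
  have C1 := abs_le.mp (C y (Or.inl rfl))
  have C2 := abs_le.mp (C z (Or.inr rfl))
  have bs : ∀ v : ℂ, Bdd (fun F : ℂ → Bool => sg (F v) - aF l h F v) := fun v =>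
    bdd_sub (bdd_sg v) (bG v)
  have bA : ∀ v : ℂ, Bdd (fun F => Φ F * (sg (F v) - aF l h F v)) := fun v => bdd_mul bΦ (bs v)
  have bB : ∀ v : ℂ, Bdd (fun F => (Φ F * aF l h F v) * (sg (F x) - aF l h F x)) := fun v =>
    bdd_mul (bdd_mul bΦ (bG v)) (bs x)
  have bC : ∀ v : ℂ, Bdd (fun F => Φ F * (sg (F x) * (sg (F v) - aF l h F v))) := fun v =>
    bdd_mul bΦ (bdd_mul (bdd_sg x) (bs v))
  have b6 := ((bA y).smul (-e)).add (((bA z).smul (-e)).add (((bB y).smul (-1)).add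
    (((bB z).smul (-1)).add (((bC y).smul (-1)).add ((bC z).smul (-1))))))
  have b5 := ((bA z).smul (-e)).add (((bB y).smul (-1)).add
    (((bB z).smul (-1)).add (((bC y).smul (-1)).add ((bC z).smul (-1)))))
  have b4 := ((bB y).smul (-1)).add
    (((bB z).smul (-1)).add (((bC y).smul (-1)).add ((bC z).smul (-1))))
  have b3 := ((bB z).smul (-1)).add (((bC y).smul (-1)).add ((bC z).smul (-1)))
  have b2 := ((bC y).smul (-1)).add ((bC z).smul (-1))
  have bu : Bdd (fun F : ℂ → Bool => max 0 ((1 + e * aF l h F x) * (e * (aF l h F y + aF l h F z)))) := by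
    obtain ⟨D, hD⟩ := bdd_mul ((bdd_const (1 : ℝ)).add ((bG x).smul e))
      (((bG y).add (bG z)).smul e)
    refine ⟨D, fun F => ?_⟩
    rw [abs_of_nonneg (le_max_left _ _)]
    exact max_le ((abs_nonneg _).trans (hD F)) ((le_abs_self _).trans (hD F))
  have hmain := E_mono hE
    (fun F : ℂ → Bool => max 0 ((1 + e * aF l h F x) * (e * (aF l h F y + aF l h F z)))) _
    bu ((bdd_const η).add b6) (fun θ w hθ => by
      have h1 := MainEst_phi ((1 + e * aF l h (mv θ w f) x) * (e * (aF l h (mv θ w f) y + aF l h (mv θ w f) z)))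
        ((1 + e * sg (mv θ w f x)) * (e * (sg (mv θ w f y) + sg (mv θ w f z)))) η hη
        (MainEst_ut e _ _ _ he (MainEst_sg _) (MainEst_sg _) (MainEst_sg _) (hf θ w hθ))
      refine h1.trans (le_of_eq ?_)
      have hee : e * e = 1 := by
        rcases he with h | h <;> rw [h] <;> norm_num
      show η + Φ (mv θ w f) * _ = _
      linear_combination (Φ (mv θ w f) * (aF l h (mv θ w f) x * (aF l h (mv θ w f) y + aF l h (mv θ w f) z) -
        sg (mv θ w f x) * (sg (mv θ w f y) + sg (mv θ w f z)))) * hee)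
  rw [hE.add _ _ (bdd_const η) b6, hE.add _ _ ((bA y).smul (-e)) b5, hE.add _ _ ((bA z).smul (-e)) b4,
    hE.add _ _ ((bB y).smul (-1)) b3, hE.add _ _ ((bB z).smul (-1)) b2,
    hE.add _ _ ((bC y).smul (-1)) ((bC z).smul (-1)), hE.smul _ _ (bA y), hE.smul _ _ (bA z),
    hE.smul _ _ (bB y), hE.smul _ _ (bB z), hE.smul _ _ (bC y), hE.smul _ _ (bC z), E_const hE] at hmain
  have hfin : 52 * β / η = 52 * (β / η) := by ring
  rw [hfin]
  rcases he with h | h <;> rw [h] at hmain ⊢ <;> linarith [A1.1, A1.2, A2.1, A2.2, B1.1, B1.2, B2.1, B2.2, C1.1, C1.2, C2.1, C2.2]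

end MainEstPart

/-!
## Part Para: choice of the parameters (about 170 lines)

PROOF.
Let `M := ‖p‖ + ‖q‖ + 1`.  (1) `kc` is continuous at 0: choose `0 < s ≤ 1` with `kc 0 - kc r ≤ β² / 8` for `0 ≤ r ≤ s`.  (2) Choose `K ≥ 1` with `4 / K ≤ β² / 2` and `α > 0` with `α ≤ 1` and `α * M ≤ s`; `θ i := exp (α (i + 1) / K * I)`, `i : Fin K`: unit numbers, pairwise different (the angles are different numbers
in `(0, 1]`), `‖θ i - 1‖ ≤ α` (`‖exp (t I) - 1‖ ≤ |t|`, `Complex.norm_exp_I_mul_ofReal_sub_one_le` or similar).  `d₀ > 0` with `d₀ ≤ ‖θ i - θ j‖ * min ‖p‖ ‖q‖` for all `i ≠ j` (finitely many; take `d₀ = 1` if `K = 1`).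
(3) `kc` is uniformly continuous on `[0, 2 M + 2]` (compact): choose `δ₁ > 0`, `δ₁ ≤ 1/2` with `|kc r - kc r'| ≤ β² / 16` for `r, r' ∈ [0, 2 M + 2]`, `|r - r'| ≤ 2 δ₁`.  `ω := β² / 16`.
`δ₀ := min (min δ₁ s) (min (d₀ / 3) (β² / 16))`.
First claim: `aF l h F v' = aF l h (mv 1 (v' - v) F) v` (`aF_mv`; `θ = 1`), so `dist_est` (`‖v' - v‖ ≤ δ₀ ≤ s`): `E (.. ^ 2) ≤ 2 (β² / 8) + 2 ε + 2 ω ≤ β² / 4 + β² / 8 + β² / 8 ≤ β²` and `E_abs_sq`.
Second claim (`mv 1 (-(h i))` moves `v` to `v - h i`, `‖h i‖ < δ ≤ δ₀`): the same.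
Third claim, for `v' = x + Θ p` (or `x + Θ q`): `w i := x - θ i * x`, so `θ i * x + w i = x` and `θ i * v + w i - v = (θ i - 1) (v - x)`, of norm `≤ α M ≤ s` for `v ∈ {x, x + Θ p, x + Θ q}`: `dist_est` and `E_abs_sq` as before.  The last inequality: `vv_est`:
`‖(θ i v' + w i) - (θ j v' + w j)‖ = ‖θ i - θ j‖ ‖v' - x‖ ≥ d₀ > 2 δ₀ ≥ 2 δ` and `≤ 2 M`, so `E (..) ≤ 4 K + 4 ω K² ≤ K² (β² / 2 + β² / 4) ≤ (K β)²`.
-/

section ParaPart

open MeasureTheory Filter Topology Pool.Agent.H93.EG Pool.Agent.H58.ER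

private theorem Para_lb {α : Type} [Fintype α] (g : α → ℝ) (hg : ∀ a, 0 < g a) :
    ∃ d : ℝ, 0 < d ∧ ∀ a, d ≤ g a := by
  rcases isEmpty_or_nonempty α with h | h
  · exact ⟨1, one_pos, fun a => h.elim a⟩
  · obtain ⟨a, ha⟩ := Finite.exists_min g
    exact ⟨g a, hg a, ha⟩

private theorem Para_kc0 {kc : ℝ → ℝ} (hc : Continuous kc) (η : ℝ) (hη : 0 < η) :
    ∃ s : ℝ, 0 < s ∧ s ≤ 1 ∧ ∀ r, 0 ≤ r → r ≤ s → kc 0 - kc r ≤ η := by
  obtain ⟨s0, hs0, h0⟩ := Metric.continuousAt_iff.1 (hc.continuousAt (x := 0)) η hη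
  refine ⟨min 1 (s0 / 2), lt_min one_pos (by linarith), min_le_left _ _, fun r hr hrs => ?_⟩
  have h1 : dist r 0 < s0 := by
    rw [Real.dist_eq, sub_zero, abs_of_nonneg hr]
    have := hrs.trans (min_le_right _ _)
    linarith
  have h2 := h0 h1
  rw [Real.dist_eq] at h2
  have h3 := neg_abs_le (kc r - kc 0)
  linarith

private theorem Para_uc {kc : ℝ → ℝ} (hc : Continuous kc) (R η : ℝ) (hη : 0 < η) :
    ∃ δ : ℝ, 0 < δ ∧ δ ≤ 1 / 2 ∧ ∀ r r', 0 ≤ r → r ≤ R → 0 ≤ r' → r' ≤ R → |r - r'| ≤ 2 * δ →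
      |kc r - kc r'| ≤ η := by
  have hu := (isCompact_Icc (a := (0 : ℝ)) (b := R)).uniformContinuousOn_of_continuous
    hc.continuousOn
  obtain ⟨δ, hδ, h⟩ := Metric.uniformContinuousOn_iff.1 hu η hη
  refine ⟨min (1 / 2) (δ / 4), lt_min (by norm_num) (by linarith), min_le_left _ _, ?_⟩
  intro r r' h1 h2 h3 h4 h5
  have h6 := min_le_right (1 / 2) (δ / 4)
  have h7 := h r ⟨h1, h2⟩ r' ⟨h3, h4⟩ (by
    rw [Real.dist_eq]
    linarith)
  rw [Real.dist_eq] at h7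
  exact h7.le

private theorem Para_ne {K : ℕ} (hK : 0 < K) (α : ℝ) (hα : 0 < α) (hα1 : α ≤ 1) (i j : Fin K)
    (hij : i ≠ j) :
    Complex.exp (Complex.I * ((α * ((i : ℕ) + 1) / K : ℝ) : ℂ)) ≠
      Complex.exp (Complex.I * ((α * ((j : ℕ) + 1) / K : ℝ) : ℂ)) := by
  intro he
  have hKr : (0 : ℝ) < K := by exact_mod_cast hK
  have hmem : ∀ i : Fin K, (α * ((i : ℕ) + 1) / K : ℝ) ∈ Set.Icc (-(Real.pi / 2)) (Real.pi / 2) := by
    intro i
    have h1 : ((i : ℕ) : ℝ) + 1 ≤ K := by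
      have := i.2
      exact_mod_cast this
    have h2 : (0 : ℝ) ≤ α * ((i : ℕ) + 1) / K := by positivity
    have h3 : α * ((i : ℕ) + 1) / K ≤ 1 := by
      rw [div_le_one hKr]
      have h4 : (0 : ℝ) ≤ ((i : ℕ) : ℝ) + 1 := by positivity
      nlinarith
    have h5 := Real.pi_gt_three
    constructor
    · linarith
    · linarith
  have h1 := congrArg Complex.im he
  rw [mul_comm Complex.I, mul_comm Complex.I, Complex.exp_ofReal_mul_I_im,
    Complex.exp_ofReal_mul_I_im] at h1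
  have h2 := Real.injOn_sin (hmem i) (hmem j) h1
  apply hij
  have h3 : α * (((i : ℕ) : ℝ) + 1) = α * (((j : ℕ) : ℝ) + 1) := by
    have h4 := (div_left_inj' hKr.ne').1 h2
    exact h4
  have h5 := mul_left_cancel₀ hα.ne' h3
  have h6 : ((i : ℕ) : ℝ) = ((j : ℕ) : ℝ) := by linarith
  exact Fin.ext (by exact_mod_cast h6)

theorem para {f : ℂ → Bool} {E : ((ℂ → Bool) → ℝ) → ℝ} {k kc : ℝ → ℝ} (S : Sett f E k kc)
    (p q : ℂ) (hp : p ≠ 0) (hq : q ≠ 0) (β : ℝ) (hβ : 0 < β) :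
    ∃ δ₀ : ℝ, 0 < δ₀ ∧ ∀ (ι : Type) (_ : Fintype ι) (l : ι → ℝ) (h : ι → ℂ) (δ ε : ℝ),
      Wt k kc δ ε l h → δ ≤ δ₀ → ε ≤ δ₀ →
      (∀ v v' : ℂ, ‖v' - v‖ ≤ δ₀ → E (fun F => |aF l h F v' - aF l h F v|) ≤ β) ∧
      ∀ x Θ : ℂ, ‖Θ‖ = 1 →
        (∀ i, ∀ v : ℂ, E (fun F => |aF l h (mv 1 (-(h i)) F) v - aF l h F v|) ≤ β) ∧
        ∀ v' : ℂ, (v' = x + Θ * p ∨ v' = x + Θ * q) → ∃ (K : ℕ) (θ w : Fin K → ℂ), 0 < K ∧
          (∀ i, ‖θ i‖ = 1) ∧ (∀ i, θ i * x + w i = x) ∧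
          (∀ i, ∀ v : ℂ, (v = x ∨ v = x + Θ * p ∨ v = x + Θ * q) →
            E (fun F => |aF l h (mv (θ i) (w i) F) v - aF l h F v|) ≤ β) ∧
          E (fun F => (∑ i, (sg (mv (θ i) (w i) F v') - aF l h (mv (θ i) (w i) F) v')) ^ 2) ≤
            (K * β) ^ 2 := by
  obtain ⟨M, hM⟩ : ∃ M : ℝ, M = ‖p‖ + ‖q‖ + 1 := ⟨_, rfl⟩
  have hp0 : 0 < ‖p‖ := norm_pos_iff.2 hp
  have hq0 : 0 < ‖q‖ := norm_pos_iff.2 hq
  have hM0 : 0 < M := by linarith
  have hb2 : 0 < β ^ 2 := by positivity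
  obtain ⟨s, hs, hs1, hsk⟩ := Para_kc0 S.cont (β ^ 2 / 8) (by positivity)
  obtain ⟨δ₁, hδ₁, hδ₁h, hδ₁k⟩ := Para_uc S.cont (2 * M + 2) (β ^ 2 / 16) (by positivity)
  obtain ⟨K, hK, hKb⟩ : ∃ K : ℕ, 0 < K ∧ (4 : ℝ) ≤ β ^ 2 / 2 * K := by
    obtain ⟨n, hn⟩ := exists_nat_ge (8 / β ^ 2)
    refine ⟨n + 1, Nat.succ_pos n, ?_⟩
    rw [div_le_iff₀ hb2] at hn
    push_cast
    nlinarith
  have hKr : (0 : ℝ) < K := by exact_mod_cast hK
  obtain ⟨α, hα, hα1, hαM⟩ : ∃ α : ℝ, 0 < α ∧ α ≤ 1 ∧ α * M ≤ s := by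
    refine ⟨min 1 (s / M), lt_min one_pos (div_pos hs hM0), min_le_left _ _, ?_⟩
    have := mul_le_mul_of_nonneg_right (min_le_right 1 (s / M)) hM0.le
    rwa [div_mul_cancel₀ _ hM0.ne'] at this
  obtain ⟨θ, hθ⟩ : ∃ θ : Fin K → ℂ, ∀ i : Fin K,
      θ i = Complex.exp (Complex.I * ((α * ((i : ℕ) + 1) / K : ℝ) : ℂ)) := ⟨_, fun _ => rfl⟩
  have hθ1 : ∀ i, ‖θ i‖ = 1 := by
    intro i
    rw [hθ, mul_comm]
    exact Complex.norm_exp_ofReal_mul_I _
  have hθα : ∀ i, ‖θ i - 1‖ ≤ α := by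
    intro i
    rw [hθ]
    refine (Real.norm_exp_I_mul_ofReal_sub_one_le (x := α * ((i : ℕ) + 1) / K)).trans ?_
    have h2 : (0 : ℝ) ≤ α * ((i : ℕ) + 1) / K := by positivity
    rw [Real.norm_eq_abs, abs_of_nonneg h2, div_le_iff₀ hKr]
    have h1 : ((i : ℕ) : ℝ) + 1 ≤ K := by
      have := i.2
      exact_mod_cast this
    exact mul_le_mul_of_nonneg_left h1 hα.le
  have hθne : ∀ i j, i ≠ j → 0 < ‖θ i - θ j‖ := by
    intro i j hij
    rw [norm_pos_iff, sub_ne_zero, hθ, hθ]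
    exact Para_ne hK α hα hα1 i j hij
  have hmin : 0 < min ‖p‖ ‖q‖ := lt_min hp0 hq0
  obtain ⟨d₀, hd₀, hd₀'⟩ := Para_lb (fun a : {a : Fin K × Fin K // a.1 ≠ a.2} =>
    ‖θ a.1.1 - θ a.1.2‖ * min ‖p‖ ‖q‖) (fun a => mul_pos (hθne _ _ a.2) hmin)
  have move : ∀ (ι : Type) (_ : Fintype ι) (l : ι → ℝ) (h : ι → ℂ) (δ ε : ℝ),
      Wt k kc δ ε l h → δ ≤ δ₁ → ε ≤ β ^ 2 / 16 → ∀ ϑ w v : ℂ, ‖ϑ‖ = 1 → ‖ϑ * v + w - v‖ ≤ s →
        E (fun F => |aF l h (mv ϑ w F) v - aF l h F v|) ≤ β := by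
    intro ι _ l h δ ε hW hδ hε ϑ w v hϑ hd
    refine E_abs_sq S.stat (fun F => aF l h (mv ϑ w F) v - aF l h F v)
      (bdd_sub (bdd_mv (bdd_aF l h v) ϑ w) (bdd_aF l h v)) β hβ ?_
    have h1 := dist_est S l h δ ε hW (β ^ 2 / 16) ϑ w v hϑ (fun r hr hrd => by
      have h3 := (abs_le.1 hrd).2
      exact hδ₁k r _ hr (by linarith) (norm_nonneg _) (by linarith) (hrd.trans (by linarith)))
    have h2 := hsk _ (norm_nonneg _) hd
    linarith
  refine ⟨min (min δ₁ s) (min (d₀ / 3) (β ^ 2 / 16)), ?_, ?_⟩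
  · exact lt_min (lt_min hδ₁ hs) (lt_min (by linarith) (by positivity))
  intro ι _ l h δ ε hW hδ hε
  have hδ1 : δ ≤ δ₁ := hδ.trans ((min_le_left _ _).trans (min_le_left _ _))
  have hδs : δ ≤ s := hδ.trans ((min_le_left _ _).trans (min_le_right _ _))
  have hδd : δ ≤ d₀ / 3 := hδ.trans ((min_le_right _ _).trans (min_le_left _ _))
  have hεb : ε ≤ β ^ 2 / 16 := hε.trans ((min_le_right _ _).trans (min_le_right _ _))
  refine ⟨fun v v' hv => ?_, fun x Θ hΘ => ⟨fun i v => ?_, fun v' hv' =>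
    ⟨K, θ, fun i => x - θ i * x, hK, hθ1, fun i => by ring, fun i v hv => ?_, ?_⟩⟩⟩
  · have e : ∀ F, aF l h (mv 1 (v' - v) F) v = aF l h F v' := by
      intro F
      rw [aF_mv]
      simp only [one_mul]
      congr 1
      ring
    have h1 := move ι _ l h δ ε hW hδ1 hεb 1 (v' - v) v norm_one (by
      have h2 : (1 : ℂ) * v + (v' - v) - v = v' - v := by ring
      rw [h2]
      exact hv.trans ((min_le_left _ _).trans (min_le_right _ _)))
    simp only [e] at h1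
    exact h1
  · refine move ι _ l h δ ε hW hδ1 hεb 1 (-(h i)) v norm_one ?_
    have h2 : (1 : ℂ) * v + -(h i) - v = -(h i) := by ring
    rw [h2, norm_neg]
    exact (hW.small i).le.trans hδs
  · refine move ι _ l h δ ε hW hδ1 hεb (θ i) (x - θ i * x) v (hθ1 i) ?_
    have h2 : θ i * v + (x - θ i * x) - v = (θ i - 1) * (v - x) := by ring
    have h3 : ‖v - x‖ ≤ M := by
      rcases hv with h | h | h
      · rw [h, sub_self, norm_zero]
        exact hM0.le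
      · rw [h, add_sub_cancel_left, norm_mul, hΘ, one_mul]
        linarith
      · rw [h, add_sub_cancel_left, norm_mul, hΘ, one_mul]
        linarith
    rw [h2, norm_mul]
    exact (mul_le_mul (hθα i) h3 (norm_nonneg _) hα.le).trans hαM
  · have hvx : min ‖p‖ ‖q‖ ≤ ‖v' - x‖ ∧ ‖v' - x‖ ≤ M := by
      rcases hv' with h | h
      · rw [h, add_sub_cancel_left, norm_mul, hΘ, one_mul]
        exact ⟨min_le_left _ _, by linarith⟩
      · rw [h, add_sub_cancel_left, norm_mul, hΘ, one_mul]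
        exact ⟨min_le_right _ _, by linarith⟩
    have hdist : ∀ i j : Fin K, (θ i * v' + (x - θ i * x)) - (θ j * v' + (x - θ j * x)) =
        (θ i - θ j) * (v' - x) := by
      intro i j
      ring
    have hfin := vv_est S l h δ ε hW v' K θ (fun i => x - θ i * x) hθ1 (β ^ 2 / 16)
      (by positivity) (fun i j hij => by
        rw [hdist, norm_mul]
        have h1 := hd₀' ⟨(i, j), hij⟩
        have h2 : ‖θ i - θ j‖ * min ‖p‖ ‖q‖ ≤ ‖θ i - θ j‖ * ‖v' - x‖ :=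
          mul_le_mul_of_nonneg_left hvx.1 (norm_nonneg _)
        have h3 : d₀ ≤ ‖θ i - θ j‖ * min ‖p‖ ‖q‖ := h1
        linarith) (fun i j hij r hr hrd => by
        rw [hdist, norm_mul] at hrd ⊢
        have h1 : ‖θ i - θ j‖ ≤ 2 := by
          refine (norm_sub_le _ _).trans ?_
          rw [hθ1, hθ1]
          norm_num
        have h2 : ‖θ i - θ j‖ * ‖v' - x‖ ≤ 2 * M := mul_le_mul h1 hvx.2 (norm_nonneg _) (by norm_num)
        have h3 := (abs_le.1 hrd).2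
        exact hδ₁k r _ hr (by linarith) (by positivity) (by linarith) (hrd.trans (by linarith)))
    refine hfin.trans ?_
    have h1 : 4 * (K : ℝ) ≤ β ^ 2 / 2 * K * K := mul_le_mul_of_nonneg_right hKb hKr.le
    have h2 : 0 < β ^ 2 * (K : ℝ) ^ 2 := by positivity
    have h3 : ((K : ℝ) * β) ^ 2 = β ^ 2 * (K : ℝ) ^ 2 := by ring
    rw [h3]
    linarith

end ParaPart

/-!
## Part Near: the estimate for almost exact copies (about 90 lines)

PROOF.
`η := min 1 (τ / 4)`, `β := min (τ / 24) (η * τ / 208)`, so `η ≤ τ / 4`, `52 β / η ≤ τ / 4`, `6 β ≤ τ / 4`.  `para` gives `δ₀`.  For `x, Θ` put `y := x + Θ p`, `z := x + Θ q`; a motion of the triple `x, y, z`: `θ * (x + Θ * p) + w = (θ * Θ) * p + (θ * x + w)`, so the hypothesis `hf` gives the one of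
`main_est`, whose conclusion is `E (max 0 u) ≤ η + 52 β / η ≤ τ / 2` with `u F := (1 + e * G x) * (e * (G y + G z))`.  For the primed points `|u' F - u F| ≤ 2 (|G x' - G x| + |G y' - G y| + |G z' - G z|)` (`|G| ≤ 1`, `aF_le`), `max 0 u' ≤ max 0 u + |u' - u|`, and
`E |G v' - G v| ≤ β` (first claim of `para`): `E (max 0 u') ≤ τ / 2 + 6 β ≤ τ`.
-/

section NearPart

open MeasureTheory Filter Topology Pool.Agent.H93.EG Pool.Agent.H58.ER

private theorem Near_lip (e : ℝ) (he : e = 1 ∨ e = -1) (a b c a' b' c' : ℝ)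
    (ha : |a| ≤ 1) (hb' : |b'| ≤ 1) (hc' : |c'| ≤ 1) :
    |((1 + e * a') * (e * (b' + c'))) - ((1 + e * a) * (e * (b + c)))| ≤
      2 * (|a' - a| + (|b' - b| + |c' - c|)) := by
  have h1 : (1 + e * a') * (e * (b' + c')) - (1 + e * a) * (e * (b + c)) =
      (e * (a' - a)) * (e * (b' + c')) + (1 + e * a) * (e * ((b' - b) + (c' - c))) := by
    ring
  rw [h1]
  have h2 : 2 * (|a' - a| + (|b' - b| + |c' - c|)) = |a' - a| * 2 + 2 * (|b' - b| + |c' - c|) := by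
    ring
  rw [h2]
  have hee : |e| = 1 := by
    rcases he with h | h <;> rw [h] <;> norm_num
  refine (abs_add_le _ _).trans (add_le_add ?_ ?_)
  · rw [abs_mul, abs_mul, abs_mul, hee, one_mul, one_mul]
    refine mul_le_mul_of_nonneg_left ?_ (abs_nonneg _)
    exact (abs_add_le _ _).trans (by linarith)
  · rw [abs_mul, abs_mul, hee, one_mul]
    refine mul_le_mul ?_ (abs_add_le _ _) (abs_nonneg _) (by norm_num)
    refine (abs_add_le _ _).trans ?_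
    rw [abs_mul, hee, one_mul, abs_one]
    linarith

private theorem Near_max (u v : ℝ) : max 0 v ≤ max 0 u + |v - u| := by
  have h1 : v ≤ u + |v - u| := by
    have := le_abs_self (v - u)
    linarith
  have h2 : u ≤ max 0 u := le_max_right _ _
  have h3 : 0 ≤ max 0 u := le_max_left _ _
  have h4 : 0 ≤ |v - u| := abs_nonneg _
  exact max_le (by linarith) (by linarith)

theorem near {f : ℂ → Bool} {E : ((ℂ → Bool) → ℝ) → ℝ} {k kc : ℝ → ℝ} (S : Sett f E k kc)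
    (e : ℝ) (he : e = 1 ∨ e = -1) (p q : ℂ) (hp : p ≠ 0) (hq : q ≠ 0)
    (hf : ∀ θ w : ℂ, ‖θ‖ = 1 →
      ¬ (sg (f w) = e ∧ sg (f (θ * p + w)) = e ∧ sg (f (θ * q + w)) = e))
    (τ : ℝ) (hτ : 0 < τ) :
    ∃ δ₀ : ℝ, 0 < δ₀ ∧ ∀ (ι : Type) (_ : Fintype ι) (l : ι → ℝ) (h : ι → ℂ) (δ ε : ℝ),
      Wt k kc δ ε l h → δ ≤ δ₀ → ε ≤ δ₀ →
      ∀ x Θ x' y' z' : ℂ, ‖Θ‖ = 1 → ‖x' - x‖ ≤ δ₀ → ‖y' - (x + Θ * p)‖ ≤ δ₀ →
        ‖z' - (x + Θ * q)‖ ≤ δ₀ →
        E (fun F => max 0 ((1 + e * aF l h F x') * (e * (aF l h F y' + aF l h F z')))) ≤ τ := by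
  obtain ⟨η, hηdef⟩ : ∃ η : ℝ, η = min 1 (τ / 4) := ⟨_, rfl⟩
  have hη : 0 < η := by
    rw [hηdef]
    exact lt_min one_pos (by linarith)
  have hη1 : η ≤ 1 := by
    rw [hηdef]
    exact min_le_left _ _
  have hητ : η ≤ τ / 4 := by
    rw [hηdef]
    exact min_le_right _ _
  obtain ⟨β, hβdef⟩ : ∃ β : ℝ, β = min (τ / 24) (η * τ / 208) := ⟨_, rfl⟩
  have hβ : 0 < β := by
    rw [hβdef]
    exact lt_min (by linarith) (by positivity)
  have hβ1 : β ≤ τ / 24 := by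
    rw [hβdef]
    exact min_le_left _ _
  have hβ2 : β ≤ η * τ / 208 := by
    rw [hβdef]
    exact min_le_right _ _
  have h52 : 52 * β / η ≤ τ / 4 := by
    rw [div_le_iff₀ hη]
    linarith
  obtain ⟨δ₀, hδ₀, hpara⟩ := para S p q hp hq β hβ
  refine ⟨δ₀, hδ₀, ?_⟩
  intro ι _ l h δ ε hW hδ hε x Θ x' y' z' hΘ hx' hy' hz'
  obtain ⟨P1, P2⟩ := hpara ι _ l h δ ε hW hδ hε
  obtain ⟨P3, P4⟩ := P2 x Θ hΘ
  have hE := S.stat
  have hmain := main_est S l h δ ε hW e he x (x + Θ * p) (x + Θ * q) (fun θ w hθ => by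
      have h1 := hf (θ * Θ) (θ * x + w) (by rw [norm_mul, hθ, hΘ, mul_one])
      have e1 : θ * Θ * p + (θ * x + w) = θ * (x + Θ * p) + w := by ring
      have e2 : θ * Θ * q + (θ * x + w) = θ * (x + Θ * q) + w := by ring
      rw [e1, e2] at h1
      exact h1) β η hβ hη hη1 (fun i v _ => P3 i v) (fun v' hv' => P4 v' hv')
  have hG : ∀ (v : ℂ) (F : ℂ → Bool), |aF l h F v| ≤ 1 := fun v F => aF_le l h hW.nn hW.sum F v
  have bG : ∀ v : ℂ, Bdd (fun F : ℂ → Bool => aF l h F v) := fun v => bdd_aF l h v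
  have bmax : ∀ x y z : ℂ,
      Bdd (fun F : ℂ → Bool => max 0 ((1 + e * aF l h F x) * (e * (aF l h F y + aF l h F z)))) := by
    intro x y z
    obtain ⟨D, hD⟩ := bdd_mul ((bdd_const (1 : ℝ)).add ((bG x).smul e))
      (((bG y).add (bG z)).smul e)
    refine ⟨D, fun F => ?_⟩
    rw [abs_of_nonneg (le_max_left _ _)]
    exact max_le ((abs_nonneg _).trans (hD F)) ((le_abs_self _).trans (hD F))
  have bD : ∀ v v' : ℂ, Bdd (fun F : ℂ → Bool => |aF l h F v' - aF l h F v|) := fun v v' =>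
    bdd_abs (bdd_sub (bG v') (bG v))
  have hcomp := E_mono' hE
    (fun F => max 0 ((1 + e * aF l h F x') * (e * (aF l h F y' + aF l h F z'))))
    (fun F => max 0 ((1 + e * aF l h F x) * (e * (aF l h F (x + Θ * p) + aF l h F (x + Θ * q)))) +
      2 * (|aF l h F x' - aF l h F x| + (|aF l h F y' - aF l h F (x + Θ * p)| +
        |aF l h F z' - aF l h F (x + Θ * q)|)))
    (bmax x' y' z')
    ((bmax x (x + Θ * p) (x + Θ * q)).add (((bD x x').add ((bD (x + Θ * p) y').add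
      (bD (x + Θ * q) z'))).smul 2))
    (fun F => (Near_max _ _).trans (add_le_add le_rfl
      (Near_lip e he _ _ _ _ _ _ (hG x F) (hG y' F) (hG z' F))))
  rw [hE.add _ _ (bmax x (x + Θ * p) (x + Θ * q)) (((bD x x').add ((bD (x + Θ * p) y').add
      (bD (x + Θ * q) z'))).smul 2),
    hE.smul _ _ ((bD x x').add ((bD (x + Θ * p) y').add (bD (x + Θ * q) z'))),
    hE.add _ _ (bD x x') ((bD (x + Θ * p) y').add (bD (x + Θ * q) z')),
    hE.add _ _ (bD (x + Θ * p) y') (bD (x + Θ * q) z')] at hcomp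
  have q1 := P1 x x' hx'
  have q2 := P1 (x + Θ * p) y' hy'
  have q3 := P1 (x + Θ * q) z' hz'
  linarith

end NearPart

end Pool.Agent.H79.TM
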