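import Pool.Agent.H79.TM.P2
import Pool.Agent.H93.EGM.Weak

/-!
# Sampling and the limit
-/

set_option autoImplicit false

namespace Pool.Agent.H79.TM

/-!
## Part Samp2: measurable functions with small one-sided defects (about 180 lines)

PROOF.
Model: the proof of `samp` in `Pool/Agent/H93/EGM/Samp.lean`.  (1) `r₁ > 0` with `kc r ≥ kc 0 / 2` for `|r - r₁| ≤ r₁` (continuity at 0; take `r₁` small, `[0, 2 r₁]`).  `V₁ := (volume (ball 0 1 ×ˢ univ)).toReal > 0`, `c₀ := V₁ * kc 0 / 16`.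
(2) Given `L, τ`: `V := (volume (ball 0 L ×ˢ univ)).toReal`, `N := Fintype.card I`, `M > 0` with `V₁ / M < τ`.  `τ' > 0` with `M * N * V * τ' ≤ 2 c₀`.  `near` for each `i` (type `P i`, sign `e i`) with `τ'` gives `δ_i`; `δ₀ := min` of the `δ_i` and of `kc 0 / 4` (finitely many `i`; work with an eventual statement
or `Finset.exists_le`/`Finite` minimum).  Mesh `ρ > 0` with `2 ρ ≤ δ₀`, `4 ρ ≤ r₁`.  Weights `l, h` from `S.dec δ₀ .. δ₀ ..` (`Wt k kc δ₀ δ₀ l h`).
(3) `int_gen ρ hρ L (P i).1 (P i).2` gives `J i, v i`.  `D F := ∑ i, ∑ j ∈ J i, v i j * max 0 ((1 + e i * aF l h F (corner ρ j.1)) * (e i * (aF l h F (corner ρ j.2.1) + aF l h F (corner ρ j.2.2))))`.  For `v i j ≠ 0` the three corners are within `2 ρ ≤ δ₀` (`corner_near`) of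
`x, x + c t * (P i).1, x + c t * (P i).2`, so by `near` (`Θ = c t`) each term has mean `≤ τ'`; so `E D ≤ N V τ'` (`stat_sum`).
(4) `int_gen ρ hρ 1 r₁ r₁` gives `J', v'`; `Q F := ∑ j ∈ J', v' j * (aF l h F (corner ρ j.1) * aF l h F (corner ρ j.2.1))`.  For `v' j ≠ 0` the distance of the two corners is within `4 ρ ≤ r₁` of `r₁` (`near_dist`), so `E (aF * aF) ≥ kc (dist) - δ₀ ≥ kc 0 / 2 - kc 0 / 4` (`aF_mul2`, `app`).  So
`E Q ≥ V₁ kc 0 / 4 = 4 c₀`.
(5) `E (Q - M D - c₀) ≥ 4 c₀ - 2 c₀ - c₀ > 0`, so there is a motion `(θ, w)` with `Q F - M D F - c₀ > 0` for `F = mv θ w f` (otherwise `E ≤ 0` by `E_mono`, `E_const`).  So `Q F ≥ c₀` (`D ≥ 0`) and `M D F ≤ Q F ≤ V₁` (`|aF| ≤ 1`), `D F ≤ V₁ / M < τ`.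
`G x := aF l h F (corner ρ (cell ρ x))` is measurable (`cell_meas`, countable range), `|G| ≤ 1`, the integrals are the sums (`int_gen` with `Ψ x y z := max 0 (..)`, resp. `Ψ x y z := ..`), each integral of the nonnegative function is `≤ D F < τ`.
-/

section Samp2Part

open MeasureTheory Filter Topology Pool.Agent.H93.EG Pool.Agent.H58.ER

private theorem Samp2_bdd {ι : Type} [Fintype ι] (l : ι → ℝ) (h : ι → ℂ) (hl : ∀ i, 0 ≤ l i)
    (hl1 : ∑ i, l i = 1) (e : ℝ) (he : e = 1 ∨ e = -1) (x y z : ℂ) :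
    Bdd (fun F => max 0 ((1 + e * aF l h F x) * (e * (aF l h F y + aF l h F z)))) := by
  refine ⟨4, fun F => ?_⟩
  have h1 := aF_le l h hl hl1 F x
  have h2 := aF_le l h hl hl1 F y
  have h3 := aF_le l h hl hl1 F z
  have he1 : |e| = 1 := by
    rcases he with he | he <;> rw [he] <;> norm_num
  have h4 : |1 + e * aF l h F x| ≤ 2 := by
    refine (abs_add_le _ _).trans ?_
    rw [abs_mul, he1, one_mul, abs_one]
    linarith
  have h5 : |e * (aF l h F y + aF l h F z)| ≤ 2 := by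
    rw [abs_mul, he1, one_mul]
    refine (abs_add_le _ _).trans ?_
    linarith
  have h6 : |(1 + e * aF l h F x) * (e * (aF l h F y + aF l h F z))| ≤ 2 * 2 := by
    rw [abs_mul]
    exact mul_le_mul h4 h5 (abs_nonneg _) (by norm_num)
  rw [abs_of_nonneg (le_max_left _ _)]
  refine max_le (by norm_num) ((le_abs_self _).trans (h6.trans (by norm_num)))

theorem samp2 {f : ℂ → Bool} {E : ((ℂ → Bool) → ℝ) → ℝ} {k kc : ℝ → ℝ} (S : Sett f E k kc)
    (hpos : 0 < kc 0) {I : Type} [Fintype I] (e : I → ℝ) (he : ∀ i, e i = 1 ∨ e i = -1)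
    (P : I → ℂ × ℂ) (hP : ∀ i, (P i).1 ≠ 0 ∧ (P i).2 ≠ 0)
    (hf : ∀ i, ∀ θ w : ℂ, ‖θ‖ = 1 →
      ¬ (sg (f w) = e i ∧ sg (f (θ * (P i).1 + w)) = e i ∧ sg (f (θ * (P i).2 + w)) = e i)) :
    ∃ r₁ c₀ : ℝ, 0 < r₁ ∧ 0 < c₀ ∧ ∀ L τ : ℝ, 0 < L → 0 < τ →
      ∃ G : ℂ → ℝ, Measurable G ∧ (∀ x, |G x| ≤ 1) ∧
        (∀ i, ∫ xt in (Metric.ball (0 : ℂ) L) ×ˢ (Set.univ : Set UnitAddCircle),
          max 0 ((1 + e i * G xt.1) *
            (e i * (G (xt.1 + c xt.2 * (P i).1) + G (xt.1 + c xt.2 * (P i).2)))) < τ) ∧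
        c₀ ≤ ∫ xt in (Metric.ball (0 : ℂ) 1) ×ˢ (Set.univ : Set UnitAddCircle),
          G xt.1 * G (xt.1 + c xt.2 * r₁) := by
  classical
  obtain ⟨r₀, hr₀, hr₀k⟩ := Metric.continuous_iff.mp S.cont 0 (kc 0 / 2) (by positivity)
  have hkr : ∀ r : ℝ, |r| < r₀ → kc 0 / 2 < kc r := by
    intro r hr
    have h1 := hr₀k r (by rw [Real.dist_eq, sub_zero]; exact hr)
    rw [Real.dist_eq] at h1
    linarith [(abs_lt.mp h1).1]
  obtain ⟨r₁, hr₁⟩ : ∃ r₁ : ℝ, r₁ = r₀ / 4 := ⟨_, rfl⟩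
  have hr₁0 : 0 < r₁ := by
    rw [hr₁]
    positivity
  obtain ⟨V₁, hV₁⟩ : ∃ V₁ : ℝ, V₁ = (volume ((Metric.ball (0 : ℂ) 1) ×ˢ
    (Set.univ : Set UnitAddCircle))).toReal := ⟨_, rfl⟩
  have hV₁0 : 0 < V₁ := by
    rw [hV₁, Measure.volume_eq_prod, Measure.prod_prod]
    refine ENNReal.toReal_pos ?_ ?_
    · refine mul_ne_zero (Metric.measure_ball_pos volume (0 : ℂ) one_pos).ne' ?_
      exact (isOpen_univ.measure_pos (volume : Measure UnitAddCircle) Set.univ_nonempty).ne'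
    · exact ENNReal.mul_ne_top measure_ball_lt_top.ne (measure_ne_top _ _)
  obtain ⟨c₀, hc₀⟩ : ∃ c₀ : ℝ, c₀ = V₁ * kc 0 / 16 := ⟨_, rfl⟩
  have hc₀0 : 0 < c₀ := by
    rw [hc₀]
    positivity
  refine ⟨r₁, c₀, hr₁0, hc₀0, fun L τ hL hτ => ?_⟩
  obtain ⟨V, hV⟩ : ∃ V : ℝ, V = (volume ((Metric.ball (0 : ℂ) L) ×ˢ
    (Set.univ : Set UnitAddCircle))).toReal := ⟨_, rfl⟩
  have hV0 : 0 ≤ V := by
    rw [hV]
    exact ENNReal.toReal_nonneg
  obtain ⟨M, hM⟩ : ∃ M : ℝ, M = V₁ / τ + 1 := ⟨_, rfl⟩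
  have hM0 : 0 < M := by
    rw [hM]
    positivity
  have hMτ : V₁ < M * τ := by
    rw [hM, add_mul, one_mul, div_mul_cancel₀ _ hτ.ne']
    linarith
  obtain ⟨N, hN⟩ : ∃ N : ℝ, N = (Fintype.card I : ℝ) := ⟨_, rfl⟩
  have hN0 : 0 ≤ N := by
    rw [hN]
    exact Nat.cast_nonneg _
  obtain ⟨τ', hτ'⟩ : ∃ τ' : ℝ, τ' = 2 * c₀ / (M * (N * V) + 1) := ⟨_, rfl⟩
  have hMNV : 0 ≤ M * (N * V) := by positivity
  have hτ'0 : 0 < τ' := by
    rw [hτ']
    positivity
  have hτ'M : M * (N * (V * τ')) ≤ 2 * c₀ := by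
    have h1 : τ' * (M * (N * V) + 1) = 2 * c₀ := by
      rw [hτ']
      field_simp
    nlinarith
  choose δ hδ hδn using fun i => near S (e i) (he i) (P i).1 (P i).2 (hP i).1 (hP i).2 (hf i) τ' hτ'0
  obtain ⟨δ₀, hδ₀0, hδ₀k, hδ₀⟩ : ∃ δ₀ : ℝ, 0 < δ₀ ∧ δ₀ < kc 0 / 4 ∧ ∀ i, δ₀ < δ i := by
    have h1 : ∀ᶠ ρ in nhdsWithin (0 : ℝ) (Set.Ioi 0), ρ < kc 0 / 4 :=
      nhdsWithin_le_nhds (gt_mem_nhds (by positivity))
    have h2 : ∀ᶠ ρ in nhdsWithin (0 : ℝ) (Set.Ioi 0), ∀ i : I, ρ < δ i := by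
      rw [Filter.eventually_all]
      intro i
      exact nhdsWithin_le_nhds (gt_mem_nhds (hδ i))
    obtain ⟨ρ, ⟨h3, h4⟩, h5⟩ := ((h1.and h2).and self_mem_nhdsWithin).exists
    exact ⟨ρ, h5, h3, h4⟩
  obtain ⟨ρ, hρ, hρδ, hρr⟩ : ∃ ρ : ℝ, 0 < ρ ∧ 2 * ρ ≤ δ₀ ∧ 4 * ρ ≤ r₁ := by
    refine ⟨min (δ₀ / 2) (r₁ / 4), lt_min (by positivity) (by positivity), ?_, ?_⟩
    · have := min_le_left (δ₀ / 2) (r₁ / 4)
      linarith
    · have := min_le_right (δ₀ / 2) (r₁ / 4)
      linarith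
  obtain ⟨ι, _, l, h, hW⟩ := S.dec δ₀ hδ₀0 δ₀ hδ₀0
  choose J v hv0 hv1 hvne hvi using fun i => int_gen ρ hρ L (P i).1 (P i).2
  obtain ⟨J', v', hv0', hv1', hvne', hvi'⟩ := int_gen ρ hρ 1 r₁ r₁
  obtain ⟨T, hT⟩ : ∃ T : I → ℂ → ℂ → ℂ → (ℂ → Bool) → ℝ, T = fun i x y z F =>
    max 0 ((1 + e i * aF l h F x) * (e i * (aF l h F y + aF l h F z))) := ⟨_, rfl⟩
  have hTb : ∀ i x y z, Bdd (T i x y z) := by
    intro i x y z
    rw [hT]
    exact Samp2_bdd l h hW.nn hW.sum (e i) (he i) x y z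
  have hT0 : ∀ i x y z F, 0 ≤ T i x y z F := by
    intro i x y z F
    rw [hT]
    exact le_max_left _ _
  obtain ⟨A, hA⟩ : ∃ A : I → (ℂ → Bool) → ℝ, A = fun i F => ∑ j ∈ J i, v i j *
    T i (corner ρ j.1) (corner ρ j.2.1) (corner ρ j.2.2) F := ⟨_, rfl⟩
  have hAb : ∀ i, Bdd (A i) := by
    intro i
    rw [hA]
    exact bdd_sum (J i) (v i) _ fun j _ => hTb i _ _ _
  have hA0 : ∀ i F, 0 ≤ A i F := by
    intro i F
    rw [hA]
    exact Finset.sum_nonneg fun j _ => mul_nonneg (hv0 i j) (hT0 i _ _ _ F)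
  have hAE : ∀ i, E (A i) ≤ V * τ' := by
    intro i
    rw [hA]
    simp only
    rw [stat_sum f E S.stat (J i) (v i) (fun j => T i (corner ρ j.1) (corner ρ j.2.1) (corner ρ j.2.2))
      (fun j _ => hTb i _ _ _), hV, ← hv1 i, Finset.sum_mul]
    refine Finset.sum_le_sum fun j _ => ?_
    by_cases h0 : v i j = 0
    · rw [h0, zero_mul, zero_mul]
    · refine mul_le_mul_of_nonneg_left ?_ (hv0 i j)
      obtain ⟨x, t, e1, e2, e3⟩ := hvne i j h0
      rw [← e1, ← e2, ← e3, hT]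
      refine hδn i ι _ l h δ₀ δ₀ hW (hδ₀ i).le (hδ₀ i).le x (c t) _ _ _ (norm_c t) ?_ ?_ ?_
      · exact (corner_near ρ hρ x).trans (hρδ.trans (hδ₀ i).le)
      · exact (corner_near ρ hρ _).trans (hρδ.trans (hδ₀ i).le)
      · exact (corner_near ρ hρ _).trans (hρδ.trans (hδ₀ i).le)
  obtain ⟨D, hD⟩ : ∃ D : (ℂ → Bool) → ℝ, D = fun F => ∑ i ∈ (Finset.univ : Finset I), 1 * A i F := ⟨_, rfl⟩
  have hDb : Bdd D := by
    rw [hD]
    exact bdd_sum Finset.univ (fun _ => 1) A fun i _ => hAb i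
  have hDE : E D ≤ N * (V * τ') := by
    rw [hD, stat_sum f E S.stat Finset.univ (fun _ => 1) A fun i _ => hAb i]
    simp only [one_mul]
    refine (Finset.sum_le_sum fun i _ => hAE i).trans (le_of_eq ?_)
    rw [Finset.sum_const, Finset.card_univ, nsmul_eq_mul, hN]
  have hD0 : ∀ F, 0 ≤ D F := by
    intro F
    rw [hD]
    exact Finset.sum_nonneg fun i _ => mul_nonneg zero_le_one (hA0 i F)
  obtain ⟨Q, hQ⟩ : ∃ Q : (ℂ → Bool) → ℝ, Q = fun F => ∑ j ∈ J', v' j *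
    (aF l h F (corner ρ j.1) * aF l h F (corner ρ j.2.1)) := ⟨_, rfl⟩
  have hQb : Bdd Q := by
    rw [hQ]
    exact bdd_sum J' v' (fun j F => aF l h F (corner ρ j.1) * aF l h F (corner ρ j.2.1))
      fun j _ => bdd_prod l h hW.nn hW.sum _ _
  have hQE : 4 * c₀ ≤ E Q := by
    rw [hQ, stat_sum f E S.stat J' v' (fun j F => aF l h F (corner ρ j.1) * aF l h F (corner ρ j.2.1))
      (fun j _ => bdd_prod l h hW.nn hW.sum _ _)]
    have h1 : 4 * c₀ = ∑ j ∈ J', v' j * (kc 0 / 4) := by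
      rw [← Finset.sum_mul, hv1', ← hV₁, hc₀]
      ring
    rw [h1]
    refine Finset.sum_le_sum fun j _ => ?_
    by_cases h0 : v' j = 0
    · rw [h0, zero_mul, zero_mul]
    · refine mul_le_mul_of_nonneg_left ?_ (hv0' j)
      obtain ⟨x, t, e1, e2, -⟩ := hvne' j h0
      rw [← e1, ← e2, aF_mul2 l h h f E S.stat k S.hk]
      have h2 := near_dist ρ hρ x (x + c t * r₁)
      rw [show x - (x + c t * (r₁ : ℂ)) = -(c t * r₁) by ring, norm_neg, norm_mul, norm_c, one_mul,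
        Complex.norm_real, Real.norm_eq_abs, abs_of_pos hr₁0] at h2
      have h3 := hW.app (corner ρ (cell ρ x)) (corner ρ (cell ρ (x + c t * r₁)))
      obtain ⟨h4, h5⟩ := abs_le.mp h2
      have h6 := hkr ‖corner ρ (cell ρ x) - corner ρ (cell ρ (x + c t * r₁))‖ (by
        rw [abs_of_nonneg (norm_nonneg _)]
        have : r₀ = 4 * r₁ := by rw [hr₁]; ring
        linarith)
      have h7 := (abs_le.mp h3).1
      linarith
  have hQ1 : ∀ F, Q F ≤ V₁ := by
    intro F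
    rw [hQ, hV₁, ← hv1']
    refine Finset.sum_le_sum fun j _ => ?_
    have h1 : aF l h F (corner ρ j.1) * aF l h F (corner ρ j.2.1) ≤ 1 := by
      refine (le_abs_self _).trans ?_
      rw [abs_mul]
      exact mul_le_one₀ (aF_le l h hW.nn hW.sum F _) (abs_nonneg _) (aF_le l h hW.nn hW.sum F _)
    calc v' j * (aF l h F (corner ρ j.1) * aF l h F (corner ρ j.2.1)) ≤ v' j * 1 :=
          mul_le_mul_of_nonneg_left h1 (hv0' j)
      _ = v' j := mul_one _
  have hex : ∃ θ w : ℂ, ‖θ‖ = 1 ∧ c₀ < Q (mv θ w f) - M * D (mv θ w f) := by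
    by_contra hcon
    push Not at hcon
    have h1 := E_mono S.stat (fun F => Q F - M * D F) (fun _ => c₀) (bdd_sub hQb (hDb.smul M)) (bdd_const c₀)
      (fun θ w hθ => hcon θ w hθ)
    rw [E_sub S.stat Q (fun F => M * D F) hQb (hDb.smul M), S.stat.smul M D hDb, E_const S.stat c₀] at h1
    have h2 : M * E D ≤ 2 * c₀ := (mul_le_mul_of_nonneg_left hDE hM0.le).trans hτ'M
    linarith
  obtain ⟨θ, w, -, hF⟩ := hex
  obtain ⟨F, hFd⟩ : ∃ F : ℂ → Bool, F = mv θ w f := ⟨_, rfl⟩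
  rw [← hFd] at hF
  have hGb : ∀ x, |aF l h F (corner ρ (cell ρ x))| ≤ 1 := fun x => aF_le l h hW.nn hW.sum F _
  refine ⟨fun x => aF l h F (corner ρ (cell ρ x)), ?_, hGb, ?_, ?_⟩
  · have : Measurable (fun j : ℤ × ℤ => aF l h F (corner ρ j)) := measurable_of_countable _
    exact this.comp (cell_meas ρ)
  · intro i
    have h1 := hvi i (fun x y z => max 0 ((1 + e i * aF l h F x) * (e i * (aF l h F y + aF l h F z))))
    have h2 : A i F ≤ D F := by
      rw [hD]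
      simp only [one_mul]
      exact Finset.single_le_sum (f := fun i => A i F) (fun i' _ => hA0 i' F) (Finset.mem_univ i)
    have h3 : M * D F < M * τ := by
      have := hQ1 F
      linarith
    have h4 : D F < τ := lt_of_mul_lt_mul_left h3 hM0.le
    have h5 : A i F = ∑ j ∈ J i, v i j * max 0 ((1 + e i * aF l h F (corner ρ j.1)) *
        (e i * (aF l h F (corner ρ j.2.1) + aF l h F (corner ρ j.2.2)))) := by
      rw [hA, hT]
    rw [← h5] at h1
    refine lt_of_le_of_lt (le_of_eq ?_) (lt_of_le_of_lt h2 h4)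
    exact h1
  · have h1 := hvi' (fun x y _ => aF l h F x * aF l h F y)
    have h2 : Q F = ∑ j ∈ J', v' j * (aF l h F (corner ρ j.1) * aF l h F (corner ρ j.2.1)) := by
      rw [hQ]
    rw [← h2] at h1
    have h3 := mul_nonneg hM0.le (hD0 F)
    have h4 : c₀ ≤ Q F := by linarith
    exact h4.trans (le_of_eq h1.symm)

end Samp2Part

/-!
## Part WLin: weak limits of shifted functions (about 90 lines)

PROOF.
`H n := F n - G`, `|H n| ≤ 2`, `∫ H n dν → 0` for finite `ν ≪ volume`.  `∫_S F n (x + c t p) - ∫_S G (x + c t p) = ∫_S H n (x + c t * p)`.  Change of variables `(x, t) ↦ (x + c t * p, t)` (`mp_shift p`, see `change` in the proof of `lim_one` in Weak.lean): `= ∫_{S'} H n y`,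
`S' := {(y, t) | (y + c t * (-p), t) ∈ S}` measurable, contained in `{‖y‖ ≤ R + ‖p‖}`.  Fubini (`integral_prod`, `S'` has finite measure): `= ∫ y, H n y * K y`, `K y := ∫ t, S'.indicator 1 (y, t) ∈ [0, 1]`, measurable, `K y = 0` for `‖y‖ > R + ‖p‖`.  `weak_test H _ _ _ K _ _ (R + ‖p‖) _`.
-/

section WLinPart

open MeasureTheory Filter Topology Pool.Agent.H93.EG

theorem wlin (F : ℕ → ℂ → ℝ) (hm : ∀ n, Measurable (F n)) (hb : ∀ n x, |F n x| ≤ 1)
    (G : ℂ → ℝ) (hG : Measurable G) (hGb : ∀ x, |G x| ≤ 1)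
    (hw : ∀ (ν : Measure ℂ) [IsFiniteMeasure ν], ν ≪ volume →
        Tendsto (fun n => ∫ x, F n x ∂ν) atTop (𝓝 (∫ x, G x ∂ν)))
    (p : ℂ) (R : ℝ) (S : Set (ℂ × UnitAddCircle)) (hS : MeasurableSet S)
    (hSR : ∀ xt ∈ S, ‖xt.1‖ ≤ R) :
    Tendsto (fun n => ∫ xt in S, F n (xt.1 + c xt.2 * p)) atTop
      (𝓝 (∫ xt in S, G (xt.1 + c xt.2 * p))) := by
  set T : ℂ × UnitAddCircle → ℂ × UnitAddCircle := fun xt => (xt.1 + c xt.2 * p, xt.2) with hT
  set T' : ℂ × UnitAddCircle → ℂ × UnitAddCircle := fun xt => (xt.1 + c xt.2 * (-p), xt.2) with hT'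
  have hTm : Measurable T := (mp_shift p).measurable
  have hTm' : Measurable T' := (mp_shift (-p)).measurable
  set S' : Set (ℂ × UnitAddCircle) := T' ⁻¹' S with hS'
  have hSm' : MeasurableSet S' := hTm' hS
  have hpre : T ⁻¹' S' = S := by
    ext ⟨x, t⟩
    simp only [hS', Set.mem_preimage, hT, hT']
    rw [show x + c t * p + c t * -p = x by ring]
  have hSR' : ∀ xt ∈ S', ‖xt.1‖ ≤ R + ‖p‖ := by
    rintro ⟨x, t⟩ hx
    have hx' : ‖x + c t * (-p)‖ ≤ R := hSR (x + c t * (-p), t) hx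
    have := norm_sub_le (x + c t * (-p)) (c t * (-p))
    rw [show x + c t * (-p) - c t * (-p) = x by ring, norm_mul, norm_c, one_mul, norm_neg] at this
    show ‖x‖ ≤ R + ‖p‖
    linarith
  have change : ∀ K : ℂ → ℝ,
      ∫ xt in S, K (xt.1 + c xt.2 * p) = ∫ xt in S', K xt.1 := by
    intro K
    have h1 := (mp_shift p).setIntegral_preimage_emb (s := S')
      (g := fun xt : ℂ × UnitAddCircle => K xt.1) ?_
    · rw [← h1]
      change _ = ∫ xt in T ⁻¹' S', _
      rw [hpre]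
    · refine MeasurableEmbedding.of_measurable_inverse (g := T') hTm ?_ hTm' ?_
      · have : Set.range T = Set.univ := by
          rw [Set.range_eq_univ]
          rintro ⟨x, t⟩
          refine ⟨(x + c t * (-p), t), ?_⟩
          simp only [hT]
          rw [show x + c t * -p + c t * p = x by ring]
        show MeasurableSet (Set.range T)
        rw [this]
        exact MeasurableSet.univ
      · rintro ⟨x, t⟩
        show (x + c t * p + c t * (-p), t) = (x, t)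
        rw [show x + c t * p + c t * -p = x by ring]
  have hSf : volume S' ≠ ⊤ := by
    have h1 : S' ⊆ (Metric.closedBall (0 : ℂ) (R + ‖p‖)) ×ˢ Set.univ := by
      intro xt hxt
      refine ⟨?_, trivial⟩
      rw [Metric.mem_closedBall, dist_zero_right]
      exact hSR' xt hxt
    refine ne_top_of_le_ne_top ?_ (measure_mono h1)
    rw [Measure.volume_eq_prod, Measure.prod_prod]
    exact ENNReal.mul_ne_top measure_closedBall_lt_top.ne (measure_ne_top _ _)
  have hSfin : IsFiniteMeasure ((volume : Measure (ℂ × UnitAddCircle)).restrict S') :=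
    ⟨by rw [Measure.restrict_apply_univ]; exact lt_top_iff_ne_top.mpr hSf⟩
  set A : ℂ → ℝ := fun y => ∫ t : UnitAddCircle, S'.indicator (fun _ => (1 : ℝ)) (y, t) with hA
  have hAm : Measurable A :=
    (StronglyMeasurable.integral_prod_right'
      ((measurable_const (a := (1 : ℝ))).indicator hSm').stronglyMeasurable).measurable
  have hAb : ∀ y, |A y| ≤ 1 := by
    intro y
    rw [← Real.norm_eq_abs]
    refine (norm_integral_le_of_norm_le_const (C := 1) (Eventually.of_forall fun t => ?_)).trans ?_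
    · rw [Real.norm_eq_abs]
      by_cases h : (y, t) ∈ S'
      · rw [Set.indicator_of_mem h, abs_one]
      · rw [Set.indicator_of_notMem h, abs_zero]
        exact zero_le_one
    · simp [Measure.real]
  have hA0 : ∀ y, R + ‖p‖ < ‖y‖ → A y = 0 := by
    intro y hy
    have : ∀ t : UnitAddCircle, S'.indicator (fun _ => (1 : ℝ)) (y, t) = 0 := by
      intro t
      refine Set.indicator_of_notMem (fun h => ?_) _
      exact absurd (hSR' _ h) (not_le.mpr hy)
    rw [hA]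
    simp [this]
  have intS : ∀ K : ℂ → ℝ, Measurable K → ∀ C : ℝ, (∀ x, |K x| ≤ C) →
      Integrable (fun xt : ℂ × UnitAddCircle => K xt.1) (volume.restrict S') := fun K hK C hKb =>
    Integrable.of_bound (hK.comp measurable_fst).aestronglyMeasurable C
      (Eventually.of_forall fun xt => by rw [Real.norm_eq_abs]; exact hKb _)
  have hform : ∀ K : ℂ → ℝ, Measurable K → (∀ x, |K x| ≤ 2) →
      ∫ xt in S', K xt.1 = ∫ y : ℂ, K y * A y := by
    intro K hK hKb
    have hin : Integrable (S'.indicator (fun xt : ℂ × UnitAddCircle => K xt.1)) := by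
      rw [integrable_indicator_iff hSm']
      exact intS K hK 2 hKb
    rw [← integral_indicator hSm']
    have h1 := integral_prod (μ := (volume : Measure ℂ)) (ν := (volume : Measure UnitAddCircle))
      _ hin
    rw [Measure.volume_eq_prod, h1]
    refine integral_congr_ae (Eventually.of_forall fun y => ?_)
    show ∫ t : UnitAddCircle, S'.indicator (fun xt : ℂ × UnitAddCircle => K xt.1) (y, t) =
      K y * A y
    rw [hA]
    simp only
    rw [← integral_const_mul]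
    refine integral_congr_ae (Eventually.of_forall fun t => ?_)
    show S'.indicator (fun xt : ℂ × UnitAddCircle => K xt.1) (y, t) =
      K y * S'.indicator (fun _ => (1 : ℝ)) (y, t)
    by_cases h : (y, t) ∈ S'
    · rw [Set.indicator_of_mem h, Set.indicator_of_mem h, mul_one]
    · rw [Set.indicator_of_notMem h, Set.indicator_of_notMem h, mul_zero]
  set H : ℕ → ℂ → ℝ := fun n x => F n x - G x with hH
  have hHm : ∀ n, Measurable (H n) := fun n => (hm n).sub hG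
  have hHb : ∀ n x, |H n x| ≤ 2 := by
    intro n x
    have h1 := abs_le.mp (hb n x)
    have h2 := abs_le.mp (hGb x)
    rw [abs_le]
    constructor <;> simp only [hH] <;> linarith [h1.1, h1.2, h2.1, h2.2]
  have hHw : ∀ (ν : Measure ℂ) [IsFiniteMeasure ν], ν ≪ volume →
      Tendsto (fun n => ∫ x, H n x ∂ν) atTop (𝓝 0) := by
    intro ν _ hν
    have h1 := (hw ν hν).sub_const (∫ x, G x ∂ν)
    rw [sub_self] at h1
    refine h1.congr fun n => ?_
    rw [← integral_sub]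
    · exact Integrable.of_bound (hm n).aestronglyMeasurable 1
        (Eventually.of_forall fun x => by rw [Real.norm_eq_abs]; exact hb n x)
    · exact Integrable.of_bound hG.aestronglyMeasurable 1
        (Eventually.of_forall fun x => by rw [Real.norm_eq_abs]; exact hGb x)
  have hlim := weak_test H hHm hHb hHw A hAm hAb (R + ‖p‖) hA0
  have h3 := hlim.add_const (∫ xt in S, G (xt.1 + c xt.2 * p))
  rw [zero_add] at h3
  refine h3.congr fun n => ?_
  rw [change G, change (F n), ← hform (H n) (hHm n) (hHb n)]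
  rw [← integral_add (intS (H n) (hHm n) 2 (hHb n)) (intS G hG 1 hGb)]
  refine integral_congr_ae (Eventually.of_forall fun xt => ?_)
  simp only [hH]
  ring

end WLinPart

/-!
## Part WLim: the limit function (about 170 lines)

PROOF.
Model: `lim_exists` in `Pool/Agent/H93/EGM/Weak.lean`.  `F n` := the function for `L = n + 1`, `τ = 1 / (n + 1)`.  `weak_seq` gives `φ` and `G`.  `uf i K (x, t) := (1 + e i * K x) * (e i * (K (x + c t * p) + K (x + c t * q)))` with `(p, q) = P i`; as `e i ^ 2 = 1`,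
`uf i K = e i * K (x + c t p) + e i * K (x + c t q) + K x * K (x + c t p) + K x * K (x + c t q)`.  For a measurable `S` with `‖x‖ ≤ R` on `S` (finite measure): `∫_S uf i (F (φ n)) → ∫_S uf i G` (`wlin` for the linear terms, `bilin` with `w = p ≠ 0`, `w = q ≠ 0` for the others).
Let `S ⊆ ball 0 L ×ˢ univ`.  For `n` large `∫_S uf i (F (φ n)) ≤ ∫_S max 0 (uf ..) ≤ ∫_{ball 0 (φ n + 1)} max 0 (uf ..) < 1 / (φ n + 1) → 0`.  So `∫_S uf i G ≤ 0`.  Take `S := {xt ∈ ball 0 L ×ˢ univ | 0 < uf i G xt}`: the integral of a positive function over `S` is `≤ 0`, so `S` is null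
(`setIntegral_pos_iff_support_of_nonneg_ae` or `integral_eq_zero_iff_of_nonneg_ae`).  Union over `L ∈ ℕ`: `uf i G ≤ 0` a.e.
Not zero: `bilin` with `w = r₁`, `S = ball 0 1 ×ˢ univ`: `c₀ ≤ ∫_S G x * G (x + c t * r₁)`.  If `G = 0` a.e. then `G x * .. = 0` for a.e. `(x, t)` (`Measure.quasiMeasurePreserving_fst.ae`), the integral is `0 < c₀`: contradiction.
-/

section WLimPart

open MeasureTheory Filter Topology Pool.Agent.H93.EG

private noncomputable def wlimU (e : ℝ) (p q : ℂ) (K : ℂ → ℝ) (xt : ℂ × UnitAddCircle) : ℝ :=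
  (1 + e * K xt.1) * (e * (K (xt.1 + c xt.2 * p) + K (xt.1 + c xt.2 * q)))

private theorem wlim_mr (K : ℂ → ℝ) (hK : Measurable K) (r : ℂ) :
    Measurable (fun xt : ℂ × UnitAddCircle => K (xt.1 + c xt.2 * r)) :=
  hK.comp (measurable_fst.add ((measurable_c.comp measurable_snd).mul_const r))

private theorem wlimU_meas (e : ℝ) (p q : ℂ) (K : ℂ → ℝ) (hK : Measurable K) :
    Measurable (wlimU e p q K) := by
  unfold wlimU
  exact (measurable_const.add ((hK.comp measurable_fst).const_mul e)).mul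
    (((wlim_mr K hK p).add (wlim_mr K hK q)).const_mul e)

private theorem wlimU_bd (e : ℝ) (he : e = 1 ∨ e = -1) (p q : ℂ) (K : ℂ → ℝ)
    (hK : ∀ x, |K x| ≤ 1) (xt : ℂ × UnitAddCircle) : |wlimU e p q K xt| ≤ 4 := by
  unfold wlimU
  have h1 := abs_le.mp (hK xt.1)
  have h2 := abs_le.mp (hK (xt.1 + c xt.2 * p))
  have h3 := abs_le.mp (hK (xt.1 + c xt.2 * q))
  rw [abs_mul]
  have e1 : |1 + e * K xt.1| ≤ 2 := by
    rw [abs_le]
    rcases he with rfl | rfl <;> constructor <;> linarith [h1.1, h1.2]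
  have e2 : |e * (K (xt.1 + c xt.2 * p) + K (xt.1 + c xt.2 * q))| ≤ 2 := by
    rw [abs_le]
    rcases he with rfl | rfl <;> constructor <;> linarith [h2.1, h2.2, h3.1, h3.2]
  calc |1 + e * K xt.1| * |e * (K (xt.1 + c xt.2 * p) + K (xt.1 + c xt.2 * q))|
      ≤ 2 * 2 := mul_le_mul e1 e2 (abs_nonneg _) (by norm_num)
    _ = 4 := by norm_num

private theorem wlim_fin (R : ℝ) (S : Set (ℂ × UnitAddCircle))
    (hSR : ∀ xt ∈ S, ‖xt.1‖ ≤ R) :
    IsFiniteMeasure ((volume : Measure (ℂ × UnitAddCircle)).restrict S) := by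
  refine ⟨?_⟩
  rw [Measure.restrict_apply_univ]
  have hsub : S ⊆ (Metric.closedBall (0 : ℂ) R) ×ˢ (Set.univ : Set UnitAddCircle) := by
    intro xt hxt
    exact ⟨by rw [Metric.mem_closedBall, dist_zero_right]; exact hSR xt hxt, Set.mem_univ _⟩
  refine lt_of_le_of_lt (measure_mono hsub) ?_
  rw [Measure.volume_eq_prod, Measure.prod_prod]
  exact ENNReal.mul_lt_top measure_closedBall_lt_top (measure_lt_top _ _)

private theorem wlim_split (K : ℂ → ℝ) (hK : Measurable K) (hKb : ∀ x, |K x| ≤ 1)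
    (e : ℝ) (he : e = 1 ∨ e = -1) (p q : ℂ) (R : ℝ) (S : Set (ℂ × UnitAddCircle))
    (hSR : ∀ xt ∈ S, ‖xt.1‖ ≤ R) :
    ∫ xt in S, wlimU e p q K xt =
      (e * (∫ xt in S, K (xt.1 + c xt.2 * p)) + e * (∫ xt in S, K (xt.1 + c xt.2 * q))) +
      ((∫ xt in S, K xt.1 * K (xt.1 + c xt.2 * p)) +
        ∫ xt in S, K xt.1 * K (xt.1 + c xt.2 * q)) := by
  have hfin := wlim_fin R S hSR
  have hee : e * e = 1 := by rcases he with rfl | rfl <;> norm_num
  have bd : ∀ a b : ℝ, |a| ≤ 1 → |b| ≤ 1 → ‖a * b‖ ≤ 1 := by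
    intro a b ha hb
    rw [Real.norm_eq_abs, abs_mul]
    have := abs_nonneg a
    have := abs_nonneg b
    nlinarith
  have m0 : Measurable (fun xt : ℂ × UnitAddCircle => K xt.1) := hK.comp measurable_fst
  have il : ∀ r : ℂ, Integrable (fun xt : ℂ × UnitAddCircle => e * K (xt.1 + c xt.2 * r))
      (volume.restrict S) := fun r =>
    (Integrable.of_bound (wlim_mr K hK r).aestronglyMeasurable 1
      (Eventually.of_forall fun xt => by rw [Real.norm_eq_abs]; exact hKb _)).const_mul e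
  have ib : ∀ r : ℂ, Integrable (fun xt : ℂ × UnitAddCircle => K xt.1 * K (xt.1 + c xt.2 * r))
      (volume.restrict S) := fun r =>
    Integrable.of_bound (m0.mul (wlim_mr K hK r)).aestronglyMeasurable 1
      (Eventually.of_forall fun xt => bd _ _ (hKb _) (hKb _))
  have i1 : Integrable (fun xt : ℂ × UnitAddCircle => e * K (xt.1 + c xt.2 * p) +
      e * K (xt.1 + c xt.2 * q)) (volume.restrict S) := (il p).add (il q)
  have i2 : Integrable (fun xt : ℂ × UnitAddCircle => K xt.1 * K (xt.1 + c xt.2 * p) +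
      K xt.1 * K (xt.1 + c xt.2 * q)) (volume.restrict S) := (ib p).add (ib q)
  rw [← integral_const_mul, ← integral_const_mul, ← integral_add (il p) (il q),
    ← integral_add (ib p) (ib q), ← integral_add i1 i2]
  refine integral_congr_ae (Eventually.of_forall fun xt => ?_)
  show (1 + e * K xt.1) * (e * (K (xt.1 + c xt.2 * p) + K (xt.1 + c xt.2 * q))) = _
  have : (1 + e * K xt.1) * (e * (K (xt.1 + c xt.2 * p) + K (xt.1 + c xt.2 * q))) =
    (e * K (xt.1 + c xt.2 * p) + e * K (xt.1 + c xt.2 * q)) +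
      (e * e) * (K xt.1 * K (xt.1 + c xt.2 * p) + K xt.1 * K (xt.1 + c xt.2 * q)) := by ring
  rw [this, hee, one_mul]

private theorem wlim_conv (F : ℕ → ℂ → ℝ) (hm : ∀ n, Measurable (F n)) (hb : ∀ n x, |F n x| ≤ 1)
    (G : ℂ → ℝ) (hG : Measurable G) (hGb : ∀ x, |G x| ≤ 1)
    (hw : ∀ (ν : Measure ℂ) [IsFiniteMeasure ν], ν ≪ volume →
        Tendsto (fun n => ∫ x, F n x ∂ν) atTop (𝓝 (∫ x, G x ∂ν)))
    (e : ℝ) (he : e = 1 ∨ e = -1) (p q : ℂ) (hp : p ≠ 0) (hq : q ≠ 0)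
    (R : ℝ) (S : Set (ℂ × UnitAddCircle)) (hS : MeasurableSet S)
    (hSR : ∀ xt ∈ S, ‖xt.1‖ ≤ R) :
    Tendsto (fun n => ∫ xt in S, wlimU e p q (F n) xt) atTop
      (𝓝 (∫ xt in S, wlimU e p q G xt)) := by
  rw [wlim_split G hG hGb e he p q R S hSR]
  simp_rw [fun n => wlim_split (F n) (hm n) (hb n) e he p q R S hSR]
  refine (Tendsto.add ?_ ?_).add (Tendsto.add ?_ ?_)
  · exact (wlin F hm hb G hG hGb hw p R S hS hSR).const_mul e
  · exact (wlin F hm hb G hG hGb hw q R S hS hSR).const_mul e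
  · exact bilin F hm hb G hG hGb hw p hp R S hS hSR
  · exact bilin F hm hb G hG hGb hw q hq R S hS hSR


theorem wlim {I : Type} [Fintype I] (e : I → ℝ) (he : ∀ i, e i = 1 ∨ e i = -1)
    (P : I → ℂ × ℂ) (hP : ∀ i, (P i).1 ≠ 0 ∧ (P i).2 ≠ 0) (r₁ c₀ : ℝ) (hr : 0 < r₁)
    (hc : 0 < c₀)
    (h : ∀ L τ : ℝ, 0 < L → 0 < τ → ∃ G : ℂ → ℝ, Measurable G ∧ (∀ x, |G x| ≤ 1) ∧
        (∀ i, ∫ xt in (Metric.ball (0 : ℂ) L) ×ˢ (Set.univ : Set UnitAddCircle),
          max 0 ((1 + e i * G xt.1) *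
            (e i * (G (xt.1 + c xt.2 * (P i).1) + G (xt.1 + c xt.2 * (P i).2)))) < τ) ∧
        c₀ ≤ ∫ xt in (Metric.ball (0 : ℂ) 1) ×ˢ (Set.univ : Set UnitAddCircle),
          G xt.1 * G (xt.1 + c xt.2 * r₁)) :
    ∃ G : ℂ → ℝ, Measurable G ∧ (∀ x, |G x| ≤ 1) ∧ (¬ ∀ᵐ x : ℂ, G x = 0) ∧
      ∀ i, ∀ᵐ xt : ℂ × UnitAddCircle, (1 + e i * G xt.1) *
        (e i * (G (xt.1 + c xt.2 * (P i).1) + G (xt.1 + c xt.2 * (P i).2))) ≤ 0 := by
  have h' : ∀ n : ℕ, ∃ G : ℂ → ℝ, Measurable G ∧ (∀ x, |G x| ≤ 1) ∧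
        (∀ i, ∫ xt in (Metric.ball (0 : ℂ) ((n : ℝ) + 1)) ×ˢ (Set.univ : Set UnitAddCircle),
          max 0 (wlimU (e i) (P i).1 (P i).2 G xt) < 1 / ((n : ℝ) + 1)) ∧
        c₀ ≤ ∫ xt in (Metric.ball (0 : ℂ) 1) ×ˢ (Set.univ : Set UnitAddCircle),
          G xt.1 * G (xt.1 + c xt.2 * r₁) := fun n =>
    h ((n : ℝ) + 1) (1 / ((n : ℝ) + 1)) (by positivity) (by positivity)
  choose F hm hb hF hc0 using h'
  obtain ⟨φ, hφ, G, hG, hGb, hw⟩ := weak_seq F hm hb
  have hbR : ∀ (L : ℝ), ∀ xt ∈ (Metric.ball (0 : ℂ) L) ×ˢ (Set.univ : Set UnitAddCircle),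
      ‖xt.1‖ ≤ L := by
    rintro L ⟨x, t⟩ ⟨hx, -⟩
    have hx' : ‖x‖ < L := by simpa using hx
    exact hx'.le
  have hbm : ∀ (L : ℝ), MeasurableSet ((Metric.ball (0 : ℂ) L) ×ˢ
      (Set.univ : Set UnitAddCircle)) := fun L => measurableSet_ball.prod MeasurableSet.univ
  refine ⟨G, hG, hGb, ?_, fun i => ?_⟩
  · intro h0
    have hr1 : ((r₁ : ℝ) : ℂ) ≠ 0 := by exact_mod_cast hr.ne'
    have hlim := bilin (fun n => F (φ n)) (fun n => hm _) (fun n => hb _) G hG hGb hw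
      (r₁ : ℂ) hr1 1 _ (hbm 1) (hbR 1)
    have hge : c₀ ≤ ∫ xt in (Metric.ball (0 : ℂ) 1) ×ˢ (Set.univ : Set UnitAddCircle),
        G xt.1 * G (xt.1 + c xt.2 * r₁) :=
      ge_of_tendsto hlim (Eventually.of_forall fun n => hc0 (φ n))
    have hae : ∀ᵐ xt : ℂ × UnitAddCircle, G xt.1 = 0 :=
      Measure.quasiMeasurePreserving_fst.ae h0
    have hz : ∫ xt in (Metric.ball (0 : ℂ) 1) ×ˢ (Set.univ : Set UnitAddCircle),
        G xt.1 * G (xt.1 + c xt.2 * r₁) = 0 := by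
      apply integral_eq_zero_of_ae
      filter_upwards [ae_restrict_of_ae hae] with xt hxt
      rw [hxt, zero_mul]
      rfl
    linarith
  · have hp := (hP i).1
    have hq := (hP i).2
    have hei := he i
    have key : ∀ N : ℕ, ∀ᵐ xt : ℂ × UnitAddCircle,
        xt ∈ (Metric.ball (0 : ℂ) ((N : ℝ) + 1)) ×ˢ (Set.univ : Set UnitAddCircle) →
          wlimU (e i) (P i).1 (P i).2 G xt ≤ 0 := by
      intro N
      have hUm : ∀ K : ℂ → ℝ, Measurable K → Measurable (wlimU (e i) (P i).1 (P i).2 K) :=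
        fun K hK => wlimU_meas _ _ _ K hK
      set S : Set (ℂ × UnitAddCircle) :=
        ((Metric.ball (0 : ℂ) ((N : ℝ) + 1)) ×ˢ (Set.univ : Set UnitAddCircle)) ∩
          {xt | 0 < wlimU (e i) (P i).1 (P i).2 G xt} with hSdef
      have hSm : MeasurableSet S := (hbm _).inter (measurableSet_lt measurable_const (hUm G hG))
      have hSR : ∀ xt ∈ S, ‖xt.1‖ ≤ (N : ℝ) + 1 := fun xt hxt => hbR _ xt hxt.1
      have hlim := wlim_conv (fun n => F (φ n)) (fun n => hm _) (fun n => hb _) G hG hGb hw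
        (e i) hei _ _ hp hq ((N : ℝ) + 1) S hSm hSR
      have hfinS := wlim_fin ((N : ℝ) + 1) S hSR
      have hle : ∫ xt in S, wlimU (e i) (P i).1 (P i).2 G xt ≤ 0 := by
        have h10 : Tendsto (fun n : ℕ => 1 / ((n : ℝ) + 1)) atTop (𝓝 0) :=
          tendsto_one_div_add_atTop_nhds_zero_nat
        refine le_of_tendsto_of_tendsto hlim h10 ?_
        filter_upwards [eventually_ge_atTop N] with n hn
        have hn' : N ≤ φ n := hn.trans (hφ.id_le n)
        have hn2 : (N : ℝ) + 1 ≤ (φ n : ℝ) + 1 := by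
          have : (N : ℝ) ≤ (φ n : ℝ) := by exact_mod_cast hn'
          linarith
        have hfinB := wlim_fin ((φ n : ℝ) + 1) _ (hbR ((φ n : ℝ) + 1))
        have iB : IntegrableOn (fun xt => max 0 (wlimU (e i) (P i).1 (P i).2 (F (φ n)) xt))
            ((Metric.ball (0 : ℂ) ((φ n : ℝ) + 1)) ×ˢ (Set.univ : Set UnitAddCircle)) := by
          refine Integrable.of_bound
            (measurable_const.max (hUm _ (hm _))).aestronglyMeasurable 4
            (Eventually.of_forall fun xt => ?_)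
          have := wlimU_bd (e i) hei (P i).1 (P i).2 (F (φ n)) (hb _) xt
          rw [Real.norm_eq_abs, abs_of_nonneg (le_max_left _ _)]
          exact max_le (by norm_num) ((le_abs_self _).trans this)
        have iS : IntegrableOn (fun xt => wlimU (e i) (P i).1 (P i).2 (F (φ n)) xt) S := by
          refine Integrable.of_bound (hUm _ (hm _)).aestronglyMeasurable 4
            (Eventually.of_forall fun xt => ?_)
          rw [Real.norm_eq_abs]
          exact wlimU_bd (e i) hei (P i).1 (P i).2 (F (φ n)) (hb _) xt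
        have hsub : S ⊆ (Metric.ball (0 : ℂ) ((φ n : ℝ) + 1)) ×ˢ
            (Set.univ : Set UnitAddCircle) := fun xt hxt =>
          ⟨Metric.ball_subset_ball hn2 hxt.1.1, Set.mem_univ _⟩
        have a0 : ∫ xt in S, wlimU (e i) (P i).1 (P i).2 (F (φ n)) xt ≤
            ∫ xt in S, max 0 (wlimU (e i) (P i).1 (P i).2 (F (φ n)) xt) :=
          integral_mono iS (iB.mono_set hsub) (fun xt => le_max_right _ _)
        have a1 : ∫ xt in S, max 0 (wlimU (e i) (P i).1 (P i).2 (F (φ n)) xt) ≤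
            ∫ xt in (Metric.ball (0 : ℂ) ((φ n : ℝ) + 1)) ×ˢ (Set.univ : Set UnitAddCircle),
              max 0 (wlimU (e i) (P i).1 (P i).2 (F (φ n)) xt) :=
          setIntegral_mono_set iB (Eventually.of_forall fun xt => le_max_left _ _)
            hsub.eventuallyLE
        have a2 := hF (φ n) i
        have a3 : 1 / ((φ n : ℝ) + 1) ≤ 1 / ((n : ℝ) + 1) := by
          have : (n : ℝ) ≤ (φ n : ℝ) := by exact_mod_cast hφ.id_le n
          exact one_div_le_one_div_of_le (by positivity) (by linarith)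
        exact a0.trans (a1.trans (a2.le.trans a3))
      have hnn : 0 ≤ᵐ[volume.restrict S] wlimU (e i) (P i).1 (P i).2 G := by
        rw [Filter.EventuallyLE, ae_restrict_iff' hSm]
        exact Eventually.of_forall fun xt hxt => le_of_lt hxt.2
      have hint : IntegrableOn (wlimU (e i) (P i).1 (P i).2 G) S := by
        refine Integrable.of_bound (hUm _ hG).aestronglyMeasurable 4
          (Eventually.of_forall fun xt => ?_)
        rw [Real.norm_eq_abs]
        exact wlimU_bd (e i) hei (P i).1 (P i).2 G hGb xt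
      have hz : ∫ xt in S, wlimU (e i) (P i).1 (P i).2 G xt = 0 :=
        le_antisymm hle (integral_nonneg_of_ae hnn)
      have hz2 := (setIntegral_eq_zero_iff_of_nonneg_ae hnn hint).mp hz
      rw [Filter.EventuallyEq, ae_restrict_iff' hSm] at hz2
      filter_upwards [hz2] with xt hxt hmem
      by_contra hcon
      rw [not_le] at hcon
      have h3 := hxt ⟨hmem, hcon⟩
      rw [h3] at hcon
      exact lt_irrefl _ hcon
    filter_upwards [ae_all_iff.mpr key] with xt hxt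
    obtain ⟨N, hN⟩ := exists_nat_gt ‖xt.1‖
    refine hxt N ⟨?_, trivial⟩
    rw [Metric.mem_ball, dist_zero_right]
    linarith

end WLimPart

end Pool.Agent.H79.TM
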